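import Mathlib
import Pool.Agent.Work.MP_8efaaa_nt.K6.Defs
import Pool.Agent.Work.MP_8efaaa_nt.K6.ARg
import Pool.Agent.Work.MP_8efaaa_nt.K6.ARm
import Pool.Agent.Work.MP_8efaaa_nt.W5.E1

/-!
# Definitions of the block W14 (fixed file)

Congruent numbers `2 p q`, `p = 9 (mod 16)`, `q = 7 (mod 8)`.
-/

set_option autoImplicit false

namespace Pool.Agent.Work.MP_8efaaa_nt.W14

open NumberField Pool.Agent.Work.MP_8efaaa_nt.R Pool.Agent.Work.MP_8efaaa_nt.N5
  Pool.Agent.Work.MP_8efaaa_nt.K6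
open scoped Classical nonZeroDivisors

noncomputable section

/-! ### the group of the points modulo `(1, 0)` -/

section points

variable (F : Type*) [Field F] [CharZero F]

/-- the point `(1, 0)` -/
def ep : (cQ F).Point := pt 1 0 (by norm_num)

/-- the point `(-1, 0)` -/
def em : (cQ F).Point := pt (-1) 0 (by norm_num)

/-- the point `(0, 0)` -/
def ez : (cQ F).Point := pt 0 0 (by norm_num)

/-- the group of the points modulo `(1, 0)` -/
abbrev QA : Type _ := (cQ F).Point ⧸ AddSubgroup.zmultiples (ep F)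

variable {F}

/-- the class of a point -/
def qm : (cQ F).Point →+ QA F := QuotientAddGroup.mk' (AddSubgroup.zmultiples (ep F))

variable (F) in
/-- the class of `(-1, 0)`, also of `(0, 0)` -/
def m1 : QA F := qm (em F)

/-- the classes of the points `T` with `2 T = (-1, 0)` -/
def IT (x : QA F) : Prop := ∃ T : (cQ F).Point, T + T = em F ∧ x = qm T

/-- the image of the kernel of reduction -/
def EV {Γ : Type*} [LinearOrderedCommGroupWithZero Γ] (V : Valuation F Γ) : AddSubgroup (QA F) :=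
  (W5.E1 V).map qm

theorem gal_ep {k : Type*} [Field k] [Algebra k F] (σ : F ≃ₐ[k] F) : gal σ (ep F) = ep F := by
  unfold ep
  rw [gal_pt, pt_inj, map_one, map_zero]
  exact ⟨rfl, rfl⟩

/-- the action of an automorphism on the points modulo `(1, 0)` -/
def galA {k : Type*} [Field k] [Algebra k F] (σ : F ≃ₐ[k] F) : QA F →+ QA F :=
  QuotientAddGroup.map _ _ (gal σ) (by
    refine AddSubgroup.zmultiples_le_of_mem ?_
    rw [AddSubgroup.mem_comap, gal_ep]
    exact AddSubgroup.mem_zmultiples _)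

theorem galA_qm {k : Type*} [Field k] [Algebra k F] (σ : F ≃ₐ[k] F) (R : (cQ F).Point) :
    galA σ (qm R) = qm (gal σ R) := rfl

variable (F) in
/-- `0` if `n = 1 (mod 4)`, else `m1` -/
def d4 (n : ℕ) : QA F := if n % 4 = 1 then 0 else m1 F

variable (F) in
/-- `0` if `n = ±1 (mod 8)`, else `m1` -/
def d8 (n : ℕ) : QA F := if n % 8 = 1 ∨ n % 8 = 7 then 0 else m1 F

end points

/-! ### the points of the ideals -/

section ideals

variable {K F : Type*} [Field K] [NumberField K] [Field F] [CharZero F]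

/-- the point `(X, Y)` of an ideal, `X = (1 + z) / k`, `Y = 2 X / (v z)` -/
def PP (z k v : Ideal (𝓞 K) → F) (c : Ideal (𝓞 K)) : (cQ F).Point :=
  if h : (2 * ((1 + z c) / k c) / (v c * z c)) ^ 2 =
      ((1 + z c) / k c) ^ 3 - (1 + z c) / k c then
    pt ((1 + z c) / k c) (2 * ((1 + z c) / k c) / (v c * z c)) h
  else 0

/-- its class modulo `(1, 0)` -/
def PA (z k v : Ideal (𝓞 K) → F) (c : Ideal (𝓞 K)) : QA F := qm (PP z k v c)

/-- the formal data of the function `P` on the odd ideals -/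
structure FD (a : ℕ) (S : 𝓞 K) (P : Ideal (𝓞 K) → QA F) : Prop where
  tr : ∀ α : 𝓞 K, Ideal.absNorm (Ideal.span {α}) % 8 = 1 → ∃ ε : QA F, (ε = 0 ∨ ε = m1 F) ∧
    ∀ c, OddI c → P (Ideal.span {α} * c) = P c + ε
  nat : ∀ n : ℕ, Odd n → ∀ c, OddI c → P (Ideal.span {(n : 𝓞 K)} * c) = P c + d8 F n
  tq : ∀ α : 𝓞 K, Ideal.absNorm (Ideal.span {α}) % 8 = 7 → ∀ c, OddI c →
    P (Ideal.span {α} * c) + P c = P (Ideal.span {α}) + P 1 + d4 F (Ideal.absNorm c)
  tq2 : ∀ α : 𝓞 K, Ideal.absNorm (Ideal.span {α}) % 8 = 7 →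
    (P (Ideal.span {α}) + P 1) + (P (Ideal.span {α}) + P 1) = m1 F
  fr : ∀ c, OddI c → P (r6 S (a / 2) * c) + P c =
    P (r6 S (a / 2)) + P 1 + d8 F (Ideal.absNorm c)
  it : ∀ α : 𝓞 K, Ideal.absNorm (Ideal.span {α}) % 8 = 7 →
    IT (P (r6 S (a / 2)) - P (Ideal.span {α}))

end ideals

/-! ### the classes -/

section classes

variable (K : Type*) [Field K] [NumberField K]

/-- the ideals of norm `1` or `3` modulo `8` -/
def M13 : Submonoid (Ideal (𝓞 K)) where
  carrier := {c | Ideal.absNorm c % 8 = 1 ∨ Ideal.absNorm c % 8 = 3}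
  one_mem' := by
    show Ideal.absNorm (1 : Ideal (𝓞 K)) % 8 = 1 ∨ _
    rw [map_one]
    exact Or.inl rfl
  mul_mem' := by
    intro b c hb hc
    show Ideal.absNorm (b * c) % 8 = 1 ∨ Ideal.absNorm (b * c) % 8 = 3
    rw [map_mul, Nat.mul_mod]
    rcases hb with hb | hb <;> rcases hc with hc | hc <;> rw [hb, hc] <;> norm_num

variable {K}

theorem M13.ne {c : Ideal (𝓞 K)} (hc : c ∈ M13 K) : c ≠ 0 := by
  rintro rfl
  rcases hc with h | h
  all_goals
    rw [map_zero] at h
    norm_num at h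

theorem M13.odd {c : Ideal (𝓞 K)} (hc : c ∈ M13 K) : OddI c := by
  unfold OddI
  rw [Nat.odd_iff]
  rcases hc with h | h <;> omega

/-- the class of an ideal (`1` for the zero ideal) -/
def cls (c : Ideal (𝓞 K)) : ClassGroup (𝓞 K) :=
  if h : c ∈ (Ideal (𝓞 K))⁰ then ClassGroup.mk0 ⟨c, h⟩ else 1

theorem cls_eq {c : Ideal (𝓞 K)} (h : c ≠ 0) :
    cls c = ClassGroup.mk0 ⟨c, mem_nonZeroDivisors_iff_ne_zero.2 h⟩ := by
  unfold cls
  rw [dif_pos]

theorem cls_mul {b c : Ideal (𝓞 K)} (hb : b ≠ 0) (hc : c ≠ 0) : cls (b * c) = cls b * cls c := by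
  rw [cls_eq hb, cls_eq hc, cls_eq (mul_ne_zero hb hc), ← map_mul]
  rfl

theorem cls_one : cls (1 : Ideal (𝓞 K)) = 1 := by
  rw [cls_eq one_ne_zero]
  exact map_one _

theorem cls_span {α : 𝓞 K} (h : α ≠ 0) : cls (Ideal.span {α}) = 1 := by
  have h1 : Ideal.span {α} ≠ (0 : Ideal (𝓞 K)) := by
    intro h2
    exact h (Ideal.span_singleton_eq_bot.1 h2)
  rw [cls_eq h1, ClassGroup.mk0_eq_one_iff]
  exact ⟨⟨α, rfl⟩⟩

/-- the class group modulo the class of the prime ideal above `2` -/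
abbrev CG (S : 𝓞 K) : Type _ := ClassGroup (𝓞 K) ⧸ Subgroup.zpowers (cls (r6 S 2))

/-- the class in `CG S` of an ideal of norm `1` or `3` modulo `8` -/
def clM (S : 𝓞 K) : M13 K →* CG S where
  toFun c := QuotientGroup.mk (cls (c : Ideal (𝓞 K)))
  map_one' := by
    show QuotientGroup.mk (cls (1 : Ideal (𝓞 K))) = _
    rw [cls_one]
    rfl
  map_mul' b c := by
    show QuotientGroup.mk (cls ((b : Ideal (𝓞 K)) * (c : Ideal (𝓞 K)))) = _
    rw [cls_mul (M13.ne b.2) (M13.ne c.2)]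
    rfl

end classes

/-! ### abstract data -/

/-- Abstract data: `M` the ideals of norm `1` or `3` modulo `8`, `G` the classes, `H` the classes
of norm `1`, `A` the group of the points. -/
structure AD {M A G : Type*} [CommMonoid M] [AddCommGroup A] [CommGroup G] (H : Subgroup G)
    (P : M → A) (cl : M →* G) (bar : M → M) (m : A) : Prop where
  idx : H.index = 2
  two : m + m = 0
  surj : Function.Surjective cl
  kk : ∀ b c x, cl b = cl c → P (b * x) - P (c * x) = P b - P c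
  clb : ∀ c, cl (bar c) = (cl c)⁻¹
  nrm : ∀ c, P (c * bar c) - P 1 = if cl c ∈ H then 0 else m

end

end Pool.Agent.Work.MP_8efaaa_nt.W14
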