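import Mathlib
import Pool.Agent.Work.MP_8efaaa_nt.W14.Defs

/-!
# W14/PGa (S-M): the automorphisms on the points of the ideals, the points of order two

gal_pp: unfold `PP`. `σ` maps `(1 + z c)/k c` to `(1 + z c')/k c'` etc.; the condition of the `if` for `c'` follows from the one for `c` by applying `σ` (and conversely by injectivity of `σ`): in both cases of the `if` the claim is `gal_pt`
(or `map_zero`). (No hypothesis on oddness is needed.)

two torsion: `pt 1 0 + pt 1 0 = 0` etc. (`neg_pt`, or `R.double_zero`: a point with `y = 0` is killed by `2`); `ep + em = ez`: `Point.add_of_X_ne`, slope `0`. `qm (ep) = 0` (`QuotientAddGroup.eq_zero_iff`), so `qm ez = qm em = m1`. `m1 + m1 = 0`.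
gal_ez, gal_em: `gal_pt`. qm_eq_zero: `qm R = 0` iff `R ∈ zmultiples ep`, and `ep + ep = 0`, so `R = 0` or `R = ep`. galA_m1: `galA_qm`, `gal_em`.
m1_ne: `m1 ≠ 0`: `em ≠ 0`, `em ≠ ep` (`pt_inj`, `-1 ≠ 1`).
IT: `x + x = qm (T + T) = m1`; `-T + -T = -em = em`; `T + ez`: `(T + ez) + (T + ez) = T + T`, `qm ez = m1`.
-/

set_option autoImplicit false

namespace Pool.Agent.Work.MP_8efaaa_nt.W14

open NumberField Pool.Agent.Work.MP_8efaaa_nt.R Pool.Agent.Work.MP_8efaaa_nt.N5
  Pool.Agent.Work.MP_8efaaa_nt.K6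
open scoped Classical nonZeroDivisors

variable {K F : Type*} [Field K] [NumberField K] [Field F] [NumberField F] [Algebra K F] {a : ℕ}
  {s : K} {S : 𝓞 K} {τ : 𝓞 K ≃+* 𝓞 K} {ζ : F} {w : ℕ → F} {z k v : Ideal (𝓞 K) → F}
  {κ : F ≃ₐ[ℚ] F}


theorem gal_pp {k0 : Type*} [Field k0] [Algebra k0 F] (σ : F ≃ₐ[k0] F) {c c' : Ideal (𝓞 K)}
    (hz : σ (z c) = z c') (hk : σ (k c) = k c') (hv : σ (v c) = v c') :
    gal σ (PP z k v c) = PP z k v c' := by
  have hX : σ ((1 + z c) / k c) = (1 + z c') / k c' := by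
    rw [map_div₀, map_add, map_one, hz, hk]
  have hY : σ (2 * ((1 + z c) / k c) / (v c * z c)) = 2 * ((1 + z c') / k c') / (v c' * z c') := by
    rw [map_div₀, map_mul, map_mul, hX, hv, hz, map_ofNat]
  unfold PP
  by_cases h : (2 * ((1 + z c) / k c) / (v c * z c)) ^ 2 =
      ((1 + z c) / k c) ^ 3 - (1 + z c) / k c
  · have h' : (2 * ((1 + z c') / k c') / (v c' * z c')) ^ 2 =
        ((1 + z c') / k c') ^ 3 - (1 + z c') / k c' := by
      rw [← hY, ← hX, ← map_pow, ← map_pow, h, map_sub]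
    rw [dif_pos h, dif_pos h', gal_pt, pt_inj]
    exact ⟨hX, hY⟩
  · have h' : ¬ (2 * ((1 + z c') / k c') / (v c' * z c')) ^ 2 =
        ((1 + z c') / k c') ^ 3 - (1 + z c') / k c' := by
      intro h2
      apply h
      apply σ.injective
      rw [map_pow, map_sub, map_pow, hX, hY, h2]
    rw [dif_neg h, dif_neg h', map_zero]

omit [NumberField F] in
private theorem dbl0 [CharZero F] {x : F} (h : (0 : F) ^ 2 = x ^ 3 - x) :
    pt x 0 h + pt x 0 h = 0 := by
  have h1 : -(pt x 0 h) = pt x 0 h := by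
    rw [W5.neg_pt, pt_inj]
    exact ⟨rfl, neg_zero⟩
  nth_rewrite 2 [← h1]
  exact add_neg_cancel _

omit [NumberField F] in
theorem two_ep [CharZero F] : ep F + ep F = 0 ∧ em F + em F = 0 ∧ ez F + ez F = 0 ∧
    ep F + em F = ez F ∧ ep F + ez F = em F ∧ em F + ez F = ep F := by
  have h1 : ep F + ep F = 0 := dbl0 _
  have h2 : em F + em F = 0 := dbl0 _
  have h3 : ez F + ez F = 0 := dbl0 _
  have h4 : ep F + em F = ez F := by
    obtain ⟨x3, y3, e3, e4, e5⟩ := W5.add_pt (x1 := (1 : F)) (y1 := 0) (x2 := -1) (y2 := 0)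
      (by norm_num) (by norm_num) (by
        intro h
        have h5 : (2 : F) = 0 := by linear_combination h
        exact two_ne_zero h5)
    have hx : x3 = 0 := by
      have h5 : x3 * 4 = 0 := by linear_combination e5
      rcases mul_eq_zero.1 h5 with h6 | h6
      · exact h6
      · exact absurd h6 (by norm_num)
    have hy : y3 = 0 := by
      rw [hx] at e3
      have h5 : y3 ^ 2 = 0 := by rw [e3]; ring
      exact pow_eq_zero_iff two_ne_zero |>.1 h5
    subst hx hy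
    exact e4
  refine ⟨h1, h2, h3, h4, ?_, ?_⟩
  · rw [← h4, ← add_assoc, h1, zero_add]
  · rw [← h4, add_comm (ep F), ← add_assoc, h2, zero_add]

omit [NumberField F] in
private theorem qz [CharZero F] {R : (cQ F).Point} : qm R = 0 ↔ R = 0 ∨ R = ep F := by
  have h0 : qm R = 0 ↔ R ∈ AddSubgroup.zmultiples (ep F) := QuotientAddGroup.eq_zero_iff R
  rw [h0, AddSubgroup.mem_zmultiples_iff]
  constructor
  · rintro ⟨n, rfl⟩
    have h1 : (2 : ℤ) • ep F = 0 := by
      rw [two_zsmul]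
      exact two_ep.1
    rcases Int.even_or_odd' n with ⟨l, h | h⟩
    · left
      rw [h, mul_comm, mul_zsmul, h1, zsmul_zero]
    · right
      rw [h, add_zsmul, mul_comm, mul_zsmul, h1, zsmul_zero, zero_add, one_zsmul]
  · rintro (rfl | rfl)
    · exact ⟨0, zero_zsmul _⟩
    · exact ⟨1, one_zsmul _⟩

omit [NumberField F] in
theorem qm_ep [CharZero F] : qm (ep F) = 0 ∧ qm (ez F) = m1 F ∧ qm (em F) = m1 F ∧
    m1 F + m1 F = 0 ∧ m1 F ≠ 0 := by
  obtain ⟨h1, h2, h3, h4, h5, h6⟩ := two_ep (F := F)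
  have e1 : qm (ep F) = 0 := qz.2 (Or.inr rfl)
  refine ⟨e1, ?_, rfl, ?_, ?_⟩
  · rw [← h4, map_add, e1, zero_add]
    rfl
  · unfold m1
    rw [← map_add, h2, map_zero]
  · intro h
    unfold m1 at h
    rcases qz.1 h with h7 | h7
    · rw [h7, add_zero] at h4
      unfold ep ez at h4
      rw [pt_inj] at h4
      exact one_ne_zero h4.1
    · unfold ep em at h7
      rw [pt_inj] at h7
      have h8 : (2 : F) = 0 := by linear_combination -h7.1
      exact two_ne_zero h8

omit [NumberField F] in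
theorem qm_eq_zero [CharZero F] {R : (cQ F).Point} : qm R = 0 ↔ R = 0 ∨ R = ep F := by
  exact qz

omit [NumberField F] in
theorem gal_two [CharZero F] {k0 : Type*} [Field k0] [Algebra k0 F] (σ : F ≃ₐ[k0] F) :
    gal σ (em F) = em F ∧ gal σ (ez F) = ez F ∧ galA σ (m1 F) = m1 F := by
  have h1 : gal σ (em F) = em F := by
    unfold em
    rw [gal_pt, pt_inj, map_neg, map_one, map_zero]
    exact ⟨rfl, rfl⟩
  refine ⟨h1, ?_, ?_⟩
  · unfold ez
    rw [gal_pt, pt_inj, map_zero]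
    exact ⟨rfl, rfl⟩
  · unfold m1
    rw [galA_qm, h1]

omit [NumberField F] in
theorem it_facts [CharZero F] {x : QA F} (hx : IT x) : IT (-x) ∧ IT (x + m1 F) ∧ x + x = m1 F := by
  obtain ⟨T, hT, rfl⟩ := hx
  obtain ⟨h1, h2, h3, h4, h5, h6⟩ := two_ep (F := F)
  refine ⟨⟨-T, ?_, (map_neg _ _).symm⟩, ⟨T + ez F, ?_, ?_⟩, ?_⟩
  · rw [← neg_add, hT]
    exact (eq_neg_of_add_eq_zero_left h2).symm
  · rw [add_add_add_comm, hT, h3, add_zero]
  · rw [map_add, qm_ep.2.1]
  · rw [← map_add, hT]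
    rfl

end Pool.Agent.Work.MP_8efaaa_nt.W14
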