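import Mathlib
import Pool.Agent.Work.MP_8efaaa_nt.W14.Defs

/-!
# W14/PVu (M): the coordinates of the points of the ideals

`zk : z^2 = 1 + k^2`, `vz : (v z)^2 = 2 k`, all nonzero (`UD6.ne`). `X = (1 + z)/k`, `Y = 2 X/(v z)`.

pp_inv: `X^2 - 1 = ((1+z)^2 - k^2)/k^2 = (2 + 2 z)/k^2 = 2 X/k`, so `X (X^2 - 1) = 2 X^2/k = 4 X^2/(2 k) = Y^2`: the condition in `PP` holds (`dif_pos`). `X ≠ 0` because `(1+z)(1-z) = -k^2 ≠ 0`; `Y ≠ 0`;
`X^2 + 1 = ((1+z)^2 + k^2)/k^2 = (2 z^2 + 2 z)/k^2 = z (X^2 - 1)`, nonzero; `k (X^2 - 1) = 2 X`; `v z Y = 2 X` gives `v (X^2 + 1) Y = v z (X^2 - 1) Y = 2 X (X^2 - 1)`; the last one: `2/z^2 (X^2+1)^2 = 2 (X^2-1)^2`.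

pp_of_vu: write `z'` for `z c'` etc. `y ≠ 0` gives `x ≠ 0`, `x^2 - 1 ≠ 0`. `hu`: `z'^2 (x^2-1)^2 = (x^2+1)^2`, so `z' = Z` or `z' = -Z`, `Z = (x^2+1)/(x^2-1)`. `k' = (v' z')^2/2 = 2 x^2/y^2 = 2 x/(x^2-1)` (use `hv`).
If `z' = Z`: `(1+Z)/k' = x`, `2 x/(v' z') = y` (`hv`). If `z' = -Z`: `(1-Z)/k' = -1/x`, `2 (-1/x)/(v' z') = y/x^2`, and `pt x y + ez = pt (-1/x) (y/x^2)` (`W5.add_pt` only gives the first coordinate; use the
formulas of Mathlib `Point.add_of_X_ne`, `slope_of_X_ne`, `addX`, `addY`, slope `y/x`, as in the proof of `W5.add_pt`).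
-/

set_option autoImplicit false

namespace Pool.Agent.Work.MP_8efaaa_nt.W14

open NumberField Pool.Agent.Work.MP_8efaaa_nt.R Pool.Agent.Work.MP_8efaaa_nt.N5
  Pool.Agent.Work.MP_8efaaa_nt.K6
open scoped Classical nonZeroDivisors

variable {K F : Type*} [Field K] [NumberField K] [Field F] [NumberField F] [Algebra K F] {a : ℕ}
  {s : K} {S : 𝓞 K} {τ : 𝓞 K ≃+* 𝓞 K} {ζ : F} {w : ℕ → F} {z k v : Ideal (𝓞 K) → F}
  {κ : F ≃ₐ[ℚ] F}


private theorem add_ez {x y : F} (h : y ^ 2 = x ^ 3 - x) (hx : x ≠ 0)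
    (h' : (y / x ^ 2) ^ 2 = (-1 / x) ^ 3 - -1 / x) :
    pt x y h + ez F = pt (-1 / x) (y / x ^ 2) h' := by
  have h1 : ((cQ F).addX x 0 ((cQ F).slope x 0 y 0)) = -1 / x := by
    rw [WeierstrassCurve.Affine.slope_of_X_ne hx]
    simp only [WeierstrassCurve.Affine.addX, cQ]
    field_simp
    linear_combination x * h
  have h2 : ((cQ F).addY x 0 y ((cQ F).slope x 0 y 0)) = y / x ^ 2 := by
    unfold WeierstrassCurve.Affine.addY WeierstrassCurve.Affine.negAddY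
    rw [h1, WeierstrassCurve.Affine.slope_of_X_ne hx]
    simp only [WeierstrassCurve.Affine.negY, cQ]
    field_simp
    ring
  unfold ez pt
  rw [WeierstrassCurve.Affine.Point.add_of_X_ne hx, WeierstrassCurve.Affine.Point.some.injEq]
  exact ⟨h1, h2⟩

private theorem alg1 {Z k v : F} (_hZ : Z ≠ 0) (hk : k ≠ 0) (_hv : v ≠ 0) (h1 : Z ^ 2 = 1 + k ^ 2)
    (h2 : (v * Z) ^ 2 = 2 * k) : 1 + Z ≠ 0 ∧ ((1 + Z) / k) ^ 2 - 1 = 2 * ((1 + Z) / k) / k ∧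
      ((1 + Z) / k) ^ 2 + 1 = Z * (2 * ((1 + Z) / k) / k) ∧
      (2 * ((1 + Z) / k) / (v * Z)) ^ 2 = 2 * ((1 + Z) / k) ^ 2 / k := by
  refine ⟨?_, ?_, ?_, ?_⟩
  · intro h
    have h3 : Z = -1 := by linear_combination h
    rw [h3] at h1
    exact hk (pow_eq_zero_iff (two_ne_zero) |>.1 (by linear_combination -h1))
  · field_simp
    linear_combination h1
  · field_simp
    linear_combination -h1
  · rw [div_pow, h2]
    field_simp

theorem pp_inv (hU : UD6 K F a s S τ ζ w z k v κ) {c : Ideal (𝓞 K)} (hc : OddI c) :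
    ∃ (x y : F) (h : y ^ 2 = x ^ 3 - x), PP z k v c = pt x y h ∧ y ≠ 0 ∧ x ^ 2 + 1 ≠ 0 ∧
      x = (1 + z c) / k c ∧ y = 2 * x / (v c * z c) ∧
      z c * (x ^ 2 - 1) = x ^ 2 + 1 ∧ k c * (x ^ 2 - 1) = 2 * x ∧
      v c * ((x ^ 2 + 1) * y) = 2 * x * (x ^ 2 - 1) ∧
      (2 / z c ^ 2 - 1) * (x ^ 2 + 1) ^ 2 = 2 * (x ^ 2 - 1) ^ 2 - (x ^ 2 + 1) ^ 2 := by
  obtain ⟨hz, hk, hv⟩ := hU.ne c hc
  have h1 := hU.zk c hc
  have h2 := hU.vz c hc
  obtain ⟨h0, e1, e2, e3⟩ := alg1 hz hk hv h1 h2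
  set X : F := (1 + z c) / k c with hX
  have hX0 : X ≠ 0 := div_ne_zero h0 hk
  have hvz : v c * z c ≠ 0 := mul_ne_zero hv hz
  have h : (2 * X / (v c * z c)) ^ 2 = X ^ 3 - X := by
    rw [e3, show X ^ 3 - X = X * (X ^ 2 - 1) by ring, e1]
    ring
  have e4 : z c * (X ^ 2 - 1) = X ^ 2 + 1 := by rw [e1, e2]
  refine ⟨X, 2 * X / (v c * z c), h, ?_, ?_, ?_, hX, rfl, e4, ?_, ?_, ?_⟩
  · unfold PP
    rw [dif_pos h]
  · exact div_ne_zero (mul_ne_zero two_ne_zero hX0) hvz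
  · rw [e2]
    exact mul_ne_zero hz (div_ne_zero (mul_ne_zero two_ne_zero hX0) hk)
  · rw [e1]
    field_simp
  · rw [← e4]
    field_simp
  · rw [← e4]
    field_simp

theorem pp_of_vu (hU : UD6 K F a s S τ ζ w z k v κ) {c' : Ideal (𝓞 K)} (hc' : OddI c')
    {x y : F} (h : y ^ 2 = x ^ 3 - x) (hy : y ≠ 0) (hx : x ^ 2 + 1 ≠ 0)
    (hv : v c' * ((x ^ 2 + 1) * y) = 2 * x * (x ^ 2 - 1))
    (hu : (2 / z c' ^ 2 - 1) * (x ^ 2 + 1) ^ 2 = 2 * (x ^ 2 - 1) ^ 2 - (x ^ 2 + 1) ^ 2) :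
    PP z k v c' = pt x y h ∨ PP z k v c' = pt x y h + ez F := by
  obtain ⟨hz, hk, hv0⟩ := hU.ne c' hc'
  have h1 := hU.zk c' hc'
  have h2 := hU.vz c' hc'
  have hvz : v c' * z c' ≠ 0 := mul_ne_zero hv0 hz
  have hx0 : x ≠ 0 := by
    rintro rfl
    apply hy
    have : y ^ 2 = 0 := by rw [h]; ring
    exact pow_eq_zero_iff (two_ne_zero) |>.1 this
  have hx1 : x ^ 2 - 1 ≠ 0 := by
    intro h3
    apply hy
    have : y ^ 2 = 0 := by rw [h, show x ^ 3 - x = x * (x ^ 2 - 1) by ring, h3, mul_zero]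
    exact pow_eq_zero_iff (two_ne_zero) |>.1 this
  have h3 : (x ^ 2 + 1) ^ 2 = z c' ^ 2 * (x ^ 2 - 1) ^ 2 := by
    have h4 : 2 / z c' ^ 2 * (x ^ 2 + 1) ^ 2 = 2 * (x ^ 2 - 1) ^ 2 := by linear_combination hu
    have h5 : z c' ^ 2 * (2 / z c' ^ 2 * (x ^ 2 + 1) ^ 2) = 2 * (x ^ 2 + 1) ^ 2 := by
      field_simp
    rw [h4] at h5
    have h6 : (2 : F) ≠ 0 := two_ne_zero
    apply mul_left_cancel₀ h6
    linear_combination -h5
  have hK : k c' * (x ^ 2 - 1) = 2 * x := by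
    have h4 : v c' ^ 2 * (x ^ 2 + 1) ^ 2 * y ^ 2 = 4 * x ^ 2 * (x ^ 2 - 1) ^ 2 := by
      linear_combination (v c' * ((x ^ 2 + 1) * y) + 2 * x * (x ^ 2 - 1)) * hv
    rw [h3] at h4
    have h5 : (k c' * (x ^ 2 - 1) - 2 * x) * (2 * x * (x ^ 2 - 1) ^ 2) = 0 := by
      linear_combination h4 - (x ^ 2 - 1) ^ 2 * y ^ 2 * h2 - 2 * k c' * (x ^ 2 - 1) ^ 2 * h
    have h6 : 2 * x * (x ^ 2 - 1) ^ 2 ≠ 0 :=
      mul_ne_zero (mul_ne_zero two_ne_zero hx0) (pow_ne_zero _ hx1)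
    exact sub_eq_zero.1 ((mul_eq_zero.1 h5).resolve_right h6)
  have h4 : (x ^ 2 + 1 - z c' * (x ^ 2 - 1)) * (x ^ 2 + 1 + z c' * (x ^ 2 - 1)) = 0 := by
    linear_combination h3
  rcases mul_eq_zero.1 h4 with h5 | h5
  · left
    have e1 : (1 + z c') / k c' = x := by
      rw [div_eq_iff hk]
      apply mul_right_cancel₀ hx1
      linear_combination -h5 - x * hK
    have e2 : 2 * ((1 + z c') / k c') / (v c' * z c') = y := by
      rw [e1, div_eq_iff hvz]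
      apply mul_right_cancel₀ hx1
      linear_combination -hv + v c' * y * h5
    unfold PP
    rw [dif_pos (by rw [e2, e1]; exact h), pt_inj]
    exact ⟨e1, e2⟩
  · right
    have e1 : (1 + z c') / k c' = -1 / x := by
      rw [div_eq_div_iff hk hx0]
      apply mul_right_cancel₀ hx1
      linear_combination x * h5 + hK
    have e2 : 2 * ((1 + z c') / k c') / (v c' * z c') = y / x ^ 2 := by
      rw [e1, div_eq_div_iff hvz (pow_ne_zero _ hx0)]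
      have : 2 * (-1 / x) * x ^ 2 = -(2 * x) := by field_simp
      rw [this]
      apply mul_right_cancel₀ hx1
      linear_combination -v c' * y * h5 + hv
    have h' : (y / x ^ 2) ^ 2 = (-1 / x) ^ 3 - -1 / x := by
      rw [div_pow, h]
      field_simp
      ring
    rw [add_ez h hx0 h']
    unfold PP
    rw [dif_pos (by rw [e2, e1]; exact h'), pt_inj]
    exact ⟨e1, e2⟩

end Pool.Agent.Work.MP_8efaaa_nt.W14
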