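import Mathlib
import Pool.Agent.Work.MP_8efaaa_nt.W14.PVu
import Pool.Agent.Work.MP_8efaaa_nt.W14.PGa

/-!
# W14/PFr (M-L): the Fricke involution

`n' = r6 S (a/2)` (norm `a/2`, odd: `norm_r6`, so `n' c` is odd). `ρ = ζ + ζ^7` has `ρ^2 = 2` (`ζ^8 = 1`, `ζ^2 + ζ^14 = 0`). `UD6.fr1`, `fr2`: `v' (1 + v^2) = u`, `u' (1 + v^2) = 2 v`, `u = 2/z^2 - 1`, primes for `n' c`.

STEP 1: `T0 = pt (1 + ρ) (ρ (1 + ρ))` (`(ρ(1+ρ))^2 = 2 (1+ρ)^2 = (1+ρ)^3 - (1+ρ)`), `T0 + T0 = ep` (`dbl_pt` for the first coordinate; a point with first coordinate `1` is `ep`). For odd `c` let `PP c = pt X Y` (`pp_inv`), `R = -(PP c) + T0 = pt x y` (`X ≠ 1 + ρ`: otherwise ... see below).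
Rational function identities (modulo `Y^2 = X^3 - X`, `ρ^2 = 2`; checked numerically for both signs of `ρ`): `v(R) (1 + v^2) = u`, `u(R) (1 + v^2) = 2 v`, where `v(R) = 2 x (x^2-1)/((x^2+1) y)`, `u(R) = (2(x^2-1)^2 - (x^2+1)^2)/(x^2+1)^2`, `v = 2X(X^2-1)/((X^2+1)Y)`, `u = (2(X^2-1)^2-(X^2+1)^2)/(X^2+1)^2`.
`1 + v^2 ≠ 0`: otherwise `u = 0` and `v = 0` by `fr1`, `fr2`, but `v ≠ 0`. `u ≠ 0` (as `v' ≠ 0`), so `X^4 - 6 X^2 + 1 ≠ 0` and `X ≠ 1 + ρ`, also `X ≠ ...`: all denominators are nonzero. (`y ≠ 0`: if `R` is of order two, then `2 PP c = ep`, i.e. `X(2 PP c) = 1`, `X^2 - 2X - 1 = 0`, `u = 0`.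
`x^2+1 = 0`: then `2R = ez`, `2 PP c = ep - ez = em`, `X(2 PP c) + 1 = 0`, `X^2 + 2X - 1 = 0`, `u = 0`.) `pp_of_vu`: `PP (n' c) = R` or `R + ez`, so `PP (n' c) + PP c = T0` or `T0 + ez`.
STEP 2: `T = PP n' + PP 1` (the case `c = 1`), `T + T = ep`; `T ∈ {T0, T0 + ez}`, `T0 + ez = pt (1-ρ) (-ρ (1-ρ))`. `mov c`: `σ` acts by `c`, `σ ζ = ζ^(N c)`, so `σ ρ = ρ` if `N c = ± 1 (mod 8)` and `-ρ` otherwise. `PP (n' c) + PP c = gal σ T` (`gal_pp`),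
`gal σ T0 = T0` resp. `pt (1-ρ) (-ρ(1-ρ)) = T0 + ez`. So the claim with `qm ez = m1`.
-/

set_option autoImplicit false

namespace Pool.Agent.Work.MP_8efaaa_nt.W14

open NumberField Pool.Agent.Work.MP_8efaaa_nt.R Pool.Agent.Work.MP_8efaaa_nt.N5
  Pool.Agent.Work.MP_8efaaa_nt.K6
open scoped Classical nonZeroDivisors

variable {K F : Type*} [Field K] [NumberField K] [Field F] [NumberField F] [Algebra K F] {a : ℕ}
  {s : K} {S : 𝓞 K} {τ : 𝓞 K ≃+* 𝓞 K} {ζ : F} {w : ℕ → F} {z k v : Ideal (𝓞 K) → F}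
  {κ : F ≃ₐ[ℚ] F}


private theorem sq_T {F : Type*} [Field F] {c : F} (hc : c ^ 2 = 2 * c + 1) :
    (c + 1) ^ 2 = c ^ 3 - c := by
  linear_combination -(c + 1) * hc

private theorem c_ne {F : Type*} [Field F] [CharZero F] {c : F} (hc : c ^ 2 = 2 * c + 1) :
    c ≠ 0 ∧ c + 1 ≠ 0 := by
  constructor
  · intro h
    rw [h] at hc
    norm_num at hc
  · intro h
    have h1 : c = -1 := by linear_combination h
    rw [h1] at hc
    have h2 : (2 : F) = 0 := by linear_combination hc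
    exact two_ne_zero h2

private theorem hc_bar {F : Type*} [Field F] {c : F} (hc : c ^ 2 = 2 * c + 1) :
    (2 - c) ^ 2 = 2 * (2 - c) + 1 := by
  linear_combination hc

private theorem add_T {F : Type*} [Field F] [CharZero F] {X Y c : F} (h : Y ^ 2 = X ^ 3 - X)
    (hc : c ^ 2 = 2 * c + 1) (hX : X ≠ c) (h1 : (-Y) ^ 2 = X ^ 3 - X)
    (h2 : (c + 1) ^ 2 = c ^ 3 - c) :
    ∃ (x y : F) (hxy : y ^ 2 = x ^ 3 - x), pt X (-Y) h1 + pt c (c + 1) h2 = pt x y hxy ∧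
      x * (X - c) ^ 2 = c * (X ^ 2 + 2 * X - 1) + 2 * (c + 1) * Y ∧
      y * (X - c) ^ 3 = Y * (X - c) ^ 3 + (Y + (c + 1)) *
        (c * (X ^ 2 + 2 * X - 1) + 2 * (c + 1) * Y - X * (X - c) ^ 2) := by
  have hn : (cQ F).Nonsingular ((cQ F).addX X c ((cQ F).slope X c (-Y) (c + 1)))
      ((cQ F).addY X c (-Y) ((cQ F).slope X c (-Y) (c + 1))) :=
    WeierstrassCurve.Affine.nonsingular_add (cQ_nonsingular.2 h1) (cQ_nonsingular.2 h2)
      (fun hc => hX hc.1)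
  have hd : X - c ≠ 0 := sub_ne_zero.2 hX
  have hl : (cQ F).slope X c (-Y) (c + 1) * (X - c) = -Y - (c + 1) := by
    rw [WeierstrassCurve.Affine.slope_of_X_ne hX]
    field_simp
  have hx : (cQ F).addX X c ((cQ F).slope X c (-Y) (c + 1)) * (X - c) ^ 2 =
      c * (X ^ 2 + 2 * X - 1) + 2 * (c + 1) * Y := by
    generalize (cQ F).slope X c (-Y) (c + 1) = lam at hl ⊢
    simp only [WeierstrassCurve.Affine.addX, cQ]
    linear_combination (lam * (X - c) + (-Y - (c + 1))) * hl + h + (X - c - 1) * hc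
  refine ⟨_, _, cQ_nonsingular.1 hn, ?_, hx, ?_⟩
  · unfold pt
    rw [WeierstrassCurve.Affine.Point.add_of_X_ne hX]
  · unfold WeierstrassCurve.Affine.addY WeierstrassCurve.Affine.negAddY
    generalize hx3 : (cQ F).addX X c ((cQ F).slope X c (-Y) (c + 1)) = x3 at hx ⊢
    generalize hlam : (cQ F).slope X c (-Y) (c + 1) = lam at hl ⊢
    simp only [WeierstrassCurve.Affine.negY, cQ]
    linear_combination (-(x3 * (X - c) ^ 2 - X * (X - c) ^ 2)) * hl + (Y + (c + 1)) * hx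

private theorem R_eqs {F : Type*} [Field F] {X Y c x y : F} (h : Y ^ 2 = X ^ 3 - X)
    (hc : c ^ 2 = 2 * c + 1) (hX : X ≠ c)
    (hx : x * (X - c) ^ 2 = c * (X ^ 2 + 2 * X - 1) + 2 * (c + 1) * Y)
    (hy : y * (X - c) ^ 3 = Y * (X - c) ^ 3 + (Y + (c + 1)) *
        (c * (X ^ 2 + 2 * X - 1) + 2 * (c + 1) * Y - X * (X - c) ^ 2)) :
    ∃ f : F, f ≠ 0 ∧ (x ^ 2 + 1) * f = 2 * (c + 1) * (X ^ 2 + 2 * X - 1) ∧
      (x ^ 2 - 1) * f = 2 * c * (X ^ 2 + 1 + 2 * Y) ∧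
      y * f = (c + 1) * (X ^ 2 - 2 * X - 1) := by
  have hd : X - c ≠ 0 := sub_ne_zero.2 hX
  obtain ⟨f, hf⟩ : ∃ f : F, f = X ^ 2 + 2 * (c + 1) * X - 2 * c * Y - 2 * c - 1 := ⟨_, rfl⟩
  have hf0 : f ≠ 0 := by
    intro h0
    have h1 : f * (X ^ 2 + 2 * (c + 1) * X + 2 * c * Y - 2 * c - 1) = (X - c) ^ 4 := by
      rw [hf]
      linear_combination (-4 * c ^ 2) * h + (-4 * X ^ 3 - 2 * X ^ 2 + 4 * X * c + 4 * X -
        c ^ 2 - 2 * c - 1) * hc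
    rw [h0, zero_mul] at h1
    exact pow_ne_zero 4 hd h1.symm
  have h1 : x * f = c * (X ^ 2 + 1 - 2 * Y) := by
    apply mul_right_cancel₀ (pow_ne_zero 2 hd)
    rw [hf]
    linear_combination (X ^ 2 + 2 * (c + 1) * X - 2 * c * Y - 2 * c - 1) * hx +
      (-4 * c ^ 2 - 4 * c) * h + (-2 * X ^ 2 * Y - X ^ 2 * c - 4 * X * Y + 2 * Y * c +
        2 * Y - c) * hc
  refine ⟨f, hf0, ?_, ?_, ?_⟩
  · apply mul_right_cancel₀ hf0
    have h2 : c ^ 2 * (X ^ 2 + 1 - 2 * Y) ^ 2 + f ^ 2 =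
        2 * (c + 1) * (X ^ 2 + 2 * X - 1) * f := by
      rw [hf]
      linear_combination (8 * c ^ 2) * h + (X ^ 4 + 4 * X ^ 3 + 2 * X ^ 2 - 4 * X + 1) * hc
    linear_combination (x * f + c * (X ^ 2 + 1 - 2 * Y)) * h1 + h2
  · apply mul_right_cancel₀ hf0
    have h2 : c ^ 2 * (X ^ 2 + 1 - 2 * Y) ^ 2 - f ^ 2 =
        2 * c * (X ^ 2 + 1 + 2 * Y) * f := by
      rw [hf]
      linear_combination (8 * c ^ 2) * h + (X ^ 4 + 4 * X ^ 3 + 2 * X ^ 2 - 4 * X + 1) * hc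
    linear_combination (x * f + c * (X ^ 2 + 1 - 2 * Y)) * h1 + h2
  · apply mul_right_cancel₀ (pow_ne_zero 3 hd)
    rw [hf]
    linear_combination (X ^ 2 + 2 * (c + 1) * X - 2 * c * Y - 2 * c - 1) * hy +
      (2 * X ^ 2 * c + 2 * X ^ 2 - 4 * X * c ^ 3 + 8 * X * c + 4 * X - 4 * Y * c ^ 2 -
        4 * Y * c + 2 * c ^ 4 - 4 * c ^ 3 - 10 * c ^ 2 - 10 * c - 2) * h +
      (-4 * X ^ 4 * c - 4 * X ^ 4 + 2 * X ^ 3 * c ^ 2 + 2 * X ^ 3 * c + 2 * X ^ 3 -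
        3 * X ^ 2 * Y * c - 2 * X ^ 2 * Y - X ^ 2 * c ^ 2 + 3 * X ^ 2 * c + 4 * X ^ 2 -
        4 * X * Y * c - 4 * X * Y - 2 * X * c ^ 2 - 2 * X * c - 2 * X + 2 * Y * c ^ 2 +
        3 * Y * c + 2 * Y - c ^ 2 - c) * hc

private theorem step1 (hU : UD6 K F a s S τ ζ w z k v κ) {b b' : Ideal (𝓞 K)} (hb : OddI b)
    (hb' : OddI b') (h1 : v b' * (1 + v b ^ 2) = 2 / z b ^ 2 - 1)
    (h2 : (2 / z b' ^ 2 - 1) * (1 + v b ^ 2) = 2 * v b) {c : F} (hc : c ^ 2 = 2 * c + 1) :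
    PP z k v b' + PP z k v b = pt c (c + 1) (sq_T hc) ∨
      PP z k v b' + PP z k v b = pt c (c + 1) (sq_T hc) + ez F := by
  obtain ⟨X, Y, h, e, hY, hX, -, -, -, -, hv, hu⟩ := pp_inv hU hb
  obtain ⟨-, -, hvb⟩ := hU.ne b hb
  obtain ⟨-, -, hvb'⟩ := hU.ne b' hb'
  obtain ⟨hc0, hc1⟩ := c_ne hc
  have hvY : v b * (X ^ 2 + 1) = 2 * Y := by
    apply mul_right_cancel₀ hY
    linear_combination hv - 2 * h
  have hV : (1 + v b ^ 2) * (X ^ 2 + 1) ^ 2 = (X ^ 2 + 2 * X - 1) ^ 2 := by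
    linear_combination (v b * (X ^ 2 + 1) + 2 * Y) * hvY + 4 * h
  have hV0 : 1 + v b ^ 2 ≠ 0 := by
    intro h0
    rw [h0, mul_zero] at h2
    exact hvb ((mul_eq_zero.1 h2.symm).resolve_left two_ne_zero)
  have hX2 : (X ^ 2 + 1) ^ 2 ≠ 0 := pow_ne_zero 2 hX
  have hB : X ^ 2 + 2 * X - 1 ≠ 0 := by
    intro h0
    rw [h0, zero_pow two_ne_zero] at hV
    exact mul_ne_zero hV0 hX2 hV
  have hA' : v b' * (X ^ 2 + 2 * X - 1) = X ^ 2 - 2 * X - 1 := by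
    apply mul_right_cancel₀ hB
    generalize 2 / z b ^ 2 - 1 = U at h1 hu
    linear_combination (X ^ 2 + 1) ^ 2 * h1 - v b' * hV + hu
  have hA : X ^ 2 - 2 * X - 1 ≠ 0 := by
    rw [← hA']
    exact mul_ne_zero hvb' hB
  have hXne : X ≠ c := by
    intro h0
    apply hA
    rw [h0]
    linear_combination hc
  have hU4 : (2 / z b' ^ 2 - 1) * (X ^ 2 + 2 * X - 1) ^ 2 = 4 * Y * (X ^ 2 + 1) := by
    generalize 2 / z b' ^ 2 - 1 = U' at h2 ⊢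
    linear_combination (X ^ 2 + 1) ^ 2 * h2 - U' * hV + 2 * (X ^ 2 + 1) * hvY
  have h1' : (-Y) ^ 2 = X ^ 3 - X := by rw [neg_sq]; exact h
  obtain ⟨x, y, hxy, e3, ex, ey⟩ := add_T h hc hXne h1' (sq_T hc)
  obtain ⟨f, hf, hp, hm, hyf⟩ := R_eqs h hc hXne ex ey
  have hy : y ≠ 0 := by
    intro h0
    rw [h0, zero_mul] at hyf
    exact mul_ne_zero hc1 hA hyf.symm
  have hx1 : x ^ 2 + 1 ≠ 0 := by
    intro h0
    rw [h0, zero_mul] at hp
    exact mul_ne_zero (mul_ne_zero two_ne_zero hc1) hB hp.symm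
  have hv1 : v b' * (x ^ 2 + 1) = 2 * y := by
    apply mul_right_cancel₀ hf
    linear_combination v b' * hp - 2 * hyf + 2 * (c + 1) * hA'
  have hv' : v b' * ((x ^ 2 + 1) * y) = 2 * x * (x ^ 2 - 1) := by
    linear_combination y * hv1 + 2 * hxy
  have hu' : (2 / z b' ^ 2 - 1) * (x ^ 2 + 1) ^ 2 =
      2 * (x ^ 2 - 1) ^ 2 - (x ^ 2 + 1) ^ 2 := by
    apply mul_right_cancel₀ (pow_ne_zero 2 hf)
    generalize 2 / z b' ^ 2 - 1 = U' at hU4 ⊢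
    have e1 : (x ^ 2 + 1) ^ 2 * f ^ 2 = (2 * (c + 1) * (X ^ 2 + 2 * X - 1)) ^ 2 := by
      rw [← hp]
      ring
    have e2 : (x ^ 2 - 1) ^ 2 * f ^ 2 = (2 * c * (X ^ 2 + 1 + 2 * Y)) ^ 2 := by
      rw [← hm]
      ring
    have e3 : (c + 1) ^ 2 = 2 * c ^ 2 := by linear_combination -hc
    linear_combination (U' + 1) * e1 - 2 * e2 + 4 * (c + 1) ^ 2 * hU4 +
      (16 * Y * (X ^ 2 + 1) + 4 * (X ^ 2 + 2 * X - 1) ^ 2) * e3 - 32 * c ^ 2 * h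
  have hneg : -(pt X Y h) = pt X (-Y) h1' := W5.neg_pt h
  have hsum : pt x y hxy + pt X Y h = pt c (c + 1) (sq_T hc) := by
    rw [← e3, ← hneg]
    abel
  rw [e]
  rcases pp_of_vu hU hb' hxy hy hx1 hv' hu' with h9 | h9
  · left
    rw [h9, hsum]
  · right
    have h10 : ∀ A B C : (cQ F).Point, A + C + B = A + B + C := by
      intro A B C
      abel
    rw [h9, h10, hsum]

private theorem dbl_T {c : F} (hc : c ^ 2 = 2 * c + 1) :
    pt c (c + 1) (sq_T hc) + pt c (c + 1) (sq_T hc) = ep F := by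
  obtain ⟨hc0, hc1⟩ := c_ne hc
  obtain ⟨x3, y3, e4, e5, e6⟩ := W5.dbl_pt (sq_T hc) hc1
  have h3 : x3 = 1 := by
    apply mul_right_cancel₀ (pow_ne_zero 2 (mul_ne_zero two_ne_zero hc1))
    rw [e6]
    linear_combination (c ^ 2 + 2 * c + 3) * hc
  have h4 : y3 = 0 := by
    rw [h3] at e4
    have h5 : y3 ^ 2 = 0 := by rw [e4]; ring
    exact (pow_eq_zero_iff two_ne_zero).1 h5
  subst h3 h4
  exact e5

private theorem add_ez {c : F} (hc : c ^ 2 = 2 * c + 1) :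
    pt c (c + 1) (sq_T hc) + ez F = pt (2 - c) (2 - c + 1) (sq_T (hc_bar hc)) := by
  obtain ⟨hc0, hc1⟩ := c_ne hc
  have hl : (cQ F).slope c 0 (c + 1) 0 * c = c + 1 := by
    rw [WeierstrassCurve.Affine.slope_of_X_ne hc0]
    field_simp
    ring
  have h1 : ((cQ F).addX c 0 ((cQ F).slope c 0 (c + 1) 0)) = 2 - c := by
    apply mul_right_cancel₀ (pow_ne_zero 2 hc0)
    generalize (cQ F).slope c 0 (c + 1) 0 = lam at hl ⊢
    simp only [WeierstrassCurve.Affine.addX, cQ]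
    linear_combination (lam * c + (c + 1)) * hl - hc
  have h2 : ((cQ F).addY c 0 (c + 1) ((cQ F).slope c 0 (c + 1) 0)) = 2 - c + 1 := by
    unfold WeierstrassCurve.Affine.addY WeierstrassCurve.Affine.negAddY
    rw [h1]
    apply mul_right_cancel₀ hc0
    generalize (cQ F).slope c 0 (c + 1) 0 = lam at hl ⊢
    simp only [WeierstrassCurve.Affine.negY, cQ]
    linear_combination (2 * c - 2) * hl + 2 * hc
  unfold ez pt
  rw [WeierstrassCurve.Affine.Point.add_of_X_ne hc0, WeierstrassCurve.Affine.Point.some.injEq]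
  exact ⟨h1, h2⟩

theorem fr_pt (hb : B6 K a s) (hS : algebraMap (𝓞 K) K S = s) (hU : UD6 K F a s S τ ζ w z k v κ) :
    ∃ T : (cQ F).Point, T + T = ep F ∧ ∀ c, OddI c →
      PA z k v (r6 S (a / 2) * c) + PA z k v c = qm T + d8 F (Ideal.absNorm c) := by
  have hm := hb.mod
  have hno : OddI (r6 S (a / 2)) := by
    unfold OddI
    rw [norm_r6 hb hS (Nat.div_dvd_of_dvd (by omega)), Nat.odd_iff]
    omega
  have hmul : ∀ {b c : Ideal (𝓞 K)}, OddI b → OddI c → OddI (b * c) := by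
    intro b c hb' hc'
    unfold OddI at *
    rw [map_mul]
    exact hb'.mul hc'
  have h1o : OddI (1 : Ideal (𝓞 K)) := by
    unfold OddI
    rw [map_one]
    exact odd_one
  have hz4 := hU.z8
  -- the square root of two
  have hr : ∀ r : F, (r = ζ + ζ ^ 7 ∨ r = -(ζ + ζ ^ 7)) → (1 + r) ^ 2 = 2 * (1 + r) + 1 := by
    intro r hr
    have h0 : (ζ + ζ ^ 7) ^ 2 = 2 := by
      linear_combination (ζ ^ 10 - ζ ^ 6 + 2 * ζ ^ 4 + ζ ^ 2 - 2) * hz4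
    rcases hr with rfl | rfl
    · linear_combination h0
    · linear_combination h0

  have h11 : ∃ (c : F) (hc : c ^ 2 = 2 * c + 1),
      PP z k v (r6 S (a / 2) * 1) + PP z k v 1 = pt c (c + 1) (sq_T hc) ∧
      (c = 1 + (ζ + ζ ^ 7) ∨ c = 1 + -(ζ + ζ ^ 7)) := by
    rcases step1 hU h1o (hmul hno h1o) (hU.fr1 1 h1o) (hU.fr2 1 h1o)
      (hr _ (Or.inl rfl)) with h | h
    · exact ⟨_, hr _ (Or.inl rfl), h, Or.inl rfl⟩
    · rw [add_ez (hr _ (Or.inl rfl))] at h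
      refine ⟨2 - (1 + (ζ + ζ ^ 7)), hc_bar (hr _ (Or.inl rfl)), h, Or.inr ?_⟩
      ring
  obtain ⟨x, hx, hT, hxc⟩ := h11
  refine ⟨PP z k v (r6 S (a / 2) * 1) + PP z k v 1, by rw [hT, dbl_T hx], ?_⟩
  intro c hc
  obtain ⟨σ, hσ⟩ := hU.mov c hc
  have hgal : PP z k v (r6 S (a / 2) * c) + PP z k v c =
      gal σ (PP z k v (r6 S (a / 2) * 1) + PP z k v 1) := by
    obtain ⟨a1, a2, a3⟩ := hσ.act (r6 S (a / 2) * 1) (hmul hno h1o)
    obtain ⟨b1, b2, b3⟩ := hσ.act 1 h1o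
    have e1 : c * (r6 S (a / 2) * 1) = r6 S (a / 2) * c := by rw [mul_one, mul_comm]
    rw [e1] at a1 a2 a3
    rw [mul_one] at b1 b2 b3
    rw [map_add, gal_pp σ a1 a2 a3, gal_pp σ b1 b2 b3]
  have hPA : PA z k v (r6 S (a / 2) * c) + PA z k v c =
      qm (PP z k v (r6 S (a / 2) * c) + PP z k v c) := (map_add _ _ _).symm
  rw [hPA, hgal, hT]
  have hodd2 : Odd (Ideal.absNorm c) := hc
  have hz8 : ζ ^ 8 = 1 := by linear_combination (ζ ^ 4 - 1) * hz4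
  have hσz : ∀ n r : ℕ, n % 8 = r → ζ ^ n = ζ ^ r := by
    intro n r hn
    rw [← Nat.div_add_mod n 8, hn, pow_add, pow_mul, hz8, one_pow, one_mul]
  have hσr : σ (ζ + ζ ^ 7) = ζ ^ Ideal.absNorm c + (ζ ^ Ideal.absNorm c) ^ 7 := by
    rw [map_add, map_pow, hσ.z8]
  have h8 : (Ideal.absNorm c % 8 = 1 ∨ Ideal.absNorm c % 8 = 7) ∨
      (Ideal.absNorm c % 8 = 3 ∨ Ideal.absNorm c % 8 = 5) := by
    rw [Nat.odd_iff] at hodd2
    omega
  rcases h8 with h8 | h8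
  · have h5 : σ (ζ + ζ ^ 7) = ζ + ζ ^ 7 := by
      rw [hσr]
      rcases h8 with h9 | h9
      · rw [hσz _ _ h9]
        ring
      · rw [hσz _ _ h9]
        linear_combination (ζ * (ζ ^ 40 + ζ ^ 32 + ζ ^ 24 + ζ ^ 16 + ζ ^ 8 + 1)) * hz8
    have h6 : σ x = x := by
      rcases hxc with rfl | rfl
      · rw [map_add, map_one, h5]
      · rw [map_add, map_neg, map_one, h5]
    unfold d8
    rw [if_pos h8, add_zero, gal_pt]
    congr 1
    rw [pt_inj, map_add, map_one, h6]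
    exact ⟨rfl, rfl⟩
  · have h5 : σ (ζ + ζ ^ 7) = -(ζ + ζ ^ 7) := by
      rw [hσr]
      rcases h8 with h9 | h9
      · rw [hσz _ _ h9]
        linear_combination (ζ ^ 17 - ζ ^ 13 + ζ ^ 9 - ζ ^ 5 + ζ ^ 3 + ζ) * hz4
      · rw [hσz _ _ h9]
        linear_combination (ζ ^ 31 - ζ ^ 27 + ζ ^ 23 - ζ ^ 19 + ζ ^ 15 - ζ ^ 11 + ζ ^ 7 +
          ζ) * hz4
    have h6 : σ x = 2 - x := by
      rcases hxc with rfl | rfl
      · rw [map_add, map_one, h5]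
        ring
      · rw [map_add, map_neg, map_one, h5]
        ring
    have h12 : gal σ (pt x (x + 1) (sq_T hx)) = pt x (x + 1) (sq_T hx) + ez F := by
      rw [add_ez hx, gal_pt, pt_inj, map_add, map_one, h6]
      exact ⟨rfl, rfl⟩
    unfold d8
    rw [if_neg (by omega), h12, map_add, qm_ep.2.1]

end Pool.Agent.Work.MP_8efaaa_nt.W14
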