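import Mathlib
import Pool.Agent.Work.MP_8efaaa_nt.W14.PVu
import Pool.Agent.Work.MP_8efaaa_nt.W14.PGa

/-!
# W14/PTq (M-L): the translations by elements of norm 7 modulo 8

`α = x + y s`, norm `x^2 + a y^2 = 7 (mod 8)`, `a = 6 (mod 8)`: `x`, `y` odd. `i = ζ^2`, `i^2 = -1`. `UD6.trq`: `v'^2 v^2 = -1`, `u' v = u v'` with `u = 2/z^2 - 1`, primes for `αc`.

STEP 1: for every odd `c` there is `T` with `T + T = ez`, `PP (αc) + PP c = T`. `PP c = pt X Y` (`pp_inv`). `v' v = ± i`. For `x0` with `x0^2 = -1` put `T0 = pt x0 (1 - x0)` (`(1-x0)^2 = -2 x0 = x0^3 - x0`); `T0 + T0 = ez` (tangent slope `-1`... Mathlib formulas / `W5.dbl_pt`; `X(2 T0) (2 (1-x0))^2 = (x0^2+1)^2 = 0`).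
`R := -(PP c) + T0 = pt x y`, `x = (x0 (X + x0)^2 + 2 (1 - x0) Y)/(X - x0)^2` (`X ≠ x0` because `X^2 + 1 ≠ 0`), `y` from the addition formula. For `R`: `v(R) v(c) = ± x0` (one fixed sign, by a rational function identity modulo `Y^2 = X^3 - X`, `x0^2 = -1`, where `v(R) = 2 x (x^2-1)/((x^2+1) y)`), and
`u(R) v(c) = u(c) v(R)`, `u(R) = (2 (x^2-1)^2 - (x^2+1)^2)/(x^2+1)^2` (both checked numerically, for all four points `(± i, ± (1 - x0))`). Choose the sign of `x0 = ± i` such that `v(R) = v'`. Then `u(R) = u'`, and `pp_of_vu` (`y ≠ 0` because `v(R) v(c) ≠ 0`.. or: `y = 0` would give `R` of order two,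
`PP c = T0 - R` with `2 PP c = ez`, `X = ± i` against `X^2 + 1 ≠ 0`; similarly `x^2 + 1 = 0` means `x = ± i`, `2 R = ez`, `2 PP c = 0` against `Y ≠ 0`) gives `PP (αc) = R` or `R + ez`, so `PP (αc) + PP c = T0` or `T0 + ez`, both with double `ez`.
STEP 2: let `T = PP α + PP 1` (`c = 1`). `mov c` gives `σ` acting by `c`, `σ ζ = ζ^(N c)`; `gal_pp`: `PP (αc) + PP c = gal σ T`. `T = pt x y` with `2 T = ez`: `x^2 = -1` (from `dbl_pt`: `0 = (x^2+1)^2`, and `y ≠ 0`), so `x = ± i`, `y^2 = -2x = (1-x)^2`, `y = ± (1-x)`.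
If `N c = 1 (mod 4)`: `σ i = i`, `gal σ T = T`. If `N c = 3 (mod 4)`: `σ i = -i`, `gal σ T = pt (-x) (±(1+x)) = T + em` (`T + ep = pt (-x) (y/x)`, `y/x = ∓(1+x)`, and `T + em = (T + ep) + ez = -(T + ep)` since `2 (T + ep) = ez`). So `qm (gal σ T) = qm T + d4 (N c)`.
-/

set_option autoImplicit false

namespace Pool.Agent.Work.MP_8efaaa_nt.W14

open NumberField Pool.Agent.Work.MP_8efaaa_nt.R Pool.Agent.Work.MP_8efaaa_nt.N5
  Pool.Agent.Work.MP_8efaaa_nt.K6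
open scoped Classical nonZeroDivisors

variable {K F : Type*} [Field K] [NumberField K] [Field F] [NumberField F] [Algebra K F] {a : ℕ}
  {s : K} {S : 𝓞 K} {τ : 𝓞 K ≃+* 𝓞 K} {ζ : F} {w : ℕ → F} {z k v : Ideal (𝓞 K) → F}
  {κ : F ≃ₐ[ℚ] F}


private theorem sq_T {F : Type*} [Field F] {c : F} (hc : c ^ 2 = -1) :
    (1 - c) ^ 2 = c ^ 3 - c := by
  linear_combination (1 - c) * hc

private theorem one_sub_ne {F : Type*} [Field F] [CharZero F] {c : F} (hc : c ^ 2 = -1) :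
    1 - c ≠ 0 := by
  intro h
  have h1 : c = 1 := by linear_combination -h
  rw [h1] at hc
  have h2 : (2 : F) = 0 := by linear_combination hc
  exact two_ne_zero h2

private theorem add_T {F : Type*} [Field F] [CharZero F] {X Y c : F} (h : Y ^ 2 = X ^ 3 - X)
    (hc : c ^ 2 = -1) (hX : X ≠ c) (h1 : (-Y) ^ 2 = X ^ 3 - X) (h2 : (1 - c) ^ 2 = c ^ 3 - c) :
    ∃ (x y : F) (hxy : y ^ 2 = x ^ 3 - x), pt X (-Y) h1 + pt c (1 - c) h2 = pt x y hxy ∧
      x * (X - c) ^ 2 = c * (X + c) ^ 2 + 2 * (1 - c) * Y ∧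
      y * (X - c) ^ 3 = (X + c) * ((1 - c) * (X + c) ^ 2 - 4 * Y) := by
  have hn : (cQ F).Nonsingular ((cQ F).addX X c ((cQ F).slope X c (-Y) (1 - c)))
      ((cQ F).addY X c (-Y) ((cQ F).slope X c (-Y) (1 - c))) :=
    WeierstrassCurve.Affine.nonsingular_add (cQ_nonsingular.2 h1) (cQ_nonsingular.2 h2)
      (fun hc => hX hc.1)
  have hd : X - c ≠ 0 := sub_ne_zero.2 hX
  have hl : (cQ F).slope X c (-Y) (1 - c) * (X - c) = -Y - (1 - c) := by
    rw [WeierstrassCurve.Affine.slope_of_X_ne hX]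
    field_simp
  have hx : (cQ F).addX X c ((cQ F).slope X c (-Y) (1 - c)) * (X - c) ^ 2 =
      c * (X + c) ^ 2 + 2 * (1 - c) * Y := by
    generalize (cQ F).slope X c (-Y) (1 - c) = lam at hl ⊢
    simp only [WeierstrassCurve.Affine.addX, cQ]
    linear_combination (lam * (X - c) + (-Y - (1 - c))) * hl + h + (-X - 2 * c + 1) * hc
  refine ⟨_, _, cQ_nonsingular.1 hn, ?_, hx, ?_⟩
  · unfold pt
    rw [WeierstrassCurve.Affine.Point.add_of_X_ne hX]
  · unfold WeierstrassCurve.Affine.addY WeierstrassCurve.Affine.negAddY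
    generalize hx3 : (cQ F).addX X c ((cQ F).slope X c (-Y) (1 - c)) = x3 at hx ⊢
    generalize hlam : (cQ F).slope X c (-Y) (1 - c) = lam at hl ⊢
    simp only [WeierstrassCurve.Affine.negY, cQ]
    linear_combination (-(x3 * (X - c) ^ 2 - X * (X - c) ^ 2)) * hl -
      (-Y - (1 - c)) * hx + (2 - 2 * c) * h + (4 * X * Y + 2 * X * c - 2 * X + 2 * Y) * hc

private theorem R_eqs {F : Type*} [Field F] {X Y c x : F} (h : Y ^ 2 = X ^ 3 - X)
    (hc : c ^ 2 = -1) (hX : X ≠ c)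
    (hx : x * (X - c) ^ 2 = c * (X + c) ^ 2 + 2 * (1 - c) * Y) :
    (x ^ 2 + 1) * (X - c) ^ 4 = 4 * c * Y * ((1 - c) * (X + c) ^ 2 - 4 * Y) ∧
      (x ^ 2 - 1) * (2 * c * (1 - c) * Y) = -((X + c) ^ 2 * (x ^ 2 + 1)) := by
  have hE : (x ^ 2 + 1) * (X - c) ^ 4 = 4 * c * Y * ((1 - c) * (X + c) ^ 2 - 4 * Y) := by
    linear_combination (x * (X - c) ^ 2 + (c * (X + c) ^ 2 + 2 * (1 - c) * Y)) * hx +
      (4 * c ^ 2 + 8 * c + 4) * h + (X ^ 4 + 4 * X ^ 3 * c + 4 * X ^ 3 + 6 * X ^ 2 * c ^ 2 +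
        4 * X * c ^ 3 - 8 * X * c - 4 * X + c ^ 4) * hc
  have hk : (1 - c) * (2 * c * Y * ((1 - c) * (X + c) ^ 2 - 4 * Y) - (X - c) ^ 4) =
      -(((1 - c) * (X + c) ^ 2 - 4 * Y) * (X + c) ^ 2) := by
    linear_combination (8 * c ^ 2 - 8 * c) * h + (2 * X ^ 2 * Y * c - 4 * X ^ 2 * Y +
      4 * X * Y * c ^ 2 - 8 * X * Y * c - 8 * X * c ^ 2 + 8 * X * c + 2 * Y * c ^ 3 -
      4 * Y * c ^ 2) * hc
  refine ⟨hE, ?_⟩
  have hd : (X - c) ^ 4 ≠ 0 := pow_ne_zero _ (sub_ne_zero.2 hX)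
  apply mul_right_cancel₀ hd
  linear_combination (2 * c * (1 - c) * Y + (X + c) ^ 2) * hE + 4 * c * Y * hk

private theorem step1 (hU : UD6 K F a s S τ ζ w z k v κ) {c c' : Ideal (𝓞 K)} (hc : OddI c)
    (hc' : OddI c') (h1 : v c' ^ 2 * v c ^ 2 = -1)
    (h2 : (2 / z c' ^ 2 - 1) * v c = (2 / z c ^ 2 - 1) * v c') :
    (PP z k v c' + PP z k v c) + (PP z k v c' + PP z k v c) = ez F := by
  obtain ⟨X, Y, h, e, hY, hX, -, -, -, -, hv, hu⟩ := pp_inv hU hc
  obtain ⟨x0, hx0⟩ : ∃ x0 : F, x0 = -(v c' * v c) := ⟨_, rfl⟩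
  have hi : x0 ^ 2 = -1 := by
    rw [hx0]
    linear_combination h1
  have hXne : X ≠ x0 := by
    intro h3
    apply hX
    rw [h3, hi]
    norm_num
  have hXp : X + x0 ≠ 0 := by
    intro h3
    apply hX
    linear_combination (X - x0) * h3 + hi
  have hd : X - x0 ≠ 0 := sub_ne_zero.2 hXne
  have hi0 : x0 ≠ 0 := by
    intro h3
    rw [h3] at hi
    norm_num at hi
  have h1' : (-Y) ^ 2 = X ^ 3 - X := by rw [neg_sq]; exact h
  obtain ⟨x, y, hxy, e3, ex, ey⟩ := add_T h hi hXne h1' (sq_T hi)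
  obtain ⟨hE, hr⟩ := R_eqs h hi hXne ex
  -- the values at the point
  have hvY : v c * (X ^ 2 + 1) = 2 * Y := by
    apply mul_right_cancel₀ hY
    linear_combination hv - 2 * h
  have hQ : (1 - x0) * (X + x0) ^ 2 - 4 * Y ≠ 0 := by
    intro h3
    rw [h3, mul_zero] at hE ey
    have h4 : x ^ 2 + 1 = 0 := (mul_eq_zero.1 hE).resolve_right (pow_ne_zero _ hd)
    have h5 : y = 0 := (mul_eq_zero.1 ey).resolve_right (pow_ne_zero _ hd)
    rw [h5] at hxy
    have h6 : x * 2 = 0 := by linear_combination x * h4 + hxy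
    have h7 : x = 0 := (mul_eq_zero.1 h6).resolve_right two_ne_zero
    rw [h7] at h4
    norm_num at h4
  have hy : y ≠ 0 := by
    intro h3
    rw [h3, zero_mul] at ey
    rcases mul_eq_zero.1 ey.symm with h4 | h4
    · exact hXp h4
    · exact hQ h4
  have hx1 : x ^ 2 + 1 ≠ 0 := by
    intro h3
    rw [h3, zero_mul] at hE
    have h4 : 4 * x0 * Y ≠ 0 := mul_ne_zero (mul_ne_zero (by norm_num) hi0) hY
    rcases mul_eq_zero.1 hE.symm with h5 | h5
    · exact h4 h5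
    · exact hQ h5
  have hv1 : v c' * (x ^ 2 + 1) = 2 * y := by
    apply mul_right_cancel₀ (pow_ne_zero 4 hd)
    linear_combination v c' * hE - 2 * (X - x0) * ey -
      2 * x0 * ((1 - x0) * (X + x0) ^ 2 - 4 * Y) * v c' * hvY +
      2 * x0 * ((1 - x0) * (X + x0) ^ 2 - 4 * Y) * (X ^ 2 + 1) * hx0 -
      2 * ((1 - x0) * (X + x0) ^ 2 - 4 * Y) * X ^ 2 * hi
  have hv' : v c' * ((x ^ 2 + 1) * y) = 2 * x * (x ^ 2 - 1) := by
    linear_combination y * hv1 + 2 * hxy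
  have hU4 : (2 / z c' ^ 2 - 1) * (4 * Y ^ 2) = -x0 * (X ^ 4 - 6 * X ^ 2 + 1) := by
    generalize 2 / z c' ^ 2 - 1 = U' at h2 ⊢
    generalize 2 / z c ^ 2 - 1 = U at h2 hu
    linear_combination -U' * (v c * (X ^ 2 + 1) + 2 * Y) * hvY +
      v c * (X ^ 2 + 1) ^ 2 * h2 + U * (X ^ 2 + 1) ^ 2 * hx0 - x0 * hu
  have hr2 : 8 * x0 * Y ^ 2 * (x ^ 2 - 1) ^ 2 = (X + x0) ^ 4 * (x ^ 2 + 1) ^ 2 := by
    linear_combination ((x ^ 2 - 1) * (2 * x0 * (1 - x0) * Y) - (X + x0) ^ 2 * (x ^ 2 + 1)) * hr -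
      (4 * x0 ^ 2 - 8 * x0) * Y ^ 2 * (x ^ 2 - 1) ^ 2 * hi
  have hu' : (2 / z c' ^ 2 - 1) * (x ^ 2 + 1) ^ 2 =
      2 * (x ^ 2 - 1) ^ 2 - (x ^ 2 + 1) ^ 2 := by
    have h8 : 8 * x0 * Y ^ 2 ≠ 0 := mul_ne_zero (mul_ne_zero (by norm_num) hi0) (pow_ne_zero _ hY)
    apply mul_left_cancel₀ h8
    generalize 2 / z c' ^ 2 - 1 = U' at hU4 ⊢
    linear_combination 2 * x0 * (x ^ 2 + 1) ^ 2 * hU4 - 2 * hr2 +
      (x ^ 2 + 1) ^ 2 * (8 * x0) * h + (x ^ 2 + 1) ^ 2 * (-2 * X ^ 4 - 8 * X * x0 -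
        2 * x0 ^ 2) * hi
  -- the sum is `T0` or `T0 + ez`
  have hneg : -(pt X Y h) = pt X (-Y) h1' := W5.neg_pt h
  obtain ⟨-, -, hz2, -, -, -⟩ := two_ep (F := F)
  have hT0 : pt x0 (1 - x0) (sq_T hi) + pt x0 (1 - x0) (sq_T hi) = ez F := by
    obtain ⟨x3, y3, e4, e5, e6⟩ := W5.dbl_pt (sq_T hi) (one_sub_ne hi)
    have h3 : x3 = 0 := by
      rw [hi] at e6
      have h4 : x3 * (2 * (1 - x0)) ^ 2 = 0 := by rw [e6]; norm_num
      exact (mul_eq_zero.1 h4).resolve_right (pow_ne_zero _ (mul_ne_zero two_ne_zero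
        (one_sub_ne hi)))
    have h4 : y3 = 0 := by
      rw [h3] at e4
      have h5 : y3 ^ 2 = 0 := by rw [e4]; ring
      exact (pow_eq_zero_iff two_ne_zero).1 h5
    subst h3 h4
    exact e5
  have hsum : pt x y hxy + pt X Y h = pt x0 (1 - x0) (sq_T hi) := by
    rw [← e3, ← hneg]
    abel
  rw [e]
  rcases pp_of_vu hU hc' hxy hy hx1 hv' hu' with h9 | h9
  · rw [h9, hsum, hT0]
  · have h10 : ∀ A B C : (cQ F).Point, A + C + B + (A + C + B) = A + B + (A + B) + (C + C) := by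
      intro A B C
      abel
    rw [h9, h10, hsum, hT0, hz2, add_zero]

private theorem order_four {T : (cQ F).Point} (hT : T + T = ez F) :
    ∃ (x y : F) (h : y ^ 2 = x ^ 3 - x), T = pt x y h ∧ x ^ 2 = -1 ∧
      (y = 1 - x ∨ y = -(1 - x)) := by
  have hez : ez F ≠ 0 := pt_ne _
  rcases pt_cases T with h0 | ⟨x, y, h, hxy⟩
  · rw [h0, add_zero] at hT
    exact absurd hT.symm hez
  · have hy : y ≠ 0 := by
      rintro rfl
      apply hez
      have h3 : -(pt x 0 h) = pt x 0 h := by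
        rw [W5.neg_pt, pt_inj]
        exact ⟨rfl, neg_zero⟩
      rw [← hT, hxy]
      nth_rewrite 2 [← h3]
      exact add_neg_cancel _
    obtain ⟨x3, y3, e4, e5, e6⟩ := W5.dbl_pt h hy
    have h3 : x3 = 0 := by
      rw [hxy, e5] at hT
      unfold ez at hT
      rw [pt_inj] at hT
      exact hT.1
    rw [h3, zero_mul] at e6
    have h4 : x ^ 2 + 1 = 0 := (pow_eq_zero_iff two_ne_zero).1 e6.symm
    have h5 : x ^ 2 = -1 := by linear_combination h4
    refine ⟨x, y, h, hxy, h5, ?_⟩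
    have h6 : (y - (1 - x)) * (y + (1 - x)) = 0 := by
      linear_combination h + (x - 1) * h5
    rcases mul_eq_zero.1 h6 with h7 | h7
    · left; linear_combination h7
    · right; linear_combination h7

private theorem add_em {x y : F} (h : y ^ 2 = x ^ 3 - x) (hx : x ^ 2 = -1)
    (h' : (x * y) ^ 2 = (-x) ^ 3 - -x) : pt x y h + em F = pt (-x) (x * y) h' := by
  have hne : x ≠ -1 := by
    intro h3
    rw [h3] at hx
    have h2 : (2 : F) = 0 := by linear_combination hx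
    exact two_ne_zero h2
  have hx1 : x + 1 ≠ 0 := by
    intro h3
    exact hne (by linear_combination h3)
  have hl : (cQ F).slope x (-1) y 0 * (x + 1) = y := by
    rw [WeierstrassCurve.Affine.slope_of_X_ne hne]
    field_simp
    ring
  have h1 : ((cQ F).addX x (-1) ((cQ F).slope x (-1) y 0)) = -x := by
    apply mul_right_cancel₀ (pow_ne_zero 2 hx1)
    generalize (cQ F).slope x (-1) y 0 = lam at hl ⊢
    simp only [WeierstrassCurve.Affine.addX, cQ]
    linear_combination (lam * (x + 1) + y) * hl + h + (x + 1) * hx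
  have h2 : ((cQ F).addY x (-1) y ((cQ F).slope x (-1) y 0)) = x * y := by
    unfold WeierstrassCurve.Affine.addY WeierstrassCurve.Affine.negAddY
    rw [h1]
    apply mul_right_cancel₀ hx1
    generalize (cQ F).slope x (-1) y 0 = lam at hl ⊢
    simp only [WeierstrassCurve.Affine.negY, cQ]
    linear_combination 2 * x * hl - y * hx
  unfold em pt
  rw [WeierstrassCurve.Affine.Point.add_of_X_ne hne, WeierstrassCurve.Affine.Point.some.injEq]
  exact ⟨h1, h2⟩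

theorem tq_pt (hb : B6 K a s) (hS : algebraMap (𝓞 K) K S = s) (hU : UD6 K F a s S τ ζ w z k v κ)
    {α : 𝓞 K} (hα : Ideal.absNorm (Ideal.span {α}) % 8 = 7) :
    ∃ T : (cQ F).Point, T + T = ez F ∧ ∀ c, OddI c →
      PA z k v (Ideal.span {α} * c) + PA z k v c = qm T + d4 F (Ideal.absNorm c) := by
  obtain ⟨p, q, hpq⟩ := coords6 hb α
  have hnorm := norm_lin6 hb hpq
  have hm := hb.mod
  -- `p` and `q` are odd
  have hodd : Odd p ∧ Odd q := by
    have h1 : (p ^ 2 + a * q ^ 2) % 8 = 7 := by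
      rw [← hnorm]
      exact_mod_cast hα
    have h2 : ((a : ℕ) : ℤ) % 8 = 6 := by exact_mod_cast hm
    have hp : p % 8 = 0 ∨ p % 8 = 1 ∨ p % 8 = 2 ∨ p % 8 = 3 ∨ p % 8 = 4 ∨ p % 8 = 5 ∨
        p % 8 = 6 ∨ p % 8 = 7 := by omega
    have hq : q % 8 = 0 ∨ q % 8 = 1 ∨ q % 8 = 2 ∨ q % 8 = 3 ∨ q % 8 = 4 ∨ q % 8 = 5 ∨
        q % 8 = 6 ∨ q % 8 = 7 := by omega
    have h3 : (p ^ 2 + a * q ^ 2) % 8 = ((p % 8) ^ 2 + 6 * (q % 8) ^ 2) % 8 := by
      rw [Int.add_emod, pow_two p, Int.mul_emod p p, Int.mul_emod (a : ℤ), h2, pow_two q,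
        Int.mul_emod q q]
      simp [pow_two, Int.add_emod, Int.mul_emod]
    rw [h3] at h1
    rw [Int.odd_iff, Int.odd_iff]
    rcases hp with h | h | h | h | h | h | h | h <;>
      rcases hq with h' | h' | h' | h' | h' | h' | h' | h' <;>
      first
        | (exfalso; rw [h, h'] at h1; norm_num at h1; done)
        | (constructor <;> omega)
  have hαo : OddI (Ideal.span {α}) := (oddI_span6 hb hpq).2 hodd.1
  have hmul : ∀ {b c : Ideal (𝓞 K)}, OddI b → OddI c → OddI (b * c) := by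
    intro b c hb' hc'
    unfold OddI at *
    rw [map_mul]
    exact hb'.mul hc'
  have h1o : OddI (1 : Ideal (𝓞 K)) := by
    unfold OddI
    rw [map_one]
    exact odd_one
  have hstep : ∀ c, OddI c → (PP z k v (Ideal.span {α} * c) + PP z k v c) +
      (PP z k v (Ideal.span {α} * c) + PP z k v c) = ez F := by
    intro c hc
    obtain ⟨h1, h2⟩ := hU.trq p q α hodd.1 hodd.2 hpq c hc
    exact step1 hU hc (hmul hαo hc) h1 h2
  refine ⟨PP z k v (Ideal.span {α} * 1) + PP z k v 1, hstep 1 h1o, ?_⟩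
  intro c hc
  obtain ⟨σ, hσ⟩ := hU.mov c hc
  obtain ⟨x, y, h, hT, hx, hy⟩ := order_four (hstep 1 h1o)
  have hgal : PP z k v (Ideal.span {α} * c) + PP z k v c =
      gal σ (PP z k v (Ideal.span {α} * 1) + PP z k v 1) := by
    obtain ⟨a1, a2, a3⟩ := hσ.act (Ideal.span {α} * 1) (hmul hαo h1o)
    obtain ⟨b1, b2, b3⟩ := hσ.act 1 h1o
    have e1 : c * (Ideal.span {α} * 1) = Ideal.span {α} * c := by rw [mul_one, mul_comm]
    rw [e1] at a1 a2 a3
    rw [mul_one] at b1 b2 b3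
    rw [map_add, gal_pp σ a1 a2 a3, gal_pp σ b1 b2 b3]
  have hPA : PA z k v (Ideal.span {α} * c) + PA z k v c =
      qm (PP z k v (Ideal.span {α} * c) + PP z k v c) := (map_add _ _ _).symm
  rw [hPA, hgal, hT]
  -- the action on `x`
  have hxi : (x - ζ ^ 2) * (x + ζ ^ 2) = 0 := by
    linear_combination hx - hU.z8
  have hσi : σ (ζ ^ 2) = (ζ ^ 2) ^ Ideal.absNorm c := by
    rw [map_pow, hσ.z8, ← pow_mul, ← pow_mul, mul_comm]
  have hi2 : (ζ ^ 2) ^ 2 = -1 := by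
    rw [← hU.z8]
    ring
  have hodd2 : Odd (Ideal.absNorm c) := hc
  have h4 : Ideal.absNorm c % 4 = 1 ∨ Ideal.absNorm c % 4 = 3 := by
    rw [Nat.odd_iff] at hodd2
    omega
  have hpow4 : ((ζ ^ 2) ^ 4 : F) = 1 := by
    rw [show ((ζ ^ 2) ^ 4 : F) = ((ζ ^ 2) ^ 2) ^ 2 by ring, hi2]
    norm_num
  rcases h4 with h4 | h4
  · have h5 : σ (ζ ^ 2) = ζ ^ 2 := by
      rw [hσi, ← Nat.div_add_mod (Ideal.absNorm c) 4, h4, pow_add, pow_mul, hpow4, one_pow,
        one_mul, pow_one]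
    have h6 : σ x = x := by
      rcases mul_eq_zero.1 hxi with h7 | h7
      · have h8 : x = ζ ^ 2 := by linear_combination h7
        rw [h8, h5]
      · have h8 : x = -ζ ^ 2 := by linear_combination h7
        rw [h8, map_neg, h5]
    have h9 : σ y = y := by
      rcases hy with rfl | rfl
      · rw [map_sub, map_one, h6]
      · rw [map_neg, map_sub, map_one, h6]
    unfold d4
    rw [if_pos h4, add_zero, gal_pt]
    congr 1
    rw [pt_inj]
    exact ⟨h6, h9⟩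
  · have h5 : σ (ζ ^ 2) = -ζ ^ 2 := by
      rw [hσi, ← Nat.div_add_mod (Ideal.absNorm c) 4, h4, pow_add, pow_mul, hpow4, one_pow,
        one_mul]
      linear_combination ζ ^ 2 * hi2
    have h6 : σ x = -x := by
      rcases mul_eq_zero.1 hxi with h7 | h7
      · have h8 : x = ζ ^ 2 := by linear_combination h7
        rw [h8, h5]
      · have h8 : x = -ζ ^ 2 := by linear_combination h7
        rw [h8, map_neg, h5]
    have h9 : σ y = x * y := by
      rcases hy with rfl | rfl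
      · rw [map_sub, map_one, h6]
        linear_combination hx
      · rw [map_neg, map_sub, map_one, h6]
        linear_combination -hx
    have h10 : (x * y) ^ 2 = (-x) ^ 3 - -x := by
      rw [← h6, ← h9, ← map_pow, ← map_pow, h, map_sub]
    have h11 : gal σ (pt x y h) = pt x y h + em F := by
      rw [add_em h hx h10, gal_pt, pt_inj]
      exact ⟨h6, h9⟩
    unfold d4
    rw [if_neg (by omega), h11, map_add]
    rfl

end Pool.Agent.Work.MP_8efaaa_nt.W14
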