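import Mathlib
import Pool.Agent.Work.MP_8efaaa_nt.W14.PVu
import Pool.Agent.Work.MP_8efaaa_nt.W14.PGa

/-!
# W14/PTr (M): the translations by elements of norm 1 modulo 8

`α = x + y s` (`coords6`), norm `x^2 + a y^2` (`norm_lin6`), `a = 6 (mod 8)`, norm `1 (mod 8)`: `x` odd, `y` even.

tr_pt, case `4 ∣ y`: `UD6.tr1`: `z(αc) = e8 x z(c)`, `k`, `v` the same. If `e8 x = 1`: `PP (αc) = PP c`, `ε = 0`. If `e8 x = -1`: with `pp_inv` for `c` and `αc` (or directly): `X' = (1-z)/k = -1/X`, `Y' = 2X'/(-v z) = Y/X^2`, so `PP (αc) = PP c + ez`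
(as in PVu: `pt x y + ez = pt (-1/x) (y/x^2)`), `ε = m1`.
Case `y = 2 y'`, `y'` odd: `UD6.trh`: `v' = -v`, `2/z'^2 - 1 = -(2/z^2 - 1)`. Let `PP c = pt X Y` (`pp_inv`). `R := PP c + ep = pt x y` with `x = (X+1)/(X-1)`, `y = -2Y/(X-1)^2` (Mathlib formulas, slope `Y/(X-1)`). Check the hypotheses of `pp_of_vu` for `R` and `c' = αc`:
`x^2+1 = 2(X^2+1)/(X-1)^2`, `x^2-1 = 4X/(X-1)^2`, `y ≠ 0`. So `PP (αc) = PP c + ep` or `PP c + ep + ez = PP c + em`; in both cases `PP (αc) - PP c ∈ {ep, em}`. It does not depend on `c`: `mov c` gives `σ` with `σ (z 1) = z (c * 1)` etc. (`MA6.act : DAct ..`, see N5 or K6/Defs),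
so by `gal_pp`: `PP (αc) - PP c = gal σ (PP α - PP 1)` and `gal σ` fixes `ep`, `em`. `ε = qm (PP α - PP 1)`.
nat_pt: `δ = n`, `y = 0`: `tr1` with `y = 0`: `ε = 0` if `e8 n = 1`, `ε = m1` if `e8 n = -1`, this is `d8 n`.
-/

set_option autoImplicit false

namespace Pool.Agent.Work.MP_8efaaa_nt.W14

open NumberField Pool.Agent.Work.MP_8efaaa_nt.R Pool.Agent.Work.MP_8efaaa_nt.N5
  Pool.Agent.Work.MP_8efaaa_nt.K6
open scoped Classical nonZeroDivisors

variable {K F : Type*} [Field K] [NumberField K] [Field F] [NumberField F] [Algebra K F] {a : ℕ}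
  {s : K} {S : 𝓞 K} {τ : 𝓞 K ≃+* 𝓞 K} {ζ : F} {w : ℕ → F} {z k v : Ideal (𝓞 K) → F}
  {κ : F ≃ₐ[ℚ] F}


omit [NumberField F] in
private theorem add_eq [CharZero F] {x1 y1 x2 y2 x3 y3 L : F} (h1 : y1 ^ 2 = x1 ^ 3 - x1)
    (h2 : y2 ^ 2 = x2 ^ 3 - x2) (hx : x1 ≠ x2) (hL : L = (y1 - y2) / (x1 - x2))
    (h3x : x3 = L ^ 2 - x1 - x2) (h3y : y3 = -(L * (x3 - x1) + y1)) :
    ∃ h3, pt x1 y1 h1 + pt x2 y2 h2 = pt x3 y3 h3 := by
  have hn := WeierstrassCurve.Affine.nonsingular_add (cQ_nonsingular.2 h1) (cQ_nonsingular.2 h2)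
    (fun hc => hx hc.1)
  have hs : (cQ F).slope x1 x2 y1 y2 = L := by
    rw [WeierstrassCurve.Affine.slope_of_X_ne hx, hL]
  have eX : (cQ F).addX x1 x2 ((cQ F).slope x1 x2 y1 y2) = x3 := by
    rw [hs, h3x]
    simp only [WeierstrassCurve.Affine.addX, cQ]
    ring
  have eY : (cQ F).addY x1 x2 y1 ((cQ F).slope x1 x2 y1 y2) = y3 := by
    simp only [WeierstrassCurve.Affine.addY, WeierstrassCurve.Affine.negAddY, eX]
    rw [hs, h3y]
    simp only [WeierstrassCurve.Affine.negY, cQ]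
    ring
  refine ⟨?_, ?_⟩
  · have h3 := cQ_nonsingular.1 hn
    rw [eX, eY] at h3
    exact h3
  · unfold pt
    rw [WeierstrassCurve.Affine.Point.add_of_X_ne hx,
      WeierstrassCurve.Affine.Point.some.injEq]
    exact ⟨eX, eY⟩

omit [NumberField F] in
private theorem add_ez [CharZero F] {x y : F} (h : y ^ 2 = x ^ 3 - x) (hx : x ≠ 0) :
    ∃ h3, pt x y h + ez F = pt (-1 / x) (y / x ^ 2) h3 := by
  have h3x : -1 / x = (y / x) ^ 2 - x - 0 := by
    field_simp
    linear_combination -h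
  unfold ez
  refine add_eq h _ hx rfl ?_ ?_
  · rw [sub_zero, sub_zero, sub_zero]
    rw [sub_zero] at h3x
    exact h3x
  · rw [sub_zero, sub_zero]
    field_simp
    ring

omit [NumberField F] in
private theorem add_ep [CharZero F] {x y : F} (h : y ^ 2 = x ^ 3 - x) (hx : x - 1 ≠ 0) :
    ∃ h3, pt x y h + ep F = pt ((x + 1) / (x - 1)) (-(2 * y) / (x - 1) ^ 2) h3 := by
  unfold ep
  refine add_eq h _ (sub_ne_zero.1 hx) rfl ?_ ?_
  · field_simp
    linear_combination -h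
  · field_simp
    ring

private theorem pp_congr {c c' : Ideal (𝓞 K)} (h1 : z c' = z c) (h2 : k c' = k c)
    (h3 : v c' = v c) : PP z k v c' = PP z k v c := by
  unfold PP
  rw [h1, h2, h3]

/-- the translations of the first kind -/
private theorem tr1_pt (hU : UD6 K F a s S τ ζ w z k v κ) {c c' : Ideal (𝓞 K)} (hc : OddI c)
    (hc' : OddI c') {x : ℤ} (h1 : z c' = (e8 x : ℤ) * z c) (h2 : k c' = k c) (h3 : v c' = v c) :
    PA z k v c' = PA z k v c + (if e8 x = 1 then 0 else m1 F) := by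
  unfold PA
  by_cases he : e8 x = 1
  · rw [if_pos he, add_zero]
    rw [he, Int.cast_one, one_mul] at h1
    rw [pp_congr h1 h2 h3]
  · rw [if_neg he, ← (qm_ep (F := F)).2.1, ← map_add]
    have he' : e8 x = -1 := by
      unfold e8 at he ⊢
      split_ifs at he ⊢
      · exact absurd rfl he
      · rfl
    rw [he'] at h1
    push_cast at h1
    obtain ⟨x1, y1, e1, f1, hy1, hx1, g1, g2, g3, g4, -, -⟩ := pp_inv hU hc
    obtain ⟨x2, y2, e2, f2, hy2, hx2, g1', g2', g3', g4', -, -⟩ := pp_inv hU hc'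
    obtain ⟨n1, n2, n3⟩ := hU.ne c hc
    have hx10 : x1 ≠ 0 := by
      rintro rfl
      apply hy1
      have h5 : y1 ^ 2 = 0 := by rw [e1]; ring
      exact pow_eq_zero_iff two_ne_zero |>.1 h5
    obtain ⟨e3, h4⟩ := add_ez e1 hx10
    rw [f1, f2, h4]
    congr 1
    rw [pt_inj]
    have hzk := hU.zk c hc
    have hX : x2 = -1 / x1 := by
      rw [eq_div_iff hx10, g1, g1', h1, h2]
      field_simp
      linear_combination -hzk
    refine ⟨hX, ?_⟩
    rw [g2', hX, h1, h3, g2]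
    field_simp

theorem tr_pt (hb : B6 K a s) (hS : algebraMap (𝓞 K) K S = s) (hU : UD6 K F a s S τ ζ w z k v κ)
    {α : 𝓞 K} (hα : Ideal.absNorm (Ideal.span {α}) % 8 = 1) :
    ∃ ε : QA F, (ε = 0 ∨ ε = m1 F) ∧
      ∀ c, OddI c → PA z k v (Ideal.span {α} * c) = PA z k v c + ε := by
  have _ := hS
  obtain ⟨x, y, hxy⟩ := coords6 hb α
  have hn := norm_lin6 hb hxy
  have hodd : OddI (Ideal.span {α}) := by
    unfold OddI
    rw [Nat.odd_iff]
    omega
  have hmulodd : ∀ c : Ideal (𝓞 K), OddI c → OddI (Ideal.span {α} * c) := by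
    intro c hc
    unfold OddI at *
    rw [map_mul]
    exact hodd.mul hc
  have hx : Odd x := (oddI_span6 hb hxy).1 hodd
  have hy : Even y := by
    by_contra hy
    rw [Int.not_even_iff_odd] at hy
    obtain ⟨k1, hk1⟩ := hx
    obtain ⟨k2, hk2⟩ := hy
    obtain ⟨l1, hl1⟩ := Int.even_mul_succ_self k1
    obtain ⟨l2, hl2⟩ := Int.even_mul_succ_self k2
    obtain ⟨b, hb'⟩ : ∃ b : ℕ, a = 8 * b + 6 := ⟨a / 8, by have := hb.mod; omega⟩
    have h1 : x ^ 2 = 8 * l1 + 1 := by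
      have : x ^ 2 = 4 * (k1 * (k1 + 1)) + 1 := by rw [hk1]; ring
      rw [this, hl1]
      ring
    have h2 : y ^ 2 = 8 * l2 + 1 := by
      have : y ^ 2 = 4 * (k2 * (k2 + 1)) + 1 := by rw [hk2]; ring
      rw [this, hl2]
      ring
    rw [h1, h2, hb'] at hn
    push_cast at hn
    have h3 : ((8 * b + 6 : ℤ)) * (8 * l2 + 1) = 8 * (8 * b * l2 + 6 * l2 + b) + 6 := by ring
    rw [h3] at hn
    omega
  obtain ⟨y', hy'⟩ := hy
  rcases Int.even_or_odd y' with hy2 | hy2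
  · obtain ⟨y2, hy2⟩ := hy2
    have hxy' : algebraMap (𝓞 K) K α = x + 4 * y2 * s := by
      rw [hxy, hy', hy2]
      push_cast
      ring
    refine ⟨if e8 x = 1 then 0 else m1 F, ?_, fun c hc => ?_⟩
    · split_ifs
      · exact Or.inl rfl
      · exact Or.inr rfl
    · obtain ⟨h1, h2, h3⟩ := hU.tr1 x y2 α hx hxy' c hc
      exact tr1_pt hU hc (hmulodd c hc) h1 h2 h3
  · have hxy' : algebraMap (𝓞 K) K α = x + 2 * y' * s := by
      rw [hxy, hy']
      push_cast
      ring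
    have hone : OddI (1 : Ideal (𝓞 K)) := by
      unfold OddI
      rw [map_one]
      exact odd_one
    have hD : ∀ c, OddI c → PP z k v (Ideal.span {α} * c) - PP z k v c = ep F ∨
        PP z k v (Ideal.span {α} * c) - PP z k v c = em F := by
      intro c hc
      obtain ⟨h1, h2⟩ := hU.trh x y' α hx hy2 hxy' c hc
      obtain ⟨x1, y1, e1, f1, hy1, hx1, -, -, -, -, g5, g6⟩ := pp_inv hU hc
      have hx1m : x1 - 1 ≠ 0 := by
        intro h0
        have h3 : x1 = 1 := sub_eq_zero.1 h0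
        apply hy1
        have h5 : y1 ^ 2 = 0 := by rw [e1, h3]; ring
        exact pow_eq_zero_iff two_ne_zero |>.1 h5
      obtain ⟨e3, h4⟩ := add_ep e1 hx1m
      have hpp := pp_of_vu hU (hmulodd c hc) e3
        (div_ne_zero (neg_ne_zero.2 (mul_ne_zero two_ne_zero hy1)) (pow_ne_zero 2 hx1m))
        (by
          have h5 : ((x1 + 1) / (x1 - 1)) ^ 2 + 1 = 2 * (x1 ^ 2 + 1) / (x1 - 1) ^ 2 := by
            field_simp
            ring
          rw [h5]
          exact div_ne_zero (mul_ne_zero two_ne_zero hx1) (pow_ne_zero 2 hx1m))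
        (by
          rw [h1]
          field_simp
          linear_combination 2 * g5)
        (by
          rw [h2]
          field_simp
          linear_combination (-4) * g6)
      rcases hpp with h5 | h5
      · left
        rw [h5, ← h4, f1]
        abel
      · right
        rw [h5, ← h4, f1, ← (two_ep (F := F)).2.2.2.2.1]
        abel
    have hDc : ∀ c, OddI c → PP z k v (Ideal.span {α} * c) - PP z k v c =
        PP z k v (Ideal.span {α} * 1) - PP z k v 1 := by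
      intro c hc
      obtain ⟨σ, hσ⟩ := hU.mov c hc
      have h1 : gal σ (PP z k v 1) = PP z k v (c * 1) := by
        obtain ⟨a1, a2, a3⟩ := hσ.act 1 hone
        exact gal_pp σ a1 a2 a3
      have h2 : gal σ (PP z k v (Ideal.span {α} * 1)) = PP z k v (c * (Ideal.span {α} * 1)) := by
        obtain ⟨a1, a2, a3⟩ := hσ.act _ (hmulodd 1 hone)
        exact gal_pp σ a1 a2 a3
      have h3 : gal σ (PP z k v (Ideal.span {α} * 1) - PP z k v 1) =
          PP z k v (Ideal.span {α} * 1) - PP z k v 1 := by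
        rcases hD 1 hone with h4 | h4
        · rw [h4, gal_ep]
        · rw [h4, (gal_two σ).1]
      rw [map_sub, h1, h2, mul_one, mul_one, mul_comm c] at h3
      rw [h3, mul_one]
    refine ⟨qm (PP z k v (Ideal.span {α} * 1) - PP z k v 1), ?_, fun c hc => ?_⟩
    · rcases hD 1 hone with h4 | h4
      · rw [h4]
        exact Or.inl (qm_ep (F := F)).1
      · rw [h4]
        exact Or.inr rfl
    · unfold PA
      rw [← hDc c hc, map_sub]
      abel

theorem nat_pt (hb : B6 K a s) (hS : algebraMap (𝓞 K) K S = s)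
    (hU : UD6 K F a s S τ ζ w z k v κ) {n : ℕ} (hn : Odd n) {c : Ideal (𝓞 K)} (hc : OddI c) :
    PA z k v (Ideal.span {(n : 𝓞 K)} * c) = PA z k v c + d8 F n := by
  have _ := hS
  have hx : Odd (n : ℤ) := by exact_mod_cast hn
  have hxy : algebraMap (𝓞 K) K (n : 𝓞 K) = ((n : ℤ) : K) + 4 * ((0 : ℤ) : K) * s := by
    rw [map_natCast]
    push_cast
    ring
  have hxy' : algebraMap (𝓞 K) K (n : 𝓞 K) = ((n : ℤ) : K) + ((0 : ℤ) : K) * s := by
    rw [map_natCast]
    push_cast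
    ring
  have hodd : OddI (Ideal.span {(n : 𝓞 K)}) := (oddI_span6 hb hxy').2 hx
  have hodd' : OddI (Ideal.span {(n : 𝓞 K)} * c) := by
    unfold OddI at *
    rw [map_mul]
    exact hodd.mul hc
  obtain ⟨h1, h2, h3⟩ := hU.tr1 n 0 (n : 𝓞 K) hx hxy c hc
  rw [tr1_pt hU hc hodd' h1 h2 h3]
  congr 1
  unfold e8 d8
  by_cases h4 : n % 8 = 1 ∨ n % 8 = 7
  · rw [if_pos h4, if_pos (by omega : (n : ℤ) % 8 = 1 ∨ (n : ℤ) % 8 = 7), if_pos rfl]
  · rw [if_neg h4, if_neg (by omega : ¬ ((n : ℤ) % 8 = 1 ∨ (n : ℤ) % 8 = 7)),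
      if_neg (by norm_num)]

end Pool.Agent.Work.MP_8efaaa_nt.W14
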