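import Mathlib
import Pool.Agent.Work.MP_8efaaa_nt.W14.Defs

/-!
# W14/CEq (M): equivalent odd ideals

norm_prin: `α = x + y s` (`coords6`), norm `x^2 + a y^2` (`norm_lin6`), odd, `a = 6 (mod 8)`: `x` odd; `y` even gives `1`, `y` odd gives `7` modulo `8`.
exists_g: `α = 1 + S`: norm `1 + a`.
cls_cj: `c * cj τ c = (N c)` (`norm_cj6`), `cls_mul`, `cls_span`.
cls_two: `r6 S 2 * r6 S 2 = (2)` (`r6_sq`); `r6 S 2 * r6 S (a/2) = r6 S a = (S)` (`r6_mul` with `2 * (a/2) = a`, `r6_all`); `r6_ne`: norm `d ≠ 0` (`norm_r6`).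
cls_r6_sq: `r6 S d * r6 S d = (d)`.
prin_of_cls: `cls b = 1`, `b ≠ 0`: `ClassGroup.mk0_eq_one_iff`.
equiv6: `b * cj τ c` has class `cls b (cls c)⁻¹ = 1`, so it is `(γ)`; `(N c) b = c (cj τ c) b = (γ) c`. `N γ = N b * N c` is odd, so `1` or `7` modulo `8` (norm_prin). If `N γ = 1 (mod 8)`: `α = N c`, `β = γ` (`N (N c) = (N c)^2 = 1 (mod 8)`). If `7`: `α = (1+S) (N c)`, `β = (1 + S) γ`.
-/

set_option autoImplicit false

namespace Pool.Agent.Work.MP_8efaaa_nt.W14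

open NumberField Pool.Agent.Work.MP_8efaaa_nt.R Pool.Agent.Work.MP_8efaaa_nt.N5
  Pool.Agent.Work.MP_8efaaa_nt.K6
open scoped Classical nonZeroDivisors

variable {K : Type*} [Field K] [NumberField K] {a : ℕ} {s : K} {S : 𝓞 K} {τ : 𝓞 K ≃+* 𝓞 K}


private theorem sq8 {p : ℤ} (hp : Odd p) : p ^ 2 % 8 = 1 := by
  obtain ⟨k, rfl⟩ := hp
  have h1 : (2 * k + 1) ^ 2 = 4 * (k * (k + 1)) + 1 := by ring
  obtain ⟨l, hl⟩ := Int.even_mul_succ_self k
  rw [h1, hl]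
  omega

theorem norm_prin (hb : B6 K a s) (hS : algebraMap (𝓞 K) K S = s) {α : 𝓞 K}
    (h : OddI (Ideal.span {α})) :
    Ideal.absNorm (Ideal.span {α}) % 8 = 1 ∨ Ideal.absNorm (Ideal.span {α}) % 8 = 7 := by
  have _ := hS
  obtain ⟨p, q, hpq⟩ := coords6 hb α
  have hn := norm_lin6 hb hpq
  have hp := sq8 ((oddI_span6 hb hpq).1 h)
  obtain ⟨k, hk⟩ : ∃ k : ℕ, a = 8 * k + 6 := ⟨a / 8, by have := hb.mod; omega⟩
  have hk' : (a : ℤ) = 8 * k + 6 := by exact_mod_cast hk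
  rcases Int.even_or_odd q with hq | hq
  · left
    obtain ⟨l, hl⟩ := hq
    have h1 : (a : ℤ) * q ^ 2 = 8 * (((8 * k + 6) * l ^ 2) / 2 * 1) ∨ True := Or.inr trivial
    have h2 : (a : ℤ) * q ^ 2 = 8 * ((4 * k + 3) * l ^ 2) := by
      rw [hk', hl]
      ring
    rw [h2] at hn
    have := h1
    omega
  · right
    have h2 := sq8 hq
    have h3 : (a : ℤ) * q ^ 2 = 8 * (k * q ^ 2) + 6 * q ^ 2 := by
      rw [hk']
      ring
    rw [h3] at hn
    omega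

theorem norm_g (hb : B6 K a s) (hS : algebraMap (𝓞 K) K S = s) :
    Ideal.absNorm (Ideal.span {1 + S}) = 1 + a := by
  have h1 : algebraMap (𝓞 K) K (1 + S) = ((1 : ℤ) : K) + ((1 : ℤ) : K) * s := by
    rw [map_add, map_one, hS]
    push_cast
    ring
  have h2 := norm_lin6 hb h1
  have h3 : ((Ideal.absNorm (Ideal.span {1 + S}) : ℕ) : ℤ) = ((1 + a : ℕ) : ℤ) := by
    rw [h2]
    push_cast
    ring
  exact_mod_cast h3

theorem r6_ne (hb : B6 K a s) (hS : algebraMap (𝓞 K) K S = s) {d : ℕ} (hd : d ∣ a) :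
    r6 S d ≠ 0 := by
  intro h
  have h1 := norm_r6 hb hS hd
  rw [h, map_zero] at h1
  rw [← h1, zero_dvd_iff] at hd
  exact hb.sf.ne_zero hd

private theorem nrm_nat (hb : B6 K a s) (n : ℕ) :
    Ideal.absNorm (Ideal.span {(n : 𝓞 K)}) = n ^ 2 := by
  have h1 : algebraMap (𝓞 K) K (n : 𝓞 K) = ((n : ℤ) : K) + ((0 : ℤ) : K) * s := by
    rw [map_natCast]
    push_cast
    ring
  have h2 := norm_lin6 hb h1
  have h3 : ((Ideal.absNorm (Ideal.span {(n : 𝓞 K)}) : ℕ) : ℤ) = ((n ^ 2 : ℕ) : ℤ) := by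
    rw [h2]
    push_cast
    ring
  exact_mod_cast h3

private theorem nc_ne {c : Ideal (𝓞 K)} (hc : c ≠ 0) : ((Ideal.absNorm c : ℕ) : 𝓞 K) ≠ 0 := by
  rw [Nat.cast_ne_zero]
  intro h
  exact hc (Ideal.absNorm_eq_zero_iff.1 h)

theorem cls_cj (hb : B6 K a s) (hS : algebraMap (𝓞 K) K S = s) (hτ : τ S = -S)
    {c : Ideal (𝓞 K)} (hc : c ≠ 0) : cj τ c ≠ 0 ∧ cls (cj τ c) = (cls c)⁻¹ := by
  obtain ⟨-, h2, -⟩ := norm_cj6 hb hS hτ c
  have h0 : cj τ c ≠ 0 := by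
    intro h
    rw [h, mul_zero] at h2
    have h3 := Ideal.span_singleton_eq_bot.1 h2.symm
    exact nc_ne hc h3
  refine ⟨h0, ?_⟩
  have h3 := cls_mul hc h0
  rw [h2, cls_span (nc_ne hc)] at h3
  exact eq_inv_of_mul_eq_one_right h3.symm

theorem cls_two (hb : B6 K a s) (hS : algebraMap (𝓞 K) K S = s) :
    cls (r6 S 2) * cls (r6 S 2) = 1 ∧ cls (r6 S (a / 2)) = cls (r6 S 2) := by
  have hmod := hb.mod
  have h2a : 2 ∣ a := by omega
  have h2' : 2 * (a / 2) = a := by omega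
  have hd : a / 2 ∣ a := ⟨2, by omega⟩
  have hr := r6_ne hb hS h2a
  have hr' := r6_ne hb hS hd
  have h1 : cls (r6 S 2) * cls (r6 S 2) = 1 := by
    rw [← cls_mul hr hr, r6_sq hb hS h2a]
    exact cls_span (Nat.cast_ne_zero.2 two_ne_zero)
  refine ⟨h1, ?_⟩
  have hS0 : S ≠ 0 := by
    rintro rfl
    have h3 := hb.sq
    rw [← hS, map_zero, zero_pow two_ne_zero] at h3
    have h4 : (a : K) = 0 := neg_eq_zero.1 h3.symm
    exact hb.sf.ne_zero (Nat.cast_eq_zero.1 h4)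
  have h3 := r6_mul hb hS (d := 2) (e := a / 2) (by rw [h2'])
  rw [h2', r6_all hb hS] at h3
  have h4 := cls_mul hr hr'
  rw [← h3, cls_span hS0, ← h1] at h4
  exact (mul_left_cancel h4).symm

theorem prin_of_cls {b : Ideal (𝓞 K)} (hb : b ≠ 0) (h : cls b = 1) :
    ∃ γ : 𝓞 K, γ ≠ 0 ∧ b = Ideal.span {γ} := by
  rw [cls_eq hb, ClassGroup.mk0_eq_one_iff] at h
  obtain ⟨γ, hγ⟩ := h
  refine ⟨γ, ?_, hγ⟩
  rintro rfl
  apply hb
  have h2 : b = Ideal.span {0} := hγ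
  rw [h2]
  exact Ideal.span_singleton_eq_bot.2 rfl

theorem equiv6 (hb : B6 K a s) (hS : algebraMap (𝓞 K) K S = s) (hτ : τ S = -S)
    {b c : Ideal (𝓞 K)} (hb1 : OddI b) (hc : OddI c) (h : cls b = cls c) :
    ∃ α β : 𝓞 K, Ideal.span {α} * b = Ideal.span {β} * c ∧
      Ideal.absNorm (Ideal.span {β}) % 8 = 1 ∧
      (Ideal.absNorm (Ideal.span {α}) % 8 = 1 ∨ Ideal.absNorm (Ideal.span {α}) % 8 = 7) := by
  have hb0 : b ≠ 0 := by
    rintro rfl
    unfold OddI at hb1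
    rw [map_zero] at hb1
    exact absurd hb1 (by decide)
  have hc0 : c ≠ 0 := by
    rintro rfl
    unfold OddI at hc
    rw [map_zero] at hc
    exact absurd hc (by decide)
  obtain ⟨h1, h2⟩ := cls_cj hb hS hτ hc0
  obtain ⟨n1, n2, -⟩ := norm_cj6 hb hS hτ c
  have h3 : cls (b * cj τ c) = 1 := by
    rw [cls_mul hb0 h1, h2, h, mul_inv_cancel]
  obtain ⟨γ, hγ0, hγ⟩ := prin_of_cls (mul_ne_zero hb0 h1) h3
  have hNγ : Ideal.absNorm (Ideal.span {γ}) = Ideal.absNorm b * Ideal.absNorm c := by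
    rw [← hγ, map_mul, n1]
  have hodd : OddI (Ideal.span {γ}) := by
    unfold OddI at *
    rw [hNγ]
    exact hb1.mul hc
  have hmain : Ideal.span {((Ideal.absNorm c : ℕ) : 𝓞 K)} * b = Ideal.span {γ} * c := by
    rw [← n2, ← hγ]
    ring
  have hn8 : Ideal.absNorm c ^ 2 % 8 = 1 := by
    have h4 := sq8 (p := (Ideal.absNorm c : ℤ)) (by exact_mod_cast hc)
    have h5 : ((Ideal.absNorm c ^ 2 % 8 : ℕ) : ℤ) = 1 := by
      push_cast
      exact h4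
    exact_mod_cast h5
  have hg := norm_g hb hS
  have hmod := hb.mod
  rcases norm_prin hb hS hodd with h4 | h4
  · refine ⟨((Ideal.absNorm c : ℕ) : 𝓞 K), γ, hmain, h4, Or.inl ?_⟩
    rw [nrm_nat hb]
    exact hn8
  · refine ⟨(1 + S) * ((Ideal.absNorm c : ℕ) : 𝓞 K), (1 + S) * γ, ?_, ?_, Or.inr ?_⟩
    · rw [← Ideal.span_singleton_mul_span_singleton, ← Ideal.span_singleton_mul_span_singleton,
        mul_assoc, hmain, mul_assoc]
    · rw [← Ideal.span_singleton_mul_span_singleton, map_mul, hg, Nat.mul_mod, h4]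
      have h5 : (1 + a) % 8 = 7 := by omega
      rw [h5]
    · rw [← Ideal.span_singleton_mul_span_singleton, map_mul, hg, nrm_nat hb, Nat.mul_mod, hn8]
      have h5 : (1 + a) % 8 = 7 := by omega
      rw [h5]

end Pool.Agent.Work.MP_8efaaa_nt.W14
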