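import Mathlib
import Pool.Agent.Work.MP_8efaaa_nt.W14.PGa

/-!
# W14/LEp (S-M): points with double in the kernel of reduction

If `u = 0` or `V (x u) > 1` take `ε = 0`. Otherwise `u = pt x y`, `V x ≤ 1`, `V y < 1` (`W5.dbl_mem`), so `V (x (x-1) (x+1)) = V (y^2) < 1`, and one of `V x`, `V (x-1)`, `V (x+1)` is `< 1`; `W5.sub_mem` with the point `ez`, `ep`, `em` (its second coordinate is `0`).
neg_add: the coordinates of `ε - h`, `h = pt x y`, `y ≠ 0`: `-h = pt x (-y)`; `ep - h = pt ((x+1)/(x-1)) (2y/(x-1)^2)`; `ez - h = pt (-1/x) (-y/x^2)`; `em - h = pt ((1-x)/(x+1)) (2y/(x+1)^2)` (Mathlib addition formulas with a point of order two, slopes `-y/(x-1)` etc.).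
-/

set_option autoImplicit false

namespace Pool.Agent.Work.MP_8efaaa_nt.W14

open NumberField Pool.Agent.Work.MP_8efaaa_nt.R Pool.Agent.Work.MP_8efaaa_nt.N5
  Pool.Agent.Work.MP_8efaaa_nt.K6
open scoped Classical nonZeroDivisors

open WeierstrassCurve WeierstrassCurve.Affine in
private theorem add_two {F : Type*} [Field F] [CharZero F] {x1 x2 y2 X Y : F}
    (h1 : (0 : F) ^ 2 = x1 ^ 3 - x1) (h2 : y2 ^ 2 = x2 ^ 3 - x2) (hx : x1 ≠ x2)
    (hX : ((0 - y2) / (x1 - x2)) ^ 2 - x1 - x2 = X)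
    (hY : -((0 - y2) / (x1 - x2) * (X - x1)) = Y) :
    ∃ h3, pt x1 0 h1 + pt x2 y2 h2 = pt X Y h3 := by
  have hn : (cQ F).Nonsingular ((cQ F).addX x1 x2 ((cQ F).slope x1 x2 0 y2))
      ((cQ F).addY x1 x2 0 ((cQ F).slope x1 x2 0 y2)) :=
    nonsingular_add (cQ_nonsingular.2 h1) (cQ_nonsingular.2 h2) (fun hc => hx hc.1)
  have hx5 : (cQ F).addX x1 x2 ((cQ F).slope x1 x2 0 y2) = X := by
    rw [slope_of_X_ne hx, ← hX]
    simp only [addX, cQ]
    ring
  have hy5 : (cQ F).addY x1 x2 0 ((cQ F).slope x1 x2 0 y2) = Y := by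
    have h6 : (cQ F).addY x1 x2 0 ((cQ F).slope x1 x2 0 y2) =
        -((cQ F).slope x1 x2 0 y2 * ((cQ F).addX x1 x2 ((cQ F).slope x1 x2 0 y2) - x1)) := by
      simp only [addY, negAddY, negY, cQ]
      ring
    rw [h6, hx5, slope_of_X_ne hx, hY]
  rw [hx5, hy5] at hn
  refine ⟨cQ_nonsingular.1 hn, ?_⟩
  unfold pt
  rw [Point.add_of_X_ne hx, Point.some.injEq]
  exact ⟨hx5, hy5⟩

private theorem sub_two {F : Type*} [Field F] [CharZero F] {x1 x2 y2 X Y : F}
    (h1 : (0 : F) ^ 2 = x1 ^ 3 - x1) (h2 : y2 ^ 2 = x2 ^ 3 - x2) (hx : x1 ≠ x2)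
    (hX : (y2 / (x1 - x2)) ^ 2 - x1 - x2 = X)
    (hY : -(y2 / (x1 - x2) * (X - x1)) = Y) :
    ∃ h3, pt x1 0 h1 - pt x2 y2 h2 = pt X Y h3 := by
  rw [sub_eq_add_neg (pt x1 0 h1), W5.neg_pt]
  exact add_two h1 _ hx (by rw [zero_sub, neg_neg, hX]) (by rw [zero_sub, neg_neg, hY])

theorem ep_cases {F : Type*} [Field F] [CharZero F] {Γ : Type*}
    [LinearOrderedCommGroupWithZero Γ] {V : Valuation F Γ} (hV2 : V 2 = 1) {u : (cQ F).Point}
    (hu : u + u ∈ W5.E1 V) : u ∈ W5.E1 V ∨ u - ep F ∈ W5.E1 V ∨ u - em F ∈ W5.E1 V ∨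
      u - ez F ∈ W5.E1 V := by
  rcases pt_cases u with rfl | ⟨x, y, h, rfl⟩
  · left
    exact (W5.E1 V).zero_mem
  by_cases hx : 1 < V x
  · left
    exact W5.pt_mem.2 hx
  push Not at hx
  have hy := W5.dbl_mem hV2 hx hu
  have h1 : V (x * ((x - 1) * (x + 1))) < 1 := by
    have h2 : x * ((x - 1) * (x + 1)) = y ^ 2 := by rw [h]; ring
    rw [h2, map_pow]
    exact pow_lt_one₀ zero_le hy two_ne_zero
  have h2 : V x < 1 ∨ V (x - 1) < 1 ∨ V (x + 1) < 1 := by
    by_contra hc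
    push Not at hc
    obtain ⟨ha, hb, hc⟩ := hc
    rw [map_mul, map_mul] at h1
    exact absurd h1 (not_lt.2 (one_le_mul ha (one_le_mul hb hc)))
  right
  have hy0 : V (y - 0) < 1 := by rw [sub_zero]; exact hy
  rcases h2 with h2 | h2 | h2
  · right
    right
    unfold ez
    exact W5.sub_mem hV2 (by rw [map_zero]; exact zero_le) (by rw [sub_zero]; exact h2) hy0
  · left
    unfold ep
    exact W5.sub_mem hV2 (by rw [map_one]) h2 hy0
  · right
    left
    unfold em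
    exact W5.sub_mem hV2 (by rw [Valuation.map_neg, map_one])
      (by rw [sub_neg_eq_add]; exact h2) hy0

theorem sub_coord {F : Type*} [Field F] [CharZero F] {x y : F} (h : y ^ 2 = x ^ 3 - x)
    (hy : y ≠ 0) :
    (∃ h1, ep F - pt x y h = pt ((x + 1) / (x - 1)) (2 * y / (x - 1) ^ 2) h1) ∧
    (∃ h2, ez F - pt x y h = pt (-1 / x) (-y / x ^ 2) h2) ∧
    ∃ h3, em F - pt x y h = pt ((1 - x) / (x + 1)) (2 * y / (x + 1) ^ 2) h3 := by
  have hx1 : x - 1 ≠ 0 := by
    intro h0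
    apply hy
    have h1 : y ^ 2 = 0 := by rw [h, sub_eq_zero.1 h0]; ring
    exact pow_eq_zero_iff two_ne_zero |>.1 h1
  have hx2 : x + 1 ≠ 0 := by
    intro h0
    apply hy
    have h1 : y ^ 2 = 0 := by rw [h, eq_neg_of_add_eq_zero_left h0]; ring
    exact pow_eq_zero_iff two_ne_zero |>.1 h1
  have hx0 : x ≠ 0 := by
    intro h0
    apply hy
    have h1 : y ^ 2 = 0 := by rw [h, h0]; ring
    exact pow_eq_zero_iff two_ne_zero |>.1 h1
  have hx1' : (1 : F) - x ≠ 0 := by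
    intro h0
    exact hx1 (by linear_combination -h0)
  have hx2' : (-1 : F) - x ≠ 0 := by
    intro h0
    exact hx2 (by linear_combination -h0)
  have hx0' : (0 : F) - x ≠ 0 := by
    rw [zero_sub]
    exact neg_ne_zero.2 hx0
  refine ⟨?_, ?_, ?_⟩
  · unfold ep
    apply sub_two
    · exact sub_ne_zero.1 hx1'
    · field_simp
      rw [h]
      ring
    · field_simp
      ring
  · unfold ez
    apply sub_two
    · exact sub_ne_zero.1 hx0'
    · field_simp
      rw [h]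
      ring
    · field_simp
      ring
  · unfold em
    apply sub_two
    · exact sub_ne_zero.1 hx2'
    · field_simp
      rw [h]
      ring
    · field_simp
      ring

end Pool.Agent.Work.MP_8efaaa_nt.W14
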