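import Mathlib
import Pool.Agent.Work.MP_8efaaa_nt.W14.Defs
import Pool.Agent.Work.MP_8efaaa_nt.K6.CVl
import Pool.Agent.Work.MP_8efaaa_nt.R.DVal

/-!
# W14/LVx (M): valuations

exists_vl: take a ring homomorphism `F →+* ℂ` (`NumberField`: `inferInstance : Nonempty (F →+* ℂ)`) as an algebra structure, `R.exists_val L hL` (R/DVal.lean), and `V.comap (algebraMap F ℂ)` (see the private `val_pack` in K6/CDt.lean).
vl_odd: `2 ∈ L` and `l ∈ L`, `l` odd, would give `1 ∈ L` (Bezout). `V 2 = 1`: `int` and not `lt`. `V l < 1`: `lt`.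
vl_red: `x = n0/d` with `d ∉ L` (K6/CVl.lean `exists_frac` : `n0 ∉ L` or `d ∉ L`; if `d ∈ L` then `n0 ∉ L`, `V n0 = 1`, `V d < 1`, so `V x > 1`). `V d = 1`, `V (σ d - d^n) < 1` gives `V (σ d) = 1`. `σ x - x^n = ((σ n0 - n0^n) d^n + n0^n (d^n - σ d))/(σ d d^n)`.
vl_gt: `V x > 1`: `d ∈ L`, `n0 ∉ L`: `V (σ d) < 1` (as `V (σ d - d^n) < 1`, `V d^n < 1`, `n ≠ 0`), `σ d ≠ 0`, `V (σ n0) = 1`, so `V (σ x) > 1`.
gal_e1: `pt_cases`, `gal_pt`, `W5.pt_mem`, `vl_gt` (stated for any `V`, `σ` with this property). galA_ev: `AddSubgroup.mem_map`, `galA_qm`.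
vl_comap: `V' = V.comap (σ : F →+* F)` (ring homomorphism of `σ`), `L' = {x | V' x < 1}` = the ideal of the `x : 𝓞 F` with `σ x ∈ L`, i.e. the comap of `L` under the ring automorphism of `𝓞 F` given by `σ` (`NumberField.RingOfIntegers.mapRingEquiv` or `MulSemiringAction.toRingHom`): prime; `int`, `lt` from those of `V`.
`n ∈ L → n ∈ L'` for natural numbers because `σ n = n`.
-/

set_option autoImplicit false

namespace Pool.Agent.Work.MP_8efaaa_nt.W14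

open NumberField Pool.Agent.Work.MP_8efaaa_nt.R Pool.Agent.Work.MP_8efaaa_nt.N5
  Pool.Agent.Work.MP_8efaaa_nt.K6
open scoped Classical nonZeroDivisors

variable {F : Type*} [Field F] [NumberField F] {Γ : Type*} [LinearOrderedCommGroupWithZero Γ]
  {V : Valuation F Γ} {L : Ideal (𝓞 F)} {k0 : Type*} [Field k0] [Algebra k0 F]

theorem exists_vl (hL : L.IsPrime) : ∃ (Γ : Type) (_ : LinearOrderedCommGroupWithZero Γ)
    (V : Valuation F Γ), VL V L := by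
  obtain ⟨φ⟩ := (inferInstance : Nonempty (F →+* ℂ))
  let _ : Algebra F ℂ := φ.toAlgebra
  obtain ⟨Γ, i, V, h1, h2⟩ := exists_val L hL
  exact ⟨Γ, i, V.comap (algebraMap F ℂ), ⟨hL, h1, h2⟩⟩

theorem vl_odd (hV : VL V L) {l : ℕ} (hl : l.Prime) (hl2 : l ≠ 2) (hlL : (l : 𝓞 F) ∈ L) :
    (2 : 𝓞 F) ∉ L ∧ V 2 = 1 ∧ V (l : F) < 1 := by
  have hP := hV.prime
  have h2 : (2 : 𝓞 F) ∉ L := by
    intro h2
    obtain ⟨k, hk⟩ := hl.odd_of_ne_two hl2
    have h5 : (1 : 𝓞 F) = (l : 𝓞 F) - 2 * (k : 𝓞 F) := by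
      rw [hk]
      push_cast
      ring
    apply hP.ne_top
    rw [Ideal.eq_top_iff_one, h5]
    exact L.sub_mem hlL (L.mul_mem_right _ h2)
  refine ⟨h2, ?_, ?_⟩
  · have h3 := hV.int 2
    have h4 := (not_congr (hV.lt 2)).2 h2
    rw [map_ofNat] at h3 h4
    exact le_antisymm h3 (not_lt.1 h4)
  · have h3 := (hV.lt (l : 𝓞 F)).2 hlL
    rwa [map_natCast] at h3

private theorem hdif (hV : VL V L) {σ : F ≃ₐ[k0] F} {n : ℕ} (h : ∀ x : 𝓞 F, ∃ y ∈ L,
    algebraMap (𝓞 F) F y = σ (algebraMap (𝓞 F) F x) - algebraMap (𝓞 F) F x ^ n) :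
    ∀ x : 𝓞 F, V (σ (algebraMap (𝓞 F) F x) - algebraMap (𝓞 F) F x ^ n) < 1 := by
  intro x
  obtain ⟨y, hy, e⟩ := h x
  rw [← e]
  exact (hV.lt y).2 hy

private theorem hn0 (hV : VL V L) {σ : F ≃ₐ[k0] F} {n : ℕ} (h : ∀ x : 𝓞 F, ∃ y ∈ L,
    algebraMap (𝓞 F) F y = σ (algebraMap (𝓞 F) F x) - algebraMap (𝓞 F) F x ^ n) : n ≠ 0 := by
  rintro rfl
  have h1 := hdif hV h 0
  rw [map_zero, map_zero, pow_zero, zero_sub, Valuation.map_neg, map_one] at h1
  exact lt_irrefl _ h1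

omit [NumberField F] in
private theorem eq_one_of {a b : F} (h1 : V (a - b) < 1) (h2 : V b = 1) : V a = 1 := by
  have h3 : a = (a - b) + b := by ring
  rw [h3, Valuation.map_add_eq_of_lt_right V (by rw [h2]; exact h1), h2]

theorem vl_red (hV : VL V L) {σ : F ≃ₐ[k0] F} {n : ℕ} (h : ∀ x : 𝓞 F, ∃ y ∈ L,
    algebraMap (𝓞 F) F y = σ (algebraMap (𝓞 F) F x) - algebraMap (𝓞 F) F x ^ n) :
    ∀ x : F, V x ≤ 1 → V (σ x) ≤ 1 ∧ V (σ x - x ^ n) < 1 := by
  have hP := hV.prime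
  have hn : n ≠ 0 := hn0 hV h
  have key := hdif hV h
  have hin : ∀ d : 𝓞 F, d ∉ L → V (algebraMap (𝓞 F) F d) = 1 := fun d hd =>
    le_antisymm (hV.int d) (not_lt.1 ((not_congr (hV.lt d)).2 hd))
  intro x hx
  rcases eq_or_ne x 0 with rfl | hx0
  · rw [map_zero, map_zero, zero_pow hn, sub_zero, map_zero]
    exact ⟨zero_le, zero_lt_one⟩
  obtain ⟨n0, d, hd0, hxd, hor⟩ := exists_frac hP x hx0
  have hVx : V x * V (algebraMap (𝓞 F) F d) = V (algebraMap (𝓞 F) F n0) := by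
    rw [← map_mul, hxd]
  have hd : d ∉ L := by
    intro hd
    have hn0L : n0 ∉ L := hor.resolve_right (not_not.2 hd)
    have h1 : V (algebraMap (𝓞 F) F d) < 1 := (hV.lt d).2 hd
    have h2 := hin n0 hn0L
    rw [h2] at hVx
    have h3 : V x * V (algebraMap (𝓞 F) F d) < 1 :=
      lt_of_le_of_lt (mul_le_of_le_one_left' hx) h1
    rw [hVx] at h3
    exact lt_irrefl _ h3
  have hd1 := hin d hd
  have hσd : V (σ (algebraMap (𝓞 F) F d)) = 1 := by
    have h1 : V (algebraMap (𝓞 F) F d ^ n) = 1 := by rw [map_pow, hd1, one_pow]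
    exact eq_one_of (key d) h1
  have hσn : V (σ (algebraMap (𝓞 F) F n0)) ≤ 1 := by
    have h1 : V (algebraMap (𝓞 F) F n0 ^ n) ≤ 1 := by
      rw [map_pow]
      exact pow_le_one' (hV.int n0) n
    have h2 : σ (algebraMap (𝓞 F) F n0) =
        (σ (algebraMap (𝓞 F) F n0) - algebraMap (𝓞 F) F n0 ^ n) + algebraMap (𝓞 F) F n0 ^ n := by
      ring
    rw [h2]
    exact W5.vle V (key n0).le h1
  have hσx : σ x * σ (algebraMap (𝓞 F) F d) = σ (algebraMap (𝓞 F) F n0) := by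
    rw [← map_mul, hxd]
  constructor
  · have h1 : V (σ x) * V (σ (algebraMap (𝓞 F) F d)) = V (σ (algebraMap (𝓞 F) F n0)) := by
      rw [← map_mul, hσx]
    rw [hσd, mul_one] at h1
    rw [h1]
    exact hσn
  · have e : (σ x - x ^ n) * (σ (algebraMap (𝓞 F) F d) * algebraMap (𝓞 F) F d ^ n) =
        algebraMap (𝓞 F) F d ^ n * (σ (algebraMap (𝓞 F) F n0) - algebraMap (𝓞 F) F n0 ^ n) +
          algebraMap (𝓞 F) F n0 ^ n * -(σ (algebraMap (𝓞 F) F d) - algebraMap (𝓞 F) F d ^ n) := by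
      rw [← hσx, ← hxd, mul_pow]
      ring
    have h1 : V ((σ x - x ^ n) * (σ (algebraMap (𝓞 F) F d) * algebraMap (𝓞 F) F d ^ n)) < 1 := by
      rw [e]
      apply W5.vlt V
      · apply W5.vltm V _ (key n0)
        rw [map_pow]
        exact pow_le_one' (hV.int d) n
      · apply W5.vltm V
        · rw [map_pow]
          exact pow_le_one' (hV.int n0) n
        · rw [Valuation.map_neg]
          exact key d
    rw [map_mul, map_mul, hσd, map_pow, hd1, one_pow, mul_one, mul_one] at h1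
    exact h1

theorem vl_gt (hV : VL V L) {σ : F ≃ₐ[k0] F} {n : ℕ} (hn : n ≠ 0) (h : ∀ x : 𝓞 F, ∃ y ∈ L,
    algebraMap (𝓞 F) F y = σ (algebraMap (𝓞 F) F x) - algebraMap (𝓞 F) F x ^ n) :
    ∀ x : F, 1 < V x → 1 < V (σ x) := by
  have hP := hV.prime
  have key := hdif hV h
  have hin : ∀ d : 𝓞 F, d ∉ L → V (algebraMap (𝓞 F) F d) = 1 := fun d hd =>
    le_antisymm (hV.int d) (not_lt.1 ((not_congr (hV.lt d)).2 hd))
  intro x hx
  have hx0 : x ≠ 0 := by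
    rintro rfl
    rw [map_zero] at hx
    exact absurd hx (not_lt.2 zero_le)
  obtain ⟨n0, d, hd0, hxd, hor⟩ := exists_frac hP x hx0
  have hVx : V x * V (algebraMap (𝓞 F) F d) = V (algebraMap (𝓞 F) F n0) := by
    rw [← map_mul, hxd]
  have hd : d ∈ L := by
    by_contra hd
    rw [hin d hd, mul_one] at hVx
    have h1 := hV.int n0
    rw [← hVx] at h1
    exact absurd hx (not_lt.2 h1)
  have hn0L : n0 ∉ L := hor.resolve_right (not_not.2 hd)
  have hσd : V (σ (algebraMap (𝓞 F) F d)) < 1 := by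
    have h1 : V (algebraMap (𝓞 F) F d ^ n) < 1 := by
      rw [map_pow]
      exact pow_lt_one' ((hV.lt d).2 hd) hn
    have h2 : σ (algebraMap (𝓞 F) F d) =
        (σ (algebraMap (𝓞 F) F d) - algebraMap (𝓞 F) F d ^ n) + algebraMap (𝓞 F) F d ^ n := by
      ring
    rw [h2]
    exact W5.vlt V (key d) h1
  have hσn : V (σ (algebraMap (𝓞 F) F n0)) = 1 := by
    have h1 : V (algebraMap (𝓞 F) F n0 ^ n) = 1 := by rw [map_pow, hin n0 hn0L, one_pow]
    exact eq_one_of (key n0) h1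
  have hσx : V (σ x) * V (σ (algebraMap (𝓞 F) F d)) = 1 := by
    rw [← map_mul, ← map_mul, hxd, hσn]
  by_contra hcon
  rw [not_lt] at hcon
  have h3 : V (σ x) * V (σ (algebraMap (𝓞 F) F d)) < 1 :=
    lt_of_le_of_lt (mul_le_of_le_one_left' hcon) hσd
  rw [hσx] at h3
  exact lt_irrefl _ h3

theorem gal_e1 {σ : F ≃ₐ[k0] F} (h : ∀ x : F, 1 < V x → 1 < V (σ x)) {R : (cQ F).Point}
    (hR : R ∈ W5.E1 V) : gal σ R ∈ W5.E1 V := by
  rcases pt_cases R with rfl | ⟨x, y, hxy, rfl⟩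
  · rw [map_zero]
    exact (W5.E1 V).zero_mem
  · rw [gal_pt, W5.pt_mem]
    exact h x (W5.pt_mem.1 hR)

theorem galA_ev {σ : F ≃ₐ[k0] F} (h : ∀ x : F, 1 < V x → 1 < V (σ x)) {x : QA F}
    (hx : x ∈ EV V) : galA σ x ∈ EV V := by
  obtain ⟨R, hR, rfl⟩ := AddSubgroup.mem_map.1 hx
  exact AddSubgroup.mem_map.2 ⟨gal σ R, gal_e1 h hR, rfl⟩

theorem vl_comap (hV : VL V L) (σ : F ≃ₐ[k0] F) :
    ∃ (V' : Valuation F Γ) (L' : Ideal (𝓞 F)), VL V' L' ∧
      (∀ n : ℕ, (n : 𝓞 F) ∈ L → (n : 𝓞 F) ∈ L') ∧ ∀ x, V' x = V (σ x) := by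
  have hP := hV.prime
  refine ⟨V.comap (σ : F →+* F),
    L.comap (RingOfIntegers.mapRingHom (σ : F →+* F) : 𝓞 F →+* 𝓞 F), ⟨?_, ?_, ?_⟩, ?_, ?_⟩
  · exact Ideal.comap_isPrime _ _
  · intro x
    exact hV.int (RingOfIntegers.mapRingHom (σ : F →+* F) x)
  · intro x
    rw [Ideal.mem_comap]
    exact hV.lt (RingOfIntegers.mapRingHom (σ : F →+* F) x)
  · intro n hn
    rw [Ideal.mem_comap, map_natCast]
    exact hn
  · intro x
    rfl

end Pool.Agent.Work.MP_8efaaa_nt.W14
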