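import Mathlib
import Pool.Agent.Work.MP_8efaaa_nt.W14.LVx

/-!
# W14/LSy (S-M): the quadratic character of `√2 - 2`

sym_field: let `K'` be an algebraic closure of `k` (characteristic `q` too). Choose `η ∈ K'` with `η ≠ 0` and `η^4 + 1 = -ρ η^2`: `ξ^2 + ρ ξ + 1 = 0` has a root `ξ ≠ 0` in `K'`, `η^2 = ξ`. Put `θ = η + η⁻¹`: `θ^2 = ξ + ξ⁻¹ + 2 = 2 - ρ`. `ξ^4 = -1`: `(ξ + ξ⁻¹)^2 = ρ^2 = 2`, so `ξ^2 + ξ^(-2) = 0`. So `η^8 = -1`.
`θ^q = η^q + η^(-q)` (Frobenius, `add_pow_char`). `q = 15 (mod 16)`: `η^q = η⁻¹` (`η^16 = 1`), `θ^q = θ`, `θ ≠ 0` (`θ^2 = 2 - ρ`, and `(2-ρ)(2+ρ) = 2 ≠ 0` as `q` is odd), so `(2-ρ)^((q-1)/2) = θ^(q-1) = 1`, and `(ρ-2)^((q-1)/2) = (-1)^((q-1)/2) = -1` (`(q-1)/2` odd).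
`q = 7 (mod 16)`: `η^q = η^7 = η^8 η⁻¹ = -η⁻¹`, `θ^q = -θ`, `(2-ρ)^((q-1)/2) = -1`, `(ρ-2)^((q-1)/2) = 1`.
sym_val: `ρ` is integral (`ρ^2 = 2`), `ρ = algebraMap r`, `r : 𝓞 F`. Apply sym_field in `k = 𝓞 F ⧸ L` (a field: `L` is prime and `≠ ⊥`, so maximal; characteristic `q` because `q ∈ L`; `CharP`: `CharP.of_prime...` or `CharP.quotient`), so `(r - 2)^((q-1)/2) ∓ 1 ∈ L`, `hV.lt`.
-/

set_option autoImplicit false

namespace Pool.Agent.Work.MP_8efaaa_nt.W14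

open NumberField Pool.Agent.Work.MP_8efaaa_nt.R Pool.Agent.Work.MP_8efaaa_nt.N5
  Pool.Agent.Work.MP_8efaaa_nt.K6
open scoped Classical nonZeroDivisors

private theorem lsy_theta {K' : Type*} [Field K'] {q : ℕ} [CharP K' q] (hq : q.Prime) (h2 : (2 : K') ≠ 0)
    {ρ ξ η : K'} (hρ : ρ ^ 2 = 2) (hξ : ξ ^ 2 + ρ * ξ + 1 = 0) (hη : η ^ 2 = ξ) :
    (q % 16 = 7 → (ρ - 2) ^ ((q - 1) / 2) = 1) ∧ (q % 16 = 15 → (ρ - 2) ^ ((q - 1) / 2) = -1) := by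
  have hξ0 : ξ ≠ 0 := by
    rintro rfl
    simp at hξ
  have hη0 : η ≠ 0 := by
    rintro rfl
    apply hξ0
    rw [← hη]
    simp
  have hξ4 : ξ ^ 4 = -1 := by
    have h1 : (ξ ^ 2 + 1) ^ 2 = ρ ^ 2 * ξ ^ 2 := by
      have : ξ ^ 2 + 1 = -(ρ * ξ) := by linear_combination hξ
      rw [this]
      ring
    rw [hρ] at h1
    linear_combination h1
  have hη8 : η ^ 8 = -1 := by
    have : η ^ 8 = (η ^ 2) ^ 4 := by ring
    rw [this, hη, hξ4]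
  have hη16 : η ^ 16 = 1 := by
    have : η ^ 16 = (η ^ 8) ^ 2 := by ring
    rw [this, hη8]
    norm_num
  set θ : K' := η + η⁻¹ with hθ
  have hθ2 : θ ^ 2 = 2 - ρ := by
    have h1 : η * η⁻¹ = 1 := mul_inv_cancel₀ hη0
    have h2 : ξ + ξ⁻¹ = -ρ := by
      field_simp
      linear_combination hξ
    have h3 : (η⁻¹) ^ 2 = ξ⁻¹ := by rw [inv_pow, hη]
    calc θ ^ 2 = η ^ 2 + (η⁻¹) ^ 2 + 2 * (η * η⁻¹) := by rw [hθ]; ring
      _ = ξ + ξ⁻¹ + 2 := by rw [hη, h3, h1]; ring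
      _ = 2 - ρ := by rw [h2]; ring
  have hθ0 : θ ≠ 0 := by
    intro h
    rw [h] at hθ2
    have h1 : ρ = 2 := by linear_combination hθ2
    rw [h1] at hρ
    apply h2
    linear_combination hρ
  haveI := Fact.mk hq
  have hfr : θ ^ q = η ^ q + (η⁻¹) ^ q := by
    rw [hθ, add_pow_char]
  have key : θ ^ (q - 1) * θ = θ ^ q := by
    rw [← pow_succ]
    congr 1
    have := hq.pos
    omega
  constructor
  · intro h7
    obtain ⟨m, rfl⟩ : ∃ m, q = 16 * m + 7 := ⟨q / 16, by omega⟩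
    have e1 : η ^ (16 * m + 7) = -η⁻¹ := by
      rw [pow_add, pow_mul, hη16, one_pow, one_mul]
      field_simp
      linear_combination hη8
    have e2 : (η⁻¹) ^ (16 * m + 7) = -η := by
      rw [inv_pow, e1, inv_neg, inv_inv]
    have e3 : θ ^ (16 * m + 7) = -θ := by
      rw [hfr, e1, e2, hθ]
      ring
    have e4 : θ ^ (16 * m + 7 - 1) = -1 := by
      apply mul_right_cancel₀ hθ0
      rw [key, e3]
      ring
    have e5 : (16 * m + 7 - 1) / 2 = 8 * m + 3 := by omega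
    have e6 : 16 * m + 7 - 1 = 2 * (8 * m + 3) := by omega
    rw [e6, pow_mul, hθ2] at e4
    rw [e5]
    have e7 : ρ - 2 = (-1) * (2 - ρ) := by ring
    rw [e7, mul_pow, e4, Odd.neg_one_pow ⟨4 * m + 1, by ring⟩]
    norm_num
  · intro h15
    obtain ⟨m, rfl⟩ : ∃ m, q = 16 * m + 15 := ⟨q / 16, by omega⟩
    have e1 : η ^ (16 * m + 15) = η⁻¹ := by
      rw [pow_add, pow_mul, hη16, one_pow, one_mul]
      field_simp
      linear_combination hη16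
    have e2 : (η⁻¹) ^ (16 * m + 15) = η := by
      rw [inv_pow, e1, inv_inv]
    have e3 : θ ^ (16 * m + 15) = θ := by
      rw [hfr, e1, e2, hθ]
      ring
    have e4 : θ ^ (16 * m + 15 - 1) = 1 := by
      apply mul_right_cancel₀ hθ0
      rw [key, e3]
      ring
    have e5 : (16 * m + 15 - 1) / 2 = 8 * m + 7 := by omega
    have e6 : 16 * m + 15 - 1 = 2 * (8 * m + 7) := by omega
    rw [e6, pow_mul, hθ2] at e4
    rw [e5]
    have e7 : ρ - 2 = (-1) * (2 - ρ) := by ring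
    rw [e7, mul_pow, e4, Odd.neg_one_pow ⟨4 * m + 3, by ring⟩]
    norm_num

private theorem lsy_root {K' : Type*} [Field K'] (h2 : (2 : K') ≠ 0) {ρ δ : K'}
    (hδ : δ ^ 2 = ρ ^ 2 - 4) : ((-ρ + δ) / 2) ^ 2 + ρ * ((-ρ + δ) / 2) + 1 = 0 := by
  field_simp
  linear_combination hδ

theorem sym_field {k : Type*} [Field k] {q : ℕ} [CharP k q] (hq : q.Prime) {ρ : k}
    (hρ : ρ ^ 2 = 2) : (q % 16 = 7 → (ρ - 2) ^ ((q - 1) / 2) = 1) ∧
      (q % 16 = 15 → (ρ - 2) ^ ((q - 1) / 2) = -1) := by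
  have hq2 : q % 16 = 7 ∨ q % 16 = 15 ∨ ¬ (q % 16 = 7 ∨ q % 16 = 15) := by tauto
  by_cases hq' : q % 16 = 7 ∨ q % 16 = 15
  swap
  · exact ⟨fun h => absurd (Or.inl h) hq', fun h => absurd (Or.inr h) hq'⟩
  let K' := AlgebraicClosure k
  haveI : CharP K' q := charP_of_injective_algebraMap (algebraMap k K').injective q
  have h2 : (2 : K') ≠ 0 := by
    intro h
    have h3 : ((2 : ℕ) : K') = 0 := by exact_mod_cast h
    rw [CharP.cast_eq_zero_iff K' q] at h3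
    have h4 := Nat.le_of_dvd (by norm_num) h3
    have h5 := hq.two_le
    omega
  have hρ' : (algebraMap k K' ρ) ^ 2 = 2 := by
    rw [← map_pow, hρ, map_ofNat]
  obtain ⟨δ, hδ⟩ := IsAlgClosed.exists_pow_nat_eq ((algebraMap k K' ρ) ^ 2 - 4) (n := 2) (by norm_num)
  obtain ⟨η, hη⟩ := IsAlgClosed.exists_pow_nat_eq ((-(algebraMap k K' ρ) + δ) / 2) (n := 2) (by norm_num)
  have hξ : ((-(algebraMap k K' ρ) + δ) / 2) ^ 2 + (algebraMap k K' ρ) * ((-(algebraMap k K' ρ) + δ) / 2) + 1 = 0 :=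
    lsy_root h2 hδ
  obtain ⟨a1, a2⟩ := lsy_theta hq h2 hρ' hξ hη
  have hinj := (algebraMap k K').injective
  constructor
  · intro h
    apply hinj
    rw [map_pow, map_sub, map_ofNat, a1 h, map_one]
  · intro h
    apply hinj
    rw [map_pow, map_sub, map_ofNat, a2 h, map_neg, map_one]

theorem sym_val {F : Type*} [Field F] [NumberField F] {Γ : Type*}
    [LinearOrderedCommGroupWithZero Γ] {V : Valuation F Γ} {L : Ideal (𝓞 F)} (hV : VL V L) {q : ℕ}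
    (hq : q.Prime) (hqL : (q : 𝓞 F) ∈ L) {ρ : F} (hρ : ρ ^ 2 = 2) :
    (q % 16 = 7 → V ((ρ - 2) ^ ((q - 1) / 2) - 1) < 1) ∧
      (q % 16 = 15 → V ((ρ - 2) ^ ((q - 1) / 2) + 1) < 1) := by
  haveI := hV.prime
  have hq0 : (q : 𝓞 F) ≠ 0 := by exact_mod_cast hq.ne_zero
  have hL0 : L ≠ ⊥ := by
    rintro rfl
    exact hq0 (Ideal.mem_bot.1 hqL)
  haveI hmax : L.IsMaximal := hV.prime.isMaximal hL0
  letI : Field (𝓞 F ⧸ L) := Ideal.Quotient.field L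
  have hρi : IsIntegral ℤ ρ := by
    refine ⟨Polynomial.X ^ 2 - Polynomial.C 2, ?_, ?_⟩
    · exact Polynomial.monic_X_pow_sub_C _ (by norm_num)
    · simp [hρ]
  obtain ⟨r, hr⟩ : ∃ r : 𝓞 F, algebraMap (𝓞 F) F r = ρ := ⟨⟨ρ, hρi⟩, rfl⟩
  have hr2 : r ^ 2 = 2 := by
    apply FaithfulSMul.algebraMap_injective (𝓞 F) F
    rw [map_pow, hr, hρ, map_ofNat]
  have hq0' : ((q : ℕ) : 𝓞 F ⧸ L) = 0 := by
    rw [← map_natCast (Ideal.Quotient.mk L), Ideal.Quotient.eq_zero_iff_mem]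
    exact hqL
  haveI : CharP (𝓞 F ⧸ L) q := by
    obtain ⟨c, hc⟩ := CharP.exists (𝓞 F ⧸ L)
    have h1 : c ∣ q := (CharP.cast_eq_zero_iff (𝓞 F ⧸ L) c q).1 hq0'
    rcases (Nat.dvd_prime hq).1 h1 with h2 | h2
    · exfalso
      rw [h2] at hc
      have h3 : ((1 : ℕ) : 𝓞 F ⧸ L) = 0 := (CharP.cast_eq_zero_iff (𝓞 F ⧸ L) 1 1).2 dvd_rfl
      rw [Nat.cast_one] at h3
      exact one_ne_zero h3
    · rwa [h2] at hc
  have hρk : (Ideal.Quotient.mk L r) ^ 2 = 2 := by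
    rw [← map_pow, hr2, map_ofNat]
  obtain ⟨a1, a2⟩ := sym_field (k := 𝓞 F ⧸ L) hq hρk
  constructor
  · intro h
    have h1 := a1 h
    rw [← map_ofNat (Ideal.Quotient.mk L) 2, ← map_sub, ← map_pow, ← map_one (Ideal.Quotient.mk L),
      Ideal.Quotient.eq] at h1
    have h2 := (hV.lt _).2 h1
    have h3 : algebraMap (𝓞 F) F ((r - 2) ^ ((q - 1) / 2) - 1) = (ρ - 2) ^ ((q - 1) / 2) - 1 := by
      rw [map_sub, map_pow, map_sub, hr, map_ofNat, map_one]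
    rw [← h3]
    exact h2
  · intro h
    have h1 := a2 h
    rw [← map_ofNat (Ideal.Quotient.mk L) 2, ← map_sub, ← map_pow, ← map_one (Ideal.Quotient.mk L),
      ← map_neg, Ideal.Quotient.eq] at h1
    have h2 := (hV.lt _).2 h1
    have h3 : algebraMap (𝓞 F) F ((r - 2) ^ ((q - 1) / 2) - -1) = (ρ - 2) ^ ((q - 1) / 2) + 1 := by
      rw [map_sub, map_pow, map_sub, hr, map_ofNat, map_neg, map_one, sub_neg_eq_add]
    rw [← h3]
    exact h2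

end Pool.Agent.Work.MP_8efaaa_nt.W14
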