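import Mathlib
import Pool.Agent.Work.MP_8efaaa_nt.W14.PGa

/-!
# W14/LTo (S-M): torsion and the kernel of reduction modulo `(1, 0)`

qm_mem: `QuotientAddGroup` : `qm R ∈ (E1 V).map qm` iff there is `R' ∈ E1 V` with `qm R = qm R'`, i.e. (`qm_eq_zero`) `R - R' = 0` or `R - R' = ep`; `R' = R` or `R' = R - ep = R + ep` (`ep + ep = 0`).
ev_tors: `e = qm R`, `R ∈ E1 V`. `2^n • e = qm (2^n • R) = 0`, so `2^n • R` is `0` or `ep` (`qm_eq_zero`), `2^(n+1) • R = 0`, `R = 0` by `W5.two_pow_tors`.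
m1_nmem: `m1 = qm em`; by `qm_mem` `em ∈ E1 V` or `em + ep = ez ∈ E1 V` (`two_ep`); but `V (-1) = 1` and `V 0 = 0` (`W5.pt_mem`).
em_nmem: the same.
-/

set_option autoImplicit false

namespace Pool.Agent.Work.MP_8efaaa_nt.W14

open NumberField Pool.Agent.Work.MP_8efaaa_nt.R Pool.Agent.Work.MP_8efaaa_nt.N5
  Pool.Agent.Work.MP_8efaaa_nt.K6
open scoped Classical nonZeroDivisors

variable {F : Type*} [Field F] [CharZero F] {Γ : Type*} [LinearOrderedCommGroupWithZero Γ]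
  {V : Valuation F Γ}

private theorem nmem_em : em F ∉ W5.E1 V := by
  unfold em
  rw [W5.pt_mem, Valuation.map_neg, map_one]
  exact lt_irrefl _

private theorem nmem_ez : ez F ∉ W5.E1 V := by
  unfold ez
  rw [W5.pt_mem, map_zero]
  exact not_lt.2 zero_le

private theorem nmem_ep : ep F ∉ W5.E1 V := by
  unfold ep
  rw [W5.pt_mem, map_one]
  exact lt_irrefl _

theorem qm_mem {R : (cQ F).Point} : qm R ∈ EV V ↔ R ∈ W5.E1 V ∨ R + ep F ∈ W5.E1 V := by
  unfold EV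
  rw [AddSubgroup.mem_map]
  constructor
  · rintro ⟨R', hR', e⟩
    have h1 : qm (R' - R) = 0 := by rw [map_sub, e, sub_self]
    rcases qm_eq_zero.1 h1 with h2 | h2
    · left
      rw [← sub_eq_zero.1 h2]
      exact hR'
    · right
      rw [← h2, add_sub_cancel]
      exact hR'
  · rintro (h | h)
    · exact ⟨R, h, rfl⟩
    · refine ⟨R + ep F, h, ?_⟩
      rw [map_add, qm_ep.1, add_zero]

theorem ev_tors {e : QA F} (he : e ∈ EV V) {n : ℕ} (h : ((2 : ℤ) ^ n) • e = 0) : e = 0 := by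
  unfold EV at he
  rw [AddSubgroup.mem_map] at he
  obtain ⟨R, hR, rfl⟩ := he
  rw [← map_zsmul] at h
  have h2 : ((2 : ℤ) ^ (n + 1)) • R = 0 := by
    rw [pow_succ', mul_smul, two_zsmul]
    rcases qm_eq_zero.1 h with h3 | h3
    · rw [h3, add_zero]
    · rw [h3]
      exact two_ep.1
  rw [W5.two_pow_tors hR (n + 1) h2, map_zero]

theorem m1_nmem : m1 F ∉ EV V := by
  unfold m1
  rw [qm_mem]
  rintro (h | h)
  · exact nmem_em h
  · rw [add_comm, two_ep.2.2.2.1] at h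
    exact nmem_ez h

theorem two_nmem : em F ∉ W5.E1 V ∧ ez F ∉ W5.E1 V ∧ ep F ∉ W5.E1 V :=
  ⟨nmem_em, nmem_ez, nmem_ep⟩

end Pool.Agent.Work.MP_8efaaa_nt.W14
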