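import Mathlib
import Pool.Agent.Work.MP_8efaaa_nt.W14.PGa

/-!
# W14/LTw (S-M): the points `T` with `2 T = (-1, 0)`

it_coord: `T ≠ 0`, `T = pt x y`, `y ≠ 0` (otherwise `2 T = 0`). `W5.dbl_pt`: `-1 (2y)^2 = (x^2+1)^2`, `y^2 = x^3 - x`: `(x^2 + 2x - 1)^2 = 0`, so `(x+1)^2 = 2`, and `y^2 = x (x^2 - 1) = x (-2x) = -2 x^2`.
frob_it: `φ ζ = ζ^7`: `V (φ ζ - ζ^l) < 1`, `ζ^l = ζ^7` (`l = 7 (mod 8)`, `ζ^8 = 1`), `φ ζ = ζ^j` for an odd `j < 8` (`(φ ζ)^4 = -1`; the fourth roots of `-1` are `ζ, ζ^3, ζ^5, ζ^7`), and `ζ^j - ζ^7` has valuation `1` if `j ≠ 7` (its norm form divides a power of `2`: `ζ^j - ζ^7 = ζ^7 (ζ^m - 1)`, `m` even, `1 - ζ^m`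
divides `2`; `V 2 = 1`, `V ζ = 1`; see also N5/DFix.lean `inert_zeta`). `r0 = ζ + ζ^7`, `r0^2 = 2`, `φ r0 = ζ^7 + ζ^49 = r0`; `j0 = ζ + ζ^3`, `j0^2 = -2`, `φ j0 = ζ^7 + ζ^21 = -j0`. `x + 1 = ± r0`, so `φ x = x`; `y = ± j0 x`, so `φ y = -y`: `gal φ T = -T` (`gal_pt`, `W5.neg_pt`).
-/

set_option autoImplicit false

namespace Pool.Agent.Work.MP_8efaaa_nt.W14

open NumberField Pool.Agent.Work.MP_8efaaa_nt.R Pool.Agent.Work.MP_8efaaa_nt.N5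
  Pool.Agent.Work.MP_8efaaa_nt.K6
open scoped Classical nonZeroDivisors

theorem it_coord {F : Type*} [Field F] [CharZero F] {T : (cQ F).Point} (hT : T + T = em F) :
    ∃ (x y : F) (h : y ^ 2 = x ^ 3 - x), T = pt x y h ∧ (x + 1) ^ 2 = 2 ∧ y ^ 2 = -2 * x ^ 2 := by
  rcases pt_cases T with rfl | ⟨x, y, h, rfl⟩
  · exfalso
    rw [add_zero] at hT
    exact pt_ne _ hT.symm
  have hy : y ≠ 0 := by
    rintro rfl
    have h1 : -(pt x 0 h) = pt x 0 h := by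
      rw [W5.neg_pt, pt_inj]
      exact ⟨rfl, neg_zero⟩
    have h2 : pt x 0 h + pt x 0 h = 0 := by
      nth_rewrite 2 [← h1]
      exact add_neg_cancel _
    rw [h2] at hT
    exact pt_ne _ hT.symm
  obtain ⟨x3, y3, h3, e1, e2⟩ := W5.dbl_pt h hy
  rw [e1] at hT
  unfold em at hT
  rw [pt_inj] at hT
  have h4 : (x ^ 2 + 2 * x - 1) ^ 2 = 0 := by
    rw [hT.1] at e2
    linear_combination -e2 - 4 * h
  have h5 : x ^ 2 + 2 * x - 1 = 0 := (pow_eq_zero_iff two_ne_zero).1 h4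
  refine ⟨x, y, h, rfl, ?_, ?_⟩
  · linear_combination h5
  · linear_combination h + x * h5

theorem frob_it {F : Type*} [Field F] [CharZero F] {Γ : Type*}
    [LinearOrderedCommGroupWithZero Γ] {V : Valuation F Γ} (hV2 : V 2 = 1) {k0 : Type*} [Field k0]
    [Algebra k0 F] {ζ : F} (hz : ζ ^ 4 = -1) {φ : F ≃ₐ[k0] F} {l : ℕ} (hl : l % 8 = 7)
    (hφ : ∀ x : F, V x ≤ 1 → V (φ x) ≤ 1 ∧ V (φ x - x ^ l) < 1) {T : (cQ F).Point}
    (hT : T + T = em F) : gal φ T = -T := by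
  obtain ⟨x, y, h, rfl, hx, hy⟩ := it_coord hT
  have hVz4 : V ζ ^ 4 = 1 := by
    rw [← map_pow, hz, Valuation.map_neg, map_one]
  have hVz : V ζ = 1 := by
    rcases lt_trichotomy (V ζ) 1 with h1 | h1 | h1
    · exact absurd hVz4 (ne_of_lt (pow_lt_one₀ zero_le h1 (by norm_num)))
    · exact h1
    · exact absurd hVz4 (ne_of_gt (one_lt_pow₀ h1 (by norm_num)))
  obtain ⟨hφ1, hφ2⟩ := hφ ζ hVz.le
  have hzl : ζ ^ l = -ζ ^ 3 := by
    obtain ⟨n, hn⟩ : ∃ n, l = 8 * n + 7 := ⟨l / 8, by omega⟩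
    have h8 : ζ ^ 8 = 1 := by linear_combination (ζ ^ 4 - 1) * hz
    rw [hn, pow_add, pow_mul, h8, one_pow, one_mul]
    linear_combination ζ ^ 3 * hz
  rw [hzl] at hφ2
  set w := φ ζ with hw
  have hw4 : w ^ 4 = -1 := by
    rw [hw, ← map_pow, hz, map_neg, map_one]
  -- the square of the difference of the cubes
  have hVzp : ∀ n : ℕ, V (ζ ^ n) = 1 := fun n => by rw [map_pow, hVz, one_pow]
  have hwp : ∀ n : ℕ, V (w ^ n) ≤ 1 := fun n => by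
    rw [map_pow]; exact pow_le_one₀ zero_le hφ1
  have hcube : V (w ^ 3 - -ζ) < 1 := by
    have h1 : w ^ 3 - -ζ = (w ^ 2 + w * (-ζ ^ 3) + ζ ^ 6) * (w - -ζ ^ 3) := by
      have h2 : (-ζ ^ 3) ^ 3 = -ζ := by linear_combination (-ζ ^ 5 + ζ) * hz
      linear_combination h2
    rw [h1]
    refine W5.vltm V ?_ hφ2
    refine W5.vle V (W5.vle V (hwp 2) (W5.vlem V hφ1 ?_)) ?_
    · rw [Valuation.map_neg, hVzp]
    · rw [hVzp]
  -- the square roots of `2` and `-2`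
  have hr2 : (ζ - ζ ^ 3) ^ 2 = 2 := by linear_combination (ζ ^ 2 - 2) * hz
  have hj2 : (ζ + ζ ^ 3) ^ 2 = -2 := by linear_combination (ζ ^ 2 + 2) * hz
  have hVr : V (ζ - ζ ^ 3) = 1 := by
    have h1 : V (ζ - ζ ^ 3) ^ 2 = 1 := by rw [← map_pow, hr2, hV2]
    rcases lt_trichotomy (V (ζ - ζ ^ 3)) 1 with h2 | h2 | h2
    · exact absurd h1 (ne_of_lt (pow_lt_one₀ zero_le h2 (by norm_num)))
    · exact h2
    · exact absurd h1 (ne_of_gt (one_lt_pow₀ h2 (by norm_num)))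
  have hVj : V (ζ + ζ ^ 3) = 1 := by
    have h1 : V (ζ + ζ ^ 3) ^ 2 = 1 := by rw [← map_pow, hj2, Valuation.map_neg, hV2]
    rcases lt_trichotomy (V (ζ + ζ ^ 3)) 1 with h2 | h2 | h2
    · exact absurd h1 (ne_of_lt (pow_lt_one₀ zero_le h2 (by norm_num)))
    · exact h2
    · exact absurd h1 (ne_of_gt (one_lt_pow₀ h2 (by norm_num)))
  have hr : φ (ζ - ζ ^ 3) = ζ - ζ ^ 3 := by
    have h1 : (φ (ζ - ζ ^ 3)) ^ 2 = (ζ - ζ ^ 3) ^ 2 := by rw [← map_pow, hr2, map_ofNat]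
    rcases sq_eq_sq_iff_eq_or_eq_neg.mp h1 with h2 | h2
    · exact h2
    · exfalso
      have h3 : V (φ (ζ - ζ ^ 3) - (ζ - ζ ^ 3)) < 1 := by
        have h4 : φ (ζ - ζ ^ 3) - (ζ - ζ ^ 3) = (w - -ζ ^ 3) + -(w ^ 3 - -ζ) := by
          rw [map_sub, map_pow, ← hw]
          ring
        rw [h4]
        exact W5.vlt V hφ2 (by rw [Valuation.map_neg]; exact hcube)
      rw [h2, show -(ζ - ζ ^ 3) - (ζ - ζ ^ 3) = -(2 * (ζ - ζ ^ 3)) by ring, Valuation.map_neg,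
        map_mul, hV2, hVr, one_mul] at h3
      exact lt_irrefl _ h3
  have hj : φ (ζ + ζ ^ 3) = -(ζ + ζ ^ 3) := by
    have h1 : (φ (ζ + ζ ^ 3)) ^ 2 = (ζ + ζ ^ 3) ^ 2 := by rw [← map_pow, hj2, map_neg, map_ofNat]
    rcases sq_eq_sq_iff_eq_or_eq_neg.mp h1 with h2 | h2
    · exfalso
      have h3 : V (φ (ζ + ζ ^ 3) - -(ζ + ζ ^ 3)) < 1 := by
        have h4 : φ (ζ + ζ ^ 3) - -(ζ + ζ ^ 3) = (w - -ζ ^ 3) + (w ^ 3 - -ζ) := by
          rw [map_add, map_pow, ← hw]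
          ring
        rw [h4]
        exact W5.vlt V hφ2 hcube
      rw [h2, show (ζ + ζ ^ 3) - -(ζ + ζ ^ 3) = 2 * (ζ + ζ ^ 3) by ring,
        map_mul, hV2, hVj, one_mul] at h3
      exact lt_irrefl _ h3
    · exact h2
  have hφx : φ x = x := by
    have h1 : (x + 1) ^ 2 = (ζ - ζ ^ 3) ^ 2 := by rw [hx, hr2]
    rcases sq_eq_sq_iff_eq_or_eq_neg.mp h1 with h2 | h2
    · have h3 := congrArg φ h2
      rw [hr, map_add, map_one] at h3
      linear_combination h3 - h2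
    · have h3 := congrArg φ h2
      rw [map_neg, hr, map_add, map_one] at h3
      linear_combination h3 - h2
  have hφy : φ y = -y := by
    have h1 : y ^ 2 = ((ζ + ζ ^ 3) * x) ^ 2 := by rw [hy, mul_pow, hj2]
    rcases sq_eq_sq_iff_eq_or_eq_neg.mp h1 with h2 | h2
    · have h3 := congrArg φ h2
      rw [map_mul, hj, hφx] at h3
      linear_combination h3 + h2
    · have h3 := congrArg φ h2
      rw [map_neg, map_mul, hj, hφx] at h3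
      linear_combination h3 + h2
  rw [gal_pt, W5.neg_pt, pt_inj]
  exact ⟨hφx, hφy⟩

end Pool.Agent.Work.MP_8efaaa_nt.W14
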