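import Mathlib
import Pool.Agent.Work.MP_8efaaa_nt.W14.LTo
import Pool.Agent.Work.MP_8efaaa_nt.W14.LSy
import Pool.Agent.Work.MP_8efaaa_nt.W14.LTw
import Pool.Agent.Work.MP_8efaaa_nt.W14.LEp
import Pool.Agent.Work.MP_8efaaa_nt.W14.LVx

/-!
# W14/LLo (M-L): the local lemma

`V 2 = 1` (`vl_odd`). `T = pt xT yT`, `ρ := xT + 1`, `ρ^2 = 2`, `yT^2 = -2 xT^2` (`it_coord`); `V ρ = 1`, `V xT ≤ 1`. `(ρ - 2)(-ρ - 2) = 2`, so `V (ρ - 2) = 1`.
1. `h ∉ E1 V`: otherwise `T = 2h - (2h - T) ∈ E1 V`, `T + T = em ∈ E1 V`, but `em ∉ E1 V` (`two_nmem`). So `h = pt x y`, `V x ≤ 1`, `V y ≤ 1` (`W5.v_y`).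
2. `2h = pt x2 y2` is integral (`W5.int_of_sub_mem` from `T`), `V (x2 - xT) < 1` (`W5.x_of_sub_mem`). `y ≠ 0`, `x2 (2y)^2 = (x^2+1)^2` (`W5.dbl_pt`). `V y = 1`: if `V y < 1` then `V (x^2+1) < 1`, but `y^2 = x (x^2 - 1) = x (x^2 + 1) - 2x` and `V x = 1` (`x^2 = -1` modulo `V`), contradiction.
So `x`, `x - 1`, `x + 1` have valuation `1` (`y^2` is their product, all `≤ 1`).
3. `A := (x^2 - 2x - 1)/(2y)`, `A^2 = x2 - 1` (`(x^2+1)^2 - 4 y^2 = (x^2-2x-1)^2`), so `V (A^2 - (ρ - 2)) < 1`, `V A = 1`.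
4. `V (φ A - A^q) < 1`, `A^q = A (A^2)^((q-1)/2)`, `V ((A^2)^n - (ρ-2)^n) < 1`, `sym_val`: `V (φ A - A) < 1` if `q = 7 (mod 16)`, `V (φ A + A) < 1` if `q = 15 (mod 16)`.
5. `u := h + gal φ h`. `u + u = (2h - T) + gal φ (2h - T) + (T + gal φ T)`, the last one is `0` (`frob_it`), `gal_e1`: `u + u ∈ E1 V`. `ep_cases`: `u - ε ∈ E1 V` with `ε ∈ {0, ep, em, ez}`, i.e. `gal φ h - (ε - h) ∈ E1 V`.
6. With `sub_coord` (for `ε = 0`: `-h = pt x (-y)`): let `ε - h = pt x' y'`, `A' := (x'^2 - 2x' - 1)/(2y')`. `ε = 0`: `A' = -A`; `ε = ep`: `x'^2-2x'-1 = -2 (x^2-2x-1)/(x-1)^2`, `A' = -A`; `ε = ez`: `A' = A`; `ε = em`: `x'^2-2x'-1 = (2x^2-4x-2)/(x+1)^2`, `A' = A`.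
`gal φ h = pt (φ x) (φ y)`, `V (φ x - x') < 1`, `V (φ y - y') < 1` (`W5.x_of_sub_mem`, `y_of_sub_mem`; `x'` is integral), `V y' = 1`, so `V (φ A - A') < 1` (`φ A = ((φ x)^2 - 2 φ x - 1)/(2 φ y)`).
7. `q = 15`: if `ε ∈ {em, ez}`, `V (φ A - A) < 1` and `V (φ A + A) < 1`, so `V (2A) < 1`, contradiction. `q = 7`: the same for `ε ∈ {0, ep}`.

loc: `x = qm T`, `y = qm h`. `qm (h + h - T) ∈ EV V`: by `qm_mem` `h + h - T ∈ E1 V` or `h + h - T + ep ∈ E1 V`; in the second case replace `T` by `T - ep = T + ep` (`(T + ep) + (T + ep) = em`; `qm` is the same). Apply loc_pt; `qm ε` is `0` for `0`, `ep` and `m1` for `em`, `ez` (`qm_ep`). `q % 16` is `7` or `15`.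
-/

set_option autoImplicit false

namespace Pool.Agent.Work.MP_8efaaa_nt.W14

open NumberField Pool.Agent.Work.MP_8efaaa_nt.R Pool.Agent.Work.MP_8efaaa_nt.N5
  Pool.Agent.Work.MP_8efaaa_nt.K6
open scoped Classical nonZeroDivisors

variable {F : Type*} [Field F] [NumberField F] {Γ : Type*} [LinearOrderedCommGroupWithZero Γ]
  {V : Valuation F Γ} {L : Ideal (𝓞 F)} {k0 : Type*} [Field k0] [Algebra k0 F]

omit [NumberField F] in
private theorem v_of_sub {a b : F} (h1 : V (a - b) < 1) (h2 : V b = 1) : V a = 1 := by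
  have h3 : a = (a - b) + b := by ring
  rw [h3, Valuation.map_add_eq_of_lt_right V (by rw [h2]; exact h1), h2]

omit [NumberField F] in
private theorem v_prod {a b : F} (ha : V a ≤ 1) (hb : V b ≤ 1) (h : V (a * b) = 1) :
    V a = 1 ∧ V b = 1 := by
  rw [map_mul] at h
  constructor
  · by_contra h1
    have h2 : V a < 1 := lt_of_le_of_ne ha h1
    have h3 : V a * V b < 1 := by
      calc V a * V b ≤ V a * 1 := by gcongr
        _ = V a := mul_one _
        _ < 1 := h2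
    exact absurd h (ne_of_lt h3)
  · by_contra h1
    have h2 : V b < 1 := lt_of_le_of_ne hb h1
    have h3 : V a * V b < 1 := by
      calc V a * V b ≤ 1 * V b := by gcongr
        _ = V b := one_mul _
        _ < 1 := h2
    exact absurd h (ne_of_lt h3)

omit [NumberField F] in
private theorem v_sqrt {a : F} (h : V (a ^ 2) = 1) : V a = 1 := by
  rw [map_pow] at h
  rcases lt_trichotomy (V a) 1 with h1 | h1 | h1
  · exact absurd h (ne_of_lt (pow_lt_one₀ zero_le h1 (by norm_num)))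
  · exact h1
  · exact absurd h (ne_of_gt (one_lt_pow₀ h1 (by norm_num)))

omit [NumberField F] in
private theorem v_powsub {a b : F} (ha : V a ≤ 1) (hb : V b ≤ 1) (h : V (a - b) < 1) (n : ℕ) :
    V (a ^ n - b ^ n) < 1 := by
  induction n with
  | zero => rw [pow_zero, pow_zero, sub_self, map_zero]; exact zero_lt_one
  | succ n ih =>
    rw [show a ^ (n + 1) - b ^ (n + 1) = a ^ n * (a - b) + b * (a ^ n - b ^ n) by ring]
    refine W5.vlt V (W5.vltm V ?_ h) (W5.vltm V hb ih)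
    rw [map_pow]
    exact pow_le_one₀ zero_le ha

omit [NumberField F] in
private theorem v_A (hV2 : V 2 = 1) {X Y X1 Y1 : F} (hX : V X ≤ 1) (hY : V Y = 1)
    (h1 : V (X1 - X) < 1) (h2 : V (Y1 - Y) < 1) :
    V ((X1 ^ 2 - 2 * X1 - 1) / (2 * Y1) - (X ^ 2 - 2 * X - 1) / (2 * Y)) < 1 := by
  have hY1 : V Y1 = 1 := v_of_sub h2 hY
  have h20 : (2 : F) ≠ 0 := by
    intro h0
    rw [h0, map_zero] at hV2
    exact zero_ne_one hV2
  have hY0 : Y ≠ 0 := by
    rintro rfl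
    rw [map_zero] at hY
    exact zero_ne_one hY
  have hY10 : Y1 ≠ 0 := by
    rintro rfl
    rw [map_zero] at hY1
    exact zero_ne_one hY1
  have hX1 : V X1 ≤ 1 := by
    rw [show X1 = (X1 - X) + X by ring]
    exact W5.vle V h1.le hX
  have e : (X1 ^ 2 - 2 * X1 - 1) / (2 * Y1) - (X ^ 2 - 2 * X - 1) / (2 * Y) =
      ((X1 + X + -2) * Y * (X1 - X) + (-(X ^ 2 - 2 * X - 1)) * (Y1 - Y)) / (2 * (Y1 * Y)) := by
    field_simp
    ring
  have hd : V (2 * (Y1 * Y)) = 1 := by rw [map_mul, map_mul, hV2, hY1, hY, one_mul, one_mul]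
  rw [e, map_div₀, hd, div_one]
  have hm2 : V (-2 : F) ≤ 1 := by rw [Valuation.map_neg, hV2]
  refine W5.vlt V (W5.vltm V (W5.vlem V (W5.vle V (W5.vle V hX1 hX) hm2) hY.le) h1)
    (W5.vltm V ?_ h2)
  rw [Valuation.map_neg, show X ^ 2 - 2 * X - 1 = (X * X + -2 * X) + -1 by ring]
  refine W5.vle V (W5.vle V (W5.vlem V hX hX) (W5.vlem V hm2 hX)) ?_
  rw [Valuation.map_neg, map_one]

theorem loc_pt (hV : VL V L) {q : ℕ} (hq : q.Prime) (hq8 : q % 8 = 7) (hqL : (q : 𝓞 F) ∈ L)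
    {ζ : F} (hz : ζ ^ 4 = -1) {φ : F ≃ₐ[k0] F}
    (hφ : ∀ x : F, V x ≤ 1 → V (φ x) ≤ 1 ∧ V (φ x - x ^ q) < 1)
    (hφ' : ∀ x : F, 1 < V x → 1 < V (φ x)) {T h : (cQ F).Point} (hT : T + T = em F)
    (hh : h + h - T ∈ W5.E1 V) :
    ∃ ε : (cQ F).Point, h + gal φ h - ε ∈ W5.E1 V ∧ (q % 16 = 15 → ε = 0 ∨ ε = ep F) ∧
      (q % 16 = 7 → ε = em F ∨ ε = ez F) := by
  have hq2 : q ≠ 2 := by
    rintro rfl
    norm_num at hq8
  obtain ⟨-, hV2, -⟩ := vl_odd hV hq hq2 hqL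
  have hTn : T ∉ W5.E1 V := by
    intro h1
    have h2 := (W5.E1 V).add_mem h1 h1
    rw [hT] at h2
    exact two_nmem.1 h2
  have hhn : h + h ∉ W5.E1 V := by
    intro h1
    apply hTn
    have h2 := (W5.E1 V).sub_mem h1 hh
    rwa [sub_sub_cancel] at h2
  have hfT := frob_it hV2 hz hq8 hφ hT
  -- the sum
  have huu : (h + gal φ h) + (h + gal φ h) ∈ W5.E1 V := by
    have h1 := (W5.E1 V).add_mem hh (gal_e1 hφ' hh)
    rw [map_sub, map_add, hfT] at h1
    have h2 : (h + gal φ h) + (h + gal φ h) = h + h - T + (gal φ h + gal φ h - -T) := by abel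
    rw [h2]
    exact h1
  have hcases := ep_cases hV2 huu
  clear huu hfT
  obtain ⟨xT, yT, hTe, rfl, hx1, hy1⟩ := it_coord hT
  rcases pt_cases h with rfl | ⟨x, y, hxy, rfl⟩
  · exfalso
    apply hhn
    rw [add_zero]
    exact (W5.E1 V).zero_mem
  have hVx : V x ≤ 1 := by
    by_contra h1
    push Not at h1
    have h2 : pt x y hxy ∈ W5.E1 V := W5.pt_mem.2 h1
    exact hhn ((W5.E1 V).add_mem h2 h2)
  have hVy1 : V y ≤ 1 := W5.v_y V hxy hVx
  have hy0 : y ≠ 0 := by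
    rintro rfl
    apply hhn
    have h1 : -(pt x 0 hxy) = pt x 0 hxy := by
      rw [W5.neg_pt, pt_inj]
      exact ⟨rfl, neg_zero⟩
    have h2 : pt x 0 hxy + pt x 0 hxy = 0 := by
      nth_rewrite 2 [← h1]
      exact add_neg_cancel _
    rw [h2]
    exact (W5.E1 V).zero_mem
  have h20 : (2 : F) ≠ 0 := two_ne_zero
  -- the valuations of the coordinates of `T`
  have hVr : V (xT + 1) = 1 := v_sqrt (by rw [hx1, hV2])
  have hVxT : V xT ≤ 1 := by
    rw [show xT = (xT + 1) + -1 by ring]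
    refine W5.vle V hVr.le ?_
    rw [Valuation.map_neg, map_one]
  have hm2 : V (-2 : F) ≤ 1 := by rw [Valuation.map_neg, hV2]
  have hVr2 : V (xT + 1 - 2) = 1 := by
    refine (v_prod (a := xT + 1 - 2) (b := -(xT + 1) + -2) ?_ ?_ ?_).1
    · rw [sub_eq_add_neg]
      exact W5.vle V hVr.le hm2
    · refine W5.vle V ?_ hm2
      rw [Valuation.map_neg, hVr]
    · rw [show (xT + 1 - 2) * (-(xT + 1) + -2) = 2 by linear_combination -hx1, hV2]
  -- the double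
  obtain ⟨x2, y2, h3, e1, e2⟩ := W5.dbl_pt hxy hy0
  rw [e1] at hh
  have hVx2 : V x2 ≤ 1 := W5.int_of_sub_mem hVxT hh
  have hxx := W5.x_of_sub_mem hVxT hh
  have hVy : V y = 1 := by
    by_contra hc
    have hlt : V y < 1 := lt_of_le_of_ne hVy1 hc
    have h4 : V (x ^ 2 + 1) < 1 := by
      apply W5.vsq
      rw [← e2]
      refine W5.vltm V hVx2 ?_
      rw [pow_two]
      have h5 : V (2 * y) < 1 := W5.vltm V hV2.le hlt
      exact W5.vltm V h5.le h5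
    have h5 : V (x ^ 2) = 1 := by
      refine v_of_sub (b := -1) (by rw [sub_neg_eq_add]; exact h4) ?_
      rw [Valuation.map_neg, map_one]
    have h6 : V x = 1 := v_sqrt h5
    have h7 : V (2 * x) < 1 := by
      rw [show 2 * x = x * (x ^ 2 + 1) + -(y * y) by linear_combination hxy]
      refine W5.vlt V (W5.vltm V hVx h4) ?_
      rw [Valuation.map_neg]
      exact W5.vltm V hVy1 hlt
    rw [map_mul, hV2, h6, one_mul] at h7
    exact lt_irrefl _ h7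
  have hm1 : V (-1 : F) = 1 := by rw [Valuation.map_neg, map_one]
  have hVx1 : V (x + 1) ≤ 1 := W5.vle V hVx (by rw [map_one])
  have hVxm : V (x - 1) ≤ 1 := by
    rw [sub_eq_add_neg]
    exact W5.vle V hVx hm1.le
  have hprod : V (x * ((x - 1) * (x + 1))) = 1 := by
    rw [show x * ((x - 1) * (x + 1)) = y ^ 2 by linear_combination -hxy, map_pow, hVy, one_pow]
  obtain ⟨hvx, hv2⟩ := v_prod hVx (W5.vlem V hVxm hVx1) hprod
  obtain ⟨hvm, hvp⟩ := v_prod hVxm hVx1 hv2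
  have hxm0 : x - 1 ≠ 0 := by
    intro h0
    rw [h0, map_zero] at hvm
    exact zero_ne_one hvm
  have hxp0 : x + 1 ≠ 0 := by
    intro h0
    rw [h0, map_zero] at hvp
    exact zero_ne_one hvp
  have hx0 : x ≠ 0 := by
    intro h0
    rw [h0, map_zero] at hvx
    exact zero_ne_one hvx
  -- the square root
  set A := (x ^ 2 - 2 * x - 1) / (2 * y) with hA
  have hA2 : A ^ 2 - (xT + 1 - 2) = x2 - xT := by
    have h4 : x2 = (x ^ 2 + 1) ^ 2 / (2 * y) ^ 2 := by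
      rw [← e2]
      field_simp
    have h5 : (2 * y) ^ 2 ≠ 0 := pow_ne_zero 2 (mul_ne_zero h20 hy0)
    have h6 : A ^ 2 = x2 - 1 := by
      rw [hA, div_pow, h4, div_sub_one h5]
      congr 1
      linear_combination 4 * hxy
    rw [h6]
    ring
  have hVA2 : V (A ^ 2) = 1 := v_of_sub (by rw [hA2]; exact hxx) hVr2
  have hVA : V A = 1 := v_sqrt hVA2
  have hφA := (hφ A hVA.le).2
  obtain ⟨n, hn⟩ : ∃ n, q = 2 * n + 1 := ⟨(q - 1) / 2, by omega⟩
  have hn2 : (q - 1) / 2 = n := by omega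
  have hps : V ((A ^ 2) ^ n - (xT + 1 - 2) ^ n) < 1 :=
    v_powsub hVA2.le hVr2.le (by rw [hA2]; exact hxx) n
  have hsym := sym_val hV hq hqL hx1
  rw [hn2] at hsym
  have hAq : A ^ q = A * (A ^ 2) ^ n := by
    rw [hn, pow_succ, pow_mul, mul_comm]
  have hV2A : V (2 * A) = 1 := by rw [map_mul, hV2, hVA, one_mul]
  have h7 : q % 16 = 7 → V (φ A - A) < 1 := by
    intro h16
    have h4 := hsym.1 h16
    rw [show φ A - A = (φ A - A ^ q) + (A * ((A ^ 2) ^ n - (xT + 1 - 2) ^ n) +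
      A * ((xT + 1 - 2) ^ n - 1)) by rw [hAq]; ring]
    exact W5.vlt V hφA (W5.vlt V (W5.vltm V hVA.le hps) (W5.vltm V hVA.le h4))
  have h15 : q % 16 = 15 → V (φ A + A) < 1 := by
    intro h16
    have h4 := hsym.2 h16
    rw [show φ A + A = (φ A - A ^ q) + (A * ((A ^ 2) ^ n - (xT + 1 - 2) ^ n) +
      A * ((xT + 1 - 2) ^ n + 1)) by rw [hAq]; ring]
    exact W5.vlt V hφA (W5.vlt V (W5.vltm V hVA.le hps) (W5.vltm V hVA.le h4))
  have hφAe : φ A = ((φ x) ^ 2 - 2 * φ x - 1) / (2 * φ y) := by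
    rw [hA, map_div₀, map_sub, map_sub, map_mul, map_mul, map_pow, map_ofNat, map_one]
  -- the conclusions of the two types
  have key : ∀ {x' y' : F} (h' : y' ^ 2 = x' ^ 3 - x'), V x' ≤ 1 → V y' = 1 →
      gal φ (pt x y hxy) - pt x' y' h' ∈ W5.E1 V →
      V (φ A - (x' ^ 2 - 2 * x' - 1) / (2 * y')) < 1 := by
    intro x' y' h' hx' hy' hm
    rw [gal_pt] at hm
    rw [hφAe]
    exact v_A hV2 hx' hy' (W5.x_of_sub_mem hx' hm) (W5.y_of_sub_mem hV2 hx' hm)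
  have no7 : V (φ A + A) < 1 → ¬ q % 16 = 7 := by
    intro h4 h16
    have h5 := h7 h16
    have h6 : V (2 * A) < 1 := by
      rw [show 2 * A = (φ A + A) + -(φ A - A) by ring]
      exact W5.vlt V h4 (by rw [Valuation.map_neg]; exact h5)
    rw [hV2A] at h6
    exact lt_irrefl _ h6
  have no15 : V (φ A - A) < 1 → ¬ q % 16 = 15 := by
    intro h4 h16
    have h5 := h15 h16
    have h6 : V (2 * A) < 1 := by
      rw [show 2 * A = (φ A + A) + -(φ A - A) by ring]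
      exact W5.vlt V h5 (by rw [Valuation.map_neg]; exact h4)
    rw [hV2A] at h6
    exact lt_irrefl _ h6
  obtain ⟨⟨c1, s1⟩, ⟨c2, s2⟩, ⟨c3, s3⟩⟩ := sub_coord hxy hy0
  have h4 : V (4 : F) = 1 := by
    rw [show (4 : F) = 2 * 2 by norm_num, map_mul, hV2, one_mul]
  rcases hcases with hc | hc | hc | hc
  · -- `0`
    refine ⟨0, by rw [sub_zero]; exact hc, fun _ => Or.inl rfl, fun h16 => ?_⟩
    exfalso
    refine no7 ?_ h16
    have h5 := key (x' := x) (y' := -y) (by rw [neg_sq]; exact hxy) hVx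
      (by rw [Valuation.map_neg, hVy]) (by
        rw [← W5.neg_pt hxy, sub_neg_eq_add, add_comm]
        exact hc)
    rwa [show φ A - (x ^ 2 - 2 * x - 1) / (2 * -y) = φ A + A by
      rw [hA]; field_simp; ring] at h5
  · -- `(1, 0)`
    refine ⟨ep F, hc, fun _ => Or.inr rfl, fun h16 => ?_⟩
    exfalso
    refine no7 ?_ h16
    have h5 := key (x' := (x + 1) / (x - 1)) (y' := 2 * y / (x - 1) ^ 2) c1
      (by rw [map_div₀, hvp, hvm, div_one])
      (by rw [map_div₀, map_mul, map_pow, hV2, hVy, hvm, one_pow, one_mul, div_one]) (by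
        rw [← s1, sub_sub_eq_add_sub, add_comm]
        exact hc)
    rwa [show φ A - (((x + 1) / (x - 1)) ^ 2 - 2 * ((x + 1) / (x - 1)) - 1) /
      (2 * (2 * y / (x - 1) ^ 2)) = φ A + A by
      rw [hA]; field_simp; ring] at h5
  · -- `(-1, 0)`
    refine ⟨em F, hc, fun h16 => ?_, fun _ => Or.inl rfl⟩
    exfalso
    refine no15 ?_ h16
    have hv1x : V (1 - x) = 1 := by
      rw [show (1 : F) - x = -(x - 1) by ring, Valuation.map_neg, hvm]
    have h5 := key (x' := (1 - x) / (x + 1)) (y' := 2 * y / (x + 1) ^ 2) c3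
      (by rw [map_div₀, hv1x, hvp, div_one])
      (by rw [map_div₀, map_mul, map_pow, hV2, hVy, hvp, one_pow, one_mul, div_one]) (by
        rw [← s3, sub_sub_eq_add_sub, add_comm]
        exact hc)
    rwa [show φ A - (((1 - x) / (x + 1)) ^ 2 - 2 * ((1 - x) / (x + 1)) - 1) /
      (2 * (2 * y / (x + 1) ^ 2)) = φ A - A by
      rw [hA]; field_simp; ring] at h5
  · -- `(0, 0)`
    refine ⟨ez F, hc, fun h16 => ?_, fun _ => Or.inr rfl⟩
    exfalso
    refine no15 ?_ h16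
    have h5 := key (x' := -1 / x) (y' := -y / x ^ 2) c2
      (by rw [map_div₀, hm1, hvx, div_one])
      (by rw [map_div₀, Valuation.map_neg, map_pow, hVy, hvx, one_pow, div_one]) (by
        rw [← s2, sub_sub_eq_add_sub, add_comm]
        exact hc)
    rwa [show φ A - ((-1 / x) ^ 2 - 2 * (-1 / x) - 1) /
      (2 * (-y / x ^ 2)) = φ A - A by
      rw [hA]; field_simp; ring] at h5

theorem loc (hV : VL V L) {q : ℕ} (hq : q.Prime) (hq8 : q % 8 = 7) (hqL : (q : 𝓞 F) ∈ L)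
    {ζ : F} (hz : ζ ^ 4 = -1) {φ : F ≃ₐ[k0] F}
    (hφ : ∀ x : F, V x ≤ 1 → V (φ x) ≤ 1 ∧ V (φ x - x ^ q) < 1)
    (hφ' : ∀ x : F, 1 < V x → 1 < V (φ x)) {x y : QA F} (hx : IT x) (hy : y + y - x ∈ EV V) :
    y + galA φ y - (if q % 16 = 7 then m1 F else 0) ∈ EV V := by
  obtain ⟨t1, t2, t3, t4, t5, t6⟩ := two_ep (F := F)
  obtain ⟨q1, q2, q3, q4, -⟩ := qm_ep (F := F)
  obtain ⟨T0, hT0, rfl⟩ := hx
  obtain ⟨h, rfl⟩ := QuotientAddGroup.mk'_surjective (AddSubgroup.zmultiples (ep F)) y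
  change qm h + galA φ (qm h) - _ ∈ EV V
  have hy' : qm (h + h - T0) ∈ EV V := by
    rw [map_sub, map_add]
    exact hy
  obtain ⟨T, hT, hh⟩ : ∃ T : (cQ F).Point, T + T = em F ∧ h + h - T ∈ W5.E1 V := by
    rcases qm_mem.1 hy' with h1 | h1
    · exact ⟨T0, hT0, h1⟩
    · refine ⟨T0 - ep F, ?_, ?_⟩
      · rw [sub_add_sub_comm, hT0, t1, sub_zero]
      · rw [sub_sub_eq_add_sub, add_sub_right_comm]
        exact h1
  obtain ⟨ε, h1, h2, h3⟩ := loc_pt hV hq hq8 hqL hz hφ hφ' hT hh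
  have h4 : qm (h + gal φ h - ε) ∈ EV V := qm_mem.2 (Or.inl h1)
  rw [map_sub, map_add, ← galA_qm] at h4
  by_cases h16 : q % 16 = 7
  · rw [if_pos h16]
    rcases h3 h16 with rfl | rfl
    · rwa [q3] at h4
    · rwa [q2] at h4
  · rw [if_neg h16]
    have h15 : q % 16 = 15 := by omega
    rcases h2 h15 with rfl | rfl
    · rwa [map_zero] at h4
    · rwa [q1] at h4

end Pool.Agent.Work.MP_8efaaa_nt.W14
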