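import Mathlib
import Pool.Agent.Work.MP_8efaaa_nt.W14.PVu
import Pool.Agent.Work.MP_8efaaa_nt.W14.PGa
import Pool.Agent.Work.MP_8efaaa_nt.W14.LVx
import Pool.Agent.Work.MP_8efaaa_nt.K6.DAc
import Pool.Agent.Work.MP_8efaaa_nt.K6.DIn
import Pool.Agent.Work.MP_8efaaa_nt.R.EInt

/-!
# W14/LPt (M): the points of the ideals modulo a ramified prime

pp_val: `pp_inv`: `PP c = pt x y`, `x = (1 + z)/k`, `y = 2x/(v z)`; `UD6.unit` (with `2 ∉ L`): `V z = V k = V v = 1`. So `V x ≤ 1`, `V y ≤ 1`.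
pp_inert: `inert_act6` (K6/DAc.lean) gives the ideal `b` with all listed properties and `ι (z c) = z (b * cj τ c)` etc., so `gal ι (PP c) = PP (b * cj τ c)` (`gal_pp`). `vl_red` with `n = 1` (`Inert.triv`): `V (ι x - x) < 1` for `V x ≤ 1`; so `PP (b * cj τ c) - PP c ∈ E1 V` by `W5.sub_mem` and `pp_val`.
pp_frob: `L ∩ 𝓞 K` is a prime ideal that contains `l`, so it is `r6 S l` (`r6_unique`), of norm `l` (`norm_r6`). `L ≠ ⊥`. `R.exists_frb` gives `φ` with `Frb φ L l`; `vl_red`, `vl_gt` with `n = l`. `UD6.kron` : `V (z (r6 S l * c) - z c ^ l) < 1` etc., and `V (φ (z c) - z c ^ l) < 1`, so `V (z (r6 S l * c) - φ (z c)) < 1`,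
the same for `k`, `v`. All are units (`UD6.unit`), so the coordinates of `PP (r6 S l * c)` and `gal φ (PP c) = pt (φ x) (φ y)` are congruent (`x = (1+z)/k`, `y = 2x/(v z)`); `W5.sub_mem`. (`r6 S l * c` is odd: `norm_r6`, `l` odd.)
-/

set_option autoImplicit false

namespace Pool.Agent.Work.MP_8efaaa_nt.W14

open NumberField Pool.Agent.Work.MP_8efaaa_nt.R Pool.Agent.Work.MP_8efaaa_nt.N5
  Pool.Agent.Work.MP_8efaaa_nt.K6
open scoped Classical nonZeroDivisors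

variable {K F : Type*} [Field K] [NumberField K] [Field F] [NumberField F] [Algebra K F] {a : ℕ}
  {s : K} {S : 𝓞 K} {τ : 𝓞 K ≃+* 𝓞 K} {ζ : F} {w : ℕ → F} {z k v : Ideal (𝓞 K) → F}
  {κ : F ≃ₐ[ℚ] F}


private theorem v_sub_comm {F : Type*} [Field F] {Γ : Type*} [LinearOrderedCommGroupWithZero Γ]
    {V : Valuation F Γ} {a b : F} (h : V (a - b) < 1) : V (b - a) < 1 := by
  rw [Valuation.map_sub_swap]
  exact h

private theorem v_unit {F : Type*} [Field F] {Γ : Type*} [LinearOrderedCommGroupWithZero Γ]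
    {V : Valuation F Γ} {a b : F} (ha : V a = 1) (h : V (a - b) < 1) : V b = 1 := by
  have h1 : V (a - (a - b)) = V a := by
    apply Valuation.map_sub_eq_of_lt_left
    rw [ha]
    exact h
  rw [sub_sub_cancel, ha] at h1
  exact h1

private theorem v_mulsub {F : Type*} [Field F] {Γ : Type*} [LinearOrderedCommGroupWithZero Γ]
    {V : Valuation F Γ} {a b c d : F} (hb : V b ≤ 1) (hc : V c ≤ 1) (h1 : V (a - c) < 1)
    (h2 : V (b - d) < 1) : V (a * b - c * d) < 1 := by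
  rw [show a * b - c * d = b * (a - c) + c * (b - d) by ring]
  exact W5.vlt V (W5.vltm V hb h1) (W5.vltm V hc h2)

private theorem v_divsub {F : Type*} [Field F] {Γ : Type*} [LinearOrderedCommGroupWithZero Γ]
    {V : Valuation F Γ} {a b c d : F} (hb : V b = 1) (hd : V d = 1) (hc : V c ≤ 1)
    (h1 : V (a - c) < 1) (h2 : V (b - d) < 1) : V (a / b - c / d) < 1 := by
  have hb0 : b ≠ 0 := by
    rintro rfl
    rw [map_zero] at hb
    exact zero_ne_one hb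
  have hd0 : d ≠ 0 := by
    rintro rfl
    rw [map_zero] at hd
    exact zero_ne_one hd
  have e : a / b - c / d = (a * d - c * b) / (b * d) := by
    field_simp
  rw [e, map_div₀, map_mul, hb, hd, one_mul, div_one]
  exact v_mulsub hd.le hc h1 (v_sub_comm h2)

private theorem v_x_le {F : Type*} [Field F] {Γ : Type*} [LinearOrderedCommGroupWithZero Γ]
    {V : Valuation F Γ} {z k : F} (hz : V z = 1) (hk : V k = 1) : V ((1 + z) / k) ≤ 1 := by
  rw [map_div₀, hk, div_one]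
  exact W5.vle V (by rw [map_one]) hz.le

theorem pp_val (hU : UD6 K F a s S τ ζ w z k v κ) {Γ : Type} [LinearOrderedCommGroupWithZero Γ]
    {V : Valuation F Γ} {L : Ideal (𝓞 F)} (hV : VL V L) (h2 : (2 : 𝓞 F) ∉ L)
    {c : Ideal (𝓞 K)} (hc : OddI c) :
    ∃ (x y : F) (h : y ^ 2 = x ^ 3 - x), PP z k v c = pt x y h ∧ V x ≤ 1 ∧ V y ≤ 1 := by
  obtain ⟨x, y, h, e, -, -, hx, -⟩ := pp_inv hU hc
  obtain ⟨u1, -, u3, -⟩ := hU.unit L Γ V hV h2 c hc
  have hVx : V x ≤ 1 := by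
    rw [hx]
    exact v_x_le u1 u3
  exact ⟨x, y, h, e, hVx, W5.v_y V h hVx⟩

theorem pp_inert [IsGalois ℚ F] (hb : B6 K a s) (hS : algebraMap (𝓞 K) K S = s) (hτ : τ S = -S)
    (hU : UD6 K F a s S τ ζ w z k v κ) {Γ : Type} [LinearOrderedCommGroupWithZero Γ]
    {V : Valuation F Γ} {L : Ideal (𝓞 F)} (hV : VL V L) {l : ℕ} (hl : l.Prime) (hl2 : l ≠ 2)
    (hla : l ∣ a) (hlL : (l : 𝓞 F) ∈ L) :
    ∃ b : Ideal (𝓞 K), Ideal.absNorm b % 8 = 7 ∧ Nat.Coprime (Ideal.absNorm b) a ∧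
      (∀ d, d ∣ a → ¬ l ∣ d → jacobiSym d (Ideal.absNorm b) = 1) ∧
      ∀ c, OddI c → PP z k v (b * cj τ c) - PP z k v c ∈ W5.E1 V := by
  obtain ⟨ι, hin, hι⟩ := exists_inert6 hb hl hl2 hla hV.prime hlL
  obtain ⟨b, h8, hba, hj, -, hact⟩ := inert_act6 hb hS hτ hU hl hl2 hla hlL hin hι
  obtain ⟨h2L, hV2, -⟩ := vl_odd hV hl hl2 hlL
  refine ⟨b, h8, hba, hj, fun c hc => ?_⟩
  obtain ⟨e1, e2, e3⟩ := hact c hc
  have hg : gal ι (PP z k v c) = PP z k v (b * cj τ c) := gal_pp ι e1 e2 e3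
  obtain ⟨x, y, h, e, hVx, hVy⟩ := pp_val hU hV h2L hc
  have hred := vl_red hV (σ := ι) (n := 1) (fun t => by
    obtain ⟨u, hu, hu2⟩ := hin.triv t
    exact ⟨u, hu, by rw [hu2, pow_one]⟩)
  rw [← hg, e, gal_pt]
  have hx1 := (hred x hVx).2
  have hy1 := (hred y hVy).2
  rw [pow_one] at hx1 hy1
  exact W5.sub_mem hV2 hVx hx1 hy1

theorem pp_frob [IsGalois K F] (hb : B6 K a s) (hS : algebraMap (𝓞 K) K S = s)
    (hU : UD6 K F a s S τ ζ w z k v κ) {Γ : Type} [LinearOrderedCommGroupWithZero Γ]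
    {V : Valuation F Γ} {L : Ideal (𝓞 F)} (hV : VL V L) {l : ℕ} (hl : l.Prime) (hl2 : l ≠ 2)
    (hla : l ∣ a) (hlL : (l : 𝓞 F) ∈ L) :
    ∃ φ : F ≃ₐ[K] F, (∀ x : F, V x ≤ 1 → V (φ x) ≤ 1 ∧ V (φ x - x ^ l) < 1) ∧
      (∀ x : F, 1 < V x → 1 < V (φ x)) ∧
      ∀ c, OddI c → PP z k v (r6 S l * c) - gal φ (PP z k v c) ∈ W5.E1 V := by
  obtain ⟨h2L, hV2, -⟩ := vl_odd hV hl hl2 hlL
  have hL0 : L ≠ ⊥ := by
    rintro rfl
    rw [Ideal.mem_bot] at hlL
    exact hl.ne_zero (by exact_mod_cast hlL)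
  have hLp : L.IsPrime := hV.prime
  have hcp : (L.comap (algebraMap (𝓞 K) (𝓞 F))).IsPrime := Ideal.comap_isPrime _ _
  have hlc : (l : 𝓞 K) ∈ L.comap (algebraMap (𝓞 K) (𝓞 F)) := by
    rw [Ideal.mem_comap, map_natCast]
    exact hlL
  have hcr : L.comap (algebraMap (𝓞 K) (𝓞 F)) = r6 S l := r6_unique hb hS hl hla hcp hlc
  have hnr : Ideal.absNorm (L.comap (algebraMap (𝓞 K) (𝓞 F))) = l := by
    rw [hcr]
    exact norm_r6 hb hS hla
  obtain ⟨φ, hφ⟩ := exists_frb (k := K) L hLp hL0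
  rw [hnr] at hφ
  have hred := vl_red hV (σ := φ) (n := l) hφ
  refine ⟨φ, hred, vl_gt hV hl.ne_zero hφ, fun c hc => ?_⟩
  have hc' : OddI (r6 S l * c) := by
    unfold OddI
    rw [map_mul, norm_r6 hb hS hla]
    exact (hl.odd_of_ne_two hl2).mul hc
  have hk := hU.kron l L Γ V hV hl hl2 hnr c hc
  rw [hcr] at hk
  obtain ⟨hz1, hk1, hv1⟩ := hk
  obtain ⟨x, y, h, e, -, -, hx, hy, -⟩ := pp_inv hU hc
  obtain ⟨x', y', h', e', -, -, hx', hy', -⟩ := pp_inv hU hc'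
  obtain ⟨u1, -, u3, u4⟩ := hU.unit L Γ V hV h2L c hc
  obtain ⟨w1, -, w3, w4⟩ := hU.unit L Γ V hV h2L _ hc'
  have key : ∀ p q : F, V q = 1 → V (p - q ^ l) < 1 → V (p - φ q) < 1 := by
    intro p q hq hp
    rw [show p - φ q = (p - q ^ l) + (q ^ l - φ q) by ring]
    exact W5.vlt V hp (v_sub_comm (hred q hq.le).2)
  have hzz := key _ _ u1 hz1
  have hkk := key _ _ u3 hk1
  have hvv := key _ _ u4 hv1
  have hZ : V (φ (z c)) = 1 := v_unit w1 hzz
  have hK : V (φ (k c)) = 1 := v_unit w3 hkk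
  have hW : V (φ (v c)) = 1 := v_unit w4 hvv
  have hφx : φ x = (1 + φ (z c)) / φ (k c) := by
    rw [hx, map_div₀, map_add, map_one]
  have hφy : φ y = 2 * φ x / (φ (v c) * φ (z c)) := by
    rw [hy, map_div₀, map_mul, map_mul, map_ofNat]
  have hVφx : V (φ x) ≤ 1 := by
    rw [hφx]
    exact v_x_le hZ hK
  have hdx : V (x' - φ x) < 1 := by
    rw [hx', hφx]
    refine v_divsub w3 hK (W5.vle V (by rw [map_one]) hZ.le) ?_ hkk
    rw [add_sub_add_left_eq_sub]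
    exact hzz
  have h22 : V ((2 : F) - 2) < 1 := by
    rw [sub_self, map_zero]
    exact zero_lt_one
  have hVx' : V x' ≤ 1 := by
    rw [hx']
    exact v_x_le w1 w3
  have hdy : V (y' - φ y) < 1 := by
    rw [hy', hφy]
    refine v_divsub ?_ ?_ (W5.vlem V hV2.le hVφx) (v_mulsub hVx' hV2.le h22 hdx)
      (v_mulsub w1.le hW.le hvv hzz)
    · rw [map_mul, w4, w1, one_mul]
    · rw [map_mul, hW, hZ, one_mul]
  rw [e', e, gal_pt]
  exact W5.sub_mem hV2 hVφx hdx hdy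

end Pool.Agent.Work.MP_8efaaa_nt.W14
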