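import Mathlib
import Pool.Agent.Work.MP_8efaaa_nt.W14.Defs

/-!
# W14/CCo (S-M): ideals of a class prime to a given number

`C⁻¹ = mk0 I` (`ClassGroup.mk0_surjective`), `I ≠ 0`. `IsDedekindDomain.exists_sup_span_eq` for `I * (M) ≤ I` (`I * (M) ≠ ⊥`): `x` with `I * (M) ⊔ (x) = I`. `(x) ≤ I`, so `(x) = I * b` (`Ideal.dvd_iff_le`), and `I * ((M) ⊔ b) = I` (`Ideal.mul_sup`), so `(M) ⊔ b = ⊤` (cancel `I`). `x ≠ 0` may fail only if `(M) = ⊤`, i.e. `M = 1`: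
to avoid this case prove the claim for `2 M` instead of `M` (then `(2M) ≠ ⊤`, and `x = 0` would give `I * (2M) = I`). `N b` is prime to `M`: a prime `l` dividing both: there is a prime ideal `P ⊇ b` with `l ∈ P` (e.g. `b ⊔ (l) ≠ ⊤`: otherwise `N b` prime to `l`: `b ⊔ (l) = ⊤` gives `u + l v = 1`, `u ∈ b`; `N b ∣ N u` and `N u = 1 (mod l)`:
`u = 1 - l v`; conversely use: if `b ⊔ (M) = ⊤` then multiplication by `M` is surjective, hence bijective, on the finite group `𝓞 K ⧸ b` of order `N b` (`Ideal.absNorm_apply`, `Submodule.cardQuot_apply`), so no prime `l ∣ M` divides its order (Cauchy: `exists_prime_addOrderOf_dvd_card`: an element of order `l` would be killed by `M`)).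
`cls b = C`: `cls I * cls b = cls (x) = 1`.
-/

set_option autoImplicit false

namespace Pool.Agent.Work.MP_8efaaa_nt.W14

open NumberField Pool.Agent.Work.MP_8efaaa_nt.R Pool.Agent.Work.MP_8efaaa_nt.N5
  Pool.Agent.Work.MP_8efaaa_nt.K6
open scoped Classical nonZeroDivisors

variable {K : Type*} [Field K] [NumberField K] {a : ℕ} {s : K} {S : 𝓞 K} {τ : 𝓞 K ≃+* 𝓞 K}


private theorem cop_of_sup {b : Ideal (𝓞 K)} (hb : b ≠ 0) {M : ℕ}
    (h : b ⊔ Ideal.span {(M : 𝓞 K)} = ⊤) : Nat.Coprime (Ideal.absNorm b) M := by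
  apply Nat.coprime_of_dvd
  intro l hl h1 h2
  rw [Ideal.absNorm_apply, Submodule.cardQuot_apply] at h1
  haveI : Fact l.Prime := ⟨hl⟩
  haveI : Finite (𝓞 K ⧸ b) := Ideal.finiteQuotientOfFreeOfNeBot b hb
  obtain ⟨t, ht⟩ := exists_prime_addOrderOf_dvd_card' (G := 𝓞 K ⧸ b) l h1
  have h3 : (1 : 𝓞 K) ∈ b ⊔ Ideal.span {(M : 𝓞 K)} := by
    rw [h]
    trivial
  obtain ⟨u, hu, w, hw, huw⟩ := Submodule.mem_sup.1 h3
  obtain ⟨v, rfl⟩ := Ideal.mem_span_singleton'.1 hw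
  have h4 : Ideal.Quotient.mk b v * (M : 𝓞 K ⧸ b) = 1 := by
    have h5 : Ideal.Quotient.mk b (u + v * (M : 𝓞 K)) = 1 := by
      rw [huw, map_one]
    rw [map_add, Ideal.Quotient.eq_zero_iff_mem.2 hu, zero_add, map_mul, map_natCast] at h5
    exact h5
  have h6 : (M : 𝓞 K ⧸ b) * t = 0 := by
    obtain ⟨k, rfl⟩ := h2
    have h7 : l • t = 0 := by
      rw [← ht]
      exact addOrderOf_nsmul_eq_zero t
    rw [nsmul_eq_mul] at h7
    rw [Nat.cast_mul, mul_comm (l : 𝓞 K ⧸ b), mul_assoc, h7, mul_zero]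
  have h8 : t = 0 := by
    calc t = (Ideal.Quotient.mk b v * (M : 𝓞 K ⧸ b)) * t := by rw [h4, one_mul]
      _ = 0 := by rw [mul_assoc, h6, mul_zero]
  rw [h8, addOrderOf_zero] at ht
  exact hl.one_lt.ne ht

theorem exists_cop (C : ClassGroup (𝓞 K)) {M : ℕ} (hM : M ≠ 0) :
    ∃ b : Ideal (𝓞 K), b ≠ 0 ∧ Nat.Coprime (Ideal.absNorm b) M ∧ cls b = C := by
  obtain ⟨⟨I, hI⟩, hC⟩ := ClassGroup.mk0_surjective (R := 𝓞 K) C⁻¹
  have hI0 : I ≠ 0 := mem_nonZeroDivisors_iff_ne_zero.1 hI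
  have hM0 : Ideal.span {(M : 𝓞 K)} ≠ (0 : Ideal (𝓞 K)) := by
    intro h
    exact (Nat.cast_ne_zero.2 hM : (M : 𝓞 K) ≠ 0) (Ideal.span_singleton_eq_bot.1 h)
  obtain ⟨x, hx⟩ := IsDedekindDomain.exists_sup_span_eq
    (I := I * Ideal.span {(M : 𝓞 K)}) (J := I) Ideal.mul_le_left (mul_ne_zero hI0 hM0)
  have hxI : Ideal.span {x} ≤ I := by
    rw [← hx]
    exact le_sup_right
  obtain ⟨b, hb⟩ := Ideal.dvd_iff_le.2 hxI
  have hs : Ideal.span {(M : 𝓞 K)} ⊔ b = ⊤ := by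
    rw [hb, ← Ideal.mul_sup] at hx
    have h1 : I * (Ideal.span {(M : 𝓞 K)} ⊔ b) = I * 1 := by rw [hx, mul_one]
    have h2 := mul_left_cancel₀ hI0 h1
    rw [h2, Ideal.one_eq_top]
  by_cases hx0 : x = 0
  · have hb0 : b = 0 := by
      subst hx0
      have h1 : I * b = 0 := by
        rw [← hb]
        exact Ideal.span_singleton_eq_bot.2 rfl
      exact (mul_eq_zero.1 h1).resolve_left hI0
    rw [hb0] at hs
    have hs2 : Ideal.span {(M : 𝓞 K)} = ⊤ := by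
      rw [← hs]
      exact (sup_bot_eq _).symm
    obtain ⟨⟨c, hc⟩, hcC⟩ := ClassGroup.mk0_surjective (R := 𝓞 K) C
    have hc0 : c ≠ 0 := mem_nonZeroDivisors_iff_ne_zero.1 hc
    refine ⟨c, hc0, cop_of_sup hc0 ?_, ?_⟩
    · rw [hs2, sup_top_eq]
    · rw [cls_eq hc0]
      exact hcC
  · have hxs : Ideal.span {x} ≠ (0 : Ideal (𝓞 K)) := by
      intro h
      exact hx0 (Ideal.span_singleton_eq_bot.1 h)
    have hb0 : b ≠ 0 := by
      rintro rfl
      exact hxs (by rw [hb, mul_zero])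
    refine ⟨b, hb0, cop_of_sup hb0 (by rw [sup_comm]; exact hs), ?_⟩
    have h1 : cls I * cls b = 1 := by
      rw [← cls_mul hI0 hb0, ← hb, cls_span hx0]
    have h2 : cls I = C⁻¹ := by
      rw [cls_eq hI0]
      exact hC
    rw [h2] at h1
    exact (inv_mul_eq_one.1 h1).symm

end Pool.Agent.Work.MP_8efaaa_nt.W14
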