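import Mathlib
import Pool.Agent.Work.MP_8efaaa_nt.W14.CEq
import Pool.Agent.Work.MP_8efaaa_nt.W14.CCo

/-!
# W14/CCl (M): the classes of the ideals of norm 1 or 3 modulo 8

cls_surj: `exists_cop C` with `M = 2`: an odd ideal `b`, `cls b = C`. If `N b` is `1` or `3` modulo `8`: `c = b`. If `5` or `7`: `c = (1 + S) b`, `N c = (1 + a) N b = 7 N b` (`a = 6 (mod 8)`), `cls c = cls b` (`cls_span`; `1 + S ≠ 0` as its norm is `1 + a`).
clM_surj: `QuotientGroup.mk_surjective`. clM_eq: `QuotientGroup.eq`, `Subgroup.mem_zpowers_iff`, and `cls (r6 S 2)` has square `1` (`cls_two`): `(cls b)⁻¹ cls c ∈ zpowers t` iff it is `1` or `t`.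
norm_clM: case `cls b = cls c`: `equiv6`: `N α N b = N β N c`, `N β = 1`, so `N c = N α N b (mod 8)`; if `N α = 7`, `N b ∈ {1,3}` gives `N c ∈ {7, 5}`: impossible. Case `cls b = t cls c = cls (r6 S (a/2) * c)` (`cls_two`), `N (r6 S (a/2) c) = (a/2) N c = 7 N c (mod 8)` (`a = 14 (mod 16)`), odd: `equiv6` gives `7 N c = N α N b (mod 8)`;
`N α = 1` is impossible, `N α = 7` gives `N b = N c (mod 8)`. The same argument gives norm_cls for odd ideals: `N b = ± N c (mod 8)`.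
-/

set_option autoImplicit false

namespace Pool.Agent.Work.MP_8efaaa_nt.W14

open NumberField Pool.Agent.Work.MP_8efaaa_nt.R Pool.Agent.Work.MP_8efaaa_nt.N5
  Pool.Agent.Work.MP_8efaaa_nt.K6
open scoped Classical nonZeroDivisors

variable {K : Type*} [Field K] [NumberField K] {a : ℕ} {s : K} {S : 𝓞 K} {τ : 𝓞 K ≃+* 𝓞 K}


private theorem aux_n (hb : B6 K a s) (hS : algebraMap (𝓞 K) K S = s) (hτ : τ S = -S)
    {b c : Ideal (𝓞 K)} (hb1 : OddI b) (hc : OddI c) (h : cls b = cls c) :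
    Ideal.absNorm b % 8 = Ideal.absNorm c % 8 ∨
      Ideal.absNorm b % 8 = 7 * Ideal.absNorm c % 8 := by
  obtain ⟨α, β, h1, h2, h3⟩ := equiv6 hb hS hτ hb1 hc h
  have h4 := congrArg (fun I : Ideal (𝓞 K) => Ideal.absNorm I % 8) h1
  simp only [map_mul] at h4
  rw [Nat.mul_mod, Nat.mul_mod (Ideal.absNorm (Ideal.span {β})), h2] at h4
  rcases h3 with h3 | h3 <;> rw [h3] at h4 <;> omega

theorem cls_surj (hb : B6 K a s) (hS : algebraMap (𝓞 K) K S = s) (C : ClassGroup (𝓞 K)) :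
    ∃ c ∈ M13 K, cls c = C := by
  obtain ⟨b, hb0, hbc, rfl⟩ := exists_cop C (M := 2) (by norm_num)
  have hodd : Ideal.absNorm b % 2 = 1 := Nat.odd_iff.1 (Nat.coprime_two_right.1 hbc)
  by_cases h13 : Ideal.absNorm b % 8 = 1 ∨ Ideal.absNorm b % 8 = 3
  · exact ⟨b, h13, rfl⟩
  · have hg := norm_g hb hS
    have ha := hb.mod
    have hne : (1 + S : 𝓞 K) ≠ 0 := by
      intro h0
      rw [h0] at hg
      simp at hg
      omega
    have hne2 : Ideal.span {(1 + S : 𝓞 K)} ≠ (0 : Ideal (𝓞 K)) := by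
      intro h2
      exact hne (Ideal.span_singleton_eq_bot.1 h2)
    refine ⟨Ideal.span {1 + S} * b, ?_, ?_⟩
    · show Ideal.absNorm (Ideal.span {1 + S} * b) % 8 = 1 ∨
        Ideal.absNorm (Ideal.span {1 + S} * b) % 8 = 3
      rw [map_mul, hg, Nat.mul_mod]
      have h1 : (1 + a) % 8 = 7 := by omega
      rw [h1]
      have h2 : Ideal.absNorm b % 8 = 5 ∨ Ideal.absNorm b % 8 = 7 := by omega
      rcases h2 with h2 | h2 <;> rw [h2] <;> norm_num
    · rw [cls_mul hne2 hb0, cls_span hne, one_mul]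

theorem clM_surj (hb : B6 K a s) (hS : algebraMap (𝓞 K) K S = s) :
    Function.Surjective (clM S) := by
  intro g
  obtain ⟨C, rfl⟩ := QuotientGroup.mk_surjective g
  obtain ⟨c, hc, rfl⟩ := cls_surj hb hS C
  exact ⟨⟨c, hc⟩, rfl⟩

theorem clM_eq (hb : B6 K a s) (hS : algebraMap (𝓞 K) K S = s) {b c : M13 K} :
    clM S b = clM S c ↔ cls (b : Ideal (𝓞 K)) = cls (c : Ideal (𝓞 K)) ∨
      cls (b : Ideal (𝓞 K)) = cls (r6 S 2) * cls (c : Ideal (𝓞 K)) := by
  obtain ⟨ht, -⟩ := cls_two hb hS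
  have key : ∀ g : ClassGroup (𝓞 K), g ∈ Subgroup.zpowers (cls (r6 S 2)) ↔
      g = 1 ∨ g = cls (r6 S 2) := by
    intro g
    rw [Subgroup.mem_zpowers_iff]
    constructor
    · rintro ⟨k, rfl⟩
      rcases Int.even_or_odd' k with ⟨j, rfl | rfl⟩
      · left
        rw [zpow_mul, zpow_two, ht, one_zpow]
      · right
        rw [zpow_add, zpow_mul, zpow_two, ht, one_zpow, one_mul, zpow_one]
    · rintro (rfl | rfl)
      · exact ⟨0, zpow_zero _⟩
      · exact ⟨1, zpow_one _⟩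
  have h1 : clM S b = clM S c ↔
      (cls (b : Ideal (𝓞 K)))⁻¹ * cls (c : Ideal (𝓞 K)) ∈ Subgroup.zpowers (cls (r6 S 2)) :=
    QuotientGroup.eq
  rw [h1, key]
  refine or_congr ?_ ?_
  · rw [inv_mul_eq_one]
  · rw [inv_mul_eq_iff_eq_mul]
    constructor
    · intro h
      rw [h, mul_comm (cls (b : Ideal (𝓞 K))), ← mul_assoc, ht, one_mul]
    · intro h
      rw [h, mul_assoc, mul_comm, mul_assoc, ht, mul_one]

theorem norm_cls (hb : B6 K a s) (hS : algebraMap (𝓞 K) K S = s) (hτ : τ S = -S)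
    (ha : a % 16 = 14) {b c : Ideal (𝓞 K)} (hb1 : OddI b) (hc : OddI c)
    (h : cls b = cls c ∨ cls b = cls (r6 S 2) * cls c) :
    Ideal.absNorm b % 8 = Ideal.absNorm c % 8 ∨
      Ideal.absNorm b % 8 = 7 * Ideal.absNorm c % 8 := by
  rcases h with h | h
  · exact aux_n hb hS hτ hb1 hc h
  · have hd : a / 2 ∣ a := ⟨2, by have := hb.mod; omega⟩
    have hn := norm_r6 hb hS hd
    have hodd : OddI (r6 S (a / 2) * c) := by
      unfold OddI at hc ⊢
      rw [map_mul, hn]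
      exact (Nat.odd_iff.2 (by omega)).mul hc
    have hc0 : c ≠ 0 := by
      rintro rfl
      unfold OddI at hc
      rw [map_zero] at hc
      exact absurd hc (by decide)
    have hcl : cls b = cls (r6 S (a / 2) * c) := by
      rw [cls_mul (r6_ne hb hS hd) hc0, (cls_two hb hS).2, h]
    have h2 := aux_n hb hS hτ hb1 hodd hcl
    rw [map_mul, hn] at h2
    have h3 : (a / 2) * Ideal.absNorm c % 8 = 7 * Ideal.absNorm c % 8 := by
      rw [Nat.mul_mod, show (a / 2) % 8 = 7 by omega]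
      omega
    omega

theorem norm_clM (hb : B6 K a s) (hS : algebraMap (𝓞 K) K S = s) (hτ : τ S = -S)
    (ha : a % 16 = 14) {b c : M13 K} (h : clM S b = clM S c) :
    Ideal.absNorm (b : Ideal (𝓞 K)) % 8 = Ideal.absNorm (c : Ideal (𝓞 K)) % 8 := by
  have h1 := norm_cls hb hS hτ ha (M13.odd b.2) (M13.odd c.2) (clM_eq hb hS |>.1 h)
  have hb3 : Ideal.absNorm (b : Ideal (𝓞 K)) % 8 = 1 ∨ Ideal.absNorm (b : Ideal (𝓞 K)) % 8 = 3 :=
    b.2
  have hc3 : Ideal.absNorm (c : Ideal (𝓞 K)) % 8 = 1 ∨ Ideal.absNorm (c : Ideal (𝓞 K)) % 8 = 3 :=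
    c.2
  omega

end Pool.Agent.Work.MP_8efaaa_nt.W14
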