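import Mathlib
import Pool.Agent.Work.MP_8efaaa_nt.W14.CEq

/-!
# W14/CDi (M): two ideals of prime norm (Dirichlet)

exists_l: by the Chinese remainder theorem (`Nat.chineseRemainder`, twice; `8`, `p`, `q` are pairwise coprime) there is `x` with `x = r (mod 8)`, `x = u (mod p)`, `x = v (mod q)`, prime to `8 p q`; Dirichlet: `Nat.forall_exists_prime_gt_and_eq_mod` or `Nat.setOf_prime_and_eq_mod_infinite` (Mathlib, `ZMod (8*p*q)`, unit).
ideal_of: `l` an odd prime, `-a` a square modulo `l`: `l ∣ t^2 + a`. `b = (l, S - t)`: its norm is `l`: `b * (l, S + t) ≤ (l)`; e.g. the ring homomorphism `𝓞 K → ZMod l`, `S ↦ t` exists (`𝓞 K = ℤ[S]`, `coords`/`exists_S6`; or: `(l)` has norm `l^2`, `(l) < b < ⊤`: `S - t ∉ (l)`; `1 ∉ b`: `b = {x + y S : l ∣ x + t y}`, an ideal because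
`l ∣ t^2 + a`; so `N b` divides `l^2`, `N b ≠ 1`, `N b ≠ l^2` (`Ideal.absNorm` of a proper divisor; `Nat.dvd_prime_pow`)).
exists_b3: `r = 3`, `u = 1`, `v = q - 1` (`-1`): Legendre symbols: `(-2/l) = 1` for `l = 3 (mod 8)`, `(p/l) = (l/p) = 1` (`p = 1 (mod 4)`), `(q/l) = -(l/q) = -(-1/q) = 1` (`q, l = 3 (mod 4)`); so `(-2pq/l) = 1`.
exists_b1: `r = 1`, `u` a nonresidue modulo `p` (exists, `p` odd), `v = q - 1`: `(-2/l) = 1`, `(p/l) = (l/p) = -1`, `(q/l) = (l/q) = (-1/q) = -1`. So `(-2pq/l) = 1`, and `jacobiSym l p = -1`.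
Use `legendreSym`/`jacobiSym` (`jacobiSym.quadratic_reciprocity'`, `jacobiSym.at_two`, `ZMod.isSquare_neg_one_iff` ...).
-/

set_option autoImplicit false

namespace Pool.Agent.Work.MP_8efaaa_nt.W14

open NumberField Pool.Agent.Work.MP_8efaaa_nt.R Pool.Agent.Work.MP_8efaaa_nt.N5
  Pool.Agent.Work.MP_8efaaa_nt.K6
open scoped Classical nonZeroDivisors

variable {K : Type*} [Field K] [NumberField K] {a : ℕ} {s : K} {S : 𝓞 K} {τ : 𝓞 K ≃+* 𝓞 K}


theorem exists_l {p q : ℕ} (hp : p.Prime) (hq : q.Prime) (hp2 : p ≠ 2) (hq2 : q ≠ 2)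
    (hpq : p ≠ q) {r u v : ℕ} (hr : Odd r) (hu : Nat.Coprime u p) (hv : Nat.Coprime v q) :
    ∃ l : ℕ, l.Prime ∧ l % 8 = r % 8 ∧ l % p = u % p ∧ l % q = v % q ∧ p * q < l := by
  have h8p : Nat.Coprime 8 p := by
    rw [show 8 = 2 ^ 3 by norm_num]
    exact Nat.Coprime.pow_left 3 ((Nat.coprime_primes Nat.prime_two hp).2 hp2.symm)
  have h8q : Nat.Coprime 8 q := by
    rw [show 8 = 2 ^ 3 by norm_num]
    exact Nat.Coprime.pow_left 3 ((Nat.coprime_primes Nat.prime_two hq).2 hq2.symm)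
  have h8pq : Nat.Coprime (8 * p) q :=
    Nat.Coprime.mul_left h8q ((Nat.coprime_primes hp hq).2 hpq)
  obtain ⟨x1, hx1, hx1'⟩ := Nat.chineseRemainder h8p r u
  obtain ⟨x, hx, hx'⟩ := Nat.chineseRemainder h8pq x1 v
  have hx8 : x ≡ r [MOD 8] := (Nat.ModEq.of_dvd (Dvd.intro p rfl) hx).trans hx1
  have hxp : x ≡ u [MOD p] := (Nat.ModEq.of_dvd (Dvd.intro_left 8 rfl) hx).trans hx1'
  have hc8 : Nat.Coprime x 8 := by
    unfold Nat.Coprime
    rw [hx8.gcd_eq]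
    have : Nat.Coprime r (2 ^ 3) :=
      Nat.Coprime.pow_right 3 (Nat.coprime_two_right.2 hr)
    exact this
  have hcp : Nat.Coprime x p := by
    unfold Nat.Coprime
    rw [hxp.gcd_eq]
    exact hu
  have hcq : Nat.Coprime x q := by
    unfold Nat.Coprime
    rw [hx'.gcd_eq]
    exact hv
  have hc : Nat.Coprime x (8 * p * q) := (hc8.mul_right hcp).mul_right hcq
  obtain ⟨l, hl1, hl2, hl3⟩ := Nat.forall_exists_prime_gt_and_modEq (p * q) (q := 8 * p * q)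
    (mul_ne_zero (mul_ne_zero (by norm_num) hp.ne_zero) hq.ne_zero) hc
  refine ⟨l, hl2, ?_, ?_, ?_, hl1⟩
  · exact (Nat.ModEq.of_dvd ⟨p * q, by ring⟩ hl3).trans hx8
  · exact (Nat.ModEq.of_dvd ⟨8 * q, by ring⟩ hl3).trans hxp
  · exact (Nat.ModEq.of_dvd ⟨8 * p, by ring⟩ hl3).trans hx'

private theorem coord_zero (hb : B6 K a s) (hS : algebraMap (𝓞 K) K S = s) {x y : ℤ}
    (h : (x : 𝓞 K) + (y : 𝓞 K) * S = 0) : x = 0 ∧ y = 0 := by
  have h1 : algebraMap (𝓞 K) K 0 = (x : K) + (y : K) * s := by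
    rw [← h, map_add, map_mul, map_intCast, map_intCast, hS]
  have h2 := norm_lin6 hb h1
  have h3 : Ideal.absNorm (Ideal.span {(0 : 𝓞 K)}) = 0 := by
    rw [Ideal.span_singleton_eq_bot.2 rfl, Ideal.absNorm_bot]
  rw [h3] at h2
  have ha : 0 < (a : ℤ) := by
    have := Nat.pos_of_ne_zero hb.sf.ne_zero
    exact_mod_cast this
  have h4 : (0 : ℤ) = x ^ 2 + a * y ^ 2 := by exact_mod_cast h2
  have h5 : 0 ≤ x ^ 2 := sq_nonneg x
  have h6 : 0 ≤ (a : ℤ) * y ^ 2 := mul_nonneg ha.le (sq_nonneg y)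
  have h7 : x ^ 2 = 0 := by linarith
  have h8 : (a : ℤ) * y ^ 2 = 0 := by linarith
  refine ⟨pow_eq_zero_iff two_ne_zero |>.1 h7, ?_⟩
  rcases mul_eq_zero.1 h8 with h9 | h9
  · exact absurd h9 ha.ne'
  · exact pow_eq_zero_iff two_ne_zero |>.1 h9

theorem ideal_of (hb : B6 K a s) (hS : algebraMap (𝓞 K) K S = s) {l : ℕ} (hl : l.Prime)
    (hl2 : l ≠ 2) {t : ℤ} (ht : (l : ℤ) ∣ t ^ 2 + a) :
    ∃ b : Ideal (𝓞 K), Ideal.absNorm b = l := by
  have _ := hl2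
  obtain ⟨S', hS', hSS', hall'⟩ := exists_S6 hb
  obtain rfl : S' = S := RingOfIntegers.ext (hS'.trans hS.symm)
  obtain ⟨m, hm⟩ := ht
  have hnl : Ideal.absNorm (Ideal.span {(l : 𝓞 K)}) = l ^ 2 := by
    have h1 : algebraMap (𝓞 K) K (l : 𝓞 K) = ((l : ℤ) : K) + ((0 : ℤ) : K) * s := by
      rw [map_natCast]
      push_cast
      ring
    have h2 := norm_lin6 hb h1
    have h3 : ((Ideal.absNorm (Ideal.span {(l : 𝓞 K)}) : ℕ) : ℤ) = ((l ^ 2 : ℕ) : ℤ) := by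
      rw [h2]
      push_cast
      ring
    exact_mod_cast h3
  have hle : Ideal.span {(l : 𝓞 K)} ≤ Ideal.span {(l : 𝓞 K), S' - (t : 𝓞 K)} :=
    Ideal.span_mono (by simp)
  obtain ⟨c, hc⟩ : Ideal.span {(l : 𝓞 K), S' - (t : 𝓞 K)} ∣ Ideal.span {(l : 𝓞 K)} :=
    Ideal.dvd_iff_le.2 hle
  refine ⟨Ideal.span {(l : 𝓞 K), S' - (t : 𝓞 K)}, ?_⟩
  have hN : Ideal.absNorm (Ideal.span {(l : 𝓞 K), S' - (t : 𝓞 K)}) * Ideal.absNorm c = l ^ 2 := by
    rw [← map_mul, ← hc, hnl]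
  have hdv : Ideal.absNorm (Ideal.span {(l : 𝓞 K), S' - (t : 𝓞 K)}) ∣ l ^ 2 :=
    Dvd.intro _ hN
  obtain ⟨k, hk, hk'⟩ := (Nat.dvd_prime_pow hl).1 hdv
  have hk0 : k ≠ 0 := by
    rintro rfl
    rw [pow_zero, Ideal.absNorm_eq_one_iff] at hk'
    have h1 : (1 : 𝓞 K) ∈ Ideal.span {(l : 𝓞 K), S' - (t : 𝓞 K)} := by
      rw [hk']
      exact Submodule.mem_top
    obtain ⟨x, y, hxy⟩ := Ideal.mem_span_pair.1 h1
    obtain ⟨x1, x2, rfl⟩ := hall' x
    obtain ⟨y1, y2, rfl⟩ := hall' y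
    have h2 : ((l * x1 - t * y1 - a * y2 - 1 : ℤ) : 𝓞 K) +
        ((l * x2 + y1 - t * y2 : ℤ) : 𝓞 K) * S' = 0 := by
      push_cast
      linear_combination hxy - (y2 : 𝓞 K) * hSS'
    obtain ⟨h3, h4⟩ := coord_zero hb hS h2
    have h5 : (l : ℤ) ∣ 1 := by
      refine ⟨x1 + t * x2 - m * y2, ?_⟩
      linear_combination -h3 - t * h4 - y2 * hm
    have h6 : l ∣ 1 := by exact_mod_cast h5
    exact hl.one_lt.ne' (Nat.dvd_one.1 h6)
  have hk2 : k ≠ 2 := by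
    rintro rfl
    rw [hk'] at hN
    have h1 : Ideal.absNorm c = 1 := by
      have : 0 < l ^ 2 := pow_pos hl.pos 2
      exact Nat.eq_of_mul_eq_mul_left this (by rw [hN, mul_one])
    rw [Ideal.absNorm_eq_one_iff] at h1
    rw [h1, Ideal.mul_top] at hc
    have h2 : S' - (t : 𝓞 K) ∈ Ideal.span {(l : 𝓞 K)} := by
      rw [hc]
      exact Ideal.subset_span (by simp)
    obtain ⟨x, hx⟩ := Ideal.mem_span_singleton'.1 h2
    obtain ⟨x1, x2, rfl⟩ := hall' x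
    have h3 : ((l * x1 + t : ℤ) : 𝓞 K) + ((l * x2 - 1 : ℤ) : 𝓞 K) * S' = 0 := by
      push_cast
      linear_combination hx
    obtain ⟨-, h4⟩ := coord_zero hb hS h3
    have h5 : (l : ℤ) ∣ 1 := ⟨x2, by linarith⟩
    have h6 : l ∣ 1 := by exact_mod_cast h5
    exact hl.one_lt.ne' (Nat.dvd_one.1 h6)
  have hk1 : k = 1 := by omega
  rw [hk', hk1, pow_one]

private theorem exists_t {l : ℕ} (hl : l.Prime) {n : ℕ} (h : jacobiSym (-(n : ℤ)) l = 1) :
    ∃ t : ℤ, (l : ℤ) ∣ t ^ 2 + n := by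
  have : Fact l.Prime := ⟨hl⟩
  obtain ⟨y, hy⟩ := ZMod.isSquare_of_jacobiSym_eq_one h
  obtain ⟨t, rfl⟩ := ZMod.intCast_surjective y
  refine ⟨t, (ZMod.intCast_zmod_eq_zero_iff_dvd _ _).1 ?_⟩
  push_cast at hy ⊢
  linear_combination -hy

private theorem jac_neg_two {l : ℕ} (h : l % 8 = 1 ∨ l % 8 = 3) : jacobiSym (-2) l = 1 := by
  have hlo : Odd l := Nat.odd_iff.2 (by omega)
  rw [show (-2 : ℤ) = -1 * 2 by norm_num, jacobiSym.mul_left, jacobiSym.at_neg_one hlo,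
    jacobiSym.at_two hlo, ZMod.χ₄_nat_eq_if_mod_four, ZMod.χ₈_nat_eq_if_mod_eight]
  rcases h with h | h
  · have h4 : l % 4 = 1 := by omega
    have h2 : l % 2 = 1 := by omega
    simp [h, h4, h2]
  · have h4 : l % 4 = 3 := by omega
    have h2 : l % 2 = 1 := by omega
    simp [h, h4, h2]

private theorem jac_prod {p q l : ℕ} : jacobiSym (-((2 * p * q : ℕ) : ℤ)) l =
    jacobiSym (-2) l * (jacobiSym p l * jacobiSym q l) := by
  rw [← jacobiSym.mul_left, ← jacobiSym.mul_left]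
  congr 1
  push_cast
  ring

private theorem jac_mod {a b l : ℕ} (h : a % l = b % l) : jacobiSym a l = jacobiSym b l := by
  apply jacobiSym.mod_left'
  exact_mod_cast h

theorem exists_b3 {p q : ℕ} (hp : p.Prime) (hq : q.Prime) (hp8 : p % 8 = 1) (hq8 : q % 8 = 7)
    (hb : B6 K (2 * p * q) s) (hS : algebraMap (𝓞 K) K S = s) :
    ∃ b : Ideal (𝓞 K), Ideal.absNorm b % 8 = 3 := by
  have hpq : p ≠ q := by
    rintro rfl
    omega
  obtain ⟨l, hl, h8, hlp, hlq, -⟩ := exists_l hp hq (by omega) (by omega) hpq (r := 3) (u := 1)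
    (v := q - 1) (by decide) (Nat.coprime_one_left p)
    ((Nat.coprime_self_sub_left hq.one_lt.le).2 (Nat.coprime_one_left q))
  have h8' : l % 8 = 3 := h8
  have hlo : Odd l := Nat.odd_iff.2 (by omega)
  have hqo : Odd q := Nat.odd_iff.2 (by omega)
  have j1 : jacobiSym p l = 1 := by
    rw [jacobiSym.quadratic_reciprocity_one_mod_four (by omega) hlo, jac_mod hlp,
      Nat.cast_one, jacobiSym.one_left]
  have j2 : jacobiSym q l = 1 := by
    rw [jacobiSym.quadratic_reciprocity_three_mod_four (by omega) (by omega), jac_mod hlq,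
      Nat.cast_sub hq.one_lt.le]
    have h1 : jacobiSym ((q : ℤ) - (1 : ℕ)) q = jacobiSym (-1) q := by
      apply jacobiSym.mod_left'
      push_cast
      rw [sub_eq_add_neg, add_comm, Int.add_emod_right]
    rw [h1, jacobiSym.at_neg_one hqo, ZMod.χ₄_nat_three_mod_four (by omega)]
    norm_num
  obtain ⟨t, ht⟩ := exists_t hl (n := 2 * p * q) (by
    rw [jac_prod, jac_neg_two (Or.inr h8'), j1, j2]
    norm_num)
  obtain ⟨b, hb'⟩ := ideal_of hb hS hl (by omega) ht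
  exact ⟨b, by rw [hb', h8']⟩

theorem exists_b1 {p q : ℕ} (hp : p.Prime) (hq : q.Prime) (hp8 : p % 8 = 1) (hq8 : q % 8 = 7)
    (hb : B6 K (2 * p * q) s) (hS : algebraMap (𝓞 K) K S = s) :
    ∃ b : Ideal (𝓞 K), Ideal.absNorm b % 8 = 1 ∧ jacobiSym (Ideal.absNorm b) p = -1 := by
  have hpq : p ≠ q := by
    rintro rfl
    omega
  have : Fact p.Prime := ⟨hp⟩
  obtain ⟨y, hy⟩ := FiniteField.exists_nonsquare (F := ZMod p) (by
    rw [ZMod.ringChar_zmod_n]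
    omega)
  obtain ⟨u, hu⟩ : ∃ u : ℕ, (u : ZMod p) = y := ⟨y.val, ZMod.natCast_zmod_val y⟩
  have hu1 : jacobiSym (u : ℤ) p = -1 := by
    rw [← jacobiSym.legendreSym.to_jacobiSym, legendreSym.eq_neg_one_iff]
    push_cast
    rw [hu]
    exact hy
  have hu2 : Nat.Coprime u p := by
    rw [Nat.coprime_comm, Nat.Prime.coprime_iff_not_dvd hp]
    intro hd
    apply hy
    rw [← hu, (ZMod.natCast_eq_zero_iff _ _).2 hd]
    exact ⟨0, by simp⟩
  obtain ⟨l, hl, h8, hlp, hlq, -⟩ := exists_l hp hq (by omega) (by omega) hpq (r := 1) (u := u)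
    (v := q - 1) (by decide) hu2
    ((Nat.coprime_self_sub_left hq.one_lt.le).2 (Nat.coprime_one_left q))
  have h8' : l % 8 = 1 := h8
  have hlo : Odd l := Nat.odd_iff.2 (by omega)
  have hqo : Odd q := Nat.odd_iff.2 (by omega)
  have hlp' : jacobiSym (l : ℤ) p = -1 := by rw [jac_mod hlp, hu1]
  have j1 : jacobiSym p l = -1 := by
    rw [jacobiSym.quadratic_reciprocity_one_mod_four (by omega) hlo, hlp']
  have j2 : jacobiSym q l = -1 := by
    rw [jacobiSym.quadratic_reciprocity_one_mod_four' hqo (by omega), jac_mod hlq,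
      Nat.cast_sub hq.one_lt.le]
    have h1 : jacobiSym ((q : ℤ) - (1 : ℕ)) q = jacobiSym (-1) q := by
      apply jacobiSym.mod_left'
      push_cast
      rw [sub_eq_add_neg, add_comm, Int.add_emod_right]
    rw [h1, jacobiSym.at_neg_one hqo, ZMod.χ₄_nat_three_mod_four (by omega)]
  obtain ⟨t, ht⟩ := exists_t hl (n := 2 * p * q) (by
    rw [jac_prod, jac_neg_two (Or.inl h8'), j1, j2]
    norm_num)
  obtain ⟨b, hb'⟩ := ideal_of hb hS hl (by omega) ht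
  exact ⟨b, by rw [hb', h8'], by rw [hb', hlp']⟩

end Pool.Agent.Work.MP_8efaaa_nt.W14
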