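import Mathlib
import Pool.Agent.Work.MP_8efaaa_nt.W14.CCl
import Pool.Agent.Work.MP_8efaaa_nt.W14.CDi

/-!
# W14/CHf (S-M): the classes of norm 1 modulo 8

`H` has the carrier `{g | ∃ c : M13 K, absNorm c % 8 = 1 ∧ clM S c = g}`: products, `1` clear; inverse: `clM S c` has finite order `n` (`G` finite), the inverse is `clM S (c^(n-1))` (as in `exists_half`, R6/FCls6.lean). `clM S c ∈ H` iff `absNorm c % 8 = 1`: `norm_clM`.
Index `2`: `Subgroup.index_eq_two_iff` with the class `D` of the ideal of norm `3 (mod 8)` (`hd`): for `g = clM S c` (`clM_surj`), `g * D = clM (c * d)`; `absNorm c % 8` is `1` or `3`, `absNorm (c d) % 8` is `3` or `1`.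
-/

set_option autoImplicit false

namespace Pool.Agent.Work.MP_8efaaa_nt.W14

open NumberField Pool.Agent.Work.MP_8efaaa_nt.R Pool.Agent.Work.MP_8efaaa_nt.N5
  Pool.Agent.Work.MP_8efaaa_nt.K6
open scoped Classical nonZeroDivisors

variable {K : Type*} [Field K] [NumberField K] {a : ℕ} {s : K} {S : 𝓞 K} {τ : 𝓞 K ≃+* 𝓞 K}


theorem exists_H (hb : B6 K a s) (hS : algebraMap (𝓞 K) K S = s) (hτ : τ S = -S)
    (ha : a % 16 = 14) {d : Ideal (𝓞 K)} (hd : Ideal.absNorm d % 8 = 3) :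
    ∃ H : Subgroup (CG S), H.index = 2 ∧
      ∀ c : M13 K, clM S c ∈ H ↔ Ideal.absNorm (c : Ideal (𝓞 K)) % 8 = 1 := by
  have hfin : Finite (CG S) := inferInstance
  have hpow : ∀ (c : M13 K) (n : ℕ), Ideal.absNorm (c : Ideal (𝓞 K)) % 8 = 1 →
      Ideal.absNorm ((c ^ n : M13 K) : Ideal (𝓞 K)) % 8 = 1 := by
    intro c n h
    rw [SubmonoidClass.coe_pow, map_pow, Nat.pow_mod, h, one_pow]
    norm_num
  let H : Subgroup (CG S) :=
    { carrier := {g | ∃ c : M13 K, Ideal.absNorm (c : Ideal (𝓞 K)) % 8 = 1 ∧ clM S c = g}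
      mul_mem' := by
        rintro _ _ ⟨b, hb1, rfl⟩ ⟨c, hc1, rfl⟩
        refine ⟨b * c, ?_, map_mul _ _ _⟩
        rw [Submonoid.coe_mul, map_mul, Nat.mul_mod, hb1, hc1]
      one_mem' := ⟨1, by rw [Submonoid.coe_one, map_one]; norm_num, map_one _⟩
      inv_mem' := by
        rintro _ ⟨b, hb1, rfl⟩
        refine ⟨b ^ (orderOf (clM S b) - 1), hpow b _ hb1, ?_⟩
        rw [map_pow, eq_inv_iff_mul_eq_one, ← pow_succ,
          Nat.sub_add_cancel (orderOf_pos _), pow_orderOf_eq_one] }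
  have hmem : ∀ g : CG S, g ∈ H ↔
      ∃ c : M13 K, Ideal.absNorm (c : Ideal (𝓞 K)) % 8 = 1 ∧ clM S c = g := fun _ => Iff.rfl
  have key : ∀ c : M13 K, clM S c ∈ H ↔ Ideal.absNorm (c : Ideal (𝓞 K)) % 8 = 1 := by
    intro c
    rw [hmem]
    constructor
    · rintro ⟨b, hb1, hbc⟩
      rw [← norm_clM hb hS hτ ha hbc]
      exact hb1
    · intro h
      exact ⟨c, h, rfl⟩
  refine ⟨H, ?_, key⟩
  rw [Subgroup.index_eq_two_iff]
  refine ⟨clM S ⟨d, Or.inr hd⟩, ?_⟩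
  intro g
  obtain ⟨c, rfl⟩ := clM_surj hb hS g
  rw [← map_mul, key, key, Submonoid.coe_mul, map_mul, Nat.mul_mod]
  have h3 : Ideal.absNorm ((⟨d, Or.inr hd⟩ : M13 K) : Ideal (𝓞 K)) % 8 = 3 := hd
  rw [h3]
  rcases c.2 with h1 | h1
  · right
    exact ⟨h1, by rw [h1]; norm_num⟩
  · left
    exact ⟨by rw [h1], by rw [h1]; norm_num⟩

end Pool.Agent.Work.MP_8efaaa_nt.W14
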