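import Mathlib
import Pool.Agent.Work.MP_8efaaa_nt.W14.CCl
import Pool.Agent.Work.MP_8efaaa_nt.W14.PGa
import Pool.Agent.Work.MP_8efaaa_nt.W14.CEq

/-!
# W14/DFk (M): comparison of equivalent ideals

Only the formal data `FD` and `equiv6`. `m1 + m1 = 0`, `IT` facts: `qm_ep`, `it_facts`.
fk1: `equiv6`: `(α) b = (β) c`, `N β = 1`. Norms: `N α N b = N β N c`, and `N b = N c (mod 8)`: `b`, `c` in `M13` and `N α = 7` would give `N c = 7 N b`, impossible; so `N α = 1 (mod 8)`. For `x ∈ M13`: `P (b x) + ε_α = P (α b x) = P (β c x) = P (c x) + ε_β` (`FD.tr`). `ε = ε_β - ε_α`, in `{0, m1}`.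
fk2: let `n' = r6 S (a/2)`, `cls n' = cls (r6 S 2)` (`cls_two`), `N n' = a/2 = 7 (mod 8)`. `cls (n' b) = t t cls c = cls c`: `equiv6` for `n' b` and `c`: `(α) n' b = (β) c`, `N β = 1`, `N α * 7 * N b = N c (mod 8)`, so `N α = 7` (`N α = 1` is impossible because `b, c ∈ M13`). For `x ∈ M13`:
`P (c x) + ε_β = P (β c x) = P (α n' b x)`; `tq` for `α` and `n' b x`: `P (α n' b x) = -P (n' b x) + (P α + P 1) + d4 (7 N (b x))`, `fr`: `P (n' b x) = -P (b x) + (P n' + P 1) + d8 (N (b x))`. So `P (c x) + ε_β = P (b x) - (P n' - P α) + d4 (7 N(bx)) - d8 (N (bx))`. `b x ∈ M13`: `N = 1`: `d4 (7) = m1`, `d8 = 0`; `N = 3`: `d4 (21) = 0`, `d8 = m1`: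
in both cases the difference is `m1`. So `P (b x) = P (c x) + ε`, `ε = ε_β + (P n' - P α) + m1`, and `IT ε` (`FD.it`, `it_facts`).
fk7: `equiv6`: `(α) b = (β) c`, `N β = 1`, `N α N b = N c (mod 8)`, `N b = 7 N c`: `N α = 7`. `P (β c x) = P (c x) + ε_β`; `P (α b x) = -P (b x) + (P α + P 1) + d4 (N (b x))`; `N (b x) = 7 N (c x) (mod 8)`, `d4 (7 n) = d4 n + m1` for odd `n`. So `P (b x) + P (c x) = T + d4 (N (c x))`, `T = P α + P 1 - ε_β + m1`, `T + T = m1` (`tq2`).
-/

set_option autoImplicit false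

namespace Pool.Agent.Work.MP_8efaaa_nt.W14

open NumberField Pool.Agent.Work.MP_8efaaa_nt.R Pool.Agent.Work.MP_8efaaa_nt.N5
  Pool.Agent.Work.MP_8efaaa_nt.K6
open scoped Classical nonZeroDivisors

variable {K F : Type*} [Field K] [NumberField K] [Field F] [CharZero F] {a : ℕ} {s : K} {S : 𝓞 K}
  {τ : 𝓞 K ≃+* 𝓞 K} {P : Ideal (𝓞 K) → QA F}


private theorem fk_odd {b c : Ideal (𝓞 K)} (hb : OddI b) (hc : OddI c) : OddI (b * c) := by
  unfold OddI at hb hc ⊢
  rw [map_mul]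
  exact hb.mul hc

private theorem fk_m1 : m1 F + m1 F = 0 := (qm_ep (F := F)).2.2.2.1

private theorem fk_neg : -m1 F = m1 F := neg_eq_of_add_eq_zero_right fk_m1

private theorem fk_ne {c : Ideal (𝓞 K)} (hc : OddI c) : c ≠ 0 := by
  rintro rfl
  unfold OddI at hc
  rw [map_zero] at hc
  exact absurd hc (by decide)

theorem fk1 (hb : B6 K a s) (hS : algebraMap (𝓞 K) K S = s) (hτ : τ S = -S)
    (hF : FD a S P) {b c : Ideal (𝓞 K)} (hb1 : b ∈ M13 K) (hc : c ∈ M13 K)
    (h : cls b = cls c) : ∃ ε : QA F, (ε = 0 ∨ ε = m1 F) ∧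
      ∀ x ∈ M13 K, P (b * x) = P (c * x) + ε := by
  obtain ⟨α, β, hαβ, hβ, hα⟩ := equiv6 hb hS hτ (M13.odd hb1) (M13.odd hc) h
  have hn := congrArg Ideal.absNorm hαβ
  rw [map_mul, map_mul] at hn
  have hα1 : Ideal.absNorm (Ideal.span {α}) % 8 = 1 := by
    rcases hα with hα | hα
    · exact hα
    · exfalso
      have h1 : (Ideal.absNorm (Ideal.span {α}) * Ideal.absNorm b) % 8 =
          (Ideal.absNorm (Ideal.span {β}) * Ideal.absNorm c) % 8 := by rw [hn]
      rw [Nat.mul_mod, Nat.mul_mod (Ideal.absNorm (Ideal.span {β})), hα, hβ] at h1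
      rcases hb1 with h2 | h2 <;> rcases hc with h3 | h3 <;> omega
  obtain ⟨ea, hea, hPa⟩ := hF.tr α hα1
  obtain ⟨eb, heb, hPb⟩ := hF.tr β hβ
  refine ⟨eb - ea, ?_, fun x hx => ?_⟩
  · rcases hea with rfl | rfl <;> rcases heb with rfl | rfl
    · left
      rw [sub_zero]
    · right
      rw [sub_zero]
    · right
      rw [zero_sub, fk_neg]
    · left
      rw [sub_self]
  · have h1 := hPa (b * x) (fk_odd (M13.odd hb1) (M13.odd hx))
    have h2 := hPb (c * x) (fk_odd (M13.odd hc) (M13.odd hx))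
    rw [← mul_assoc, hαβ, mul_assoc, h2] at h1
    rw [eq_sub_of_add_eq h1.symm]
    abel

theorem fk2 (hb : B6 K a s) (hS : algebraMap (𝓞 K) K S = s) (hτ : τ S = -S)
    (ha : a % 16 = 14) (hF : FD a S P) {b c : Ideal (𝓞 K)} (hb1 : b ∈ M13 K)
    (hc : c ∈ M13 K) (h : cls b = cls (r6 S 2) * cls c) : ∃ ε : QA F, IT ε ∧
      ∀ x ∈ M13 K, P (b * x) = P (c * x) + ε := by
  obtain ⟨ht, ht'⟩ := cls_two hb hS
  have hda : a / 2 ∣ a := ⟨2, by omega⟩
  have hN := norm_r6 hb hS hda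
  have hN8 : Ideal.absNorm (r6 S (a / 2)) % 8 = 7 := by
    rw [hN]
    omega
  have hno : OddI (r6 S (a / 2)) := by
    unfold OddI
    rw [Nat.odd_iff]
    omega
  have hcl : cls (r6 S (a / 2) * b) = cls c := by
    rw [cls_mul (fk_ne hno) (M13.ne hb1), ht', h, ← mul_assoc, ht, one_mul]
  obtain ⟨α, β, hαβ, hβ, hα⟩ := equiv6 hb hS hτ (fk_odd hno (M13.odd hb1)) (M13.odd hc) hcl
  have hn := congrArg Ideal.absNorm hαβ
  rw [map_mul, map_mul, map_mul] at hn
  have hα7 : Ideal.absNorm (Ideal.span {α}) % 8 = 7 := by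
    rcases hα with hα | hα
    · exfalso
      have h1 : (Ideal.absNorm (Ideal.span {α}) *
          (Ideal.absNorm (r6 S (a / 2)) * Ideal.absNorm b)) % 8 =
          (Ideal.absNorm (Ideal.span {β}) * Ideal.absNorm c) % 8 := by rw [hn]
      rw [Nat.mul_mod, Nat.mul_mod (Ideal.absNorm (Ideal.span {β})),
        Nat.mul_mod (Ideal.absNorm (r6 S (a / 2))), hα, hβ, hN8] at h1
      rcases hb1 with h2 | h2 <;> rcases hc with h3 | h3 <;> omega
    · exact hα
  obtain ⟨eb, heb, hPb⟩ := hF.tr β hβ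
  have hit := hF.it α hα7
  refine ⟨eb + (P (r6 S (a / 2)) - P (Ideal.span {α})) + m1 F, ?_, fun x hx => ?_⟩
  · rcases heb with rfl | rfl
    · rw [zero_add]
      exact (it_facts hit).2.1
    · have h1 : m1 F + (P (r6 S (a / 2)) - P (Ideal.span {α})) + m1 F =
          P (r6 S (a / 2)) - P (Ideal.span {α}) := by
        rw [add_right_comm, fk_m1, zero_add]
      rw [h1]
      exact hit
  · have hbx : b * x ∈ M13 K := (M13 K).mul_mem hb1 hx
    have hbo : OddI (b * x) := M13.odd hbx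
    have hco : OddI (c * x) := M13.odd ((M13 K).mul_mem hc hx)
    have h1 := hPb (c * x) hco
    rw [← mul_assoc, ← hαβ] at h1
    have e1 : Ideal.span {α} * (r6 S (a / 2) * b) * x =
        Ideal.span {α} * (r6 S (a / 2) * (b * x)) := by
      rw [mul_assoc, mul_assoc]
    rw [e1] at h1
    have h2 := hF.tq α hα7 (r6 S (a / 2) * (b * x)) (fk_odd hno hbo)
    have h3 := hF.fr (b * x) hbo
    have h4 : d4 F (Ideal.absNorm (r6 S (a / 2) * (b * x))) + d8 F (Ideal.absNorm (b * x)) =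
        m1 F := by
      have e2 : Ideal.absNorm (r6 S (a / 2) * (b * x)) =
          Ideal.absNorm (r6 S (a / 2)) * Ideal.absNorm (b * x) := map_mul _ _ _
      unfold d4 d8
      rw [e2]
      have e3 : (Ideal.absNorm (r6 S (a / 2)) * Ideal.absNorm (b * x)) % 4 =
          ((Ideal.absNorm (r6 S (a / 2)) % 8) * (Ideal.absNorm (b * x) % 8)) % 4 := by
        rw [Nat.mul_mod, Nat.mul_mod (Ideal.absNorm (r6 S (a / 2)) % 8)]
        congr 2 <;> omega
      rw [e3, hN8]
      rcases hbx with h5 | h5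
      · rw [h5, if_neg (by norm_num), if_pos (Or.inl rfl), add_zero]
      · rw [h5, if_pos (by norm_num), if_neg (by norm_num), zero_add]
    have h5 : d8 F (Ideal.absNorm (b * x)) = m1 F - d4 F (Ideal.absNorm
        (r6 S (a / 2) * (b * x))) := eq_sub_of_add_eq' h4
    rw [h1] at h2
    have h6 : d4 F (Ideal.absNorm (r6 S (a / 2) * (b * x))) = P (c * x) + eb +
        P (r6 S (a / 2) * (b * x)) - P (Ideal.span {α}) - P 1 := by
      rw [h2]
      abel
    have h7 : P (b * x) = P (r6 S (a / 2)) + P 1 + d8 F (Ideal.absNorm (b * x)) -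
        P (r6 S (a / 2) * (b * x)) := by
      rw [← h3]
      abel
    have h8 : d8 F (Ideal.absNorm (b * x)) = d4 F (Ideal.absNorm
        (r6 S (a / 2) * (b * x))) + m1 F := by
      have e4 : d4 F (Ideal.absNorm (r6 S (a / 2) * (b * x))) + d4 F (Ideal.absNorm
          (r6 S (a / 2) * (b * x))) = 0 := by
        unfold d4
        split_ifs
        · rw [add_zero]
        · exact fk_m1
      rw [h5, sub_eq_iff_eq_add, add_right_comm, e4, zero_add]
    rw [h7, h8, h6]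
    abel

theorem fk7 (hb : B6 K a s) (hS : algebraMap (𝓞 K) K S = s) (hτ : τ S = -S)
    (hF : FD a S P) {b c : Ideal (𝓞 K)} (hb1 : OddI b) (hc : OddI c) (h : cls b = cls c)
    (h7 : Ideal.absNorm b % 8 = 7 * Ideal.absNorm c % 8) : ∃ T : QA F, T + T = m1 F ∧
      ∀ x, OddI x → P (b * x) + P (c * x) = T + d4 F (Ideal.absNorm (c * x)) := by
  obtain ⟨α, β, hαβ, hβ, hα⟩ := equiv6 hb hS hτ hb1 hc h
  have hn := congrArg Ideal.absNorm hαβ
  rw [map_mul, map_mul] at hn
  have hco : Ideal.absNorm c % 2 = 1 := Nat.odd_iff.1 hc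
  have hα7 : Ideal.absNorm (Ideal.span {α}) % 8 = 7 := by
    rcases hα with hα | hα
    · exfalso
      have h1 : (Ideal.absNorm (Ideal.span {α}) * Ideal.absNorm b) % 8 =
          (Ideal.absNorm (Ideal.span {β}) * Ideal.absNorm c) % 8 := by rw [hn]
      rw [Nat.mul_mod, Nat.mul_mod (Ideal.absNorm (Ideal.span {β})), hα, hβ, h7] at h1
      omega
    · exact hα
  obtain ⟨eb, heb, hPb⟩ := hF.tr β hβ
  have heb2 : eb + eb = 0 := by
    rcases heb with rfl | rfl
    · rw [add_zero]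
    · exact fk_m1
  refine ⟨P (Ideal.span {α}) + P 1 - eb + m1 F, ?_, fun x hx => ?_⟩
  · have h1 := hF.tq2 α hα7
    have h2 : P (Ideal.span {α}) + P 1 - eb + m1 F + (P (Ideal.span {α}) + P 1 - eb + m1 F) =
        (P (Ideal.span {α}) + P 1 + (P (Ideal.span {α}) + P 1)) - (eb + eb) +
          (m1 F + m1 F) := by
      abel
    rw [h2, h1, heb2, fk_m1, sub_zero, add_zero]
  · have h1 := hPb (c * x) (fk_odd hc hx)
    rw [← mul_assoc, ← hαβ, mul_assoc] at h1
    have h2 := hF.tq α hα7 (b * x) (fk_odd hb1 hx)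
    rw [h1] at h2
    have hx2 : Ideal.absNorm x % 2 = 1 := Nat.odd_iff.1 hx
    have h3 : d4 F (Ideal.absNorm (b * x)) = d4 F (Ideal.absNorm (c * x)) + m1 F := by
      have e1 : Ideal.absNorm (b * x) % 4 = (7 * Ideal.absNorm (c * x)) % 4 := by
        rw [map_mul, map_mul, ← mul_assoc, Nat.mul_mod, Nat.mul_mod (7 * Ideal.absNorm c)]
        congr 2
        omega
      have e2 : Ideal.absNorm (c * x) % 2 = 1 := by
        have := fk_odd hc hx
        exact Nat.odd_iff.1 this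
      unfold d4
      by_cases h4 : Ideal.absNorm (c * x) % 4 = 1
      · rw [if_pos h4, if_neg (by omega), zero_add]
      · rw [if_neg h4, if_pos (by omega), fk_m1]
    rw [h3] at h2
    have h4 : P (b * x) = P (Ideal.span {α}) + P 1 + (d4 F (Ideal.absNorm (c * x)) + m1 F) -
        (P (c * x) + eb) := eq_sub_of_add_eq' h2
    rw [h4]
    abel

end Pool.Agent.Work.MP_8efaaa_nt.W14
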