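import Mathlib
import Pool.Agent.Work.MP_8efaaa_nt.W14.DFk
import Pool.Agent.Work.MP_8efaaa_nt.W14.CHf

/-!
# W14/DAd (S-M): the abstract data of the ideals

`bar c = ⟨cj τ c, _⟩` (`norm_cj6`: the same norm). idx: `hi`. two: `qm_ep`. surj: `clM_surj`. kk: `clM_eq`: `cls b = cls c` or `cls b = t cls c`; `fk1`, `fk2` give one `ε` with `P (b x) = P (c x) + ε` for all `x ∈ M13`, also for `x = 1`. typ: the same with `x = 1`. clb: `cls_cj`. nrm: `c * cj τ c = (N c)` (`norm_cj6`), `FD.nat` for `n = N c` and the ideal `1`: `P (c * cj τ c) = P 1 + d8 (N c)`;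
`N c` is `1` or `3` modulo `8`, `clM S c ∈ H` iff `1`. it: `cls (z1 * z1) = t = t * cls 1`: `fk2` with `c = 1`, `x = 1`.
-/

set_option autoImplicit false

namespace Pool.Agent.Work.MP_8efaaa_nt.W14

open NumberField Pool.Agent.Work.MP_8efaaa_nt.R Pool.Agent.Work.MP_8efaaa_nt.N5
  Pool.Agent.Work.MP_8efaaa_nt.K6
open scoped Classical nonZeroDivisors

variable {K F : Type*} [Field K] [NumberField K] [Field F] [CharZero F] {a : ℕ} {s : K} {S : 𝓞 K}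
  {τ : 𝓞 K ≃+* 𝓞 K} {P : Ideal (𝓞 K) → QA F}


private theorem cmp_aux (hb : B6 K a s) (hS : algebraMap (𝓞 K) K S = s) (hτ : τ S = -S)
    (ha : a % 16 = 14) (hF : FD a S P) {b c : M13 K} (h : clM S b = clM S c) :
    ∃ ε : QA F, (ε = 0 ∨ ε = m1 F ∨ IT ε) ∧
      ∀ x ∈ M13 K, P ((b : Ideal (𝓞 K)) * x) = P ((c : Ideal (𝓞 K)) * x) + ε := by
  rcases (clM_eq hb hS).1 h with h1 | h1
  · obtain ⟨ε, h2, h3⟩ := fk1 hb hS hτ hF b.2 c.2 h1
    refine ⟨ε, ?_, h3⟩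
    rcases h2 with h2 | h2
    · exact Or.inl h2
    · exact Or.inr (Or.inl h2)
  · obtain ⟨ε, h2, h3⟩ := fk2 hb hS hτ ha hF b.2 c.2 h1
    exact ⟨ε, Or.inr (Or.inr h2), h3⟩

theorem exists_ad (hb : B6 K a s) (hS : algebraMap (𝓞 K) K S = s) (hτ : τ S = -S)
    (ha : a % 16 = 14) (hF : FD a S P) {H : Subgroup (CG S)} (hi : H.index = 2)
    (hH : ∀ c : M13 K, clM S c ∈ H ↔ Ideal.absNorm (c : Ideal (𝓞 K)) % 8 = 1) :
    ∃ bar : M13 K → M13 K, (∀ c, (bar c : Ideal (𝓞 K)) = cj τ (c : Ideal (𝓞 K))) ∧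
      AD H (fun c : M13 K => P (c : Ideal (𝓞 K))) (clM S) bar (m1 F) ∧
      (∀ b c : M13 K, clM S b = clM S c → P b - P c = 0 ∨ P b - P c = m1 F ∨
        IT (P (b : Ideal (𝓞 K)) - P c)) ∧
      ∀ z : M13 K, cls (z : Ideal (𝓞 K)) * cls (z : Ideal (𝓞 K)) = cls (r6 S 2) →
        IT (P ((z : Ideal (𝓞 K)) * z) - P 1) := by
  have hbar : ∀ c : M13 K, cj τ (c : Ideal (𝓞 K)) ∈ M13 K := by
    intro c
    have h1 := c.2
    show Ideal.absNorm (cj τ (c : Ideal (𝓞 K))) % 8 = 1 ∨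
      Ideal.absNorm (cj τ (c : Ideal (𝓞 K))) % 8 = 3
    rw [(norm_cj6 hb hS hτ (c : Ideal (𝓞 K))).1]
    exact h1
  have hcmp : ∀ b c : M13 K, clM S b = clM S c → ∃ ε : QA F, (ε = 0 ∨ ε = m1 F ∨ IT ε) ∧
      (∀ x ∈ M13 K, P ((b : Ideal (𝓞 K)) * x) = P ((c : Ideal (𝓞 K)) * x) + ε) ∧
      P (b : Ideal (𝓞 K)) - P (c : Ideal (𝓞 K)) = ε := by
    intro b c h
    obtain ⟨ε, h2, h3⟩ := cmp_aux hb hS hτ ha hF h
    refine ⟨ε, h2, h3, ?_⟩
    have h4 := h3 1 (Submonoid.one_mem _)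
    rw [mul_one, mul_one] at h4
    rw [h4]
    abel
  refine ⟨fun c => ⟨cj τ (c : Ideal (𝓞 K)), hbar c⟩, fun c => rfl, ?_, ?_, ?_⟩
  · constructor
    · exact hi
    · exact qm_ep.2.2.2.1
    · exact clM_surj hb hS
    · intro b c x h
      obtain ⟨ε, -, h3, h4⟩ := hcmp b c h
      show P ((b : Ideal (𝓞 K)) * (x : Ideal (𝓞 K))) - P ((c : Ideal (𝓞 K)) * (x : Ideal (𝓞 K))) = _
      rw [h3 _ x.2, h4]
      abel
    · intro c
      show (QuotientGroup.mk (cls (cj τ (c : Ideal (𝓞 K)))) : CG S) =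
        (QuotientGroup.mk (cls (c : Ideal (𝓞 K))) : CG S)⁻¹
      rw [(cls_cj hb hS hτ (M13.ne c.2)).2]
      rfl
    · intro c
      show P ((c : Ideal (𝓞 K)) * cj τ (c : Ideal (𝓞 K))) - P ((1 : M13 K) : Ideal (𝓞 K)) = _
      have h1 : ((1 : M13 K) : Ideal (𝓞 K)) = 1 := rfl
      have h2 : OddI (1 : Ideal (𝓞 K)) := M13.odd (Submonoid.one_mem (M13 K))
      have h3 := hF.nat _ (M13.odd c.2) 1 h2
      rw [mul_one] at h3
      rw [h1, (norm_cj6 hb hS hτ (c : Ideal (𝓞 K))).2.1, h3, add_sub_cancel_left]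
      have h4 := c.2
      have h5 := hH c
      unfold d8
      rcases h4 with h4 | h4
      · rw [if_pos (Or.inl h4), if_pos (h5.2 h4)]
      · rw [if_neg (by omega), if_neg (fun h6 => by have := h5.1 h6; omega)]
  · intro b c h
    obtain ⟨ε, h2, -, h4⟩ := hcmp b c h
    rw [h4]
    exact h2
  · intro z hz
    have h1 : cls ((z : Ideal (𝓞 K)) * (z : Ideal (𝓞 K))) = cls (r6 S 2) * cls (1 : Ideal (𝓞 K)) := by
      rw [cls_mul (M13.ne z.2) (M13.ne z.2), hz, cls_one, mul_one]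
    obtain ⟨ε, h2, h3⟩ := fk2 hb hS hτ ha hF (Submonoid.mul_mem _ z.2 z.2)
      (Submonoid.one_mem (M13 K)) h1
    have h4 := h3 1 (Submonoid.one_mem _)
    rw [mul_one, mul_one] at h4
    rw [h4, add_sub_cancel_left]
    exact h2

end Pool.Agent.Work.MP_8efaaa_nt.W14
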