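import Mathlib
import Pool.Agent.Work.MP_8efaaa_nt.W14.PTr
import Pool.Agent.Work.MP_8efaaa_nt.W14.PTq
import Pool.Agent.Work.MP_8efaaa_nt.W14.PFr

/-!
# W14/PFd (S): the formal data

tr, nat: `tr_pt`, `nat_pt`. tq: `tq_pt` for `c` and for `c = 1` (`mul_one`, `d4 1 = 0`). tq2: `c = 1`: `qm T + qm T = qm ez = m1` (`qm_ep`). fr: `fr_pt` for `c` and `c = 1` (`d8 1 = 0`).
it: with `T'` of `fr_pt` (`T' + T' = ep`) and `T` of `tq_pt` (`T + T = ez`): `PA n' + PA 1 = qm T'`, `PA α + PA 1 = qm T`, so `PA n' - PA α = qm (T' - T)` and `(T' - T) + (T' - T) = ep - ez = ep + ez = em` (`two_ep`).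
-/

set_option autoImplicit false

namespace Pool.Agent.Work.MP_8efaaa_nt.W14

open NumberField Pool.Agent.Work.MP_8efaaa_nt.R Pool.Agent.Work.MP_8efaaa_nt.N5
  Pool.Agent.Work.MP_8efaaa_nt.K6
open scoped Classical nonZeroDivisors

variable {K F : Type*} [Field K] [NumberField K] [Field F] [NumberField F] [Algebra K F] {a : ℕ}
  {s : K} {S : 𝓞 K} {τ : 𝓞 K ≃+* 𝓞 K} {ζ : F} {w : ℕ → F} {z k v : Ideal (𝓞 K) → F}
  {κ : F ≃ₐ[ℚ] F}


theorem exists_fd (hb : B6 K a s) (hS : algebraMap (𝓞 K) K S = s)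
    (hU : UD6 K F a s S τ ζ w z k v κ) : FD a S (PA z k v) := by
  have h1odd : OddI (1 : Ideal (𝓞 K)) := by
    unfold OddI
    rw [map_one]
    exact odd_one
  have hd4 : d4 F (Ideal.absNorm (1 : Ideal (𝓞 K))) = 0 := by
    unfold d4
    rw [map_one, if_pos (by norm_num)]
  have hd8 : d8 F (Ideal.absNorm (1 : Ideal (𝓞 K))) = 0 := by
    unfold d8
    rw [map_one, if_pos (by norm_num)]
  obtain ⟨t1, t2, t3, t4, t5, t6⟩ := two_ep (F := F)
  obtain ⟨q1, q2, q3, q4, q5⟩ := qm_ep (F := F)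
  obtain ⟨T', hT', hf⟩ := fr_pt hb hS hU
  have hf1 : PA z k v (r6 S (a / 2)) + PA z k v 1 = qm T' := by
    have h := hf 1 h1odd
    rw [mul_one, hd8, add_zero] at h
    exact h
  have hq : ∀ α : 𝓞 K, Ideal.absNorm (Ideal.span {α}) % 8 = 7 → ∃ T : (cQ F).Point,
      T + T = ez F ∧ PA z k v (Ideal.span {α}) + PA z k v 1 = qm T ∧ ∀ c, OddI c →
      PA z k v (Ideal.span {α} * c) + PA z k v c = qm T + d4 F (Ideal.absNorm c) := by
    intro α hα
    obtain ⟨T, hT, hc⟩ := tq_pt hb hS hU hα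
    refine ⟨T, hT, ?_, hc⟩
    have h := hc 1 h1odd
    rw [mul_one, hd4, add_zero] at h
    exact h
  refine ⟨fun α hα => tr_pt hb hS hU hα, fun n hn c hc => nat_pt hb hS hU hn hc, ?_, ?_, ?_, ?_⟩
  · intro α hα c hc
    obtain ⟨T, hT, h1, h2⟩ := hq α hα
    rw [h1]
    exact h2 c hc
  · intro α hα
    obtain ⟨T, hT, h1, h2⟩ := hq α hα
    rw [h1, ← map_add, hT, q2]
  · intro c hc
    rw [hf1]
    exact hf c hc
  · intro α hα
    obtain ⟨T, hT, h1, h2⟩ := hq α hα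
    refine ⟨T' - T, ?_, ?_⟩
    · have h3 : (T' - T) + (T' - T) = (T' + T') - (T + T) := by abel
      rw [h3, hT', hT, sub_eq_add_neg, ← eq_neg_of_add_eq_zero_left t3]
      exact t5
    · rw [map_sub, ← hf1, ← h1]
      abel

end Pool.Agent.Work.MP_8efaaa_nt.W14
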