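import Mathlib
import Pool.Agent.Work.MP_8efaaa_nt.W14.DAd
import Pool.Agent.Work.MP_8efaaa_nt.W14.DTo
import Pool.Agent.Work.MP_8efaaa_nt.W14.PFd

/-!
# W14/DYt (M-L): the sum over the classes is a torsion point

`F0 = PFd.exists_fd`: `P = PA z k v` has formal data. Let `W = ∑ over H of PP (r g) - ∑ over the complement of PP (r g)`, a point; `qm W = Y` (the difference in the claim).
(1) CLAIM: for `σ : F ≃ₐ[K] F`, `σ (ζ^2) = ζ^2`: `8 gal σ W = 8 W`; `σ (ζ^2) = -ζ^2`: `8 gal σ W = -8 W`. PROOF. `UD6.act σ` gives an odd ideal `b` with `σ (z c) = z (b c)` etc. (`MA6.act`), `σ ζ = ζ^(N b)`; `gal σ (PP c) = PP (b c)` (`gal_pp`). `N b = 1 (mod 4)` iff `σ (ζ^2) = ζ^2`.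
Let `b' = b` if `N b` is `1` or `3` modulo `8`; then `P (b' c) = P (b c)`. If `N b` is `5` or `7`: `b' = (1 + S) b`, `N b' = 7 N b` is `3` or `1`; `FD.tq`: `P (b' c) + P (b c) = T + d4 (N (b c))` with `T + T = m1` (`tq2`), so `4 P (b c) = -4 P (b' c)` (`4 T = 2 m1 = 0`). So `4 P (b c) = e 4 P (b' c)` with `e = 1` resp. `-1`.
`b' ∈ M13`, `clM (b' r g) = clM b' * g = clM (r (clM b' * g))`, so (`exists_ad`, typ) `4 P (b' r g) = 4 P (r (clM b' * g))` (`4 x = 0` for `x = 0`, `m1`, `IT x`). Summing (`g ↦ clM b' * g` permutes `G`; it preserves `H` and its complement if `clM b' ∈ H`, i.e. `N b' = 1`, and exchanges them otherwise (index `2`)): `4 qm (gal σ W) = ± 4 Y`,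
sign `+` iff (`e = 1` and `N b' = 1`) or (`e = -1` and `N b' = 3`), i.e. `N b` is `1` or `5`, i.e. `N b = 1 (mod 4)`. So `qm (4 (gal σ W ∓ W)) = 0`, `8 (gal σ W ∓ W) = 0` (`qm_eq_zero`, `two_ep`).
(2) `i = ζ^2`, `i^2 = -1`; `R.exists_cmi` gives `I`. `Z = I (8 W)`: `gal σ Z = Z` for all `σ : F ≃ₐ[K] F` (`CMI.gal_comm`, `CMI.gal_anti`; `σ i = ± i`). `fixed_pt`: `Z = 0` or `Z = pt (algebraMap x) (algebraMap y)`, `tor_B6`: `y = 0`, so `2 Z = 0` (`double_zero`). So `16 I W = 0`, and `I (I W) = -W` gives `16 W = 0`, `16 Y = 0`.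
-/

set_option autoImplicit false

namespace Pool.Agent.Work.MP_8efaaa_nt.W14

open NumberField Pool.Agent.Work.MP_8efaaa_nt.R Pool.Agent.Work.MP_8efaaa_nt.N5
  Pool.Agent.Work.MP_8efaaa_nt.K6
open scoped Classical nonZeroDivisors

variable {K F : Type*} [Field K] [NumberField K] [Field F] [NumberField F] [Algebra K F] {a : ℕ}
  {s : K} {S : 𝓞 K} {τ : 𝓞 K ≃+* 𝓞 K} {ζ : F} {w : ℕ → F} {z k v : Ideal (𝓞 K) → F}
  {κ : F ≃ₐ[ℚ] F}

/-- sums over a subgroup of index two and its complement, shifted -/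
private theorem sum_shift {G A : Type*} [CommGroup G] [Fintype G] [AddCommGroup A]
    {H : Subgroup G} (hi : H.index = 2) (f : G → A) (β : G) :
    (β ∈ H → (∑ g ∈ Finset.univ.filter (· ∈ H), f (β * g)) -
        ∑ g ∈ Finset.univ.filter (· ∉ H), f (β * g) =
      (∑ g ∈ Finset.univ.filter (· ∈ H), f g) - ∑ g ∈ Finset.univ.filter (· ∉ H), f g) ∧
    (β ∉ H → (∑ g ∈ Finset.univ.filter (· ∈ H), f (β * g)) -
        ∑ g ∈ Finset.univ.filter (· ∉ H), f (β * g) =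
      -((∑ g ∈ Finset.univ.filter (· ∈ H), f g) -
        ∑ g ∈ Finset.univ.filter (· ∉ H), f g)) := by
  have hm : ∀ g : G, β * g ∈ H ↔ (β ∈ H ↔ g ∈ H) := fun g =>
    Subgroup.mul_mem_iff_of_index_two hi
  constructor
  · intro hβ
    have h1 : ∑ g ∈ Finset.univ.filter (· ∈ H), f (β * g) =
        ∑ g ∈ Finset.univ.filter (· ∈ H), f g := by
      refine Finset.sum_equiv (Equiv.mulLeft β) (fun g => ?_) (fun g _ => rfl)
      simp only [Finset.mem_filter, Finset.mem_univ, true_and, Equiv.coe_mulLeft, hm]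
      tauto
    have h2 : ∑ g ∈ Finset.univ.filter (· ∉ H), f (β * g) =
        ∑ g ∈ Finset.univ.filter (· ∉ H), f g := by
      refine Finset.sum_equiv (Equiv.mulLeft β) (fun g => ?_) (fun g _ => rfl)
      simp only [Finset.mem_filter, Finset.mem_univ, true_and, Equiv.coe_mulLeft, hm]
      tauto
    rw [h1, h2]
  · intro hβ
    have h1 : ∑ g ∈ Finset.univ.filter (· ∈ H), f (β * g) =
        ∑ g ∈ Finset.univ.filter (· ∉ H), f g := by
      refine Finset.sum_equiv (Equiv.mulLeft β) (fun g => ?_) (fun g _ => rfl)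
      simp only [Finset.mem_filter, Finset.mem_univ, true_and, Equiv.coe_mulLeft, hm]
      tauto
    have h2 : ∑ g ∈ Finset.univ.filter (· ∉ H), f (β * g) =
        ∑ g ∈ Finset.univ.filter (· ∈ H), f g := by
      refine Finset.sum_equiv (Equiv.mulLeft β) (fun g => ?_) (fun g _ => rfl)
      simp only [Finset.mem_filter, Finset.mem_univ, true_and, Equiv.coe_mulLeft, hm]
      tauto
    rw [h1, h2, neg_sub]

omit [NumberField F] in
/-- four times a point of the ambiguity -/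
private theorem four_zero [CharZero F] {x : QA F} (hx : x = 0 ∨ x = m1 F ∨ IT x) :
    (4 : ℤ) • x = 0 := by
  have h2 := (qm_ep (F := F)).2.2.2.1
  have h4 : (4 : ℤ) • x = (x + x) + (x + x) := by abel
  rw [h4]
  rcases hx with rfl | rfl | hx
  · simp
  · rw [h2, add_zero]
  · rw [(it_facts hx).2.2, h2]

/-- the action of the automorphisms on four times the sum -/
private theorem act_sum (hb : B6 K a s)
    (hS : algebraMap (𝓞 K) K S = s) (hτ : τ S = -S) (ha : a % 16 = 14)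
    (hU : UD6 K F a s S τ ζ w z k v κ) {H : Subgroup (CG S)}
    (hi : H.index = 2)
    (hH : ∀ c : M13 K, clM S c ∈ H ↔ Ideal.absNorm (c : Ideal (𝓞 K)) % 8 = 1)
    [Fintype (CG S)] (r : CG S → M13 K) (hr : ∀ g, clM S (r g) = g) (σ : F ≃ₐ[K] F) :
    (σ (ζ ^ 2) = ζ ^ 2 ∧ (4 : ℤ) • galA σ
      ((∑ g ∈ Finset.univ.filter (· ∈ H), PA z k v (r g : Ideal (𝓞 K))) -
      ∑ g ∈ Finset.univ.filter (· ∉ H), PA z k v (r g : Ideal (𝓞 K))) =
      (4 : ℤ) • ((∑ g ∈ Finset.univ.filter (· ∈ H), PA z k v (r g : Ideal (𝓞 K))) -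
      ∑ g ∈ Finset.univ.filter (· ∉ H), PA z k v (r g : Ideal (𝓞 K)))) ∨
    (σ (ζ ^ 2) = -ζ ^ 2 ∧ (4 : ℤ) • galA σ
      ((∑ g ∈ Finset.univ.filter (· ∈ H), PA z k v (r g : Ideal (𝓞 K))) -
      ∑ g ∈ Finset.univ.filter (· ∉ H), PA z k v (r g : Ideal (𝓞 K))) =
      -((4 : ℤ) • ((∑ g ∈ Finset.univ.filter (· ∈ H), PA z k v (r g : Ideal (𝓞 K))) -
      ∑ g ∈ Finset.univ.filter (· ∉ H), PA z k v (r g : Ideal (𝓞 K))))) := by
  have hF := exists_fd hb hS hU
  obtain ⟨bar, -, -, htyp, -⟩ := exists_ad hb hS hτ ha hF hi hH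
  obtain ⟨b, hbo, -, hact⟩ := hU.act σ
  set P : Ideal (𝓞 K) → QA F := PA z k v with hP
  -- four times the point of an ideal of norm one or three
  have hf : ∀ c : M13 K, (4 : ℤ) • P (c : Ideal (𝓞 K)) =
      (4 : ℤ) • P (r (clM S c) : Ideal (𝓞 K)) := by
    intro c
    have h1 := four_zero (htyp c (r (clM S c)) (hr _).symm)
    rw [smul_sub, sub_eq_zero] at h1
    exact h1
  -- the action on the points
  have hg : ∀ c, OddI c → galA σ (P c) = P (b * c) := by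
    intro c hc
    obtain ⟨h1, h2, h3⟩ := hact.act c hc
    rw [hP]
    unfold PA
    rw [galA_qm, gal_pp σ h1 h2 h3]
  -- the powers of `ζ ^ 2`
  have hζ : ζ ^ 8 = 1 := by
    have : ζ ^ 8 = (ζ ^ 4) ^ 2 := by ring
    rw [this, hU.z8]
    norm_num
  have hσi : σ (ζ ^ 2) = ζ ^ (2 * (Ideal.absNorm b % 4)) := by
    rw [map_pow, hact.z8, ← pow_mul]
    have h1 : Ideal.absNorm b * 2 = 2 * (Ideal.absNorm b % 4) + 8 * (Ideal.absNorm b / 4) := by
      omega
    rw [h1, pow_add, pow_mul ζ 8, hζ, one_pow, mul_one]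
  have h1 : Ideal.absNorm b % 4 = 1 → σ (ζ ^ 2) = ζ ^ 2 := by
    intro h
    rw [hσi, h]
  have h3 : Ideal.absNorm b % 4 = 3 → σ (ζ ^ 2) = -ζ ^ 2 := by
    intro h
    rw [hσi, h]
    have : ζ ^ (2 * 3) = ζ ^ 4 * ζ ^ 2 := by ring
    rw [this, hU.z8]
    ring
  have hbo' := hbo
  unfold OddI at hbo'
  rw [Nat.odd_iff] at hbo'
  -- the sums
  have key : ∀ (β : CG S) (e : ℤ), (∀ g : CG S, (4 : ℤ) • galA σ (P (r g : Ideal (𝓞 K))) =
      e • ((4 : ℤ) • P (r (β * g) : Ideal (𝓞 K)))) →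
      (4 : ℤ) • galA σ ((∑ g ∈ Finset.univ.filter (· ∈ H), P (r g : Ideal (𝓞 K))) -
        ∑ g ∈ Finset.univ.filter (· ∉ H), P (r g : Ideal (𝓞 K))) =
      e • ((∑ g ∈ Finset.univ.filter (· ∈ H), (4 : ℤ) • P (r (β * g) : Ideal (𝓞 K))) -
        ∑ g ∈ Finset.univ.filter (· ∉ H), (4 : ℤ) • P (r (β * g) : Ideal (𝓞 K))) := by
    intro β e h
    rw [map_sub, map_sum, map_sum, smul_sub, smul_sub, Finset.smul_sum, Finset.smul_sum,
      Finset.smul_sum, Finset.smul_sum, Finset.sum_congr rfl (fun g _ => h g),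
      Finset.sum_congr rfl (fun g _ => h g)]
  have h4 : (4 : ℤ) • ((∑ g ∈ Finset.univ.filter (· ∈ H), P (r g : Ideal (𝓞 K))) -
        ∑ g ∈ Finset.univ.filter (· ∉ H), P (r g : Ideal (𝓞 K))) =
      (∑ g ∈ Finset.univ.filter (· ∈ H), (4 : ℤ) • P (r g : Ideal (𝓞 K))) -
        ∑ g ∈ Finset.univ.filter (· ∉ H), (4 : ℤ) • P (r g : Ideal (𝓞 K)) := by
    rw [smul_sub, Finset.smul_sum, Finset.smul_sum]
  rcases (by omega : Ideal.absNorm b % 8 = 1 ∨ Ideal.absNorm b % 8 = 3 ∨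
      Ideal.absNorm b % 8 = 5 ∨ Ideal.absNorm b % 8 = 7) with hb8 | hb8 | hb8 | hb8
  · -- norm one
    have hbM : b ∈ M13 K := Or.inl hb8
    refine Or.inl ⟨h1 (by omega), ?_⟩
    have e1 : ∀ g : CG S, (4 : ℤ) • galA σ (P (r g : Ideal (𝓞 K))) =
        (1 : ℤ) • ((4 : ℤ) • P (r (clM S ⟨b, hbM⟩ * g) : Ideal (𝓞 K))) := by
      intro g
      rw [hg _ (M13.odd (r g).2), one_smul]
      have := hf (⟨b, hbM⟩ * r g)
      rw [map_mul, hr] at this
      exact this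
    rw [key _ _ e1, h4, one_smul]
    exact (sum_shift hi (fun g => (4 : ℤ) • P (r g : Ideal (𝓞 K))) _).1 ((hH _).2 hb8)
  · -- norm three
    have hbM : b ∈ M13 K := Or.inr hb8
    refine Or.inr ⟨h3 (by omega), ?_⟩
    have e1 : ∀ g : CG S, (4 : ℤ) • galA σ (P (r g : Ideal (𝓞 K))) =
        (1 : ℤ) • ((4 : ℤ) • P (r (clM S ⟨b, hbM⟩ * g) : Ideal (𝓞 K))) := by
      intro g
      rw [hg _ (M13.odd (r g).2), one_smul]
      have := hf (⟨b, hbM⟩ * r g)
      rw [map_mul, hr] at this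
      exact this
    rw [key _ _ e1, h4, one_smul]
    refine (sum_shift hi (fun g => (4 : ℤ) • P (r g : Ideal (𝓞 K))) _).2 (fun h => ?_)
    have := (hH _).1 h
    change Ideal.absNorm b % 8 = 1 at this
    omega
  all_goals
    have hng : Ideal.absNorm (Ideal.span {(1 : 𝓞 K) + S}) % 8 = 7 := by
      rw [norm_g hb hS]
      omega
    have hnb : Ideal.absNorm (Ideal.span {(1 : 𝓞 K) + S} * b) % 8 =
        7 * Ideal.absNorm b % 8 := by
      rw [map_mul, Nat.mul_mod, hng]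
      omega
    have hbM : Ideal.span {(1 : 𝓞 K) + S} * b ∈ M13 K := by
      show _ % 8 = 1 ∨ _ % 8 = 3
      rw [hnb]
      omega
    have e1 : ∀ g : CG S, (4 : ℤ) • galA σ (P (r g : Ideal (𝓞 K))) =
        (-1 : ℤ) • ((4 : ℤ) • P (r (clM S ⟨Ideal.span {(1 : 𝓞 K) + S} * b, hbM⟩ * g) :
          Ideal (𝓞 K))) := by
      intro g
      rw [hg _ (M13.odd (r g).2), neg_one_zsmul]
      have hh := hf (⟨Ideal.span {(1 : 𝓞 K) + S} * b, hbM⟩ * r g)
      rw [map_mul, hr] at hh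
      change (4 : ℤ) • P (Ideal.span {(1 : 𝓞 K) + S} * b * (r g : Ideal (𝓞 K))) = _ at hh
      rw [← hh, mul_assoc]
      have ht := hF.tq _ hng (b * (r g : Ideal (𝓞 K))) (hbo.mul (M13.odd (r g).2))
      have ht2 := hF.tq2 _ hng
      have hd : (4 : ℤ) • d4 F (Ideal.absNorm (b * (r g : Ideal (𝓞 K)))) = 0 := by
        apply four_zero
        unfold d4
        split_ifs
        · exact Or.inl rfl
        · exact Or.inr (Or.inl rfl)
      have h5 : (4 : ℤ) • (P (Ideal.span {(1 : 𝓞 K) + S}) + P 1) = 0 := by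
        have h6 : (4 : ℤ) • (P (Ideal.span {(1 : 𝓞 K) + S}) + P 1) =
            ((P (Ideal.span {(1 : 𝓞 K) + S}) + P 1) + (P (Ideal.span {(1 : 𝓞 K) + S}) + P 1)) +
            ((P (Ideal.span {(1 : 𝓞 K) + S}) + P 1) + (P (Ideal.span {(1 : 𝓞 K) + S}) + P 1)) := by
          abel
        rw [h6, ht2]
        exact (qm_ep (F := F)).2.2.2.1
      have h7 := congrArg (fun t => (4 : ℤ) • t) ht
      simp only [smul_add] at h7 h5
      rw [hd, h5, add_zero] at h7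
      exact eq_neg_of_add_eq_zero_right h7
  · -- norm five
    refine Or.inl ⟨h1 (by omega), ?_⟩
    rw [key _ _ e1, h4, neg_one_zsmul,
      (sum_shift hi (fun g => (4 : ℤ) • P (r g : Ideal (𝓞 K))) _).2 (fun h => ?_), neg_neg]
    have := (hH _).1 h
    change Ideal.absNorm (Ideal.span {(1 : 𝓞 K) + S} * b) % 8 = 1 at this
    omega
  · -- norm seven
    refine Or.inr ⟨h3 (by omega), ?_⟩
    rw [key _ _ e1, h4, neg_one_zsmul,
      (sum_shift hi (fun g => (4 : ℤ) • P (r g : Ideal (𝓞 K))) _).1 ((hH _).2 ?_)]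
    change Ideal.absNorm (Ideal.span {(1 : 𝓞 K) + S} * b) % 8 = 1
    omega

theorem y_tor [FiniteDimensional K F] [IsGalois K F] (hb : B6 K a s)
    (hS : algebraMap (𝓞 K) K S = s) (hτ : τ S = -S) (ha : a % 16 = 14)
    (hU : UD6 K F a s S τ ζ w z k v κ) (hnc : ¬ IsCongruent a) {H : Subgroup (CG S)}
    (hi : H.index = 2)
    (hH : ∀ c : M13 K, clM S c ∈ H ↔ Ideal.absNorm (c : Ideal (𝓞 K)) % 8 = 1)
    [Fintype (CG S)] (r : CG S → M13 K) (hr : ∀ g, clM S (r g) = g) :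
    (16 : ℤ) • ((∑ g ∈ Finset.univ.filter (· ∈ H), PA z k v (r g : Ideal (𝓞 K))) -
      ∑ g ∈ Finset.univ.filter (· ∉ H), PA z k v (r g : Ideal (𝓞 K))) = 0 := by
  obtain ⟨I, hI⟩ := exists_cmi (i_sq hU.z8)
  -- the point
  have hW : ∃ W : (cQ F).Point, qm W =
      (∑ g ∈ Finset.univ.filter (· ∈ H), PA z k v (r g : Ideal (𝓞 K))) -
      ∑ g ∈ Finset.univ.filter (· ∉ H), PA z k v (r g : Ideal (𝓞 K)) := by
    refine ⟨(∑ g ∈ Finset.univ.filter (· ∈ H), PP z k v (r g : Ideal (𝓞 K))) -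
      ∑ g ∈ Finset.univ.filter (· ∉ H), PP z k v (r g : Ideal (𝓞 K)), ?_⟩
    rw [map_sub, map_sum, map_sum]
    rfl
  obtain ⟨W, hW⟩ := hW
  -- the kernel of `qm` is killed by two
  have hk : ∀ R : (cQ F).Point, qm R = 0 → (2 : ℤ) • R = 0 := by
    intro R hR
    rw [two_zsmul]
    rcases qm_eq_zero.1 hR with rfl | rfl
    · rw [add_zero]
    · exact two_ep.1
  have hZ : ∀ σ : F ≃ₐ[K] F, gal σ (I ((8 : ℤ) • W)) = I ((8 : ℤ) • W) := by
    intro σ
    have h0 := act_sum hb hS hτ ha hU hi hH r hr σ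
    rw [← hW, galA_qm] at h0
    rcases h0 with ⟨h1, h2⟩ | ⟨h1, h2⟩
    · have h3 : qm ((4 : ℤ) • gal σ W - (4 : ℤ) • W) = 0 := by
        rw [map_sub, map_zsmul, map_zsmul, h2, sub_self]
      have h4 := hk _ h3
      have h5 : gal σ ((8 : ℤ) • W) = (8 : ℤ) • W := by
        rw [map_zsmul, ← sub_eq_zero, ← h4]
        abel
      rw [hI.gal_comm h1, h5]
    · have h3 : qm ((4 : ℤ) • gal σ W + (4 : ℤ) • W) = 0 := by
        rw [map_add, map_zsmul, map_zsmul, h2, neg_add_cancel]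
      have h4 := hk _ h3
      have h5 : gal σ ((8 : ℤ) • W) = -((8 : ℤ) • W) := by
        rw [map_zsmul, eq_neg_iff_add_eq_zero, ← h4]
        abel
      rw [hI.gal_anti h1, h5, map_neg, neg_neg]
  have hZ2 : (2 : ℤ) • I ((8 : ℤ) • W) = 0 := by
    rcases fixed_pt hZ with h0 | ⟨x, y, h, h0⟩
    · rw [h0, smul_zero]
    · rw [h0]
      have hxy : y ^ 2 = x ^ 3 - x := by
        apply (algebraMap K F).injective
        rw [map_pow, map_sub, map_pow]
        exact h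
      have hy := tor_B6 hb hnc hxy
      rw [two_zsmul]
      unfold pt
      exact double_zero _ (by rw [hy, map_zero])
  have h16 : (16 : ℤ) • W = 0 := by
    rw [← map_zsmul, smul_smul] at hZ2
    norm_num at hZ2
    have h1 : I (I ((16 : ℤ) • W)) = 0 := by
      rw [map_zsmul, hZ2, map_zero]
    rw [hI.sq] at h1
    exact neg_eq_zero.1 h1
  rw [← hW, ← map_zsmul, h16, map_zero]

end Pool.Agent.Work.MP_8efaaa_nt.W14
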