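import Mathlib
import Pool.Agent.Work.MP_8efaaa_nt.W14.CCl

/-!
# W14/CCh (M): the character of an odd ramified prime

num_desc: strong induction on `M`. If `q ∤ M`: modulo `q` (`q ∣ a`): `n M^2 = x^2`, `n` is a nonzero square modulo `q`: `jacobiSym n q = legendreSym q n = 1` (`jacobiSym.legendreSym.to_jacobiSym`, `legendreSym.eq_one_iff`). If `q ∣ M`: `q ∣ x^2`, `x = q x'`, `M = q M'`; `q^2 ∣ a y^2`, `q^2 ∤ a` (squarefree), so `q ∣ y`,
`y = q y'`; divide by `q^2`: `n M'^2 = x'^2 + a y'^2`, `M' < M`.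
chi_sq: `C = cls c`, `c ∈ M13` (`cls_surj`). Case 1: `b (cj τ c)^2` has class `C C C⁻¹ C⁻¹ = 1` (`cls_cj`), it is `(γ)`, `γ = x + y S`: `N b (N c)^2 = x^2 + a y^2` (`norm_cj6`, `norm_lin6`), num_desc with `n = N b`, `M = N c`. Case 2: `b (cj τ c)^2 r6 S 2` has class `t t = 1`: `2 N b (N c)^2 = x^2 + a y^2`, num_desc with `n = 2 N b`:
`jacobiSym (2 N b) q = 1`, and `jacobiSym 2 q = 1` (`q = ± 1 (mod 8)`), so `jacobiSym (N b) q = 1` (`jacobiSym.mul_left`).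
-/

set_option autoImplicit false

namespace Pool.Agent.Work.MP_8efaaa_nt.W14

open NumberField Pool.Agent.Work.MP_8efaaa_nt.R Pool.Agent.Work.MP_8efaaa_nt.N5
  Pool.Agent.Work.MP_8efaaa_nt.K6
open scoped Classical nonZeroDivisors

variable {K : Type*} [Field K] [NumberField K] {a : ℕ} {s : K} {S : 𝓞 K} {τ : 𝓞 K ≃+* 𝓞 K}


theorem num_desc {q : ℕ} (hq : q.Prime) (hq2 : q ≠ 2) {a : ℕ} (hqa : q ∣ a)
    (hsf : Squarefree a) {n M : ℕ} {x y : ℤ} (hM : M ≠ 0) (hn : ¬ q ∣ n)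
    (h : (n : ℤ) * (M : ℤ) ^ 2 = x ^ 2 + a * y ^ 2) : jacobiSym n q = 1 := by
  induction M using Nat.strong_induction_on generalizing x y with
  | _ M ih =>
  have hqp : Prime (q : ℤ) := Nat.prime_iff_prime_int.1 hq
  by_cases hqM : q ∣ M
  · obtain ⟨M', rfl⟩ := hqM
    have hM' : M' ≠ 0 := by
      rintro rfl
      exact hM (mul_zero _)
    obtain ⟨e, he⟩ := hqa
    have hqe : ¬ (q : ℤ) ∣ (e : ℤ) := by
      intro hc
      have hc' : q ∣ e := by exact_mod_cast hc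
      have h1 : q * q ∣ a := by
        rw [he]
        exact mul_dvd_mul_left q hc'
      exact hq.one_lt.ne' (Nat.isUnit_iff.1 (hsf q h1))
    rw [he] at h
    push_cast at h
    have h1 : (q : ℤ) ∣ x ^ 2 := ⟨n * q * M' ^ 2 - e * y ^ 2, by linear_combination -h⟩
    obtain ⟨x', rfl⟩ := hqp.dvd_of_dvd_pow h1
    have hq0 : (q : ℤ) ≠ 0 := hqp.ne_zero
    have h2 : (q : ℤ) ∣ e * y ^ 2 := by
      refine ⟨n * M' ^ 2 - x' ^ 2, ?_⟩
      apply mul_left_cancel₀ hq0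
      linear_combination -h
    obtain ⟨y', rfl⟩ := hqp.dvd_of_dvd_pow ((hqp.dvd_or_dvd h2).resolve_left hqe)
    refine ih M' ?_ (x := x') (y := y') hM' ?_
    · have h3 := hq.one_lt
      have h4 : 0 < M' := Nat.pos_of_ne_zero hM'
      nlinarith
    · apply mul_left_cancel₀ (pow_ne_zero 2 hq0)
      rw [he]
      push_cast
      linear_combination h
  · haveI : Fact q.Prime := ⟨hq⟩
    have h1 := congrArg (Int.cast : ℤ → ZMod q) h
    have ha0 : ((a : ℕ) : ZMod q) = 0 := (ZMod.natCast_eq_zero_iff a q).2 hqa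
    push_cast at h1
    rw [ha0, zero_mul, add_zero] at h1
    have hM0 : ((M : ℕ) : ZMod q) ≠ 0 := fun h0 => hqM ((ZMod.natCast_eq_zero_iff M q).1 h0)
    have hn0 : ((n : ℤ) : ZMod q) ≠ 0 := by
      intro h0
      apply hn
      rw [← ZMod.natCast_eq_zero_iff]
      exact_mod_cast h0
    rw [← jacobiSym.legendreSym.to_jacobiSym, legendreSym.eq_one_iff q hn0]
    refine ⟨(x : ZMod q) / (M : ZMod q), ?_⟩
    field_simp
    push_cast
    linear_combination h1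

theorem chi_sq (hb : B6 K a s) (hS : algebraMap (𝓞 K) K S = s) (hτ : τ S = -S) {q : ℕ}
    (hq : q.Prime) (hq8 : q % 8 = 1 ∨ q % 8 = 7) (hqa : q ∣ a) {b : Ideal (𝓞 K)}
    (hb0 : b ≠ 0) (hbq : ¬ q ∣ Ideal.absNorm b) {C : ClassGroup (𝓞 K)}
    (h : cls b = C * C ∨ cls b = cls (r6 S 2) * (C * C)) :
    jacobiSym (Ideal.absNorm b) q = 1 := by
  have hq2 : q ≠ 2 := by
    rintro rfl
    omega
  obtain ⟨c, hc, rfl⟩ := cls_surj hb hS C
  have hc0 := M13.ne hc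
  obtain ⟨hcj0, hcj⟩ := cls_cj hb hS hτ hc0
  have hNc : Ideal.absNorm c ≠ 0 := fun h0 => hc0 (Ideal.absNorm_eq_zero_iff.1 h0)
  have hcc0 : cj τ c * cj τ c ≠ 0 := mul_ne_zero hcj0 hcj0
  have hcc : cls (cj τ c * cj τ c) = (cls c * cls c)⁻¹ := by
    rw [cls_mul hcj0 hcj0, hcj, mul_inv]
  have hNcc : Ideal.absNorm (cj τ c * cj τ c) = Ideal.absNorm c ^ 2 := by
    rw [map_mul, (norm_cj6 hb hS hτ c).1, pow_two]
  rcases h with h | h
  · obtain ⟨γ, -, h2⟩ := prin_of_cls (b := b * (cj τ c * cj τ c)) (mul_ne_zero hb0 hcc0)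
      (by rw [cls_mul hb0 hcc0, hcc, h, mul_inv_cancel])
    obtain ⟨x, y, hxy⟩ := coords6 hb γ
    have h3 := norm_lin6 hb hxy
    rw [← h2, map_mul, hNcc] at h3
    push_cast at h3
    exact num_desc hq hq2 hqa hb.sf hNc hbq h3
  · have h20 : (2 : ℕ) ∣ a := by
      have := hb.mod
      omega
    have hr0 := r6_ne hb hS h20
    obtain ⟨γ, -, h2⟩ := prin_of_cls (b := r6 S 2 * b * (cj τ c * cj τ c))
      (mul_ne_zero (mul_ne_zero hr0 hb0) hcc0)
      (by rw [cls_mul (mul_ne_zero hr0 hb0) hcc0, cls_mul hr0 hb0, hcc, h, ← mul_assoc (cls (r6 S 2)),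
            (cls_two hb hS).1, one_mul, mul_inv_cancel])
    obtain ⟨x, y, hxy⟩ := coords6 hb γ
    have h3 := norm_lin6 hb hxy
    rw [← h2, map_mul, map_mul, hNcc, norm_r6 hb hS h20] at h3
    have hnq : ¬ q ∣ 2 * Ideal.absNorm b := by
      intro h4
      rcases (Nat.Prime.dvd_mul hq).1 h4 with h5 | h5
      · exact hq2 ((Nat.prime_dvd_prime_iff_eq hq Nat.prime_two).1 h5)
      · exact hbq h5
    have h4 := num_desc (n := 2 * Ideal.absNorm b) hq hq2 hqa hb.sf hNc hnq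
      (by push_cast at h3 ⊢; exact h3)
    have hodd : Odd q := hq.odd_of_ne_two hq2
    push_cast at h4
    rw [jacobiSym.mul_left, jacobiSym.at_two hodd, ZMod.χ₈_nat_eq_if_mod_eight] at h4
    have h5 : q % 2 ≠ 0 := by omega
    rw [if_neg h5, if_pos hq8, one_mul] at h4
    exact h4

end Pool.Agent.Work.MP_8efaaa_nt.W14
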