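import Mathlib
import Pool.Agent.Work.MP_8efaaa_nt.W14.CEq
import Pool.Agent.Work.MP_8efaaa_nt.W14.CCo

/-!
# W14/CHi (M-L): the classes of order two

amb6: let `e ≠ 0` with `cj τ e = e`. The set of the `y : ℤ` with `x + y S ∈ e` for some `x : ℤ` is an ideal `(n)` of `ℤ`, `n > 0` (it contains `y ≠ 0`: `m S ∈ e` for an integer `m ∈ e`). If `x + y S ∈ e` then `S (x + y S) = -a y + x S ∈ e`, so `n ∣ x`; hence every element of `e` is divisible by `n`, `e = (n) e'`, and `e'` contains an element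
`x0 + S`, and `cj τ e' = e'` (cancel `(n)`). So `x0 - S ∈ e'`, `2 x0 ∈ e'`, `2 S ∈ e'`. Let `e' ∩ ℤ = (d)` (`d = N e'` because `𝓞 K = ℤ ⊕ ℤ (x0 + S)`: `e' = {d u + v (x0 + S)}`). `d ∣ 2 x0`, `d ∣ x0^2 + a` (`(x0 + S)(x0 - S)`). A prime `l` with `l^2 ∣ d`: `l` odd: `l ∣ x0`, `l^2 ∣ x0^2`.. `l^2 ∣ a`, against squarefree;
`l = 2`: `4 ∣ 2 x0`, `x0` even, `4 ∣ x0^2 + a`, `4 ∣ a`, no. So `d` is squarefree, `d ∣ 2 x0`; an odd prime `l ∣ d` divides `x0` and `a`; if `2 ∣ d`, `2 ∣ x0^2 + a`, `x0` even. So `d ∣ x0`, `d ∣ a`, `S ∈ e'`, `e' = (d, S) = r6 S d`.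
hil6: `C = cls c`, `c` odd (`exists_cop`), `C * C = 1`. `cls (c * c) = 1`: `c * c = (β)` (`prin_of_cls`). The argument of `Rf/Hil.lean` (`hil`, with `α = 1`), word by word: `n = N c`, `c' = cj τ c`, `(n) c = (β) c'`, `n^2 = β τ β`. `ρ = n + β`; if `ρ ≠ 0`: `e = (τ ρ) (n) c` has `cj τ e = e` (see there), so `e = (m) r6 S d` (amb6) and `cls c = cls e = cls (r6 S d)`.
If `ρ = 0`: `c = c'`, amb6 for `c`.
-/

set_option autoImplicit false

namespace Pool.Agent.Work.MP_8efaaa_nt.W14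

open NumberField Pool.Agent.Work.MP_8efaaa_nt.R Pool.Agent.Work.MP_8efaaa_nt.N5
  Pool.Agent.Work.MP_8efaaa_nt.K6
open scoped Classical nonZeroDivisors

variable {K : Type*} [Field K] [NumberField K] {a : ℕ} {s : K} {S : 𝓞 K} {τ : 𝓞 K ≃+* 𝓞 K}


/-- an ideal of `ℤ` consists of the multiples of a natural number -/
private theorem exists_nat_gen (I : Ideal ℤ) : ∃ n : ℕ, ∀ x : ℤ, x ∈ I ↔ (n : ℤ) ∣ x := by
  obtain ⟨g, hg⟩ := (IsPrincipalIdealRing.principal I).principal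
  refine ⟨g.natAbs, fun x => ?_⟩
  rw [Int.natAbs_dvd, ← Ideal.mem_span_singleton]
  rw [hg]

theorem amb6 (hb : B6 K a s) (hS : algebraMap (𝓞 K) K S = s) (hτ : τ S = -S)
    {e : Ideal (𝓞 K)} (he : e ≠ 0) (h : cj τ e = e) :
    ∃ n d : ℕ, n ≠ 0 ∧ d ∣ a ∧ e = Ideal.span {(n : 𝓞 K)} * r6 S d := by
  have hq := q6 hb hS
  have hsq : S * S = -(a : 𝓞 K) := hq.sq
  -- the ideal of the second coordinates
  let I : Ideal ℤ :=
    { carrier := {y | ∃ x : ℤ, (x : 𝓞 K) + (y : 𝓞 K) * S ∈ e}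
      add_mem' := by
        rintro y y' ⟨x, hx⟩ ⟨x', hx'⟩
        refine ⟨x + x', ?_⟩
        have h1 := e.add_mem hx hx'
        have h2 : ((x + x' : ℤ) : 𝓞 K) + ((y + y' : ℤ) : 𝓞 K) * S =
            (x : 𝓞 K) + (y : 𝓞 K) * S + ((x' : 𝓞 K) + (y' : 𝓞 K) * S) := by
          push_cast
          ring
        rw [h2]
        exact h1
      zero_mem' := ⟨0, by simp⟩
      smul_mem' := by
        rintro c y ⟨x, hx⟩
        refine ⟨c * x, ?_⟩
        have h1 := e.mul_mem_left (c : 𝓞 K) hx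
        have h2 : ((c * x : ℤ) : 𝓞 K) + ((c • y : ℤ) : 𝓞 K) * S =
            (c : 𝓞 K) * ((x : 𝓞 K) + (y : 𝓞 K) * S) := by
          rw [smul_eq_mul]
          push_cast
          ring
        rw [h2]
        exact h1 }
  have hI : ∀ y : ℤ, y ∈ I ↔ ∃ x : ℤ, (x : 𝓞 K) + (y : 𝓞 K) * S ∈ e := fun y => Iff.rfl
  obtain ⟨n, hn⟩ := exists_nat_gen I
  have hswap : ∀ x y : ℤ, (x : 𝓞 K) + (y : 𝓞 K) * S ∈ e →
      ((-(a : ℤ) * y : ℤ) : 𝓞 K) + (x : 𝓞 K) * S ∈ e := by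
    intro x y hxy
    have h1 := e.mul_mem_left S hxy
    have h2 : ((-(a : ℤ) * y : ℤ) : 𝓞 K) + (x : 𝓞 K) * S = S * ((x : 𝓞 K) + (y : 𝓞 K) * S) := by
      push_cast
      linear_combination (-(y : 𝓞 K)) * hsq
    rw [h2]
    exact h1
  have hdiv : ∀ x y : ℤ, (x : 𝓞 K) + (y : 𝓞 K) * S ∈ e → (n : ℤ) ∣ x ∧ (n : ℤ) ∣ y := by
    intro x y hxy
    exact ⟨(hn x).1 ((hI x).2 ⟨_, hswap x y hxy⟩), (hn y).1 ((hI y).2 ⟨x, hxy⟩)⟩
  have hn0 : n ≠ 0 := by
    rintro rfl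
    apply he
    rw [Ideal.zero_eq_bot, eq_bot_iff]
    intro x hx
    obtain ⟨u, v, rfl⟩ := hq.coords x
    obtain ⟨h1, h2⟩ := hdiv u v hx
    rw [Nat.cast_zero, zero_dvd_iff] at h1 h2
    rw [h1, h2]
    simp
  have hnK : (n : 𝓞 K) ≠ 0 := Nat.cast_ne_zero.2 hn0
  have hle : e ≤ Ideal.span {(n : 𝓞 K)} := by
    intro x hx
    obtain ⟨u, v, rfl⟩ := hq.coords x
    obtain ⟨⟨u', rfl⟩, ⟨v', rfl⟩⟩ := hdiv u v hx
    rw [Ideal.mem_span_singleton]
    exact ⟨u' + v' * S, by push_cast; ring⟩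
  obtain ⟨e', he'⟩ := Ideal.dvd_iff_le.2 hle
  have hsp0 : Ideal.span {(n : 𝓞 K)} ≠ 0 := by
    rw [Ideal.zero_eq_bot, Ne, Ideal.span_singleton_eq_bot]
    exact hnK
  have hcj' : cj τ e' = e' := by
    rw [he', cj_mul6] at h
    have h1 : cj τ (Ideal.span {(n : 𝓞 K)}) = Ideal.span {(n : 𝓞 K)} := by
      unfold cj
      rw [Ideal.map_span, Set.image_singleton]
      simp
    rw [h1] at h
    exact mul_left_cancel₀ hsp0 h
  have hmem' : ∀ z : 𝓞 K, (n : 𝓞 K) * z ∈ e → z ∈ e' := by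
    intro z hz
    rw [he', Ideal.mem_span_singleton_mul] at hz
    obtain ⟨w, hw, hwz⟩ := hz
    rw [← mul_left_cancel₀ hnK hwz]
    exact hw
  have hτe : ∀ z ∈ e', τ z ∈ e' := by
    intro z hz
    rw [← hcj']
    exact Ideal.mem_map_of_mem (τ : 𝓞 K →+* 𝓞 K) hz
  -- an element `x0 + S`
  obtain ⟨x1, hx1⟩ := (hI n).1 ((hn n).2 (dvd_refl _))
  obtain ⟨⟨x0, rfl⟩, -⟩ := hdiv _ _ hx1
  have hx0 : (x0 : 𝓞 K) + S ∈ e' := by
    apply hmem'
    have h1 : (n : 𝓞 K) * ((x0 : 𝓞 K) + S) = (((n : ℤ) * x0 : ℤ) : 𝓞 K) + ((n : ℤ) : 𝓞 K) * S := by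
      push_cast
      ring
    rw [h1]
    exact hx1
  have hx0' : (x0 : 𝓞 K) - S ∈ e' := by
    have h1 := hτe _ hx0
    rw [map_add, map_intCast, hτ, ← sub_eq_add_neg] at h1
    exact h1
  -- the integers of `e'`
  obtain ⟨d, hd⟩ := exists_nat_gen (e'.comap (algebraMap ℤ (𝓞 K)))
  have hd' : ∀ x : ℤ, (x : 𝓞 K) ∈ e' ↔ (d : ℤ) ∣ x := by
    intro x
    rw [← hd x, Ideal.mem_comap]
    rfl
  have hd1 : (d : ℤ) ∣ 2 * x0 := by
    rw [← hd']
    have h1 := e'.add_mem hx0 hx0'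
    have h2 : ((2 * x0 : ℤ) : 𝓞 K) = (x0 : 𝓞 K) + S + ((x0 : 𝓞 K) - S) := by
      push_cast
      ring
    rw [h2]
    exact h1
  have hd2 : (d : ℤ) ∣ x0 ^ 2 + a := by
    rw [← hd']
    have h1 := e'.mul_mem_left ((x0 : 𝓞 K) - S) hx0
    have h2 : ((x0 ^ 2 + a : ℤ) : 𝓞 K) = ((x0 : 𝓞 K) - S) * ((x0 : 𝓞 K) + S) := by
      push_cast
      linear_combination hsq
    rw [h2]
    exact h1
  have hdx : (d : ℤ) ∣ x0 := by
    have ha8 : (a : ℤ) % 8 = 6 := by exact_mod_cast congrArg (Nat.cast : ℕ → ℤ) hb.mod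
    rcases Nat.even_or_odd' d with ⟨k, hk | hk⟩
    · obtain ⟨u, hu⟩ := hd1
      obtain ⟨w, hw⟩ := hd2
      rw [hk] at hu hw
      push_cast at hu hw
      have hu' : x0 = k * u := by
        have : 2 * x0 = 2 * (k * u) := by rw [hu]; ring
        linarith
      -- `x0` is even
      have hx2 : x0 % 2 = 0 := by
        rcases Int.even_or_odd' x0 with ⟨y, hy | hy⟩
        · omega
        · exfalso
          have h1 : x0 ^ 2 + (a : ℤ) = 2 * (2 * y ^ 2 + 2 * y) + 1 + a := by rw [hy]; ring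
          rw [hw] at h1
          have h2 : 2 * (k : ℤ) * w = 2 * (k * w) := by ring
          rw [h2] at h1
          omega
      rcases Nat.even_or_odd' k with ⟨j, hj | hj⟩
      · exfalso
        obtain ⟨y, hy⟩ : ∃ y, x0 = 2 * y := ⟨x0 / 2, by omega⟩
        have h1 : x0 ^ 2 + (a : ℤ) = 4 * y ^ 2 + a := by rw [hy]; ring
        rw [hw, hj] at h1
        push_cast at h1
        have h2 : 2 * (2 * (j : ℤ)) * w = 4 * (j * w) := by ring
        rw [h2] at h1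
        omega
      · have h1 : u % 2 = 0 := by
          rcases Int.even_or_odd' u with ⟨y, hy | hy⟩
          · omega
          · exfalso
            rw [hj, hy] at hu'
            push_cast at hu'
            have h2 : (2 * (j : ℤ) + 1) * (2 * y + 1) = 2 * (2 * j * y + j + y) + 1 := by ring
            rw [h2] at hu'
            omega
        obtain ⟨y, hy⟩ : ∃ y, u = 2 * y := ⟨u / 2, by omega⟩
        refine ⟨y, ?_⟩
        rw [hk, hu', hy]
        push_cast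
        ring
    · have h1 : IsCoprime (d : ℤ) 2 := by
        refine ⟨1, -(k : ℤ), ?_⟩
        rw [hk]
        push_cast
        ring
      exact h1.dvd_of_dvd_mul_left hd1
  have hda : d ∣ a := by
    have h1 : (d : ℤ) ∣ (a : ℤ) := by
      have h2 : (a : ℤ) = (x0 ^ 2 + a) - x0 * x0 := by ring
      rw [h2]
      exact dvd_sub hd2 (Dvd.dvd.mul_left hdx _)
    exact_mod_cast h1
  have hSe : S ∈ e' := by
    have h1 := (hd' x0).2 hdx
    have h2 := e'.sub_mem hx0 h1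
    rwa [add_sub_cancel_left] at h2
  refine ⟨n, d, hn0, hda, ?_⟩
  rw [he']
  congr 1
  ext z
  obtain ⟨u, v, rfl⟩ := hq.coords z
  rw [mem_r6 hb hS hda, ← hd']
  constructor
  · intro h1
    have h2 := e'.sub_mem h1 (e'.mul_mem_left (v : 𝓞 K) hSe)
    rwa [add_sub_cancel_right] at h2
  · intro h1
    exact e'.add_mem h1 (e'.mul_mem_left _ hSe)

theorem hil6 (hb : B6 K a s) (hS : algebraMap (𝓞 K) K S = s) (hτ : τ S = -S)
    {C : ClassGroup (𝓞 K)} (hC : C * C = 1) : ∃ d : ℕ, d ∣ a ∧ C = cls (r6 S d) := by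
  have hq := q6 hb hS
  have hττ : ∀ x, τ (τ x) = x := by
    intro x
    obtain ⟨u, v, rfl⟩ := hq.coords x
    rw [map_add, map_mul, map_intCast, map_intCast, hτ, map_add, map_mul, map_intCast,
      map_intCast, map_neg, hτ, neg_neg]
  obtain ⟨c, hc0, -, hcC⟩ := exists_cop C (M := 1) one_ne_zero
  obtain ⟨hc'0, -⟩ := cls_cj hb hS hτ hc0
  obtain ⟨-, hcc1, hc''⟩ := norm_cj6 hb hS hτ c
  set c' := cj τ c with hc'
  set n : ℕ := Ideal.absNorm c with hn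
  have hnn0 : n ≠ 0 := fun h0 => hc0 (Ideal.absNorm_eq_zero_iff.1 h0)
  have hn0 : (n : 𝓞 K) ≠ 0 := Nat.cast_ne_zero.2 hnn0
  obtain ⟨β, hβ0, hβ⟩ := prin_of_cls (b := c * c) (mul_ne_zero hc0 hc0) (by
    rw [cls_mul hc0 hc0, hcC, hC])
  have hspn : Ideal.span {(n : 𝓞 K)} ≠ 0 := by
    rw [Ideal.zero_eq_bot, Ne, Ideal.span_singleton_eq_bot]
    exact hn0
  -- the class from an ambiguous multiple
  have fin : ∀ γ : 𝓞 K, γ ≠ 0 → cj τ (Ideal.span {γ} * c) = Ideal.span {γ} * c →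
      ∃ d : ℕ, d ∣ a ∧ C = cls (r6 S d) := by
    intro γ hγ hcj
    have hγ0 : Ideal.span {γ} ≠ 0 := by
      rw [Ideal.zero_eq_bot, Ne, Ideal.span_singleton_eq_bot]
      exact hγ
    obtain ⟨m, d, hm, hd, he⟩ := amb6 hb hS hτ (mul_ne_zero hγ0 hc0) hcj
    refine ⟨d, hd, ?_⟩
    have hm0 : (m : 𝓞 K) ≠ 0 := Nat.cast_ne_zero.2 hm
    have hm1 : Ideal.span {(m : 𝓞 K)} ≠ 0 := by
      rw [Ideal.zero_eq_bot, Ne, Ideal.span_singleton_eq_bot]
      exact hm0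
    have h1 := congrArg cls he
    rw [cls_mul hγ0 hc0, cls_span hγ, one_mul, cls_mul hm1 (r6_ne hb hS hd), cls_span hm0,
      one_mul, hcC] at h1
    exact h1
  have h1 : Ideal.span {(n : 𝓞 K)} * c = Ideal.span {β} * c' := by
    rw [← hcc1, ← hβ]
    ring
  have hcjn : cj τ (Ideal.span {(n : 𝓞 K)}) = Ideal.span {(n : 𝓞 K)} := by
    unfold cj
    rw [Ideal.map_span, Set.image_singleton]
    simp
  have hcjs : ∀ γ : 𝓞 K, cj τ (Ideal.span {γ}) = Ideal.span {τ γ} := by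
    intro γ
    unfold cj
    rw [Ideal.map_span, Set.image_singleton]
    rfl
  have h2 : Ideal.span {(n : 𝓞 K)} * c' = Ideal.span {τ β} * c := by
    have h3 := congrArg (cj τ) h1
    rw [cj_mul6, cj_mul6, hcjn, hcjs, ← hc', hc''] at h3
    exact h3
  have h3 : Ideal.span {(n : 𝓞 K) * n} = Ideal.span {β * τ β} := by
    rw [← Ideal.span_singleton_mul_span_singleton, ← Ideal.span_singleton_mul_span_singleton]
    apply mul_right_cancel₀ (mul_ne_zero hc0 hc'0)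
    calc Ideal.span {(n : 𝓞 K)} * Ideal.span {(n : 𝓞 K)} * (c * c')
        = (Ideal.span {(n : 𝓞 K)} * c) * (Ideal.span {(n : 𝓞 K)} * c') := by ring
      _ = (Ideal.span {β} * c') * (Ideal.span {τ β} * c) := by rw [h1, h2]
      _ = _ := by ring
  have h4 : (n : 𝓞 K) * n = β * τ β := by
    obtain ⟨u, v, hβuv⟩ := hq.coords β
    have h5 : β * τ β = ((u ^ 2 + a * v ^ 2 : ℤ) : 𝓞 K) := by
      rw [hβuv, map_add, map_mul, map_intCast, map_intCast, hτ]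
      push_cast
      linear_combination (-(v : 𝓞 K) ^ 2) * hq.sq
    have h6 : (n : 𝓞 K) * n = (((n : ℤ) * n : ℤ) : 𝓞 K) := by push_cast; ring
    rw [h5, h6] at h3 ⊢
    have g1 := hq.norm_gen ((n : ℤ) * n) 0
    have g2 := hq.norm_gen (u ^ 2 + a * v ^ 2) 0
    have e1 : (((n : ℤ) * n : ℤ) : 𝓞 K) + ((0 : ℤ) : 𝓞 K) * S = (((n : ℤ) * n : ℤ) : 𝓞 K) := by
      push_cast
      ring
    have e2 : ((u ^ 2 + a * v ^ 2 : ℤ) : 𝓞 K) + ((0 : ℤ) : 𝓞 K) * S =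
        ((u ^ 2 + a * v ^ 2 : ℤ) : 𝓞 K) := by
      push_cast
      ring
    rw [e1, h3] at g1
    rw [e2, g1] at g2
    have h7 : ((n : ℤ) * n) ^ 2 = (u ^ 2 + a * v ^ 2) ^ 2 := by linarith
    have h8 : (n : ℤ) * n = u ^ 2 + a * v ^ 2 := (sq_eq_sq₀ (by positivity) (by positivity)).1 h7
    rw [h8]
  by_cases hρ : (n : 𝓞 K) + β = 0
  · have h5 : β = -(n : 𝓞 K) := by linear_combination hρ
    have h6 : c' = c := by
      rw [h5, Ideal.span_singleton_neg] at h1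
      exact (mul_left_cancel₀ hspn h1).symm
    refine fin 1 one_ne_zero ?_
    rw [Ideal.span_singleton_one, ← Ideal.one_eq_top, one_mul, ← hc', h6]
  · set ρ : 𝓞 K := (n : 𝓞 K) + β with hρ1
    have hτ0 : ∀ x : 𝓞 K, x ≠ 0 → τ x ≠ 0 := fun x hx h0 => hx (by
      rw [← hττ x, h0, map_zero])
    have h5 : ρ * n = β * τ ρ := by
      rw [hρ1, map_add, map_natCast]
      linear_combination h4
    refine fin (τ ρ * n) (mul_ne_zero (hτ0 _ hρ) hn0) ?_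
    rw [cj_mul6, hcjs, map_mul, hττ, map_natCast, ← hc', h5, mul_comm β,
      ← Ideal.span_singleton_mul_span_singleton, mul_assoc, ← h1, ← mul_assoc,
      Ideal.span_singleton_mul_span_singleton]

end Pool.Agent.Work.MP_8efaaa_nt.W14
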