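import Mathlib
import Pool.Agent.Work.MP_8efaaa_nt.W14.CHi

/-!
# W14/CNp (S-M): the classes of order two for 2 p q

nonprin: `d ∣ a`, `1 < d < a`: `cls (r6 S d) ≠ 1`: otherwise `r6 S d = (x + y S)` (`prin_of_cls`, `exists_S6` or `coords6`), norm `d = x^2 + a y^2` (`norm_r6`, `norm_lin6`); `y = 0` as `d < a`; `d = x^2` is squarefree (`d ∣ a`), so `d = 1`.
two_cls: `a = 2 p q`. `t = cls (r6 S 2)`, `c_q = cls (r6 S q)`, `r6_mul`, `r6_sq`, `r6_all`: for `d ∣ 2 p q`: `d ∈ {1, 2, p, q, 2p, 2q, pq, 2pq}`: classes `1, t, c_p, c_q, t c_p, t c_q, c_p c_q, 1`, and `t c_p c_q = 1` (`r6 S (2pq) = (S)`), all squares are `1`: `c_p = t c_q`, `c_p c_q = t`. So every class of order two is `1`, `t`, `c_q` or `t c_q`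
(`hil6`); conversely their squares are `1`. `t ≠ 1`, `c_q ≠ 1` (nonprin for `2`, `q`), `c_q ≠ t` (`c_q t = c_p ≠ 1`, nonprin for `p`). `p ≠ q` because `p q * 2` is squarefree.
-/

set_option autoImplicit false

namespace Pool.Agent.Work.MP_8efaaa_nt.W14

open NumberField Pool.Agent.Work.MP_8efaaa_nt.R Pool.Agent.Work.MP_8efaaa_nt.N5
  Pool.Agent.Work.MP_8efaaa_nt.K6
open scoped Classical nonZeroDivisors

variable {K : Type*} [Field K] [NumberField K] {a : ℕ} {s : K} {S : 𝓞 K} {τ : 𝓞 K ≃+* 𝓞 K}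


private theorem nonprin (hb : B6 K a s) (hS : algebraMap (𝓞 K) K S = s) {d : ℕ} (hd : d ∣ a)
    (h1 : 1 < d) (h2 : d < a) : cls (r6 S d) ≠ 1 := by
  intro h
  obtain ⟨γ, -, hγ⟩ := prin_of_cls (r6_ne hb hS hd) h
  obtain ⟨x, y, hxy⟩ := coords6 hb γ
  have h3 := norm_lin6 hb hxy
  rw [← hγ, norm_r6 hb hS hd] at h3
  have h4 : y = 0 := by
    by_contra hy
    have h5 : 1 ≤ y ^ 2 := by
      have := sq_nonneg y
      have h6 : y ^ 2 ≠ 0 := pow_ne_zero 2 hy
      omega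
    have h7 : (d : ℤ) < a := by exact_mod_cast h2
    nlinarith [sq_nonneg x]
  rw [h4] at h3
  have h5 : d = x.natAbs * x.natAbs := by
    have h6 : ((x.natAbs * x.natAbs : ℕ) : ℤ) = x ^ 2 := by
      push_cast
      rw [← pow_two, sq_abs]
    have h7 : (d : ℤ) = ((x.natAbs * x.natAbs : ℕ) : ℤ) := by
      rw [h6, h3]
      ring
    exact_mod_cast h7
  have h6 : IsUnit x.natAbs := hb.sf _ (h5 ▸ hd)
  rw [Nat.isUnit_iff] at h6
  rw [h6] at h5
  omega

private theorem S_ne (hb : B6 K a s) (hS : algebraMap (𝓞 K) K S = s) : S ≠ 0 := by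
  rintro rfl
  rw [map_zero] at hS
  have h := hb.sq
  rw [← hS] at h
  have h1 : (a : K) = 0 := by linear_combination h
  exact hb.sf.ne_zero (by exact_mod_cast h1)

private theorem csq (hb : B6 K a s) (hS : algebraMap (𝓞 K) K S = s) {d : ℕ} (hd : d ∣ a) :
    cls (r6 S d) * cls (r6 S d) = 1 := by
  have h := r6_ne hb hS hd
  rw [← cls_mul h h, r6_sq hb hS hd]
  apply cls_span
  have h1 : d ≠ 0 := by
    rintro rfl
    exact hb.sf.ne_zero (Nat.eq_zero_of_zero_dvd hd)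
  exact_mod_cast h1

private theorem cmul (hb : B6 K a s) (hS : algebraMap (𝓞 K) K S = s) {d e : ℕ} (hd : d * e ∣ a) :
    cls (r6 S (d * e)) = cls (r6 S d) * cls (r6 S e) := by
  rw [r6_mul hb hS hd, cls_mul (r6_ne hb hS (dvd_of_mul_right_dvd hd))
    (r6_ne hb hS (dvd_of_mul_left_dvd hd))]

private theorem call (hb : B6 K a s) (hS : algebraMap (𝓞 K) K S = s) : cls (r6 S a) = 1 := by
  rw [r6_all hb hS]
  exact cls_span (S_ne hb hS)

private theorem cone (hb : B6 K a s) (hS : algebraMap (𝓞 K) K S = s) : cls (r6 S 1) = 1 := by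
  have h := csq hb hS (one_dvd a)
  have h1 := cmul hb hS (d := 1) (e := 1) (by rw [mul_one]; exact one_dvd a)
  rw [mul_one, h] at h1
  exact h1

theorem two_cls {p q : ℕ} (hp : p.Prime) (hq : q.Prime) (hp2 : p ≠ 2) (hq2 : q ≠ 2)
    (hb : B6 K (2 * p * q) s) (hS : algebraMap (𝓞 K) K S = s) (hτ : τ S = -S) :
    cls (r6 S 2) ≠ 1 ∧ cls (r6 S q) ≠ 1 ∧ cls (r6 S q) ≠ cls (r6 S 2) ∧
    cls (r6 S q) * cls (r6 S q) = 1 ∧
    ∀ C : ClassGroup (𝓞 K), C * C = 1 ↔ C = 1 ∨ C = cls (r6 S 2) ∨ C = cls (r6 S q) ∨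
      C = cls (r6 S 2) * cls (r6 S q) := by
  have d2 : 2 ∣ 2 * p * q := ⟨p * q, by ring⟩
  have dp : p ∣ 2 * p * q := ⟨2 * q, by ring⟩
  have dq : q ∣ 2 * p * q := ⟨2 * p, by ring⟩
  have d2q : 2 * q ∣ 2 * p * q := ⟨p, by ring⟩
  have d2p : 2 * p ∣ 2 * p * q := ⟨q, by ring⟩
  have dpq : p * q ∣ 2 * p * q := ⟨2, by ring⟩
  have hp3 : 2 < p := lt_of_le_of_ne hp.two_le (Ne.symm hp2)
  have hq3 : 2 < q := lt_of_le_of_ne hq.two_le (Ne.symm hq2)
  have e2 := csq hb hS d2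
  have ep := csq hb hS dp
  have eq := csq hb hS dq
  have e0 := call hb hS
  rw [cmul hb hS (d := 2 * p) (e := q) dvd_rfl, cmul hb hS (d := 2) (e := p) d2p] at e0
  have n2 := nonprin hb hS d2 (by norm_num) (by nlinarith)
  have np := nonprin hb hS dp (by omega) (by nlinarith)
  have nq := nonprin hb hS dq (by omega) (by nlinarith)
  have epq : cls (r6 S p) = cls (r6 S 2) * cls (r6 S q) := by
    calc cls (r6 S p) = (cls (r6 S 2) * cls (r6 S 2)) * cls (r6 S p) *
          (cls (r6 S q) * cls (r6 S q)) := by rw [e2, eq, one_mul, mul_one]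
      _ = (cls (r6 S 2) * cls (r6 S p) * cls (r6 S q)) * (cls (r6 S 2) * cls (r6 S q)) := by
          ac_rfl
      _ = cls (r6 S 2) * cls (r6 S q) := by rw [e0, one_mul]
  refine ⟨n2, nq, ?_, eq, ?_⟩
  · intro h
    rw [h, e2] at epq
    exact np epq
  · intro C
    constructor
    · intro hC
      obtain ⟨d, hd, rfl⟩ := hil6 hb hS hτ hC
      obtain ⟨y, z, hy, hz, rfl⟩ := (Nat.dvd_mul).1 hd
      obtain ⟨u, v, hu, hv, rfl⟩ := (Nat.dvd_mul).1 hy
      have hu1 := (Nat.dvd_prime Nat.prime_two).1 hu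
      have hv1 := (Nat.dvd_prime hp).1 hv
      have hz1 := (Nat.dvd_prime hq).1 hz
      have hdd : u * v ∣ 2 * p * q := (dvd_mul_right _ _).trans hd
      rw [cmul hb hS hd, cmul hb hS hdd]
      have e1 := cone hb hS
      rcases hu1 with rfl | rfl <;> rcases hv1 with rfl | rfl <;> rcases hz1 with rfl | rfl
      · left; rw [e1, one_mul, one_mul]
      · right; right; left; rw [e1, one_mul, one_mul]
      · right; right; right; rw [e1, one_mul, mul_one, epq]
      · right; left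
        rw [e1, one_mul, epq, mul_assoc, eq, mul_one]
      · right; left; rw [e1, mul_one, mul_one]
      · right; right; right; rw [e1, mul_one]
      · right; right; left
        rw [e1, mul_one, epq, ← mul_assoc, e2, one_mul]
      · left; exact e0
    · rintro (rfl | rfl | rfl | rfl)
      · exact mul_one 1
      · exact e2
      · exact eq
      · rw [mul_mul_mul_comm, e2, eq, one_mul]


end Pool.Agent.Work.MP_8efaaa_nt.W14
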