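import Mathlib
import Pool.Agent.Work.MP_8efaaa_nt.W14.CNp
import Pool.Agent.Work.MP_8efaaa_nt.W14.CCh
import Pool.Agent.Work.MP_8efaaa_nt.W14.CDi

/-!
# W14/CGe (M): the principal genus

`G = ClassGroup (𝓞 K)`, finite. Let `T` be the subgroup of the classes `cls c` of the odd ideals `c` with `N c` prime to `p`, `N c = ± 1 (mod 8)`, `jacobiSym (N c) p = 1` (closed under products: `jacobiSym.mul_left`; inverse: `cj τ c` has the same norm, `cls_cj`, `norm_cj6`).
(1) `T` contains the squares: `C = cls c` with `N c` prime to `2 p` (`exists_cop`), `C * C = cls (c * c)`, `N (c c) = (N c)^2`, `1 (mod 8)` and `jacobiSym = 1` (`jacobiSym.sq_one'`).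
(2) if `b` is odd, `N b` prime to `p` and `cls b ∈ T` then `N b = ± 1 (mod 8)` (`norm_cls`) and `jacobiSym (N b) p = 1`: `cls b = cls c`, `b * cj τ c = (γ)`, `N b N c = x^2 + a y^2`, `num_desc` (`M = 1`, prime `p`) gives `jacobiSym (N b N c) p = 1`.
(3) the four elements `1`, `B3 = cls b3`, `B1 = cls b1`, `B3 B1` of `G ⧸ T` are different, where `N b3 = 3 (mod 8)`, `N b1 = 1 (mod 8)`, `jacobiSym (N b1) p = -1` (`exists_b3`, `exists_b1`; for `b3` take a representative of its class prime to `2 p`, `exists_cop`; its norm is still `± 3 (mod 8)` by `norm_cls`): a quotient of two of them is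
`B3^(±1)`, `B1^(±1)`, `B3 B1`, `B3 B1⁻¹` (use `cj τ b1` for the inverse), not in `T` by (2). So the index of `T` is at least `4`.
(4) the image `Q` of `x ↦ x * x` has the index `|ker| ≤ 4` (`two_cls`: the kernel has at most four elements). `Q ≤ T`, so `|T| ≤ |G|/4 ≤ |Q|`, `T = Q`. Now `cls b ∈ T = Q`.
-/

set_option autoImplicit false

namespace Pool.Agent.Work.MP_8efaaa_nt.W14

open NumberField Pool.Agent.Work.MP_8efaaa_nt.R Pool.Agent.Work.MP_8efaaa_nt.N5
  Pool.Agent.Work.MP_8efaaa_nt.K6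
open scoped Classical nonZeroDivisors

variable {K : Type*} [Field K] [NumberField K] {a : ℕ} {s : K} {S : 𝓞 K} {τ : 𝓞 K ≃+* 𝓞 K}


private theorem e8_mul' {x y : ℤ} (hx : Odd x) (hy : Odd y) : e8 (x * y) = e8 x * e8 y := by
  have hx' := Int.odd_iff.1 hx
  have hy' := Int.odd_iff.1 hy
  have h1 : x % 8 = 1 ∨ x % 8 = 3 ∨ x % 8 = 5 ∨ x % 8 = 7 := by omega
  have h2 : y % 8 = 1 ∨ y % 8 = 3 ∨ y % 8 = 5 ∨ y % 8 = 7 := by omega
  unfold e8
  rw [Int.mul_emod]
  rcases h1 with h1 | h1 | h1 | h1 <;> rcases h2 with h2 | h2 | h2 | h2 <;> rw [h1, h2] <;> norm_num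

private theorem e8_pm (x : ℤ) : e8 x = 1 ∨ e8 x = -1 := by
  unfold e8
  split_ifs
  · exact Or.inl rfl
  · exact Or.inr rfl

private theorem a16 {p q : ℕ} (hp8 : p % 8 = 1) (hq8 : q % 8 = 7) : (2 * p * q) % 16 = 14 := by
  have h1 : (p * q) % 8 = 7 := by rw [Nat.mul_mod, hp8, hq8]
  rw [mul_assoc]
  omega

private theorem J_pm {p : ℕ} (hp : p.Prime) {n : ℕ} (h : ¬ p ∣ n) :
    jacobiSym n p = 1 ∨ jacobiSym n p = -1 := by
  apply jacobiSym.eq_one_or_neg_one
  rw [Int.gcd_natCast_natCast]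
  exact ((Nat.Prime.coprime_iff_not_dvd hp).2 h).symm

private theorem J_ne {p : ℕ} (hp : p.Prime) {n : ℕ} (h : jacobiSym n p ≠ 0) : ¬ p ∣ n := by
  intro h1
  apply h
  haveI : NeZero p := ⟨hp.ne_zero⟩
  rw [jacobiSym.eq_zero_iff_not_coprime]
  rw [Int.gcd_natCast_natCast, Nat.gcd_eq_right h1]
  exact hp.one_lt.ne'

/-- the two characters depend on the class -/
private theorem wd8 {p q : ℕ} (hp8 : p % 8 = 1) (hq8 : q % 8 = 7)
    (hb : B6 K (2 * p * q) s) (hS : algebraMap (𝓞 K) K S = s) (hτ : τ S = -S)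
    {b c : Ideal (𝓞 K)} (hb1 : OddI b) (hc1 : OddI c) (h : cls b = cls c) :
    e8 (Ideal.absNorm b : ℤ) = e8 (Ideal.absNorm c : ℤ) := by
  have h1 := norm_cls hb hS hτ (a16 hp8 hq8) hb1 hc1 (Or.inl h)
  have h2 := Nat.odd_iff.1 hb1
  have h3 := Nat.odd_iff.1 hc1
  unfold e8
  have e1 : ((Ideal.absNorm b : ℤ) % 8 = 1 ∨ (Ideal.absNorm b : ℤ) % 8 = 7) ↔
      ((Ideal.absNorm c : ℤ) % 8 = 1 ∨ (Ideal.absNorm c : ℤ) % 8 = 7) := by
    omega
  by_cases h4 : (Ideal.absNorm c : ℤ) % 8 = 1 ∨ (Ideal.absNorm c : ℤ) % 8 = 7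
  · rw [if_pos h4, if_pos (e1.2 h4)]
  · rw [if_neg h4, if_neg (fun h5 => h4 (e1.1 h5))]

private theorem wdp {p q : ℕ} (hp : p.Prime) (hp8 : p % 8 = 1)
    (hb : B6 K (2 * p * q) s) (hS : algebraMap (𝓞 K) K S = s) (hτ : τ S = -S)
    {b c : Ideal (𝓞 K)} (hb0 : b ≠ 0) (hc0 : c ≠ 0) (hbp : ¬ p ∣ Ideal.absNorm b)
    (hcp : ¬ p ∣ Ideal.absNorm c) (h : cls b = cls c) :
    jacobiSym (Ideal.absNorm b) p = jacobiSym (Ideal.absNorm c) p := by
  obtain ⟨h1, h2⟩ := cls_cj hb hS hτ hc0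
  obtain ⟨γ, hγ0, hγ⟩ := prin_of_cls (mul_ne_zero hb0 h1)
    (by rw [cls_mul hb0 h1, h2, h, mul_inv_cancel])
  obtain ⟨x, y, hxy⟩ := coords6 hb γ
  have h3 := norm_lin6 hb hxy
  rw [← hγ, map_mul, (norm_cj6 hb hS hτ c).1] at h3
  have hp2 : p ≠ 2 := by omega
  have h4 : jacobiSym ((Ideal.absNorm b * Ideal.absNorm c : ℕ) : ℤ) p = 1 := by
    refine num_desc hp hp2 (a := 2 * p * q) ⟨2 * q, by ring⟩ hb.sf (M := 1) (x := x) (y := y)
      one_ne_zero ?_ ?_
    · intro h5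
      rcases (Nat.Prime.dvd_mul hp).1 h5 with h6 | h6
      · exact hbp h6
      · exact hcp h6
    · rw [h3]
      push_cast
      ring
  rw [Nat.cast_mul, jacobiSym.mul_left] at h4
  rcases J_pm hp hbp with h5 | h5 <;> rcases J_pm hp hcp with h6 | h6 <;> rw [h5, h6] at h4 ⊢
  · norm_num at h4
  · norm_num at h4

private theorem genus_hom {p q : ℕ} (hp : p.Prime) (hp8 : p % 8 = 1) (hq8 : q % 8 = 7)
    (hb : B6 K (2 * p * q) s) (hS : algebraMap (𝓞 K) K S = s) (hτ : τ S = -S) :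
    ∃ φ : ClassGroup (𝓞 K) →* ℤ × ℤ,
      (∀ b : Ideal (𝓞 K), OddI b → (φ (cls b)).1 = e8 (Ideal.absNorm b)) ∧
      (∀ b : Ideal (𝓞 K), b ≠ 0 → ¬ p ∣ Ideal.absNorm b →
        (φ (cls b)).2 = jacobiSym (Ideal.absNorm b) p) ∧
      ∀ C, ((φ C).1 = 1 ∨ (φ C).1 = -1) ∧ ((φ C).2 = 1 ∨ (φ C).2 = -1) := by
  have hM : 2 * p ≠ 0 := mul_ne_zero two_ne_zero hp.ne_zero
  choose r hr0 hrc hrC using fun C : ClassGroup (𝓞 K) => exists_cop (K := K) C hM
  have hr2 : ∀ C, OddI (r C) := by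
    intro C
    have h1 : Nat.Coprime (Ideal.absNorm (r C)) 2 := Nat.Coprime.coprime_dvd_right ⟨p, rfl⟩ (hrc C)
    exact Nat.coprime_two_right.1 h1
  have hrp : ∀ C, ¬ p ∣ Ideal.absNorm (r C) := by
    intro C h2
    have h1 : Nat.Coprime (Ideal.absNorm (r C)) p :=
      Nat.Coprime.coprime_dvd_right ⟨2, by ring⟩ (hrc C)
    exact hp.one_lt.ne' ((Nat.gcd_eq_right h2).symm.trans h1)
  have hodd0 : ∀ b : Ideal (𝓞 K), OddI b → b ≠ 0 := by
    rintro b hb1 rfl
    unfold OddI at hb1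
    rw [map_zero] at hb1
    exact absurd hb1 (by decide)
  have k1 : ∀ b : Ideal (𝓞 K), OddI b → e8 (Ideal.absNorm (r (cls b)) : ℤ) =
      e8 (Ideal.absNorm b : ℤ) := fun b hb1 => wd8 hp8 hq8 hb hS hτ (hr2 _) hb1 (hrC _)
  have k2 : ∀ b : Ideal (𝓞 K), b ≠ 0 → ¬ p ∣ Ideal.absNorm b →
      jacobiSym (Ideal.absNorm (r (cls b))) p = jacobiSym (Ideal.absNorm b) p :=
    fun b hb1 hb2 => wdp hp hp8 hb hS hτ (hr0 _) hb1 (hrp _) hb2 (hrC _)
  have hmul : ∀ C D, OddI (r C * r D) := by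
    intro C D
    unfold OddI
    rw [map_mul]
    exact Odd.mul (show Odd (Ideal.absNorm (r C)) from hr2 C) (show Odd (Ideal.absNorm (r D)) from hr2 D)
  have hmp : ∀ C D, ¬ p ∣ Ideal.absNorm (r C * r D) := by
    intro C D h
    rw [map_mul] at h
    rcases (Nat.Prime.dvd_mul hp).1 h with h6 | h6
    · exact hrp C h6
    · exact hrp D h6
  have hcl : ∀ C D, cls (r C * r D) = C * D := fun C D => by
    rw [cls_mul (hr0 C) (hr0 D), hrC, hrC]
  refine ⟨⟨⟨fun C => (e8 (Ideal.absNorm (r C)), jacobiSym (Ideal.absNorm (r C)) p), ?_⟩, ?_⟩,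
    k1, k2, ?_⟩
  · have h1 := k1 1 (by unfold OddI; rw [map_one]; exact odd_one)
    have h2 := k2 1 one_ne_zero (by rw [map_one]; exact hp.one_lt.ne' ∘ Nat.dvd_one.1)
    rw [cls_one, map_one] at h1 h2
    rw [h1, h2]
    rw [Nat.cast_one, jacobiSym.one_left]
    rfl
  · intro C D
    have h1 := k1 _ (hmul C D)
    have h2 := k2 _ (mul_ne_zero (hr0 C) (hr0 D)) (hmp C D)
    rw [hcl, map_mul, Nat.cast_mul] at h1 h2
    rw [e8_mul' (by exact_mod_cast hr2 C) (by exact_mod_cast hr2 D)] at h1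
    rw [jacobiSym.mul_left] at h2
    exact Prod.ext h1 h2
  · intro C
    exact ⟨e8_pm _, J_pm hp (hrp C)⟩

theorem genus {p q : ℕ} (hp : p.Prime) (hq : q.Prime) (hp8 : p % 8 = 1) (hq8 : q % 8 = 7)
    (hb : B6 K (2 * p * q) s) (hS : algebraMap (𝓞 K) K S = s) (hτ : τ S = -S)
    {b : Ideal (𝓞 K)} (hN : Ideal.absNorm b % 8 = 1 ∨ Ideal.absNorm b % 8 = 7)
    (hj : jacobiSym (Ideal.absNorm b) p = 1) : ∃ C : ClassGroup (𝓞 K), cls b = C * C := by
  obtain ⟨φ, φ1, φ2, φ3⟩ := genus_hom hp hp8 hq8 hb hS hτ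
  have hp2 : p ≠ 2 := by omega
  have hq2 : q ≠ 2 := by omega
  -- the class of `b` is in the kernel
  have hbodd : OddI b := by
    unfold OddI
    rw [Nat.odd_iff]
    omega
  have hb0 : b ≠ 0 := by
    rintro rfl
    rw [map_zero] at hN
    omega
  have hbk : cls b ∈ φ.ker := by
    rw [MonoidHom.mem_ker]
    apply Prod.ext
    · rw [φ1 b hbodd]
      show e8 _ = 1
      unfold e8
      rw [if_pos]
      omega
    · rw [φ2 b hb0 (J_ne hp (by rw [hj]; exact one_ne_zero)), hj]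
      rfl
  -- the squares
  let sqh : ClassGroup (𝓞 K) →* ClassGroup (𝓞 K) := powMonoidHom 2
  have hQ : sqh.range ≤ φ.ker := by
    rintro _ ⟨C, rfl⟩
    rw [MonoidHom.mem_ker]
    show φ (C ^ 2) = 1
    rw [map_pow]
    obtain ⟨h1, h2⟩ := φ3 C
    apply Prod.ext
    · rw [Prod.pow_fst]
      rcases h1 with h | h <;> rw [h] <;> norm_num
    · rw [Prod.pow_snd]
      rcases h2 with h | h <;> rw [h] <;> norm_num
  -- the kernel of the squaring
  have hk4 : Nat.card sqh.ker ≤ 4 := by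
    obtain ⟨-, -, -, -, h⟩ := two_cls hp hq hp2 hq2 hb hS hτ
    have h1 : (sqh.ker : Set (ClassGroup (𝓞 K))) ⊆
        ({1, cls (r6 S 2), cls (r6 S q), cls (r6 S 2) * cls (r6 S q)} :
          Finset (ClassGroup (𝓞 K))) := by
      intro C hC
      have hC' : C * C = 1 := by
        have := MonoidHom.mem_ker.1 hC
        rw [← pow_two]
        exact this
      have := (h C).1 hC'
      simpa using this
    have h2 : Nat.card sqh.ker ≤ Finset.card ({1, cls (r6 S 2), cls (r6 S q),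
        cls (r6 S 2) * cls (r6 S q)} : Finset (ClassGroup (𝓞 K))) := by
      have h3 := Set.ncard_le_ncard h1 (Finset.finite_toSet _)
      rw [Set.ncard_coe_finset] at h3
      exact h3
    exact h2.trans Finset.card_le_four
  have hG1 : Nat.card (ClassGroup (𝓞 K)) = Nat.card sqh.ker * Nat.card sqh.range := by
    rw [← Subgroup.index_ker]
    exact (Subgroup.card_mul_index _).symm
  -- the index of the kernel of `φ`
  obtain ⟨b3, hb3⟩ := exists_b3 hp hq hp8 hq8 hb hS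
  obtain ⟨b1, hb1, hj1⟩ := exists_b1 hp hq hp8 hq8 hb hS
  have hφ3 : (φ (cls b3)).1 = -1 := by
    rw [φ1 b3 (by unfold OddI; rw [Nat.odd_iff]; omega)]
    unfold e8
    rw [if_neg]
    omega
  have hφ11 : (φ (cls b1)).1 = 1 := by
    rw [φ1 b1 (by unfold OddI; rw [Nat.odd_iff]; omega)]
    unfold e8
    rw [if_pos]
    omega
  have hφ12 : (φ (cls b1)).2 = -1 := by
    rw [φ2 b1 (by rintro rfl; rw [map_zero] at hb1; omega)
      (J_ne hp (by rw [hj1]; norm_num)), hj1]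
  let f : Bool × Bool × φ.ker → ClassGroup (𝓞 K) := fun x =>
    (if x.1 then cls b3 else 1) * (if x.2.1 then cls b1 else 1) * x.2.2
  have hf : Function.Injective f := by
    rintro ⟨x, y, t⟩ ⟨x', y', t'⟩ h
    have h' : (if x then cls b3 else 1) * (if y then cls b1 else 1) * (t : ClassGroup (𝓞 K)) =
      (if x' then cls b3 else 1) * (if y' then cls b1 else 1) * (t' : ClassGroup (𝓞 K)) := h
    have h1 := congrArg φ h'
    rw [map_mul, map_mul, map_mul, map_mul, MonoidHom.mem_ker.1 t.2, MonoidHom.mem_ker.1 t'.2,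
      mul_one, mul_one] at h1
    have h2 := congrArg Prod.fst h1
    have h3 := congrArg Prod.snd h1
    rw [Prod.fst_mul, Prod.fst_mul] at h2
    rw [Prod.snd_mul, Prod.snd_mul] at h3
    have hxx : x = x' := by
      clear h h' h1 h3 hG1 hk4 hQ
      have e1 : (φ 1).1 = 1 := by rw [map_one]; rfl
      have e2 : ∀ y : Bool, (φ (if y then cls b1 else 1)).1 = 1 := by
        intro y
        cases y
        · rw [if_neg Bool.false_ne_true]; exact e1
        · rw [if_pos rfl]; exact hφ11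
      rw [e2, e2, mul_one, mul_one] at h2
      cases x <;> cases x'
      · rfl
      · rw [if_neg Bool.false_ne_true, if_pos rfl, e1, hφ3] at h2
        norm_num at h2
      · rw [if_neg Bool.false_ne_true, if_pos rfl, e1, hφ3] at h2
        norm_num at h2
      · rfl
    subst hxx
    have hyy : y = y' := by
      clear h h' h1 h2 hG1 hk4 hQ
      have e1 : (φ 1).2 = 1 := by rw [map_one]; rfl
      have e2 : (φ (if x then cls b3 else 1)).2 ≠ 0 := by
        rcases (φ3 (if x then cls b3 else 1)).2 with h4 | h4 <;> rw [h4] <;> norm_num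
      have h4 := mul_left_cancel₀ e2 h3
      cases y <;> cases y'
      · rfl
      · rw [if_neg Bool.false_ne_true, if_pos rfl, e1, hφ12] at h4
        norm_num at h4
      · rw [if_neg Bool.false_ne_true, if_pos rfl, e1, hφ12] at h4
        norm_num at h4
      · rfl
    subst hyy
    have h5 : (t : ClassGroup (𝓞 K)) = t' := mul_left_cancel h'
    rw [Subtype.ext h5]
  have hG2 : 4 * Nat.card φ.ker ≤ Nat.card (ClassGroup (𝓞 K)) := by
    have h1 := Nat.card_le_card_of_injective f hf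
    rw [Nat.card_prod, Nat.card_prod, Nat.card_eq_fintype_card (α := Bool), Fintype.card_bool] at h1
    omega
  have hle : Nat.card φ.ker ≤ Nat.card sqh.range := by
    have h1 : Nat.card sqh.ker * Nat.card sqh.range ≤ 4 * Nat.card sqh.range :=
      Nat.mul_le_mul_right _ hk4
    omega
  have heq : sqh.range = φ.ker := Subgroup.eq_of_le_of_card_ge hQ hle
  rw [← heq] at hbk
  obtain ⟨C, hC⟩ := hbk
  exact ⟨C, by rw [← pow_two]; exact hC.symm⟩

end Pool.Agent.Work.MP_8efaaa_nt.W14
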