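import Mathlib
import Pool.Agent.Work.MP_8efaaa_nt.W14.CCl

/-!
# W14/CUu (M): the norm of a square root of the class of the prime above 2

`m = p q`. Choose among the nonzero ideals `v` with `cls v = cls u` and `N v` prime to `2 p q` (`exists_cop`) one with minimal norm `n`. `N u = ± n (mod 8)` (`norm_cls`), so it is enough to treat `v`.
(1) There is an integer `t` with `S - t ∈ v`: the integers `y` with `x + y S ∈ v` for some `x` form an ideal `(c0)`; `S (x + y S) = -a y + x S ∈ v` gives `c0 ∣ x`, so all elements of `v` are divisible by `c0`, `v = (c0) v'`, `cls v' = cls v`, `N v' = n/c0^2`, so `c0 = 1` by minimality: `x + S ∈ v`, `t = -x`.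
(2) `v * v * r6 S m` has class `t0 t0 = 1` (`t0 = cls (r6 S 2)`; `cls_two`, `a/2 = m`), so it is `(γ)`, `γ = x + y S`; `γ ∈ r6 S m`, so `x = m x'` (`mem_r6`); norms: `n^2 m = m^2 x'^2 + 2 m y^2`, `n^2 = m x'^2 + 2 y^2`. `n` odd, `m = 7 (mod 8)`: `x'` is odd, and `1 = 7 + 2 y^2 (mod 8)`: `y` odd.
(3) `gcd (x', y) = 1`: a prime `l` dividing both: `l^2 ∣ n^2`, `l ∣ n`, so `l ∤ 2 p q`. `γ ∈ (l)`, `v v r6 S m ≤ (l)`. `(S - t)^2 m ∈ v v r6 S m ≤ (l)`: `(S-t)^2 = (t^2 - a) - 2 t S`, so `l ∣ 2 t m`, `l ∣ t`. `n ∣ N (S - t) = t^2 + a` (`v` divides `(S - t)`), so `l ∣ a = 2 p q`, contradiction.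
(4) every prime `l ∣ x'` is `± 1 (mod 8)`: `l` odd, `l ∤ y`, `n^2 = 2 y^2 (mod l)`, so `2` is a square modulo `l` (`ZMod.exists_sq_eq_two_iff`). So `|x'| = ± 1 (mod 8)` (induction on the prime factors), `x'^2 = 1 (mod 16)`. `2 y^2 = 2 (mod 16)`. So `n^2 = m + 2 (mod 16)`. `n = ± 1 (mod 8)` iff `n^2 = 1 (mod 16)` iff `m = 15 (mod 16)`
(`m = 7 (mod 8)`).
-/

set_option autoImplicit false

namespace Pool.Agent.Work.MP_8efaaa_nt.W14

open NumberField Pool.Agent.Work.MP_8efaaa_nt.R Pool.Agent.Work.MP_8efaaa_nt.N5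
  Pool.Agent.Work.MP_8efaaa_nt.K6
open scoped Classical nonZeroDivisors

variable {K : Type*} [Field K] [NumberField K] {a : ℕ} {s : K} {S : 𝓞 K} {τ : 𝓞 K ≃+* 𝓞 K}


private theorem aux_mod {n : ℕ} (hn : n ≠ 0)
    (h : ∀ l : ℕ, l.Prime → l ∣ n → l % 8 = 1 ∨ l % 8 = 7) : n % 8 = 1 ∨ n % 8 = 7 := by
  induction n using induction_on_primes with
  | zero => exact absurd rfl hn
  | one => left; rfl
  | prime_mul l m hl ih =>
    have hm : m ≠ 0 := by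
      rintro rfl
      exact hn (mul_zero _)
    have h1 := ih hm (fun r hr hrm => h r hr (hrm.mul_left _))
    have h2 := h l hl (dvd_mul_right _ _)
    rcases h1 with h1 | h1 <;> rcases h2 with h2 | h2 <;> simp [Nat.mul_mod, h1, h2]

private theorem aux_prim (hb : B6 K a s) (hS : algebraMap (𝓞 K) K S = s) {v : Ideal (𝓞 K)}
    (hmin : ∀ (w : Ideal (𝓞 K)) (c0 : ℤ), v = Ideal.span {(c0 : 𝓞 K)} * w → c0.natAbs = 1) :
    ∃ x : ℤ, (x : 𝓞 K) + S ∈ v := by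
  let J : Ideal ℤ :=
    { carrier := {y | ∃ x : ℤ, (x : 𝓞 K) + (y : 𝓞 K) * S ∈ v}
      zero_mem' := ⟨0, by simp⟩
      add_mem' := by
        rintro y1 y2 ⟨x1, h1⟩ ⟨x2, h2⟩
        refine ⟨x1 + x2, ?_⟩
        have h3 := v.add_mem h1 h2
        convert h3 using 1
        push_cast
        ring
      smul_mem' := by
        rintro k y ⟨x, h⟩
        refine ⟨k * x, ?_⟩
        have h3 := v.mul_mem_left (k : 𝓞 K) h
        convert h3 using 1
        simp only [smul_eq_mul]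
        push_cast
        ring }
  obtain ⟨c0, hc0⟩ := (IsPrincipalIdealRing.principal J).principal
  have hmem : ∀ y : ℤ, (∃ x : ℤ, (x : 𝓞 K) + (y : 𝓞 K) * S ∈ v) ↔ c0 ∣ y := by
    intro y
    have h1 : y ∈ J ↔ c0 ∣ y := by
      rw [hc0]
      exact Ideal.mem_span_singleton
    exact h1
  have hdiv : v ≤ Ideal.span {(c0 : 𝓞 K)} := by
    intro g hg
    obtain ⟨x, y, rfl⟩ := (q6 hb hS).coords g
    have h1 : c0 ∣ y := (hmem y).1 ⟨x, hg⟩
    have h2 : c0 ∣ x := by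
      refine (hmem x).1 ⟨-a * y, ?_⟩
      have h3 := v.mul_mem_left S hg
      convert h3 using 1
      have hsq : S * S = -(a : 𝓞 K) := (q6 hb hS).sq
      push_cast
      linear_combination (-(y : 𝓞 K)) * hsq
    rw [Ideal.mem_span_singleton]
    obtain ⟨y', rfl⟩ := h1
    obtain ⟨x', rfl⟩ := h2
    exact ⟨x' + y' * S, by push_cast; ring⟩
  obtain ⟨w, hw⟩ := Ideal.dvd_iff_le.2 hdiv
  have h0 := hmin w c0 hw
  have h1 : c0 ∣ 1 := by
    rw [← Int.natAbs_dvd_natAbs, h0]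
    norm_num
  obtain ⟨x, hx⟩ := (hmem 1).2 h1
  exact ⟨x, by simpa using hx⟩

private theorem aux_main {p q : ℕ} (hp : p.Prime) (hq : q.Prime) (hp8 : p % 8 = 1)
    (hq8 : q % 8 = 7) (hb : B6 K (2 * p * q) s) (hS : algebraMap (𝓞 K) K S = s)
    {v : Ideal (𝓞 K)} (hv0 : v ≠ 0) (hvc : Nat.Coprime (Ideal.absNorm v) (2 * p * q))
    (h : cls v * cls v = cls (r6 S 2))
    (hmin : ∀ w : Ideal (𝓞 K), w ≠ 0 → Nat.Coprime (Ideal.absNorm w) (2 * p * q) →
      cls w = cls v → Ideal.absNorm v ≤ Ideal.absNorm w) :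
    (Ideal.absNorm v % 8 = 1 ∨ Ideal.absNorm v % 8 = 7) ↔ (p * q) % 16 = 15 := by
  have hm : (p * q) % 8 = 7 := by
    rw [Nat.mul_mod, hp8, hq8]
  have hnv0 : Ideal.absNorm v ≠ 0 := fun h0 => hv0 (Ideal.absNorm_eq_zero_iff.1 h0)
  -- `v` is primitive
  obtain ⟨x0, hx0⟩ := aux_prim hb hS (v := v) (by
    intro w c0 hw
    have hc0 : c0 ≠ 0 := by
      rintro rfl
      apply hv0
      rw [hw, Int.cast_zero, Ideal.span_singleton_eq_bot.2 rfl]
      exact Ideal.bot_mul _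
    have hw0 : w ≠ 0 := by
      rintro rfl
      exact hv0 (by rw [hw, mul_zero])
    have hc1 : (c0 : 𝓞 K) ≠ 0 := Int.cast_ne_zero.2 hc0
    have hs0 : Ideal.span {(c0 : 𝓞 K)} ≠ 0 := by
      intro h2
      exact hc1 (Ideal.span_singleton_eq_bot.1 h2)
    have hN := congrArg Ideal.absNorm hw
    rw [map_mul] at hN
    have hcop : Nat.Coprime (Ideal.absNorm w) (2 * p * q) :=
      Nat.Coprime.coprime_dvd_left ⟨_, by rw [hN, mul_comm]⟩ hvc
    have hcl : cls w = cls v := by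
      rw [hw, cls_mul hs0 hw0, cls_span hc1, one_mul]
    have h3 := hmin w hw0 hcop hcl
    have h4 := norm_lin6 hb (δ := (c0 : 𝓞 K)) (x := c0) (y := 0) (by simp)
    have hw1 : 0 < Ideal.absNorm w :=
      Nat.pos_of_ne_zero fun h0 => hw0 (Ideal.absNorm_eq_zero_iff.1 h0)
    have h5 : Ideal.absNorm (Ideal.span {(c0 : 𝓞 K)}) ≤ 1 := by
      by_contra h6
      push Not at h6
      have h7 : 2 * Ideal.absNorm w ≤ Ideal.absNorm v := by
        rw [hN]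
        exact Nat.mul_le_mul_right _ h6
      omega
    have h6 : c0 ^ 2 ≤ 1 := by
      have h7 : ((Ideal.absNorm (Ideal.span {(c0 : 𝓞 K)}) : ℕ) : ℤ) ≤ 1 := by exact_mod_cast h5
      rw [h4] at h7
      simpa using h7
    have h7 : c0.natAbs ^ 2 ≤ 1 := by
      have h8 : ((c0.natAbs ^ 2 : ℕ) : ℤ) ≤ 1 := by
        push_cast
        rw [sq_abs]
        exact h6
      exact_mod_cast h8
    have h8 : 0 < c0.natAbs := Int.natAbs_pos.2 hc0
    nlinarith)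
  -- `v v r6 S (p q)` is principal
  have hd : p * q ∣ 2 * p * q := ⟨2, by ring⟩
  have ha2 : 2 * p * q / 2 = p * q := by
    rw [mul_assoc, Nat.mul_div_cancel_left _ two_pos]
  obtain ⟨ht1, ht2⟩ := cls_two hb hS
  rw [ha2] at ht2
  have hr0 := r6_ne hb hS hd
  obtain ⟨γ, -, hγ⟩ := prin_of_cls (b := v * v * r6 S (p * q))
    (mul_ne_zero (mul_ne_zero hv0 hv0) hr0)
    (by rw [cls_mul (mul_ne_zero hv0 hv0) hr0, cls_mul hv0 hv0, h, ht2, ht1])
  obtain ⟨x, y, hxy⟩ := (q6 hb hS).coords γ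
  have hγr : γ ∈ r6 S (p * q) := by
    have h1 : γ ∈ v * v * r6 S (p * q) := by
      rw [hγ]
      exact Ideal.mem_span_singleton_self γ
    exact (Ideal.mul_le_right : v * v * r6 S (p * q) ≤ r6 S (p * q)) h1
  rw [hxy, mem_r6 hb hS hd] at hγr
  obtain ⟨x', rfl⟩ := hγr
  have hN := norm_lin6 hb (δ := γ) (x := ((p * q : ℕ) : ℤ) * x') (y := y) (by
    rw [hxy, map_add, map_mul, map_intCast, map_intCast, hS])
  rw [← hγ, map_mul, map_mul, norm_r6 hb hS hd] at hN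
  have hm0 : ((p * q : ℕ) : ℤ) ≠ 0 := by
    exact_mod_cast mul_ne_zero hp.ne_zero hq.ne_zero
  obtain ⟨n, hn⟩ : ∃ n : ℕ, n = Ideal.absNorm v := ⟨_, rfl⟩
  obtain ⟨m, hmd⟩ : ∃ m : ℕ, m = p * q := ⟨_, rfl⟩
  rw [← hn] at hN hvc hnv0 ⊢
  rw [mul_assoc 2 p q, ← hmd] at hvc
  rw [mul_assoc 2 p q, ← hmd] at hN
  rw [← hmd] at hm hm0 ⊢
  have hE : (n : ℤ) ^ 2 = m * x' ^ 2 + 2 * y ^ 2 := by
    apply mul_left_cancel₀ hm0
    push_cast at hN
    linear_combination hN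
  have hnodd : Odd n := Nat.coprime_two_right.1 (Nat.Coprime.coprime_dvd_right ⟨m, rfl⟩ hvc)
  obtain ⟨n', hn'⟩ : Odd (n : ℤ) := by exact_mod_cast hnodd
  obtain ⟨m', hm'⟩ : ∃ m' : ℤ, (m : ℤ) = 8 * m' + 7 := ⟨(m : ℤ) / 8, by omega⟩
  have hx'odd : Odd x' := by
    rcases Int.even_or_odd x' with ⟨k, hk⟩ | hk
    · exfalso
      rw [hn', hk] at hE
      have : (2 : ℤ) * (2 * n' ^ 2 + 2 * n' - m * 2 * k ^ 2 - y ^ 2) = -1 := by
        linear_combination hE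
      omega
    · exact hk
  have hyodd : Odd y := by
    rcases Int.even_or_odd y with ⟨k, hk⟩ | hk
    · exfalso
      obtain ⟨j, hj⟩ := hx'odd
      rw [hn', hk, hj, hm'] at hE
      have h9 : (4 : ℤ) * (n' ^ 2 + n' - 2 * m' * (2 * j + 1) ^ 2 - 7 * (j ^ 2 + j) - 2 * k ^ 2) =
          6 := by
        linear_combination hE
      omega
    · exact hk
  have hx'0 : x'.natAbs ≠ 0 := by
    rw [Int.natAbs_ne_zero]
    rintro rfl
    exact absurd hx'odd (by decide)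
  -- the prime factors of `x'`
  have hxm : x'.natAbs % 8 = 1 ∨ x'.natAbs % 8 = 7 := by
    refine aux_mod hx'0 ?_
    intro l hl hlx
    have hlx' : (l : ℤ) ∣ x' := Int.natCast_dvd.2 hlx
    have hlp : Prime (l : ℤ) := Nat.prime_iff_prime_int.1 hl
    have hl2 : l ≠ 2 := by
      rintro rfl
      obtain ⟨k, hk⟩ := hlx'
      obtain ⟨j, hj⟩ := hx'odd
      push_cast at hk
      omega
    have hly : ¬ (l : ℤ) ∣ y := by
      intro hly
      have h1 : (l : ℤ) ∣ (n : ℤ) ^ 2 := by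
        rw [hE]
        exact dvd_add ((dvd_pow hlx' two_ne_zero).mul_left _)
          ((dvd_pow hly two_ne_zero).mul_left _)
      have h2 : (l : ℤ) ∣ n := hlp.dvd_of_dvd_pow h1
      have h2' : l ∣ n := by exact_mod_cast h2
      have h3 : ¬ l ∣ 2 * m := fun h4 => hl.one_lt.ne'
        (Nat.dvd_one.1 (by rw [← hvc]; exact Nat.dvd_gcd h2' h4))
      have h3' : ¬ (l : ℤ) ∣ 2 * m := by
        intro h4
        exact h3 (by exact_mod_cast h4)
      -- `(x0 + S) ^ 2 m ∈ (l)`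
      have h5 : v * v * r6 S m ≤ Ideal.span {(l : 𝓞 K)} := by
        rw [hmd, hγ, Ideal.span_singleton_le_iff_mem, Ideal.mem_span_singleton, hxy]
        obtain ⟨x2, hx2⟩ := hlx'
        obtain ⟨y2, hy2⟩ := hly
        rw [hx2, hy2]
        exact ⟨((p * q : ℕ) : ℤ) * x2 + y2 * S, by push_cast; ring⟩
      have h6 : ((x0 : 𝓞 K) + S) * ((x0 : 𝓞 K) + S) * (m : 𝓞 K) ∈ v * v * r6 S m := by
        refine Ideal.mul_mem_mul (Ideal.mul_mem_mul hx0 hx0) ?_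
        unfold r6
        exact Ideal.subset_span (by simp)
      have h7 := h5 h6
      rw [Ideal.mem_span_singleton] at h7
      obtain ⟨g, hg⟩ := h7
      obtain ⟨g1, g2, rfl⟩ := (q6 hb hS).coords g
      have hsq : S * S = -((2 * p * q : ℕ) : 𝓞 K) := (q6 hb hS).sq
      have h8 := (q6 hb hS).unique ((x0 ^ 2 - 2 * m) * m) (2 * x0 * m) (l * g1) (l * g2) (by
        have h9 : ((2 * p * q : ℕ) : 𝓞 K) = 2 * (m : 𝓞 K) := by
          rw [hmd]
          push_cast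
          ring
        rw [h9] at hsq
        push_cast
        linear_combination hg - (m : 𝓞 K) * hsq)
      have h9 : (l : ℤ) ∣ x0 * (2 * m) := ⟨g2, by linear_combination h8.2⟩
      have h10 : (l : ℤ) ∣ x0 := (hlp.dvd_or_dvd h9).resolve_right h3'
      have h11 : n ∣ Ideal.absNorm (Ideal.span {(x0 : 𝓞 K) + S}) := by
        rw [hn]
        exact Ideal.absNorm_dvd_absNorm_of_le ((Ideal.span_singleton_le_iff_mem _).2 hx0)
      have h12 := norm_lin6 hb (δ := (x0 : 𝓞 K) + S) (x := x0) (y := 1) (by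
        rw [map_add, map_intCast, hS, Int.cast_one, one_mul])
      have h13 : (l : ℤ) ∣ x0 ^ 2 + ((2 * p * q : ℕ) : ℤ) * 1 ^ 2 := by
        rw [← h12]
        exact_mod_cast h2'.trans h11
      have h14 : ((2 * p * q : ℕ) : ℤ) * 1 ^ 2 = 2 * m := by
        rw [hmd]
        push_cast
        ring
      rw [h14] at h13
      exact h3' ((dvd_add_right (dvd_pow h10 two_ne_zero)).1 h13)
    haveI : Fact l.Prime := ⟨hl⟩
    rw [← ZMod.exists_sq_eq_two_iff hl2]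
    have hy0 : ((y : ℤ) : ZMod l) ≠ 0 := fun h0 => hly ((ZMod.intCast_zmod_eq_zero_iff_dvd y l).1 h0)
    have hx00 : ((x' : ℤ) : ZMod l) = 0 := (ZMod.intCast_zmod_eq_zero_iff_dvd x' l).2 hlx'
    have h1 := congrArg (Int.cast : ℤ → ZMod l) hE
    push_cast at h1
    rw [hx00] at h1
    refine ⟨(n : ZMod l) / (y : ZMod l), ?_⟩
    field_simp
    linear_combination -h1
  -- the conclusion
  obtain ⟨j, hj⟩ : ∃ j : ℤ, x' ^ 2 = 16 * j + 1 := by
    have h1 : ((x'.natAbs : ℕ) : ℤ) ^ 2 = x' ^ 2 := by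
      rw [Int.natCast_natAbs, sq_abs]
    rw [← h1]
    rcases hxm with h2 | h2
    · obtain ⟨k, hk⟩ : ∃ k : ℤ, ((x'.natAbs : ℕ) : ℤ) = 8 * k + 1 :=
        ⟨((x'.natAbs : ℕ) : ℤ) / 8, by omega⟩
      exact ⟨4 * k ^ 2 + k, by rw [hk]; ring⟩
    · obtain ⟨k, hk⟩ : ∃ k : ℤ, ((x'.natAbs : ℕ) : ℤ) = 8 * k + 7 :=
        ⟨((x'.natAbs : ℕ) : ℤ) / 8, by omega⟩
      exact ⟨4 * k ^ 2 + 7 * k + 3, by rw [hk]; ring⟩
  obtain ⟨i, hi⟩ : ∃ i : ℤ, 2 * y ^ 2 = 16 * i + 2 := by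
    obtain ⟨k, hk⟩ := hyodd
    obtain ⟨r, hr⟩ := Int.even_mul_succ_self k
    exact ⟨r, by rw [hk]; linear_combination 8 * hr⟩
  have hF : (n : ℤ) ^ 2 = 16 * (m * j + i) + m + 2 := by
    rw [hE]
    linear_combination (m : ℤ) * hj + hi
  have hcases : n % 8 = 1 ∨ n % 8 = 3 ∨ n % 8 = 5 ∨ n % 8 = 7 := by
    have := Nat.odd_iff.1 hnodd
    omega
  constructor
  · rintro (h1 | h1)
    · obtain ⟨k, hk⟩ : ∃ k : ℤ, (n : ℤ) = 8 * k + 1 := ⟨(n : ℤ) / 8, by omega⟩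
      have h2 : (n : ℤ) ^ 2 = 16 * (4 * k ^ 2 + k) + 1 := by rw [hk]; ring
      omega
    · obtain ⟨k, hk⟩ : ∃ k : ℤ, (n : ℤ) = 8 * k + 7 := ⟨(n : ℤ) / 8, by omega⟩
      have h2 : (n : ℤ) ^ 2 = 16 * (4 * k ^ 2 + 7 * k + 3) + 1 := by rw [hk]; ring
      omega
  · intro h15
    rcases hcases with h1 | h1 | h1 | h1
    · exact Or.inl h1
    · exfalso
      obtain ⟨k, hk⟩ : ∃ k : ℤ, (n : ℤ) = 8 * k + 3 := ⟨(n : ℤ) / 8, by omega⟩
      have h2 : (n : ℤ) ^ 2 = 16 * (4 * k ^ 2 + 3 * k) + 9 := by rw [hk]; ring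
      omega
    · exfalso
      obtain ⟨k, hk⟩ : ∃ k : ℤ, (n : ℤ) = 8 * k + 5 := ⟨(n : ℤ) / 8, by omega⟩
      have h2 : (n : ℤ) ^ 2 = 16 * (4 * k ^ 2 + 5 * k + 1) + 9 := by rw [hk]; ring
      omega
    · exact Or.inr h1

theorem lem_u {p q : ℕ} (hp : p.Prime) (hq : q.Prime) (hp8 : p % 8 = 1) (hq8 : q % 8 = 7)
    (hb : B6 K (2 * p * q) s) (hS : algebraMap (𝓞 K) K S = s) (hτ : τ S = -S)
    {u : Ideal (𝓞 K)} (hu : OddI u) (h : cls u * cls u = cls (r6 S 2)) :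
    (Ideal.absNorm u % 8 = 1 ∨ Ideal.absNorm u % 8 = 7) ↔ (p * q) % 16 = 15 := by
  have ha0 : 2 * p * q ≠ 0 := mul_ne_zero (mul_ne_zero two_ne_zero hp.ne_zero) hq.ne_zero
  have hex : ∃ n : ℕ, ∃ v : Ideal (𝓞 K), v ≠ 0 ∧ Nat.Coprime (Ideal.absNorm v) (2 * p * q) ∧
      cls v = cls u ∧ Ideal.absNorm v = n := by
    obtain ⟨v, h1, h2, h3⟩ := exists_cop (cls u) ha0
    exact ⟨_, v, h1, h2, h3, rfl⟩
  obtain ⟨v, h1, h2, h3, h4⟩ := Nat.find_spec hex
  have hmin : ∀ w : Ideal (𝓞 K), w ≠ 0 → Nat.Coprime (Ideal.absNorm w) (2 * p * q) →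
      cls w = cls v → Ideal.absNorm v ≤ Ideal.absNorm w := by
    intro w h5 h6 h7
    rw [h4]
    exact Nat.find_min' hex ⟨w, h5, h6, h7.trans h3, rfl⟩
  have h5 := aux_main hp hq hp8 hq8 hb hS h1 h2 (by rw [h3, h]) hmin
  rw [← h5]
  have hvo : OddI v := Nat.coprime_two_right.1
    (Nat.Coprime.coprime_dvd_right ⟨p * q, by ring⟩ h2)
  have ha : (2 * p * q) % 16 = 14 := by
    have h6 : (p * q) % 8 = 7 := by rw [Nat.mul_mod, hp8, hq8]
    rw [mul_assoc]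
    omega
  have h6 := norm_cls hb hS hτ ha hu hvo (Or.inl h3.symm)
  omega

end Pool.Agent.Work.MP_8efaaa_nt.W14
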