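import Mathlib
import Pool.Agent.Work.MP_8efaaa_nt.W14.CHf
import Pool.Agent.Work.MP_8efaaa_nt.W14.CGe
import Pool.Agent.Work.MP_8efaaa_nt.W14.CUu

/-!
# W14/CAs (M): the group data

`a = 2 p q`, `a % 16 = 14`. `H`: `exists_H` with `exists_b3`. `t0 = cls (r6 S 2)`, `c_q = cls (r6 S q)`.
z1: the class `t0` contains an ideal `b` with `N b` prime to `2 p` (`exists_cop`), `N b = ± 1 (mod 8)`: `cls b = cls (r6 S (a/2))` (`cls_two`), and `norm_cls` with `N (r6 S (a/2)) = p q = 7 (mod 8)`. `jacobiSym (N b) p = 1`: `b * r6 S 2` has class `1`, `(γ)`, `2 N b = x^2 + a y^2`, `num_desc` for `p`, `M = 1`: `jacobiSym (2 N b) p = 1`,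
`jacobiSym 2 p = 1`. `genus`: `t0 = C * C`; `z1 ∈ M13` with `cls z1 = C` (`cls_surj`). `clM z1 ∈ H` iff `N z1 % 8 = 1` iff (`N z1 % 8 = 1 ∨ = 7`, as `z1 ∈ M13`) iff `p q % 16 = 15` (`lem_u`).
z0: `z0 = (1 + S) r6 S q`: norm `(1 + a) q = 7 * 7 = 1 (mod 8)` (`norm_g`, `norm_r6`); `cls z0 = c_q`. `clM z0 ∈ H`; `clM z0 ≠ 1`: `clM_eq` with `1`: `c_q = 1` or `c_q = t0`, excluded by `two_cls`.
`clM z1 ≠ 1`: `cls z1 ∈ {1, t0}` would give `t0 = cls z1 * cls z1 = 1`. `clM z1 ≠ clM z0`: `cls z1 ∈ {c_q, t0 c_q}` would give `t0 = 1`.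
last claim: `g = clM c` (`clM_surj`). `g * g = 1`: `cls c * cls c ∈ {1, t0}` (`clM_eq` for `c * c` and `1`). If `1`: `cls c ∈ {1, t0, c_q, t0 c_q}` (`two_cls`), `g = 1` or `g = clM z0`. If `t0 = cls z1 * cls z1`: `(cls c (cls z1)⁻¹)` has square `1`, so `cls c ∈ cls z1 {1, t0, c_q, t0 c_q}`: `g = clM z1` or `clM z0 * clM z1`. Conversely clear.
-/

set_option autoImplicit false

namespace Pool.Agent.Work.MP_8efaaa_nt.W14

open NumberField Pool.Agent.Work.MP_8efaaa_nt.R Pool.Agent.Work.MP_8efaaa_nt.N5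
  Pool.Agent.Work.MP_8efaaa_nt.K6
open scoped Classical nonZeroDivisors

variable {K : Type*} [Field K] [NumberField K] {a : ℕ} {s : K} {S : 𝓞 K} {τ : 𝓞 K ≃+* 𝓞 K}


theorem exists_grp {p q : ℕ} (hp : p.Prime) (hq : q.Prime) (hp8 : p % 8 = 1) (hq8 : q % 8 = 7)
    (hb : B6 K (2 * p * q) s) (hS : algebraMap (𝓞 K) K S = s) (hτ : τ S = -S) :
    ∃ (H : Subgroup (CG S)) (z0 z1 : M13 K), H.index = 2 ∧
      (∀ c : M13 K, clM S c ∈ H ↔ Ideal.absNorm (c : Ideal (𝓞 K)) % 8 = 1) ∧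
      (z0 : Ideal (𝓞 K)) = Ideal.span {1 + S} * r6 S q ∧
      cls (z1 : Ideal (𝓞 K)) * cls (z1 : Ideal (𝓞 K)) = cls (r6 S 2) ∧
      (clM S z1 ∈ H ↔ (p * q) % 16 = 15) ∧ clM S z0 ∈ H ∧ clM S z0 ≠ 1 ∧
      clM S z1 ≠ 1 ∧ clM S z1 ≠ clM S z0 ∧
      ∀ g : CG S, g * g = 1 ↔ g = 1 ∨ g = clM S z0 ∨ g = clM S z1 ∨
        g = clM S z0 * clM S z1 := by
  have hp2 : p ≠ 2 := by rintro rfl; norm_num at hp8
  have hq2 : q ≠ 2 := by rintro rfl; norm_num at hq8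
  have hpq8 : (p * q) % 8 = 7 := by rw [Nat.mul_mod, hp8, hq8]
  have hapq : 2 * p * q = 2 * (p * q) := by ring
  have ha : (2 * p * q) % 16 = 14 := by rw [hapq]; omega
  have hpa : p ∣ 2 * p * q := ⟨2 * q, by ring⟩
  have hqa : q ∣ 2 * p * q := ⟨2 * p, by ring⟩
  have h2a : 2 ∣ 2 * p * q := ⟨p * q, by ring⟩
  have ha2 : (2 * p * q) / 2 = p * q := by omega
  have hm2 : p * q ∣ 2 * p * q := ⟨2, by ring⟩
  obtain ⟨htt, hta⟩ := cls_two hb hS
  rw [ha2] at hta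
  obtain ⟨ht1, hc1, hct, hcc, htwo⟩ := two_cls hp hq hp2 hq2 hb hS hτ
  -- the subgroup
  obtain ⟨d3, hd3⟩ := exists_b3 hp hq hp8 hq8 hb hS
  obtain ⟨H, hHi, hH⟩ := exists_H hb hS hτ ha hd3
  -- `z1`
  obtain ⟨b, hb0, hbc, hbt⟩ := exists_cop (K := K) (cls (r6 S 2)) (M := 2 * p)
    (by have := hp.pos; omega)
  have hbodd : OddI b := by
    unfold OddI
    exact Nat.coprime_two_right.1 (Nat.Coprime.coprime_mul_right_right hbc)
  have hbp : ¬ p ∣ Ideal.absNorm b := by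
    intro h1
    have h2 : Nat.Coprime (Ideal.absNorm b) p := Nat.Coprime.coprime_mul_left_right hbc
    have h3 : p ∣ 1 := by
      rw [← h2]
      exact Nat.dvd_gcd h1 dvd_rfl
    exact hp.one_lt.ne' (Nat.dvd_one.1 h3)
  have hrodd : OddI (r6 S (p * q)) := by
    unfold OddI
    rw [norm_r6 hb hS hm2, Nat.odd_iff]
    omega
  have hbN : Ideal.absNorm b % 8 = 1 ∨ Ideal.absNorm b % 8 = 7 := by
    have h1 := norm_cls hb hS hτ ha hbodd hrodd (Or.inl (by rw [hbt, hta]))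
    rw [norm_r6 hb hS hm2] at h1
    omega
  have hbj : jacobiSym (Ideal.absNorm b) p = 1 :=
    chi_sq hb hS hτ hp (Or.inl hp8) hpa hb0 hbp (C := 1) (Or.inr (by rw [hbt, mul_one, mul_one]))
  obtain ⟨C, hC⟩ := genus hp hq hp8 hq8 hb hS hτ hbN hbj
  rw [hbt] at hC
  obtain ⟨c1, hc1M, hc1C⟩ := cls_surj hb hS C
  -- `z0`
  have hg1 : Ideal.absNorm (Ideal.span {1 + S}) = 1 + 2 * p * q := norm_g hb hS
  have hS1 : (1 : 𝓞 K) + S ≠ 0 := by
    intro h0
    rw [h0] at hg1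
    simp only [Set.singleton_zero, Ideal.span_zero, Ideal.absNorm_bot] at hg1
    omega
  have hspan0 : (Ideal.span {1 + S} : Ideal (𝓞 K)) ≠ 0 := fun h2 =>
    hS1 (Ideal.span_singleton_eq_bot.1 h2)
  have hrq0 : r6 S q ≠ 0 := r6_ne hb hS hqa
  have hz0N : Ideal.absNorm (Ideal.span {1 + S} * r6 S q) % 8 = 1 := by
    have h78 : (1 + 2 * p * q) % 8 = 7 := by rw [hapq]; omega
    rw [map_mul, hg1, norm_r6 hb hS hqa, Nat.mul_mod, hq8, h78]
  have hz0M : Ideal.span {1 + S} * r6 S q ∈ M13 K := Or.inl hz0N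
  have hz0c : cls (Ideal.span {1 + S} * r6 S q) = cls (r6 S q) := by
    rw [cls_mul hspan0 hrq0, cls_span hS1, one_mul]
  set z0 : M13 K := ⟨Ideal.span {1 + S} * r6 S q, hz0M⟩ with hz0
  set z1 : M13 K := ⟨c1, hc1M⟩ with hz1
  have hz0c' : cls (z0 : Ideal (𝓞 K)) = cls (r6 S q) := hz0c
  have hz1c : cls (z1 : Ideal (𝓞 K)) * cls (z1 : Ideal (𝓞 K)) = cls (r6 S 2) := by
    rw [hz1, hC]
    show cls c1 * cls c1 = C * C
    rw [hc1C]
  have hone : cls ((1 : M13 K) : Ideal (𝓞 K)) = 1 := cls_one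
  have hmulc : ∀ x y : M13 K, cls ((x * y : M13 K) : Ideal (𝓞 K)) =
      cls (x : Ideal (𝓞 K)) * cls (y : Ideal (𝓞 K)) := fun x y =>
    cls_mul (M13.ne x.2) (M13.ne y.2)
  have hmem1 : clM S z1 ∈ H ↔ (p * q) % 16 = 15 := by
    rw [hH z1, ← lem_u hp hq hp8 hq8 hb hS hτ (u := (z1 : Ideal (𝓞 K))) (M13.odd z1.2) hz1c]
    have h1 : Ideal.absNorm (z1 : Ideal (𝓞 K)) % 8 = 1 ∨
      Ideal.absNorm (z1 : Ideal (𝓞 K)) % 8 = 3 := z1.2
    omega
  have hz0ne : clM S z0 ≠ 1 := by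
    intro h1
    rw [← map_one (clM S), clM_eq hb hS, hz0c', hone, mul_one] at h1
    rcases h1 with h1 | h1
    · exact hc1 h1
    · exact hct h1
  have hz1ne : clM S z1 ≠ 1 := by
    intro h1
    rw [← map_one (clM S), clM_eq hb hS, hone, mul_one] at h1
    rcases h1 with h1 | h1
    · rw [h1, mul_one] at hz1c
      exact ht1 hz1c.symm
    · rw [h1, htt] at hz1c
      exact ht1 hz1c.symm
  have hz10 : clM S z1 ≠ clM S z0 := by
    intro h1
    rw [clM_eq hb hS, hz0c'] at h1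
    rcases h1 with h1 | h1
    · rw [h1, hcc] at hz1c
      exact ht1 hz1c.symm
    · rw [h1, mul_mul_mul_comm, htt, hcc, mul_one] at hz1c
      exact ht1 hz1c.symm
  refine ⟨H, z0, z1, hHi, hH, rfl, hz1c, hmem1, (hH z0).2 hz0N, hz0ne, hz1ne, hz10, ?_⟩
  intro g
  have sq0 : clM S z0 * clM S z0 = 1 := by
    rw [← map_mul, ← map_one (clM S), clM_eq hb hS, hmulc, hz0c', hcc, hone]
    exact Or.inl rfl
  have sq1 : clM S z1 * clM S z1 = 1 := by
    rw [← map_mul, ← map_one (clM S), clM_eq hb hS, hmulc, hz1c, hone, mul_one]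
    exact Or.inr rfl
  constructor
  · intro hgg
    obtain ⟨c, rfl⟩ := clM_surj hb hS g
    rw [← map_mul, ← map_one (clM S), clM_eq hb hS, hmulc, hone, mul_one] at hgg
    rcases hgg with h1 | h1
    · rcases (htwo _).1 h1 with h2 | h2 | h2 | h2
      · left
        rw [← map_one (clM S), clM_eq hb hS, hone, h2]
        exact Or.inl rfl
      · left
        rw [← map_one (clM S), clM_eq hb hS, hone, h2, mul_one]
        exact Or.inr rfl
      · right; left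
        rw [clM_eq hb hS, hz0c', h2]
        exact Or.inl rfl
      · right; left
        rw [clM_eq hb hS, hz0c', h2]
        exact Or.inr rfl
    · have h3 : (cls (c : Ideal (𝓞 K)) * (cls (z1 : Ideal (𝓞 K)))⁻¹) *
          (cls (c : Ideal (𝓞 K)) * (cls (z1 : Ideal (𝓞 K)))⁻¹) = 1 := by
        rw [mul_mul_mul_comm, h1, ← mul_inv, hz1c, mul_inv_cancel]
      have h4 : cls (c : Ideal (𝓞 K)) = (cls (c : Ideal (𝓞 K)) * (cls (z1 : Ideal (𝓞 K)))⁻¹) *
          cls (z1 : Ideal (𝓞 K)) := by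
        rw [inv_mul_cancel_right]
      rcases (htwo _).1 h3 with h2 | h2 | h2 | h2
      · right; right; left
        rw [clM_eq hb hS]
        left
        rw [h4, h2, one_mul]
      · right; right; left
        rw [clM_eq hb hS]
        right
        rw [h4, h2]
      · right; right; right
        rw [← map_mul, clM_eq hb hS]
        left
        rw [hmulc, hz0c', h4, h2]
      · right; right; right
        rw [← map_mul, clM_eq hb hS]
        right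
        rw [hmulc, hz0c', h4, h2, mul_assoc]
  · rintro (rfl | rfl | rfl | rfl)
    · rw [mul_one]
    · exact sq0
    · exact sq1
    · rw [mul_mul_mul_comm, sq0, sq1, mul_one]

end Pool.Agent.Work.MP_8efaaa_nt.W14
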