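import Mathlib
import Pool.Agent.Work.MP_8efaaa_nt.W14.Defs

/-!
# W14/DSu (S-M): sums over the classes with an involution without fixed points

Strong induction on `#X`. `X = ∅`: `n = 0` (`P 1 - P 1`). Otherwise choose `g ∈ X`, `g' = cl w * g⁻¹ ∈ X`, `g' ≠ g`, `g'' = cl w * g'⁻¹ = g`. `X' = X \ {g, g'}` is stable: if `h ∈ X'` then `cl w * h⁻¹ ∈ X`, and it is not `g` (`h = g'`) or `g'` (`h = g`). Induction: `n'` for `X'`; `n = n' + 1`. Put `b = r g`, `c = r g'`; `cl b = g`, `cl c = g'`, so `cl (b c) = cl w`.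
`D (x, y) := P x - P y` for `cl x = cl y` is additive: `P (x x') - P (y y') = (P (x x') - P (y x')) + (P (x' y) - P (y' y)) = (P x - P y) + (P x' - P y')` (`kk`). (*)
`hr b`: `P b ≡ T + δ - P (w bar b)` modulo `E`, `δ = if cl b ∈ H then 0 else m`. So `P b + P c ≡ T + δ - (P (w bar b) - P c)` and `P (w bar b) - P c = P (w bar b b) - P (c b)` (`kk` with `x = b`, `cl (w bar b) = cl w g⁻¹ = g'`) `= [P ((b bar b) w) - P (1 w)] + P w - P (b c)`, the bracket is `P (b bar b) - P 1 = δ` (`kk`, `cl (b bar b) = 1`, `nrm`).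
So `P b + P c ≡ T - P w + P (b c)` (`δ - δ = 0`). Finally `P (prod_X r) - P (w^n) = P ((b c) prod_X' r) - P (w w^n') = (P (b c) - P w) + (P (prod_X' r) - P (w^n'))` by (*) (`cl (prod_X' r) = cl w ^ n'`). Add up.
-/

set_option autoImplicit false

namespace Pool.Agent.Work.MP_8efaaa_nt.W14

open NumberField Pool.Agent.Work.MP_8efaaa_nt.R Pool.Agent.Work.MP_8efaaa_nt.N5
  Pool.Agent.Work.MP_8efaaa_nt.K6
open scoped Classical nonZeroDivisors

theorem sum_rel {M A G : Type*} [CommMonoid M] [AddCommGroup A] [CommGroup G]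
    {H : Subgroup G} {P : M → A} {cl : M →* G} {bar : M → M} {m : A} (h : AD H P cl bar m)
    {E : AddSubgroup A} {w : M} {T : A}
    (hr : ∀ c, P (w * bar c) + P c - T - (if cl c ∈ H then 0 else m) ∈ E) (X : Finset G)
    (hX : ∀ g ∈ X, cl w * g⁻¹ ∈ X ∧ cl w * g⁻¹ ≠ g) (r : G → M) (hrr : ∀ g, cl (r g) = g) :
    ∃ n : ℕ, X.card = 2 * n ∧ cl (∏ g ∈ X, r g) = cl w ^ n ∧
      (∑ g ∈ X, P (r g)) - n • T - P (∏ g ∈ X, r g) + P (w ^ n) ∈ E := by
  induction hN : X.card using Nat.strong_induction_on generalizing X with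
  | _ N ih =>
    rcases X.eq_empty_or_nonempty with hE | ⟨g, hg⟩
    · subst hE
      refine ⟨0, ?_, ?_, ?_⟩
      · rw [← hN]; rfl
      · rw [Finset.prod_empty, map_one, pow_zero]
      · rw [Finset.sum_empty, Finset.prod_empty, pow_zero, zero_smul, sub_zero, zero_sub,
          neg_add_cancel]
        exact E.zero_mem
    · obtain ⟨hg', hgg⟩ := hX g hg
      have hm' : cl w * g⁻¹ ∈ X.erase g := Finset.mem_erase.2 ⟨hgg, hg'⟩
      have hc1 := Finset.card_erase_add_one hg
      have hc2 := Finset.card_erase_add_one hm'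
      have hst : ∀ k ∈ (X.erase g).erase (cl w * g⁻¹),
          cl w * k⁻¹ ∈ (X.erase g).erase (cl w * g⁻¹) ∧ cl w * k⁻¹ ≠ k := by
        intro k hk
        obtain ⟨hk1, hk2⟩ := Finset.mem_erase.1 hk
        obtain ⟨hk3, hk4⟩ := Finset.mem_erase.1 hk2
        obtain ⟨hk5, hk6⟩ := hX k hk4
        refine ⟨Finset.mem_erase.2 ⟨?_, Finset.mem_erase.2 ⟨?_, hk5⟩⟩, hk6⟩
        · intro e
          exact hk3 (inv_injective (mul_left_cancel e))
        · intro e
          apply hk1
          rw [← e, mul_inv_rev, inv_inv, mul_left_comm, mul_inv_cancel, mul_one]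
      obtain ⟨n', h1, h2, h3⟩ := ih _ (by omega) _ hst rfl
      have hp1 := Finset.mul_prod_erase X r hg
      have hp2 := Finset.mul_prod_erase (X.erase g) r hm'
      have hs1 := Finset.add_sum_erase X (fun k => P (r k)) hg
      have hs2 := Finset.add_sum_erase (X.erase g) (fun k => P (r k)) hm'
      generalize ((X.erase g).erase (cl w * g⁻¹)) = X' at *
      have hb : cl (r g) = g := hrr g
      have hc : cl (r (cl w * g⁻¹)) = cl w * g⁻¹ := hrr _
      generalize r g = b at *
      generalize r (cl w * g⁻¹) = c at *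
      -- the relation for the pair
      have hpair : P b + P c - T - P (b * c) + P w ∈ E := by
        have e1 := h.kk (w * bar b) c b (by rw [map_mul, h.clb, hb, hc])
        have e2 := h.kk (b * bar b) 1 w (by rw [map_mul, h.clb, map_one, mul_inv_cancel])
        have e3 := h.nrm b
        rw [one_mul] at e2
        have e4 : w * bar b * b = b * bar b * w := by
          rw [mul_comm w, mul_right_comm, mul_comm (bar b) b]
        rw [e4, mul_comm c b] at e1
        have e5 : P (w * bar b) + P b - T - (if cl b ∈ H then 0 else m) =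
            P b + P c - T - P (b * c) + P w := by
          have e6 : P (w * bar b) = P c + (P (b * bar b * w) - P (b * c)) := by
            rw [e1]; abel
          have e7 : P (b * bar b * w) = P w + (P (b * bar b) - P 1) := by
            rw [← e2]; abel
          rw [e6, e7, e3]
          abel
        rw [← e5]
        exact hr b
      refine ⟨n' + 1, by omega, ?_, ?_⟩
      · rw [← hp1, ← hp2, map_mul, map_mul, hb, hc, h2, pow_succ]
        have : g * (cl w * g⁻¹ * cl w ^ n') = cl w * cl w ^ n' * (g * g⁻¹) := by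
          simp only [mul_comm, mul_left_comm, mul_assoc]
        rw [this, mul_inv_cancel, mul_one, mul_comm]
      · rw [← hp1, ← hp2, ← hs1, ← hs2]
        have f1 := h.kk (b * c) w (∏ k ∈ X', r k) (by
          rw [map_mul, hb, hc, mul_left_comm, mul_inv_cancel, mul_one])
        have f2 := h.kk (∏ k ∈ X', r k) (w ^ n') w (by rw [h2, map_pow])
        have f3 : b * (c * ∏ k ∈ X', r k) = b * c * ∏ k ∈ X', r k := (mul_assoc _ _ _).symm
        have f4 : w * ∏ k ∈ X', r k = (∏ k ∈ X', r k) * w := mul_comm _ _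
        rw [f3, pow_succ]
        rw [f4] at f1
        have f5 : P b + (P c + ∑ k ∈ X', P (r k)) - (n' + 1) • T -
            P (b * c * ∏ k ∈ X', r k) + P (w ^ n' * w) =
            (P b + P c - T - P (b * c) + P w) +
            ((∑ k ∈ X', P (r k)) - n' • T - P (∏ k ∈ X', r k) + P (w ^ n')) := by
          have f6 : P (b * c * ∏ k ∈ X', r k) =
              (P (b * c) - P w) + ((P (∏ k ∈ X', r k) - P (w ^ n')) + P (w ^ n' * w)) := by
            rw [← f1, ← f2]; abel
          rw [f6, add_smul, one_smul]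
          abel
        rw [f5]
        exact E.add_mem hpair h3

end Pool.Agent.Work.MP_8efaaa_nt.W14
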