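import Mathlib
import Pool.Agent.Work.MP_8efaaa_nt.W14.DSu

/-!
# W14/DAb (M): the abstract contradiction

Everything in the abelian group `A`; `m + m = 0`, so signs of `m` do not matter. `XH = univ.filter (∈ H)`, `XK = univ.filter (∉ H)`, both of cardinality `|G|/2` (`idx`; `Subgroup.card_mul_index`).
Section: `r : G → M` with `cl (r g) = g` for all `g`, `r 1 = 1`, `r (cl z0) = z0`, `r (cl z1) = z1`, `r (cl z0 * cl z1) = z0 * z1` (these four elements are different; else by `surj`). `SH = ∑ over XH of P (r g)`, `SK`, `RH = ∏ over XH of r g`, `RK`; `Y = SH - SK`.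
(1) `sum_rel` with `Ep`, `w`, `Tp`, for `XH` and `XK` (stable: `cl w ∈ H`; no fixed points: `hw`): the same `n` (`#XH = #XK`): `SH - n Tp - P RH + P (w^n) ∈ Ep`, `SK - n Tp - P RK + P (w^n) ∈ Ep`, `cl RH = cl RK`. So `e = Y - (P RH - P RK) ∈ Ep`; `16 Y = 0` (`htor`), `4 (P RH - P RK) = 0` (`htyp`: each of `0`, `m`, `IT x` is killed by `4`), so `16 e = 0`,
`e = 0` (`hEp`): `Y = P RH - P RK`.
(2) `x := P (z1 z1) - P 1`, `IT x`. `sum_rel` with `Eq`, `w := 1`, `Tq` (`1 * bar c = bar c`, `cl 1 * g⁻¹ = g⁻¹`) for `XH \ G2` and `XK \ G2`, `G2 = {1, cl z0, cl z1, cl z0 cl z1}` (by `hG` the set of the `g` with `g⁻¹ = g`); `P (1^n) = P 1`.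
Case A, `cl z1 ∈ H` (`lam = m`): `G2 ⊆ XH`. `#(XH \ G2) = #XK - 4`. With `R1 = ∏ over XH \ G2`: `Y - (P 1 + P z0 + P z1 + P (z0 z1)) + 2 Tq - P R1 + P RK ∈ Eq`. By (1), and `RH = R1 (z0 z0 z1 z1)`: `P RH - P R1 = P (z0 z0 z1 z1) - P 1` (`kk`, `cl (z0 z0 z1 z1) = 1`) `= (P (z0 z0) - P 1) + (P (z1 z1) - P 1) = m + x` (`kk`, `hzz`). `2 Tq = m`. So
`x - (P 1 + P z0 + P z1 + P (z0 z1)) ∈ Eq`. `hf` for `1` and `z1`: `P z0 + φ (P 1) - Tf ∈ Eq`, `P (z0 z1) + φ (P z1) - Tf ∈ Eq`; `2 Tf = m`. With `h = P 1 + P z1`: (I) `x - h + φ h - m ∈ Eq`.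
`hq` for `1`: `P (bar 1) = P 1` (`nrm` for `1`), so `2 P 1 - Tq ∈ Eq`. `hq` for `z1`: `P (bar z1) + P z1 - Tq ∈ Eq`, `P (bar z1) - P z1 = P (z1 bar z1) - P (z1 z1)` (`kk`; `cl (bar z1) = (cl z1)⁻¹ = cl z1`) `= P 1 - P (z1 z1) = -x` (`nrm`). So `2 P z1 - x - Tq ∈ Eq`, (II) `2 h - x - m ∈ Eq`.
`hloc` with `x + m` (`IT`, `hitn`) and `h`: `h + φ h - m ∈ Eq`. (I) + (II): `h + φ h - 2m ∈ Eq`. So `m ∈ Eq`, against `hm`.
Case B, `cl z1 ∉ H` (`lam = 0`): `G2 ∩ XH = {1, cl z0}`, `G2 ∩ XK = {cl z1, cl z0 cl z1}`, the two complements have the same cardinality. `R1 = ∏ over XH \ G2`, `R2 = ∏ over XK \ G2`, `cl R1 = cl R2 = 1`: `Y - (P 1 + P z0 - P z1 - P (z0 z1)) - (P R1 - P R2) ∈ Eq`. `RH = R1 z0`, `RK = R2 z0 (z1 z1)`: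
`P RH - P RK = (P R1 - P R2) - x` (`kk` twice). So `-x - (P 1 + P z0 - P z1 - P (z0 z1)) ∈ Eq`. `hf` for `1`: as before; for `z1`: `P (z0 z1) + φ (P z1) - Tf - m ∈ Eq`. With `h = P 1 - P z1`: (I) `-x - h + φ h + m ∈ Eq`. `hq` for `1`: `2 P 1 - Tq ∈ Eq`; for `z1`: `P (bar z1) + P z1 - Tq - m ∈ Eq`,
`P (bar z1) - P z1 = P (z1 bar z1) - P (z1 z1) = (P 1 + m) - (P 1 + x) = m - x`. So `2 P z1 - Tq - x ∈ Eq` and (II) `2 h + x ∈ Eq`. `hloc` with `-x`, `h`: `h + φ h ∈ Eq`. (I) + (II): `h + φ h + m ∈ Eq`. So `m ∈ Eq`, against `hm`.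
-/

set_option autoImplicit false

namespace Pool.Agent.Work.MP_8efaaa_nt.W14

open NumberField Pool.Agent.Work.MP_8efaaa_nt.R Pool.Agent.Work.MP_8efaaa_nt.N5
  Pool.Agent.Work.MP_8efaaa_nt.K6
open scoped Classical nonZeroDivisors

private theorem dab_section {M G : Type*} [CommMonoid M] [CommGroup G] {cl : M →* G}
    (hs : Function.Surjective cl) {z0 z1 : M} (h01 : cl z0 ≠ 1) (h11 : cl z1 ≠ 1)
    (h10 : cl z1 ≠ cl z0) (h20 : cl z0 * cl z0 = 1) :
    ∃ r : G → M, (∀ g, cl (r g) = g) ∧ r 1 = 1 ∧ r (cl z0) = z0 ∧ r (cl z1) = z1 ∧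
      r (cl z0 * cl z1) = z0 * z1 := by
  have h3 : cl z0 * cl z1 ≠ 1 := by
    intro h
    apply h10
    exact mul_left_cancel (h.trans h20.symm)
  have h4 : cl z0 * cl z1 ≠ cl z0 := by
    intro h
    exact h11 (mul_left_cancel (h.trans (mul_one _).symm))
  have h5 : cl z0 * cl z1 ≠ cl z1 := by
    intro h
    exact h01 (mul_right_cancel (h.trans (one_mul _).symm))
  refine ⟨fun g => if g = 1 then 1 else if g = cl z0 then z0 else if g = cl z1 then z1 else
    if g = cl z0 * cl z1 then z0 * z1 else Function.surjInv hs g, ?_, ?_, ?_, ?_, ?_⟩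
  · intro g
    dsimp only
    by_cases e1 : g = 1
    · rw [if_pos e1, e1, map_one]
    rw [if_neg e1]
    by_cases e2 : g = cl z0
    · rw [if_pos e2, e2]
    rw [if_neg e2]
    by_cases e3 : g = cl z1
    · rw [if_pos e3, e3]
    rw [if_neg e3]
    by_cases e4 : g = cl z0 * cl z1
    · rw [if_pos e4, e4, map_mul]
    rw [if_neg e4]
    exact Function.surjInv_eq hs g
  · simp
  · dsimp only
    rw [if_neg h01, if_pos rfl]
  · dsimp only
    rw [if_neg h11, if_neg h10, if_pos rfl]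
  · dsimp only
    rw [if_neg h3, if_neg h4, if_neg h5, if_pos rfl]

private theorem dab_card {G : Type*} [CommGroup G] [Fintype G] {H : Subgroup G}
    (h : H.index = 2) :
    (Finset.univ.filter (fun g : G => g ∈ H)).card =
      (Finset.univ.filter (fun g : G => ¬ g ∈ H)).card := by
  have h1 : (Finset.univ.filter (fun g : G => g ∈ H)).card = Nat.card H := by
    rw [Nat.card_eq_fintype_card]
    exact (Fintype.card_subtype _).symm
  have h2 := Subgroup.card_mul_index H
  rw [h, Nat.card_eq_fintype_card (α := G)] at h2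
  have h3 := Finset.card_filter_add_card_filter_not (s := (Finset.univ : Finset G))
    (fun g : G => g ∈ H)
  rw [Finset.card_univ] at h3
  omega

theorem abs_false {M A G : Type*} [CommMonoid M] [AddCommGroup A] [CommGroup G] [Fintype G]
    {H : Subgroup G} {P : M → A} {cl : M →* G} {bar : M → M} {m : A} (h : AD H P cl bar m)
    {Ep Eq : AddSubgroup A} {φ : A →+ A} {w z0 z1 : M} {Tp Tq Tf lam : A} {I : A → Prop}
    (hp : ∀ c, P (w * bar c) + P c - Tp - (if cl c ∈ H then 0 else m) ∈ Ep)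
    (hwH : cl w ∈ H) (hw : ∀ g : G, g * g ≠ cl w)
    (hEp : ∀ e ∈ Ep, (16 : ℤ) • e = 0 → e = 0)
    (hq : ∀ c, P (bar c) + P c - Tq - (if cl c ∈ H then 0 else m) ∈ Eq) (hTq : Tq + Tq = m)
    (hf : ∀ c, P (z0 * c) + φ (P c) - Tf - (if cl c ∈ H then 0 else m) ∈ Eq)
    (hTf : Tf + Tf = m) (hz0 : cl z0 ∈ H) (hz01 : cl z0 ≠ 1) (hz11 : cl z1 ≠ 1)
    (hz10 : cl z1 ≠ cl z0)
    (hG : ∀ g : G, g * g = 1 ↔ g = 1 ∨ g = cl z0 ∨ g = cl z1 ∨ g = cl z0 * cl z1)
    (hzz : P (z0 * z0) - P 1 = m) (hit : I (P (z1 * z1) - P 1))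
    (hitn : ∀ x, I x → I (-x) ∧ I (x + m) ∧ x + x = m)
    (htyp : ∀ b c, cl b = cl c → P b - P c = 0 ∨ P b - P c = m ∨ I (P b - P c))
    (hm : m ∉ Eq) (hloc : ∀ x y, I x → y + y - x ∈ Eq → y + φ y - lam ∈ Eq)
    (hlam : (cl z1 ∈ H ∧ lam = m) ∨ (cl z1 ∉ H ∧ lam = 0))
    (htor : ∀ r : G → M, (∀ g, cl (r g) = g) →
      (16 : ℤ) • ((∑ g ∈ Finset.univ.filter (· ∈ H), P (r g)) -
        ∑ g ∈ Finset.univ.filter (· ∉ H), P (r g)) = 0) : False := by
  have h20 : cl z0 * cl z0 = 1 := (hG _).2 (Or.inr (Or.inl rfl))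
  have h21 : cl z1 * cl z1 = 1 := (hG _).2 (Or.inr (Or.inr (Or.inl rfl)))
  have h3 : cl z0 * cl z1 ≠ 1 := by
    intro h
    apply hz10
    exact mul_left_cancel (h.trans h20.symm)
  have h4 : cl z0 * cl z1 ≠ cl z0 := by
    intro h
    exact hz11 (mul_left_cancel (h.trans (mul_one _).symm))
  have h5 : cl z0 * cl z1 ≠ cl z1 := by
    intro h
    exact hz01 (mul_right_cancel (h.trans (one_mul _).symm))
  obtain ⟨r, hr, r1, r2, r3, r4⟩ := dab_section h.surj hz01 hz11 hz10 h20
  have hcard := dab_card h.idx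
  have h1H : (1 : G) ∈ H := H.one_mem
  -- step (1)
  obtain ⟨n, n1, n2, n3⟩ := sum_rel h hp (Finset.univ.filter (· ∈ H)) (by
    intro g hg
    rw [Finset.mem_filter] at hg
    refine ⟨?_, ?_⟩
    · rw [Finset.mem_filter]
      exact ⟨Finset.mem_univ _, H.mul_mem hwH (H.inv_mem hg.2)⟩
    · intro e
      exact hw g (mul_inv_eq_iff_eq_mul.1 e).symm) r hr
  obtain ⟨n', n1', n2', n3'⟩ := sum_rel h hp (Finset.univ.filter (· ∉ H)) (by
    intro g hg
    rw [Finset.mem_filter] at hg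
    refine ⟨?_, ?_⟩
    · rw [Finset.mem_filter]
      refine ⟨Finset.mem_univ _, ?_⟩
      intro e
      exact hg.2 (H.inv_mem_iff.1 ((H.mul_mem_cancel_left hwH).1 e))
    · intro e
      exact hw g (mul_inv_eq_iff_eq_mul.1 e).symm) r hr
  have hn : n' = n := by omega
  rw [hn] at n2' n3'
  set SH : A := ∑ g ∈ Finset.univ.filter (· ∈ H), P (r g) with hSH
  set SK : A := ∑ g ∈ Finset.univ.filter (· ∉ H), P (r g) with hSK
  set RH : M := ∏ g ∈ Finset.univ.filter (· ∈ H), r g with hRH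
  set RK : M := ∏ g ∈ Finset.univ.filter (· ∉ H), r g with hRK
  have hcRR : cl RH = cl RK := n2.trans n2'.symm
  have hY : SH - SK = P RH - P RK := by
    have he : SH - SK - (P RH - P RK) ∈ Ep := by
      have := Ep.sub_mem n3 n3'
      have e : SH - SK - (P RH - P RK) =
          SH - n • Tp - P RH + P (w ^ n) - (SK - n • Tp - P RK + P (w ^ n)) := by abel
      rw [e]
      exact this
    have h16 : (16 : ℤ) • (SH - SK - (P RH - P RK)) = 0 := by
      rw [smul_sub, htor r hr, zero_sub, neg_eq_zero]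
      rcases htyp RH RK hcRR with t | t | t
      · rw [t, smul_zero]
      · rw [t]
        have : (16 : ℤ) • m = (8 : ℤ) • (m + m) := by module
        rw [this, h.two, smul_zero]
      · have t2 := (hitn _ t).2.2
        have : (16 : ℤ) • (P RH - P RK) = (4 : ℤ) • (((P RH - P RK) + (P RH - P RK)) +
          ((P RH - P RK) + (P RH - P RK))) := by module
        rw [this, t2, h.two, smul_zero]
    exact sub_eq_zero.1 (hEp _ he h16)
  -- step (2)
  have hq1 : ∀ c, P (1 * bar c) + P c - Tq - (if cl c ∈ H then 0 else m) ∈ Eq := by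
    intro c
    rw [one_mul]
    exact hq c
  set G2 : Finset G := {1, cl z0, cl z1, cl z0 * cl z1} with hG2
  have hmG2 : ∀ g, g ∈ G2 ↔ g * g = 1 := by
    intro g
    rw [hG g, hG2]
    simp only [Finset.mem_insert, Finset.mem_singleton]
  have hinvG2 : ∀ g, g⁻¹ ∈ G2 ↔ g ∈ G2 := by
    intro g
    rw [hmG2, hmG2, ← mul_inv, inv_eq_one]
  have hne : ∀ g, g ∉ G2 → cl (1 : M) * g⁻¹ ≠ g := by
    intro g hg e
    apply hg
    rw [hmG2]
    rw [map_one, one_mul] at e
    nth_rewrite 1 [← e]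
    exact inv_mul_cancel g
  obtain ⟨k1, k2, k3, k4⟩ := sum_rel h hq1 (Finset.univ.filter (· ∈ H) \ G2) (by
    intro g hg
    rw [Finset.mem_sdiff, Finset.mem_filter] at hg
    refine ⟨?_, hne g hg.2⟩
    rw [Finset.mem_sdiff, Finset.mem_filter, map_one, one_mul, hinvG2]
    exact ⟨⟨Finset.mem_univ _, H.inv_mem hg.1.2⟩, hg.2⟩) r hr
  obtain ⟨l1, l2, l3, l4⟩ := sum_rel h hq1 (Finset.univ.filter (· ∉ H) \ G2) (by
    intro g hg
    rw [Finset.mem_sdiff, Finset.mem_filter] at hg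
    refine ⟨?_, hne g hg.2⟩
    rw [Finset.mem_sdiff, Finset.mem_filter, map_one, one_mul, hinvG2]
    exact ⟨⟨Finset.mem_univ _, fun e => hg.1.2 (H.inv_mem_iff.1 e)⟩, hg.2⟩) r hr
  set x : A := P (z1 * z1) - P 1 with hx
  obtain ⟨hx1, hx2, hx3⟩ := hitn x hit
  have hzzz : P (z0 * z0 * (z1 * z1)) - P 1 = m + x := by
    have e1 := h.kk (z0 * z0) 1 (z1 * z1) (by rw [map_mul, map_one, h20])
    rw [one_mul, hzz] at e1
    rw [hx, ← e1]
    abel
  -- the relations of `1`
  have f1 : P z0 + φ (P 1) - Tf ∈ Eq := by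
    have := hf 1
    rwa [mul_one, map_one, if_pos h1H, sub_zero] at this
  have q1 : P 1 + P 1 - Tq ∈ Eq := by
    have e1 := h.nrm 1
    rw [map_one, if_pos h1H, one_mul, sub_eq_zero] at e1
    have := hq 1
    rwa [map_one, if_pos h1H, sub_zero, e1] at this
  have e2 : P (bar z1) - P z1 = P (z1 * bar z1) - P (z1 * z1) := by
    have := h.kk (bar z1) z1 z1 (by
      rw [h.clb]
      exact inv_eq_of_mul_eq_one_left h21)
    rw [mul_comm z1 (bar z1), this]
  have hcl1 : ∀ k : ℕ, cl (1 : M) ^ k = 1 := fun k => by rw [map_one, one_pow]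
  rw [hcl1] at k3 l3
  rw [one_pow] at k4 l4
  have n01 : (1 : G) ≠ cl z0 := fun e => hz01 e.symm
  have n11 : (1 : G) ≠ cl z1 := fun e => hz11 e.symm
  have n31 : (1 : G) ≠ cl z0 * cl z1 := fun e => h3 e.symm
  have n10 : cl z0 ≠ cl z1 := fun e => hz10 e.symm
  have n40 : cl z0 ≠ cl z0 * cl z1 := fun e => h4 e.symm
  have n51 : cl z1 ≠ cl z0 * cl z1 := fun e => h5 e.symm
  rcases hlam with ⟨hz1, hlam⟩ | ⟨hz1, hlam⟩
  · -- Case A
    have hsub : G2 ⊆ Finset.univ.filter (· ∈ H) := by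
      intro g hg
      rw [Finset.mem_filter]
      refine ⟨Finset.mem_univ _, ?_⟩
      rw [hG2] at hg
      simp only [Finset.mem_insert, Finset.mem_singleton] at hg
      rcases hg with e | e | e | e
      · rw [e]; exact h1H
      · rw [e]; exact hz0
      · rw [e]; exact hz1
      · rw [e]; exact H.mul_mem hz0 hz1
    have hsd : Finset.univ.filter (· ∉ H) \ G2 = Finset.univ.filter (· ∉ H) := by
      rw [Finset.sdiff_eq_self_iff_disjoint, Finset.disjoint_left]
      intro g hg hg2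
      exact (Finset.mem_filter.1 hg).2 (Finset.mem_filter.1 (hsub hg2)).2
    have hG2c : G2.card = 4 := by
      rw [hG2, Finset.card_insert_of_notMem, Finset.card_insert_of_notMem,
        Finset.card_insert_of_notMem, Finset.card_singleton]
      · simpa using n51
      · simp only [Finset.mem_insert, Finset.mem_singleton, not_or]
        exact ⟨n10, n40⟩
      · simp only [Finset.mem_insert, Finset.mem_singleton, not_or]
        exact ⟨n01, n11, n31⟩
    have hG2s : ∑ g ∈ G2, P (r g) = P 1 + (P z0 + (P z1 + P (z0 * z1))) := by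
      rw [hG2, Finset.sum_insert, Finset.sum_insert, Finset.sum_insert, Finset.sum_singleton,
        r1, r2, r3, r4]
      · simpa using n51
      · simp only [Finset.mem_insert, Finset.mem_singleton, not_or]
        exact ⟨n10, n40⟩
      · simp only [Finset.mem_insert, Finset.mem_singleton, not_or]
        exact ⟨n01, n11, n31⟩
    have hG2p : ∏ g ∈ G2, r g = z0 * z0 * (z1 * z1) := by
      rw [hG2, Finset.prod_insert, Finset.prod_insert, Finset.prod_insert, Finset.prod_singleton,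
        r1, r2, r3, r4]
      · rw [one_mul, mul_left_comm z1 z0 z1, mul_assoc]
      · simpa using n51
      · simp only [Finset.mem_insert, Finset.mem_singleton, not_or]
        exact ⟨n10, n40⟩
      · simp only [Finset.mem_insert, Finset.mem_singleton, not_or]
        exact ⟨n01, n11, n31⟩
    have s1 := Finset.sum_sdiff (f := fun g => P (r g)) hsub
    have s2 := Finset.prod_sdiff (f := fun g => r g) hsub
    have s3 := Finset.card_sdiff_add_card_eq_card hsub
    rw [hG2c, k2] at s3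
    rw [← hSH, hG2s] at s1
    rw [← hRH, hG2p] at s2
    rw [hsd] at l2 l4
    rw [← hSK, ← hRK] at l4
    have hll : l1 = k1 + 2 := by omega
    rw [hll, add_smul] at l4
    set R1 : M := ∏ g ∈ Finset.univ.filter (· ∈ H) \ G2, r g with hR1
    set S1 : A := ∑ g ∈ Finset.univ.filter (· ∈ H) \ G2, P (r g) with hS1
    have hRR : P RH - P R1 = m + x := by
      have e1 := h.kk (z0 * z0 * (z1 * z1)) 1 R1 (by
        rw [map_mul, map_mul, map_mul, map_one, h20, h21, one_mul])
      rw [one_mul, hzzz, mul_comm, s2] at e1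
      exact e1
    have q2 : P z1 + P z1 - x - Tq ∈ Eq := by
      have e1 := h.nrm z1
      rw [if_pos hz1, sub_eq_zero] at e1
      have := hq z1
      rw [if_pos hz1, sub_zero] at this
      have e3 : P (bar z1) = P z1 - x := by
        rw [sub_eq_iff_eq_add.1 e2, e1, hx]
        abel
      rw [e3] at this
      have e4 : P z1 + P z1 - x - Tq = P z1 - x + P z1 - Tq := by abel
      rw [e4]
      exact this
    have f2 : P (z0 * z1) + φ (P z1) - Tf ∈ Eq := by
      have := hf z1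
      rwa [if_pos hz1, sub_zero] at this
    -- (I)
    have g1 : x - (P 1 + P z0 + P z1 + P (z0 * z1)) ∈ Eq := by
      have := Eq.sub_mem k4 l4
      have e1 : x - (P 1 + P z0 + P z1 + P (z0 * z1)) =
          S1 - k1 • Tq - P R1 + P 1 - (SK - (k1 • Tq + 2 • Tq) - P RK + P 1) := by
        have e3 : S1 = SH - (P 1 + (P z0 + (P z1 + P (z0 * z1)))) := eq_sub_of_add_eq s1
        have e4 : SH = SK + (P RH - P RK) := by rw [← hY]; abel
        have e5 : P RH = P R1 + (m + x) := by rw [← hRR]; abel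
        rw [e3, e4, e5, two_smul, hTq]
        have e6 : x - (P 1 + P z0 + P z1 + P (z0 * z1)) = x - (P 1 + P z0 + P z1 + P (z0 * z1)) +
          (m + m) := by rw [h.two, add_zero]
        rw [e6]
        abel
      rw [e1]
      exact this
    have g2 : x - (P 1 + P z1) + φ (P 1 + P z1) - m ∈ Eq := by
      have := Eq.add_mem g1 (Eq.add_mem f1 f2)
      have e1 : x - (P 1 + P z1) + φ (P 1 + P z1) - m =
        x - (P 1 + P z0 + P z1 + P (z0 * z1)) +
          (P z0 + φ (P 1) - Tf + (P (z0 * z1) + φ (P z1) - Tf)) := by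
        rw [map_add, ← hTf]
        abel
      rw [e1]
      exact this
    have g3 : (P 1 + P z1) + (P 1 + P z1) - (x + m) ∈ Eq := by
      have := Eq.add_mem q1 q2
      have e1 : (P 1 + P z1) + (P 1 + P z1) - (x + m) =
        P 1 + P 1 - Tq + (P z1 + P z1 - x - Tq) := by
        rw [← hTq]
        abel
      rw [e1]
      exact this
    have g4 := hloc _ _ hx2 g3
    rw [hlam] at g4
    apply hm
    have := Eq.sub_mem g4 (Eq.add_mem g2 g3)
    have e1 : m = P 1 + P z1 + φ (P 1 + P z1) - m -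
      (x - (P 1 + P z1) + φ (P 1 + P z1) - m + ((P 1 + P z1) + (P 1 + P z1) - (x + m))) := by
      abel
    rw [e1]
    exact this
  · -- Case B
    obtain ⟨GH, hGH⟩ : ∃ s : Finset G, s = {1, cl z0} := ⟨_, rfl⟩
    obtain ⟨GK, hGK⟩ : ∃ s : Finset G, s = {cl z1, cl z0 * cl z1} := ⟨_, rfl⟩
    have hz01H : cl z0 * cl z1 ∉ H := fun e => hz1 ((H.mul_mem_cancel_left hz0).1 e)
    have hsubH : GH ⊆ Finset.univ.filter (· ∈ H) := by
      intro g hg
      rw [Finset.mem_filter]
      refine ⟨Finset.mem_univ _, ?_⟩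
      rw [hGH] at hg
      simp only [Finset.mem_insert, Finset.mem_singleton] at hg
      rcases hg with e | e
      · rw [e]; exact h1H
      · rw [e]; exact hz0
    have hsubK : GK ⊆ Finset.univ.filter (· ∉ H) := by
      intro g hg
      rw [Finset.mem_filter]
      refine ⟨Finset.mem_univ _, ?_⟩
      rw [hGK] at hg
      simp only [Finset.mem_insert, Finset.mem_singleton] at hg
      rcases hg with e | e
      · rw [e]; exact hz1
      · rw [e]; exact hz01H
    have hsdH : Finset.univ.filter (· ∈ H) \ G2 = Finset.univ.filter (· ∈ H) \ GH := by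
      ext g
      rw [Finset.mem_sdiff, Finset.mem_sdiff, Finset.mem_filter, hG2, hGH]
      simp only [Finset.mem_insert, Finset.mem_singleton, Finset.mem_univ, true_and, not_or]
      constructor
      · rintro ⟨a1, a2, a3, a4, a5⟩
        exact ⟨a1, a2, a3⟩
      · rintro ⟨a1, a2, a3⟩
        refine ⟨a1, a2, a3, ?_, ?_⟩
        · rintro rfl
          exact hz1 a1
        · rintro rfl
          exact hz01H a1
    have hsdK : Finset.univ.filter (· ∉ H) \ G2 = Finset.univ.filter (· ∉ H) \ GK := by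
      ext g
      rw [Finset.mem_sdiff, Finset.mem_sdiff, Finset.mem_filter, hG2, hGK]
      simp only [Finset.mem_insert, Finset.mem_singleton, Finset.mem_univ, true_and, not_or]
      constructor
      · rintro ⟨a1, a2, a3, a4, a5⟩
        exact ⟨a1, a4, a5⟩
      · rintro ⟨a1, a2, a3⟩
        refine ⟨a1, ?_, ?_, a2, a3⟩
        · rintro rfl
          exact a1 h1H
        · rintro rfl
          exact a1 hz0
    have hGHc : GH.card = 2 := by
      rw [hGH]
      exact Finset.card_pair n01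
    have hGKc : GK.card = 2 := by
      rw [hGK]
      exact Finset.card_pair n51
    have hGHs : ∑ g ∈ GH, P (r g) = P 1 + P z0 := by
      rw [hGH, Finset.sum_pair n01, r1, r2]
    have hGKs : ∑ g ∈ GK, P (r g) = P z1 + P (z0 * z1) := by
      rw [hGK, Finset.sum_pair n51, r3, r4]
    have hGHp : ∏ g ∈ GH, r g = z0 := by
      rw [hGH, Finset.prod_pair n01, r1, r2, one_mul]
    have hGKp : ∏ g ∈ GK, r g = z1 * (z0 * z1) := by
      rw [hGK, Finset.prod_pair n51, r3, r4]
    have s1 := Finset.sum_sdiff (f := fun g => P (r g)) hsubH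
    have s2 := Finset.prod_sdiff (f := fun g => r g) hsubH
    have s3 := Finset.card_sdiff_add_card_eq_card hsubH
    have t1 := Finset.sum_sdiff (f := fun g => P (r g)) hsubK
    have t2 := Finset.prod_sdiff (f := fun g => r g) hsubK
    have t3 := Finset.card_sdiff_add_card_eq_card hsubK
    rw [hsdH] at k2 k3 k4
    rw [hsdK] at l2 l3 l4
    rw [hGHc, k2] at s3
    rw [hGKc, l2] at t3
    rw [← hSH, hGHs] at s1
    rw [← hRH, hGHp] at s2
    rw [← hSK, hGKs] at t1
    rw [← hRK, hGKp] at t2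
    have hll : l1 = k1 := by omega
    rw [hll] at l4
    set R1 : M := ∏ g ∈ Finset.univ.filter (· ∈ H) \ GH, r g with hR1
    set S1 : A := ∑ g ∈ Finset.univ.filter (· ∈ H) \ GH, P (r g) with hS1
    set R2 : M := ∏ g ∈ Finset.univ.filter (· ∉ H) \ GK, r g with hR2
    set S2 : A := ∑ g ∈ Finset.univ.filter (· ∉ H) \ GK, P (r g) with hS2
    have hRR : P RH - P RK = (P R1 - P R2) - x := by
      have e1 := h.kk R1 R2 z0 (k3.trans l3.symm)
      have e3 := h.kk (z1 * z1) 1 (R2 * z0) (by rw [map_mul, h21, map_one])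
      have e4 : z1 * z1 * (R2 * z0) = RK := by
        rw [← t2]
        simp only [mul_assoc, mul_comm, mul_left_comm]
      rw [one_mul, e4, ← hx] at e3
      rw [s2] at e1
      rw [← e1, ← e3]
      abel
    have q2 : P z1 + P z1 - x - Tq ∈ Eq := by
      have e1 := h.nrm z1
      rw [if_neg hz1] at e1
      have := hq z1
      rw [if_neg hz1] at this
      have e3 : P (bar z1) = P z1 - x + m := by
        rw [sub_eq_iff_eq_add.1 e2, sub_eq_iff_eq_add.1 e1, hx]
        abel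
      rw [e3] at this
      have e4 : P z1 + P z1 - x - Tq = P z1 - x + m + P z1 - Tq - m := by abel
      rw [e4]
      exact this
    have f2 : P (z0 * z1) + φ (P z1) - Tf - m ∈ Eq := by
      have := hf z1
      rwa [if_neg hz1] at this
    have g1 : -x - (P 1 + P z0 - P z1 - P (z0 * z1)) ∈ Eq := by
      have := Eq.sub_mem k4 l4
      have e1 : -x - (P 1 + P z0 - P z1 - P (z0 * z1)) =
          S1 - k1 • Tq - P R1 + P 1 - (S2 - k1 • Tq - P R2 + P 1) := by
        have e3 : S1 = SH - (P 1 + P z0) := eq_sub_of_add_eq s1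
        have e4 : S2 = SK - (P z1 + P (z0 * z1)) := eq_sub_of_add_eq t1
        have e5 : SH = SK + (P R1 - P R2 - x) := by rw [← hRR, ← hY]; abel
        rw [e3, e4, e5]
        abel
      rw [e1]
      exact this
    have g2 : -x - (P 1 - P z1) + φ (P 1 - P z1) + m ∈ Eq := by
      have := Eq.add_mem g1 (Eq.sub_mem f1 f2)
      have e1 : -x - (P 1 - P z1) + φ (P 1 - P z1) + m =
        -x - (P 1 + P z0 - P z1 - P (z0 * z1)) +
          (P z0 + φ (P 1) - Tf - (P (z0 * z1) + φ (P z1) - Tf - m)) := by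
        rw [map_sub]
        abel
      rw [e1]
      exact this
    have g3 : (P 1 - P z1) + (P 1 - P z1) - (-x) ∈ Eq := by
      have := Eq.sub_mem q1 q2
      have e1 : (P 1 - P z1) + (P 1 - P z1) - (-x) =
        P 1 + P 1 - Tq - (P z1 + P z1 - x - Tq) := by
        abel
      rw [e1]
      exact this
    have g4 := hloc _ _ hx1 g3
    rw [hlam, sub_zero] at g4
    apply hm
    have := Eq.sub_mem (Eq.add_mem g2 g3) g4
    have e1 : m = -x - (P 1 - P z1) + φ (P 1 - P z1) + m +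
      ((P 1 - P z1) + (P 1 - P z1) - (-x)) - (P 1 - P z1 + φ (P 1 - P z1)) := by
      abel
    rw [e1]
    exact this

end Pool.Agent.Work.MP_8efaaa_nt.W14
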