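import Mathlib
import Pool.Agent.Work.MP_8efaaa_nt.W14.PFd
import Pool.Agent.Work.MP_8efaaa_nt.W14.LPt
import Pool.Agent.Work.MP_8efaaa_nt.W14.LLo
import Pool.Agent.Work.MP_8efaaa_nt.W14.CGe
import Pool.Agent.Work.MP_8efaaa_nt.W14.DFk

/-!
# W14/DIq (M-L): the relations at `q`

`a = 2 p q`, `P = PA z k v`, `hF = exists_fd`. `exists_prime6`: `L0` with `q ∈ L0`, `exists_vl`: `V0`. `pp_inert` for `l = q`: `b`, `N b = 7 (mod 8)`, prime to `a`, `jacobiSym p (N b) = 1`, so `jacobiSym (N b) p = 1` (`p = 1 (mod 4)`: `jacobiSym.quadratic_reciprocity_one_mod_four`); `PP (b * cj τ c) - PP c ∈ E1 V0`.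
`genus`: `cls b = C * C`; `e ∈ M13` (or any odd ideal) with `cls e = C` (`cls_surj`). `UD6.mov e`: `σ : F ≃ₐ[K] F` acting by `e`: `gal σ (PP c) = PP (e c)`. `vl_comap` for `V0` and `σ`: `V`, `L` with `VL V L`, `q ∈ L`, `V x = V0 (σ x)`. `Eq = EV V`. (`V 2 = 1`, `2 ∉ L`: `vl_odd`.) A point `R` is in `E1 V` iff `gal σ R ∈ E1 V0` (`pt_mem`, `gal_pt`).
RELATION (q): for odd `c`: at `V0`: `P (b cj τ (e c)) - P (e c) ∈ EV V0`. `b cj τ (e c) = (b cj τ e) (cj τ c)` (`cj_mul6`), `cls (b cj τ e) = C C C⁻¹ = cls e` (`cls_cj`), `N (b cj τ e) = 7 N e`: `fk7`: `P (b cj τ e * x) + P (e x) = T + d4 (N (e x))` for odd `x`; with `x = cj τ c`: `P (e cj τ c) + P (e c) - T - d4 (N e N c) ∈ EV V0`.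
Let `σ' = σ⁻¹` (`galA σ⁻¹`; `gal_mul`): `galA σ (P c) = P (e c)`. `T' := galA σ⁻¹ T`; `T' + T' = galA σ⁻¹ m1 = m1` (`gal_two`). So `galA σ (P (cj τ c) + P c - T' - d4 (N e N c)) ∈ EV V0`, hence `P (cj τ c) + P c - T' - d4 (N e N c) ∈ EV V`. `d4 (N e N c) = d4 (N e) + d4 (N c)` for odd norms; `Tq = T' + d4 (N e)`, `Tq + Tq = m1`.
FROBENIUS: `pp_frob` for `V`, `L`, `l = q`: `φ0 : F ≃ₐ[K] F`, `P (r6 S q * c) - galA φ0 (P c) ∈ Eq`. `FD.tq` for `α = 1 + S` and `r6 S q * c`: `P ((1+S) r6 S q c) + P (r6 S q c) = T + d4 (q N c)`, `T = P (1+S) + P 1`, `d4 (q n) = d4 n + m1` (`q = 3 (mod 4)`, `n` odd). So with `Tf = T + m1`: `P ((1+S) r6 S q c) + galA φ0 (P c) - Tf - d4 (N c) ∈ Eq`.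
LOCAL: `loc` (with `ζ`, `UD6.z8`, `φ0`). `m1 ∉ Eq`: `m1_nmem`.
-/

set_option autoImplicit false

namespace Pool.Agent.Work.MP_8efaaa_nt.W14

open NumberField Pool.Agent.Work.MP_8efaaa_nt.R Pool.Agent.Work.MP_8efaaa_nt.N5
  Pool.Agent.Work.MP_8efaaa_nt.K6
open scoped Classical nonZeroDivisors

section helpers

variable {F : Type*} [Field F] [NumberField F]

/-- `d4` of a product -/
private theorem d4_mul {m n : ℕ} (hm : Odd m) (hn : Odd n) :
    d4 F (m * n) = d4 F m + d4 F n := by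
  have h2 := (qm_ep (F := F)).2.2.2.1
  rw [Nat.odd_iff] at hm hn
  unfold d4
  have h : (m * n) % 4 = (m % 4) * (n % 4) % 4 := Nat.mul_mod _ _ _
  rcases (by omega : m % 4 = 1 ∨ m % 4 = 3) with h1 | h1 <;>
    rcases (by omega : n % 4 = 1 ∨ n % 4 = 3) with h3 | h3 <;>
    rw [h, h1, h3] <;> simp [h2]

private theorem d4_two (n : ℕ) : d4 F n + d4 F n = 0 := by
  unfold d4
  split_ifs
  · rw [add_zero]
  · exact (qm_ep (F := F)).2.2.2.1

private theorem gal_d4 {k0 : Type*} [Field k0] [Algebra k0 F] (σ : F ≃ₐ[k0] F) (n : ℕ) :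
    galA σ (d4 F n) = d4 F n := by
  unfold d4
  split_ifs
  · rw [map_zero]
  · exact (gal_two σ).2.2

private theorem gal_inv {k0 : Type*} [Field k0] [Algebra k0 F] (σ : F ≃ₐ[k0] F) (x : QA F) :
    galA σ (galA σ⁻¹ x) = x := by
  obtain ⟨R, rfl⟩ := QuotientAddGroup.mk'_surjective (AddSubgroup.zmultiples (ep F)) x
  change galA σ (galA σ⁻¹ (qm R)) = qm R
  rw [galA_qm, galA_qm, ← gal_mul, mul_inv_cancel]
  rcases pt_cases R with rfl | ⟨x, y, h, rfl⟩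
  · rw [map_zero]
  · rw [gal_pt]
    rfl

private theorem ev_of_gal {k0 : Type*} [Field k0] [Algebra k0 F] {Γ : Type*}
    [LinearOrderedCommGroupWithZero Γ] {V V0 : Valuation F Γ} {σ : F ≃ₐ[k0] F}
    (h : ∀ x, V x = V0 (σ x)) {x : QA F} (hx : galA σ x ∈ EV V0) : x ∈ EV V := by
  have h1 : ∀ R : (cQ F).Point, gal σ R ∈ W5.E1 V0 → R ∈ W5.E1 V := by
    intro R hR
    rcases pt_cases R with rfl | ⟨x, y, h', rfl⟩
    · exact zero_mem _
    · rw [gal_pt, W5.pt_mem] at hR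
      rw [W5.pt_mem, h]
      exact hR
  obtain ⟨R, rfl⟩ := QuotientAddGroup.mk'_surjective (AddSubgroup.zmultiples (ep F)) x
  change galA σ (qm R) ∈ EV V0 at hx
  change qm R ∈ EV V
  rw [galA_qm, qm_mem] at hx
  rw [qm_mem]
  rcases hx with hx | hx
  · exact Or.inl (h1 R hx)
  · right
    apply h1
    rw [map_add, gal_ep]
    exact hx

/-- a prime ideal above a prime number (as in `K6/DIn.lean`) -/
private theorem ex_prime {l : ℕ} (hl : l.Prime) :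
    ∃ L : Ideal (𝓞 F), L.IsPrime ∧ (l : 𝓞 F) ∈ L := by
  have hlZ : Prime (l : ℤ) := Nat.prime_iff_prime_int.1 hl
  have hpZ : (Ideal.span {(l : ℤ)}).IsPrime := (Ideal.span_singleton_prime hlZ.ne_zero).2 hlZ
  obtain ⟨⟨L, hL1, hL2⟩⟩ :=
    (inferInstance : Nonempty ((Ideal.span {(l : ℤ)}).primesOver (𝓞 F)))
  refine ⟨L, hL1, ?_⟩
  have h1 : (l : ℤ) ∈ Ideal.span {(l : ℤ)} := Ideal.mem_span_singleton_self _
  rw [hL2.over, Ideal.mem_comap] at h1
  simpa using h1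

end helpers

theorem q_side {K : Type*} {F : Type*} [Field K] [NumberField K] [Field F] [NumberField F]
    [Algebra K F] [IsGalois K F] [IsGalois ℚ F] {p q : ℕ} {s : K} {S : 𝓞 K}
    {τ : 𝓞 K ≃+* 𝓞 K} {ζ : F} {w : ℕ → F} {z k v : Ideal (𝓞 K) → F} {κ : F ≃ₐ[ℚ] F}
    (hp : p.Prime) (hq : q.Prime) (hp8 : p % 8 = 1) (hq8 : q % 8 = 7)
    (hb : B6 K (2 * p * q) s) (hS : algebraMap (𝓞 K) K S = s) (hτ : τ S = -S)
    (hU : UD6 K F (2 * p * q) s S τ ζ w z k v κ) :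
    ∃ (Eq : AddSubgroup (QA F)) (φ : QA F →+ QA F) (Tq Tf : QA F), m1 F ∉ Eq ∧
      Tq + Tq = m1 F ∧ Tf + Tf = m1 F ∧
      (∀ c, OddI c → PA z k v (cj τ c) + PA z k v c - Tq - d4 F (Ideal.absNorm c) ∈ Eq) ∧
      (∀ c, OddI c → PA z k v (Ideal.span {1 + S} * r6 S q * c) + φ (PA z k v c) - Tf -
        d4 F (Ideal.absNorm c) ∈ Eq) ∧
      ∀ x y : QA F, IT x → y + y - x ∈ Eq →
        y + φ y - (if q % 16 = 7 then m1 F else 0) ∈ Eq := by
  have hF := exists_fd hb hS hU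
  have hm2 := (qm_ep (F := F)).2.2.2.1
  have hq2 : q ≠ 2 := by
    rintro rfl
    omega
  have hqp : ¬ q ∣ p := by
    intro h
    have h1 := (Nat.prime_dvd_prime_iff_eq hq hp).1 h
    omega
  have hqa : q ∣ 2 * p * q := dvd_mul_left _ _
  have hpa : p ∣ 2 * p * q := Dvd.intro_left 2 rfl |>.mul_right q
  obtain ⟨L0, hL0, hqL0⟩ := ex_prime (F := F) hq
  obtain ⟨Γ, _, V0, hV0⟩ := exists_vl hL0
  obtain ⟨b, hb7, hbc, hbj, hbP⟩ := pp_inert hb hS hτ hU hV0 hq hq2 hqa hqL0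
  have hbo : OddI b := by
    unfold OddI
    rw [Nat.odd_iff]
    omega
  -- the class of `b` is a square
  have hj : jacobiSym (Ideal.absNorm b) p = 1 := by
    rw [← jacobiSym.quadratic_reciprocity_one_mod_four (by omega) hbo]
    exact hbj p hpa hqp
  obtain ⟨C, hC⟩ := genus hp hq hp8 hq8 hb hS hτ (Or.inr hb7) hj
  obtain ⟨e, he, heC⟩ := cls_surj hb hS C
  have heo : OddI e := M13.odd he
  have he0 : e ≠ 0 := M13.ne he
  obtain ⟨σ, hσ⟩ := hU.mov e heo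
  obtain ⟨V, L, hV, hLL, hVσ⟩ := vl_comap hV0 σ
  have hqL := hLL q hqL0
  -- the action on the points
  have hg : ∀ c, OddI c → galA σ (PA z k v c) = PA z k v (e * c) := by
    intro c hc
    obtain ⟨h1, h2, h3⟩ := hσ.act c hc
    unfold PA
    rw [galA_qm, gal_pp σ h1 h2 h3]
  have hcj : ∀ c : Ideal (𝓞 K), OddI c → OddI (cj τ c) := by
    intro c hc
    unfold OddI
    rw [(norm_cj6 hb hS hτ c).1]
    exact hc
  -- the relation
  obtain ⟨hcje0, hcje⟩ := cls_cj hb hS hτ he0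
  obtain ⟨T, hT, hTx⟩ := fk7 hb hS hτ hF (hbo.mul (hcj e heo)) heo (by
      rw [cls_mul hbo.ne_bot hcje0, hcje, hC, heC]
      group) (by
      rw [map_mul, (norm_cj6 hb hS hτ e).1, Nat.mul_mod, hb7, Nat.mul_mod 7]
      omega)
  have hrel : ∀ c, OddI c → PA z k v (cj τ c) + PA z k v c -
      (galA σ⁻¹ T + d4 F (Ideal.absNorm e)) - d4 F (Ideal.absNorm c) ∈ EV V := by
    intro c hc
    apply ev_of_gal hVσ
    have h1 := hTx (cj τ c) (hcj c hc)
    have h2 : PA z k v (b * cj τ (e * c)) - PA z k v (e * c) ∈ EV V0 := by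
      have h3 := hbP (e * c) (heo.mul hc)
      have h4 : qm (PP z k v (b * cj τ (e * c)) - PP z k v (e * c)) ∈ EV V0 :=
        AddSubgroup.mem_map_of_mem _ h3
      rw [map_sub] at h4
      exact h4
    rw [cj_mul6, ← mul_assoc] at h2
    rw [map_mul, (norm_cj6 hb hS hτ c).1, d4_mul heo hc] at h1
    rw [map_sub, map_sub, map_add, map_add, hg _ (hcj c hc), hg c hc, gal_inv, gal_d4, gal_d4]
    have h5 : PA z k v (e * cj τ c) + PA z k v (e * c) - (T + d4 F (Ideal.absNorm e)) -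
        d4 F (Ideal.absNorm c) =
        -(PA z k v (b * cj τ e * cj τ c) - PA z k v (e * c)) := by
      rw [eq_comm, ← sub_eq_zero]
      rw [← sub_eq_zero] at h1
      rw [← neg_eq_zero, ← h1]
      abel
    rw [h5]
    exact neg_mem h2
  -- the Frobenius
  obtain ⟨φ0, hφ1, hφ2, hφ3⟩ := pp_frob hb hS hU hV hq hq2 hqa hqL
  have hng : Ideal.absNorm (Ideal.span {(1 : 𝓞 K) + S}) % 8 = 7 := by
    rw [norm_g hb hS]
    have := hb.mod
    omega
  have hTf := hF.tq2 _ hng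
  refine ⟨EV V, galA φ0, galA σ⁻¹ T + d4 F (Ideal.absNorm e),
    PA z k v (Ideal.span {1 + S}) + PA z k v 1 + m1 F, m1_nmem, ?_, ?_, hrel, ?_, ?_⟩
  · have h1 : galA σ⁻¹ T + galA σ⁻¹ T = m1 F := by
      rw [← map_add, hT]
      exact (gal_two σ⁻¹).2.2
    have h2 := d4_two (F := F) (Ideal.absNorm e)
    calc galA σ⁻¹ T + d4 F (Ideal.absNorm e) + (galA σ⁻¹ T + d4 F (Ideal.absNorm e))
        = (galA σ⁻¹ T + galA σ⁻¹ T) + (d4 F (Ideal.absNorm e) + d4 F (Ideal.absNorm e)) := by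
          abel
      _ = m1 F := by rw [h1, h2, add_zero]
  · calc PA z k v (Ideal.span {1 + S}) + PA z k v 1 + m1 F +
          (PA z k v (Ideal.span {1 + S}) + PA z k v 1 + m1 F)
        = (PA z k v (Ideal.span {1 + S}) + PA z k v 1 +
          (PA z k v (Ideal.span {1 + S}) + PA z k v 1)) + (m1 F + m1 F) := by abel
      _ = m1 F := by rw [hTf, hm2, add_zero]
  · intro c hc
    have h1 : PA z k v (r6 S q * c) - galA φ0 (PA z k v c) ∈ EV V := by
      have h3 := hφ3 c hc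
      have h4 : qm (PP z k v (r6 S q * c) - gal φ0 (PP z k v c)) ∈ EV V :=
        AddSubgroup.mem_map_of_mem _ h3
      rw [map_sub, ← galA_qm] at h4
      exact h4
    have hrq : OddI (r6 S q) := by
      unfold OddI
      rw [norm_r6 hb hS hqa]
      exact hq.odd_of_ne_two hq2
    have h2 := hF.tq _ hng (r6 S q * c) (hrq.mul hc)
    have h3 : d4 F q = m1 F := by
      unfold d4
      rw [if_neg (by omega)]
    rw [map_mul, norm_r6 hb hS hqa, d4_mul (hq.odd_of_ne_two hq2) hc, h3, ← mul_assoc] at h2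
    have h5 : PA z k v (Ideal.span {1 + S} * r6 S q * c) + galA φ0 (PA z k v c) -
        (PA z k v (Ideal.span {1 + S}) + PA z k v 1 + m1 F) - d4 F (Ideal.absNorm c) =
        -(PA z k v (r6 S q * c) - galA φ0 (PA z k v c)) := by
      rw [← sub_eq_zero]
      rw [← sub_eq_zero] at h2
      rw [← h2]
      abel
    rw [h5]
    exact neg_mem h1
  · intro x y hx hy
    exact loc hV hq hq8 hqL hU.z8 hφ1 hφ2 hx hy

end Pool.Agent.Work.MP_8efaaa_nt.W14
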