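import Mathlib
import Pool.Agent.Work.MP_8efaaa_nt.K6.CDt
import Pool.Agent.Work.MP_8efaaa_nt.W14.DAb
import Pool.Agent.Work.MP_8efaaa_nt.W14.DAd
import Pool.Agent.Work.MP_8efaaa_nt.W14.DEx
import Pool.Agent.Work.MP_8efaaa_nt.W14.DIp
import Pool.Agent.Work.MP_8efaaa_nt.W14.DIq
import Pool.Agent.Work.MP_8efaaa_nt.W14.DYt
import Pool.Agent.Work.MP_8efaaa_nt.W14.CAs

/-!
# W14/Main: the theorem
-/

set_option autoImplicit false

namespace Pool.Agent.Work.MP_8efaaa_nt.W14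

open NumberField Pool.Agent.Work.MP_8efaaa_nt.R Pool.Agent.Work.MP_8efaaa_nt.N5
  Pool.Agent.Work.MP_8efaaa_nt.K6
open scoped Classical nonZeroDivisors

private theorem sqf {p q : ℕ} (hp : p.Prime) (hq : q.Prime) (hp16 : p % 16 = 9)
    (hq8 : q % 8 = 7) : Squarefree (2 * p * q) := by
  have h2p : Nat.Coprime 2 p := (Nat.coprime_primes Nat.prime_two hp).2 (by omega)
  have h2q : Nat.Coprime 2 q := (Nat.coprime_primes Nat.prime_two hq).2 (by omega)
  have hpq : Nat.Coprime p q := (Nat.coprime_primes hp hq).2 (by omega)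
  rw [Nat.squarefree_mul (Nat.Coprime.mul_left h2q hpq), Nat.squarefree_mul h2p]
  exact ⟨⟨Nat.prime_two.squarefree, hp.squarefree⟩, hq.squarefree⟩

private theorem mod8 {p q : ℕ} (hp16 : p % 16 = 9) (hq8 : q % 8 = 7) :
    (2 * p * q) % 16 = 14 ∧ ((p * q) % 16 = 15 ↔ q % 16 = 7) := by
  have h1 : q % 16 = 7 ∨ q % 16 = 15 := by omega
  rw [Nat.mul_mod (2 * p), Nat.mul_mod 2, Nat.mul_mod p, hp16]
  rcases h1 with h | h <;> rw [h] <;> norm_num

theorem main14 {p q : ℕ} (hp : p.Prime) (hq : q.Prime) (hp16 : p % 16 = 9) (hq8 : q % 8 = 7) :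
    IsCongruent (2 * p * q) := by
  by_contra hnc
  have hsf := sqf hp hq hp16 hq8
  obtain ⟨ha, hpq⟩ := mod8 (p := p) (q := q) hp16 hq8
  have hp8 : p % 8 = 1 := by omega
  obtain ⟨K, _, _, s, hb⟩ := exists_base6 hsf (a := 2 * p * q) (by omega)
  obtain ⟨S, hS, -, -⟩ := exists_S6 hb
  obtain ⟨τ, hτ⟩ := exists_tau6 hb hS
  obtain ⟨F, _, _, _, _, _, _, ζ, w, z, k, v, κ, hU⟩ := exists_ud6 hb hS hτ
  have hF : FD (2 * p * q) S (PA z k v) := exists_fd hb hS hU
  obtain ⟨H, z0, z1, hi, hH, hz0, hz1, hy, hz0H, hz01, hz11, hz10, hG⟩ :=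
    exists_grp hp hq hp8 hq8 hb hS hτ
  obtain ⟨bar, hbar, hAD, htyp, hit⟩ := exists_ad hb hS hτ ha hF hi hH
  obtain ⟨Ep, w0, Tp, hEp, hw0, hwn, hrp⟩ := p_side hp hq hp8 hq8 hb hS hτ hU
  obtain ⟨Eq, φ, Tq, Tf, hm, hTq, hTf, hrq, hrf, hloc⟩ := q_side hp hq hp8 hq8 hb hS hτ hU
  have : Fintype (CG S) := Fintype.ofFinite _
  have two := (qm_ep (F := F)).2.2.2.1
  have hd4 : ∀ c : M13 K, d4 F (Ideal.absNorm (c : Ideal (𝓞 K))) =
      if clM S c ∈ H then 0 else m1 F := by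
    intro c
    unfold d4
    rcases c.2 with h | h
    · rw [if_pos (by omega), if_pos ((hH c).2 h)]
    · rw [if_neg (by omega), if_neg]
      rw [hH c]
      omega
  have hg := norm_g hb hS
  have hg7 : Ideal.absNorm (Ideal.span {1 + S}) % 8 = 7 := by
    rw [hg]
    omega
  refine abs_false (M := M13 K) (A := QA F) (G := CG S) (H := H)
    (P := fun c : M13 K => PA z k v (c : Ideal (𝓞 K))) (cl := clM S) (bar := bar) (m := m1 F)
    hAD (Ep := Ep) (Eq := Eq) (φ := φ) (w := w0) (z0 := z0) (z1 := z1) (Tp := Tp) (Tq := Tq)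
    (Tf := Tf) (lam := if q % 16 = 7 then m1 F else 0) (I := IT) ?_ ((hH w0).2 hw0) hwn hEp ?_ hTq
    ?_ hTf hz0H hz01 hz11 hz10 hG ?_ (hit z1 hz1) ?_ htyp hm hloc ?_ ?_
  · intro c
    have h1 := hrp c c.2
    rw [hd4] at h1
    show PA z k v ((w0 : Ideal (𝓞 K)) * (bar c : Ideal (𝓞 K))) + _ - _ - _ ∈ Ep
    rw [hbar]
    exact h1
  · intro c
    have h1 := hrq c (M13.odd c.2)
    rw [hd4] at h1
    show PA z k v (bar c : Ideal (𝓞 K)) + _ - _ - _ ∈ Eq
    rw [hbar]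
    exact h1
  · intro c
    have h1 := hrf c (M13.odd c.2)
    rw [hd4] at h1
    show PA z k v ((z0 : Ideal (𝓞 K)) * (c : Ideal (𝓞 K))) + _ - _ - _ ∈ Eq
    rw [hz0]
    exact h1
  · show PA z k v ((z0 : Ideal (𝓞 K)) * (z0 : Ideal (𝓞 K))) - PA z k v 1 = m1 F
    have hqd : q ∣ 2 * p * q := dvd_mul_left _ _
    have hqo : q % 2 = 1 := by omega
    have e1 : (z0 : Ideal (𝓞 K)) * (z0 : Ideal (𝓞 K)) =
        Ideal.span {1 + S} * (Ideal.span {1 + S} * Ideal.span {(q : 𝓞 K)}) := by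
      rw [hz0, ← r6_sq hb hS hqd]
      ring
    have hNq : Ideal.absNorm (Ideal.span {(q : 𝓞 K)}) = q * q := by
      rw [← r6_sq hb hS hqd, map_mul, norm_r6 hb hS hqd]
    have hq1 : q * q % 8 = 1 := by
      rw [Nat.mul_mod, hq8]
    have ho1 : OddI (Ideal.span {(q : 𝓞 K)}) := by
      unfold OddI
      rw [hNq, Nat.odd_iff]
      omega
    have hN2 : Ideal.absNorm (Ideal.span {1 + S} * Ideal.span {(q : 𝓞 K)}) % 8 = 7 := by
      rw [map_mul, Nat.mul_mod, hg7, hNq, hq1]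
    have ho2 : OddI (Ideal.span {1 + S} * Ideal.span {(q : 𝓞 K)}) := by
      unfold OddI
      rw [Nat.odd_iff]
      omega
    have t1 := hF.tq (1 + S) hg7 _ ho2
    have t2 := hF.tq (1 + S) hg7 _ ho1
    have t3 := hF.nat q (Nat.odd_iff.2 hqo) 1 (by
      unfold OddI
      rw [map_one]
      exact odd_one)
    rw [mul_one] at t3
    have d1 : d4 F (Ideal.absNorm (Ideal.span {1 + S} * Ideal.span {(q : 𝓞 K)})) = m1 F := by
      unfold d4
      rw [if_neg]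
      omega
    have d2 : d4 F (Ideal.absNorm (Ideal.span {(q : 𝓞 K)})) = 0 := by
      unfold d4
      rw [if_pos]
      rw [hNq]
      omega
    have d3 : d8 F q = 0 := by
      unfold d8
      rw [if_pos (Or.inr hq8)]
    rw [d1] at t1
    rw [d2, add_zero] at t2
    rw [d3, add_zero] at t3
    rw [e1]
    rw [t3] at t2
    have t4 : PA z k v (Ideal.span {1 + S} * (Ideal.span {1 + S} * Ideal.span {(q : 𝓞 K)})) =
        PA z k v (Ideal.span {1 + S}) + PA z k v 1 + m1 F -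
          PA z k v (Ideal.span {1 + S} * Ideal.span {(q : 𝓞 K)}) := by
      rw [← t1]
      abel
    rw [t4, ← t2]
    abel
  · intro x hx
    exact it_facts hx
  · rcases (by omega : q % 16 = 7 ∨ q % 16 = 15) with h | h
    · left
      rw [if_pos h]
      exact ⟨hy.2 (hpq.2 h), rfl⟩
    · right
      rw [if_neg (by omega)]
      refine ⟨fun h1 => ?_, rfl⟩
      have := hpq.1 (hy.1 h1)
      omega
  · intro r hr
    exact y_tor hb hS hτ ha hU hnc hi hH r hr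

end Pool.Agent.Work.MP_8efaaa_nt.W14
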