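import Mathlib
import Pool.Agent.Work.MP_8efaaa_nt.W14.DSu

/-!
# W14/TAb (M): the abstract contradiction, three primes

Everything in the abelian group `A`; `m + m = 0`. `XH = univ.filter (∈ H)`, `XK = univ.filter (∉ H)`, both of cardinality `|G|/2` (`idx`). `κ := P (z1 z1) - P 1`, `κ = 0` or `m`, `κ + κ = 0`.
Choose `c0 : M` with `cl c0 ∈ H`, `cl c0 * cl c0 = cl w'`: `cl c0 = g0` if `g0 ∈ H`, else `g0 * cl z1` (in `H` because the index is `2`; `cl z1 * cl z1 = 1` by `hG`) (`surj`). `c1 = c0 z1`, `cl c1 ∉ H`, `cl c1 * cl c1 = cl w'`. The elements `g` with `g * g = cl w'` are (`hG` for `g (cl c0)⁻¹`) exactly the four different elements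
`cl c0`, `cl (c0 z0)` (in `H`), `cl c1`, `cl (c1 z0)` (not in `H`). Section `r : G → M`, `cl (r g) = g`, with the values `c0`, `c0 z0`, `c1`, `c1 z0` there. `SH = ∑ over XH of P (r g)`, `RH = ∏ over XH of r g`, `SK`, `RK`, `Y = SH - SK`.
(1) As in DAb (1): `sum_rel` with `Ep`, `w`, `Tp` for `XH` and `XK` gives `Y - (P RH - P RK) ∈ Ep`, `cl RH = cl RK`, both terms are killed by `16` (`htor`, `htyp`), so `Y = P RH - P RK` (`hEp`).
(2) `sum_rel` with `El`, `w'`, `Tl` for `XH' = XH` without the two classes and `XK' = XK` without the two classes (stable under `g ↦ cl w' * g⁻¹`, no fixed points; the same cardinality `2 n'`), `R1`, `R2` the products: `cl R1 = cl R2`, `Y - (P c0 + P (c0 z0) - P c1 - P (c1 z0)) - (P R1 - P R2) ∈ El`.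
`RH = R1 (c0 c0 z0)`, `RK = R2 (c0 c0 z0) (z1 z1)`: `P RH - P RK = (P R1 - P R2) + (P (R2 c0 c0 z0) - P ((z1 z1) (R2 c0 c0 z0))) = (P R1 - P R2) - κ` (`kk` twice). So `-κ - (P c0 + P (c0 z0) - P c1 - P (c1 z0)) ∈ El`. `hf` for `c0`: `P (z0 c0) + φ (P c0) - Tf ∈ El`, for `c1`: `P (z0 c1) + φ (P c1) - Tf - m ∈ El`.
With `y = P c0 - P c1`: (I) `-κ - y + φ y + m ∈ El`.
(3) `hl` for `c0`: `P (w' bar c0) + P c0 - Tl ∈ El`, `P (w' bar c0) - P c0 = P ((w' bar c0) c0) - P (c0 c0)` (`kk`; `cl (w' bar c0) = cl w' (cl c0)⁻¹ = cl c0`) `= (P ((c0 bar c0) w') - P (1 w')) + P w' - P (c0 c0) = P w' - P (c0 c0) =: ε` (`kk`, `nrm`). So `2 P c0 + ε - Tl ∈ El`.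
`hl` for `c1`: `P (w' bar c1) + P c1 - Tl - m ∈ El`, `P (w' bar c1) - P c1 = m + P w' - P (c1 c1)`, `P (c1 c1) = P ((z1 z1) (c0 c0)) = P (c0 c0) + κ`. So `2 P c1 + m + ε - κ - Tl - m = 2 P c1 + ε - κ - Tl ∈ El`. (II) `2 y + κ ∈ El`.
(4) `hloc` with `x = κ` (`y + y - κ = 2 y + κ`, as `2 κ = 0`): `y + φ y ∈ El`. (I) + (II): `y + φ y + m ∈ El`. So `m ∈ El`, against `hm`.
-/

set_option autoImplicit false

namespace Pool.Agent.Work.MP_8efaaa_nt.W14

open NumberField Pool.Agent.Work.MP_8efaaa_nt.R Pool.Agent.Work.MP_8efaaa_nt.N5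
  Pool.Agent.Work.MP_8efaaa_nt.K6
open scoped Classical nonZeroDivisors

private theorem tab_section {M G : Type*} [CommMonoid M] [CommGroup G] {cl : M →* G}
    (hs : Function.Surjective cl) {a0 a1 a2 a3 : M} (h10 : cl a1 ≠ cl a0) (h20 : cl a2 ≠ cl a0)
    (h21 : cl a2 ≠ cl a1) (h30 : cl a3 ≠ cl a0) (h31 : cl a3 ≠ cl a1) (h32 : cl a3 ≠ cl a2) :
    ∃ r : G → M, (∀ g, cl (r g) = g) ∧ r (cl a0) = a0 ∧ r (cl a1) = a1 ∧ r (cl a2) = a2 ∧
      r (cl a3) = a3 := by
  refine ⟨fun g => if g = cl a0 then a0 else if g = cl a1 then a1 else if g = cl a2 then a2 else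
    if g = cl a3 then a3 else Function.surjInv hs g, ?_, ?_, ?_, ?_, ?_⟩
  · intro g
    dsimp only
    by_cases e1 : g = cl a0
    · rw [if_pos e1, e1]
    rw [if_neg e1]
    by_cases e2 : g = cl a1
    · rw [if_pos e2, e2]
    rw [if_neg e2]
    by_cases e3 : g = cl a2
    · rw [if_pos e3, e3]
    rw [if_neg e3]
    by_cases e4 : g = cl a3
    · rw [if_pos e4, e4]
    rw [if_neg e4]
    exact Function.surjInv_eq hs g
  · dsimp only
    rw [if_pos rfl]
  · dsimp only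
    rw [if_neg h10, if_pos rfl]
  · dsimp only
    rw [if_neg h20, if_neg h21, if_pos rfl]
  · dsimp only
    rw [if_neg h30, if_neg h31, if_neg h32, if_pos rfl]

private theorem tab_card {G : Type*} [CommGroup G] [Fintype G] {H : Subgroup G}
    (h : H.index = 2) :
    (Finset.univ.filter (fun g : G => g ∈ H)).card =
      (Finset.univ.filter (fun g : G => ¬ g ∈ H)).card := by
  have h1 : (Finset.univ.filter (fun g : G => g ∈ H)).card = Nat.card H := by
    rw [Nat.card_eq_fintype_card]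
    exact (Fintype.card_subtype _).symm
  have h2 := Subgroup.card_mul_index H
  rw [h, Nat.card_eq_fintype_card (α := G)] at h2
  have h3 := Finset.card_filter_add_card_filter_not (s := (Finset.univ : Finset G))
    (fun g : G => g ∈ H)
  rw [Finset.card_univ] at h3
  omega

private theorem tab_c0 {M G : Type*} [CommMonoid M] [CommGroup G] {cl : M →* G}
    (hs : Function.Surjective cl) {H : Subgroup G} (hidx : H.index = 2) {x : G} {z1 : M} {g0 : G}
    (hg0 : g0 * g0 = x) (hz1 : cl z1 ∉ H) (h21 : cl z1 * cl z1 = 1) :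
    ∃ c0 : M, cl c0 ∈ H ∧ cl c0 * cl c0 = x := by
  by_cases hg : g0 ∈ H
  · obtain ⟨c, hc⟩ := hs g0
    exact ⟨c, by rw [hc]; exact hg, by rw [hc]; exact hg0⟩
  · obtain ⟨c, hc⟩ := hs (g0 * cl z1)
    refine ⟨c, ?_, ?_⟩
    · rw [hc, Subgroup.mul_mem_iff_of_index_two hidx]
      exact iff_of_false hg hz1
    · rw [hc, mul_mul_mul_comm, hg0, h21, mul_one]

theorem abs_three {M A G : Type*} [CommMonoid M] [AddCommGroup A] [CommGroup G] [Fintype G]
    {H : Subgroup G} {P : M → A} {cl : M →* G} {bar : M → M} {m : A} (h : AD H P cl bar m)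
    {Ep El : AddSubgroup A} {φ : A →+ A} {w w' z0 z1 : M} {Tp Tl Tf : A}
    (hp : ∀ c, P (w * bar c) + P c - Tp - (if cl c ∈ H then 0 else m) ∈ Ep)
    (hwH : cl w ∈ H) (hw : ∀ g : G, g * g ≠ cl w)
    (hEp : ∀ e ∈ Ep, (16 : ℤ) • e = 0 → e = 0)
    (hl : ∀ c, P (w' * bar c) + P c - Tl - (if cl c ∈ H then 0 else m) ∈ El)
    (hwH' : cl w' ∈ H) {g0 : G} (hg0 : g0 * g0 = cl w')
    (hf : ∀ c, P (z0 * c) + φ (P c) - Tf - (if cl c ∈ H then 0 else m) ∈ El)
    (hz0 : cl z0 ∈ H) (hz01 : cl z0 ≠ 1) (hz1 : cl z1 ∉ H)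
    (hG : ∀ g : G, g * g = 1 ↔ g = 1 ∨ g = cl z0 ∨ g = cl z1 ∨ g = cl z0 * cl z1)
    (hx : P (z1 * z1) - P 1 = 0 ∨ P (z1 * z1) - P 1 = m)
    (htyp : ∀ b c, cl b = cl c → (4 : ℤ) • (P b - P c) = 0)
    (hm : m ∉ El) (hloc : ∀ x y, (x = 0 ∨ x = m) → y + y - x ∈ El → y + φ y ∈ El)
    (htor : ∀ r : G → M, (∀ g, cl (r g) = g) →
      (16 : ℤ) • ((∑ g ∈ Finset.univ.filter (· ∈ H), P (r g)) -
        ∑ g ∈ Finset.univ.filter (· ∉ H), P (r g)) = 0) : False := by
  have h20 : cl z0 * cl z0 = 1 := (hG _).2 (Or.inr (Or.inl rfl))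
  have h21 : cl z1 * cl z1 = 1 := (hG _).2 (Or.inr (Or.inr (Or.inl rfl)))
  have hcard := tab_card h.idx
  obtain ⟨c0, hc0, hc0s⟩ := tab_c0 h.surj h.idx hg0 hz1 h21
  obtain ⟨c1, hc1d⟩ : ∃ c1 : M, c1 = c0 * z1 := ⟨_, rfl⟩
  have hc1c : cl c1 = cl c0 * cl z1 := by rw [hc1d, map_mul]
  have hc1 : cl c1 ∉ H := by
    rw [hc1c]
    intro e
    exact hz1 ((H.mul_mem_cancel_left hc0).1 e)
  have hc1s : cl c1 * cl c1 = cl w' := by
    rw [hc1c, mul_mul_mul_comm, hc0s, h21, mul_one]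
  have hc0z : cl (c0 * z0) ∈ H := by
    rw [map_mul]
    exact H.mul_mem hc0 hz0
  have hc1z : cl (c1 * z0) ∉ H := by
    rw [map_mul]
    intro e
    exact hc1 ((H.mul_mem_cancel_right hz0).1 e)
  have n10 : cl (c0 * z0) ≠ cl c0 := by
    rw [map_mul]
    intro e
    exact hz01 (mul_eq_left.1 e)
  have n32 : cl (c1 * z0) ≠ cl c1 := by
    rw [map_mul]
    intro e
    exact hz01 (mul_eq_left.1 e)
  have n20 : cl c1 ≠ cl c0 := fun e => hc1 (by rw [e]; exact hc0)
  have n21 : cl c1 ≠ cl (c0 * z0) := fun e => hc1 (by rw [e]; exact hc0z)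
  have n30 : cl (c1 * z0) ≠ cl c0 := fun e => hc1z (by rw [e]; exact hc0)
  have n31 : cl (c1 * z0) ≠ cl (c0 * z0) := fun e => hc1z (by rw [e]; exact hc0z)
  -- the square roots of `cl w'`
  have hsq : ∀ g : G, g * g = cl w' →
      g = cl c0 ∨ g = cl (c0 * z0) ∨ g = cl c1 ∨ g = cl (c1 * z0) := by
    intro g hg
    have e1 : (g * (cl c0)⁻¹) * (g * (cl c0)⁻¹) = 1 := by
      rw [mul_mul_mul_comm, hg, ← mul_inv, hc0s, mul_inv_cancel]
    have e2 := (hG _).1 e1
    rw [map_mul, map_mul, hc1c]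
    rcases e2 with e | e | e | e
    · left
      rw [mul_inv_eq_iff_eq_mul.1 e, one_mul]
    · right; left
      rw [mul_inv_eq_iff_eq_mul.1 e, mul_comm]
    · right; right; left
      rw [mul_inv_eq_iff_eq_mul.1 e, mul_comm]
    · right; right; right
      rw [mul_inv_eq_iff_eq_mul.1 e, mul_comm (cl z0) (cl z1), mul_comm, mul_assoc]
  obtain ⟨r, hr, r1, r2, r3, r4⟩ := tab_section h.surj n10 n20 n21 n30 n31 n32
  -- step (1)
  obtain ⟨n, n1, n2, n3⟩ := sum_rel h hp (Finset.univ.filter (· ∈ H)) (by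
    intro g hg
    rw [Finset.mem_filter] at hg
    refine ⟨?_, ?_⟩
    · rw [Finset.mem_filter]
      exact ⟨Finset.mem_univ _, H.mul_mem hwH (H.inv_mem hg.2)⟩
    · intro e
      exact hw g (mul_inv_eq_iff_eq_mul.1 e).symm) r hr
  obtain ⟨n', n1', n2', n3'⟩ := sum_rel h hp (Finset.univ.filter (· ∉ H)) (by
    intro g hg
    rw [Finset.mem_filter] at hg
    refine ⟨?_, ?_⟩
    · rw [Finset.mem_filter]
      refine ⟨Finset.mem_univ _, ?_⟩
      intro e
      exact hg.2 (H.inv_mem_iff.1 ((H.mul_mem_cancel_left hwH).1 e))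
    · intro e
      exact hw g (mul_inv_eq_iff_eq_mul.1 e).symm) r hr
  have hn : n' = n := by omega
  rw [hn] at n2' n3'
  set SH : A := ∑ g ∈ Finset.univ.filter (· ∈ H), P (r g) with hSH
  set SK : A := ∑ g ∈ Finset.univ.filter (· ∉ H), P (r g) with hSK
  set RH : M := ∏ g ∈ Finset.univ.filter (· ∈ H), r g with hRH
  set RK : M := ∏ g ∈ Finset.univ.filter (· ∉ H), r g with hRK
  have hcRR : cl RH = cl RK := n2.trans n2'.symm
  have hY : SH - SK = P RH - P RK := by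
    have he : SH - SK - (P RH - P RK) ∈ Ep := by
      have := Ep.sub_mem n3 n3'
      have e : SH - SK - (P RH - P RK) =
          SH - n • Tp - P RH + P (w ^ n) - (SK - n • Tp - P RK + P (w ^ n)) := by abel
      rw [e]
      exact this
    have h16 : (16 : ℤ) • (SH - SK - (P RH - P RK)) = 0 := by
      rw [smul_sub, htor r hr, zero_sub, neg_eq_zero]
      have e : (16 : ℤ) • (P RH - P RK) = (4 : ℤ) • ((4 : ℤ) • (P RH - P RK)) := by module
      rw [e, htyp RH RK hcRR, smul_zero]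
    exact sub_eq_zero.1 (hEp _ he h16)
  -- step (2)
  obtain ⟨GH, hGH⟩ : ∃ s : Finset G, s = {cl c0, cl (c0 * z0)} := ⟨_, rfl⟩
  obtain ⟨GK, hGK⟩ : ∃ s : Finset G, s = {cl c1, cl (c1 * z0)} := ⟨_, rfl⟩
  have hmGH : ∀ g, g ∈ GH ↔ g = cl c0 ∨ g = cl (c0 * z0) := by
    intro g
    rw [hGH]
    simp only [Finset.mem_insert, Finset.mem_singleton]
  have hmGK : ∀ g, g ∈ GK ↔ g = cl c1 ∨ g = cl (c1 * z0) := by
    intro g
    rw [hGK]
    simp only [Finset.mem_insert, Finset.mem_singleton]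
  have hsqr : ∀ g, (g = cl c0 ∨ g = cl (c0 * z0) ∨ g = cl c1 ∨ g = cl (c1 * z0)) →
      g * g = cl w' := by
    intro g hg
    rcases hg with e | e | e | e
    · rw [e, hc0s]
    · rw [e, map_mul, mul_mul_mul_comm, hc0s, h20, mul_one]
    · rw [e, hc1s]
    · rw [e, map_mul, mul_mul_mul_comm, hc1s, h20, mul_one]
  have hself : ∀ g, g * g = cl w' → cl w' * g⁻¹ = g := by
    intro g hg
    rw [← hg, mul_inv_cancel_right]
  have hself' : ∀ g, cl w' * g⁻¹ = g → g * g = cl w' := by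
    intro g hg
    exact (mul_inv_eq_iff_eq_mul.1 hg).symm
  have hinvo : ∀ g, cl w' * (cl w' * g⁻¹)⁻¹ = g := by
    intro g
    rw [mul_inv_rev, inv_inv, mul_left_comm, mul_inv_cancel, mul_one]
  have hinv4 : ∀ g k, (k = cl c0 ∨ k = cl (c0 * z0) ∨ k = cl c1 ∨ k = cl (c1 * z0)) →
      cl w' * g⁻¹ = k → g = k := by
    intro g k hk e
    rw [← hinvo g, e]
    exact hself k (hsqr k hk)
  obtain ⟨k1, k2, k3, k4⟩ := sum_rel h hl (Finset.univ.filter (· ∈ H) \ GH) (by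
    intro g hg
    rw [Finset.mem_sdiff, Finset.mem_filter, hmGH] at hg
    refine ⟨?_, ?_⟩
    · rw [Finset.mem_sdiff, Finset.mem_filter, hmGH]
      refine ⟨⟨Finset.mem_univ _, H.mul_mem hwH' (H.inv_mem hg.1.2)⟩, ?_⟩
      rintro (e | e)
      · exact hg.2 (Or.inl (hinv4 g _ (Or.inl rfl) e))
      · exact hg.2 (Or.inr (hinv4 g _ (Or.inr (Or.inl rfl)) e))
    · intro e
      rcases hsq g (hself' g e) with e | e | e | e
      · exact hg.2 (Or.inl e)
      · exact hg.2 (Or.inr e)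
      · exact hc1 (by rw [← e]; exact hg.1.2)
      · exact hc1z (by rw [← e]; exact hg.1.2)) r hr
  obtain ⟨l1, l2, l3, l4⟩ := sum_rel h hl (Finset.univ.filter (· ∉ H) \ GK) (by
    intro g hg
    rw [Finset.mem_sdiff, Finset.mem_filter, hmGK] at hg
    refine ⟨?_, ?_⟩
    · rw [Finset.mem_sdiff, Finset.mem_filter, hmGK]
      refine ⟨⟨Finset.mem_univ _, fun e => hg.1.2 (H.inv_mem_iff.1
        ((H.mul_mem_cancel_left hwH').1 e))⟩, ?_⟩
      rintro (e | e)
      · exact hg.2 (Or.inl (hinv4 g _ (Or.inr (Or.inr (Or.inl rfl))) e))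
      · exact hg.2 (Or.inr (hinv4 g _ (Or.inr (Or.inr (Or.inr rfl))) e))
    · intro e
      rcases hsq g (hself' g e) with e | e | e | e
      · exact hg.1.2 (by rw [e]; exact hc0)
      · exact hg.1.2 (by rw [e]; exact hc0z)
      · exact hg.2 (Or.inl e)
      · exact hg.2 (Or.inr e)) r hr
  obtain ⟨x, hxd⟩ : ∃ x : A, x = P (z1 * z1) - P 1 := ⟨_, rfl⟩
  rw [← hxd] at hx
  have hxx : x + x = 0 := by
    rcases hx with e | e
    · rw [e, add_zero]
    · rw [e, h.two]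
  have hsubH : GH ⊆ Finset.univ.filter (· ∈ H) := by
    intro g hg
    rw [Finset.mem_filter]
    refine ⟨Finset.mem_univ _, ?_⟩
    rcases (hmGH g).1 hg with e | e
    · rw [e]; exact hc0
    · rw [e]; exact hc0z
  have hsubK : GK ⊆ Finset.univ.filter (· ∉ H) := by
    intro g hg
    rw [Finset.mem_filter]
    refine ⟨Finset.mem_univ _, ?_⟩
    rcases (hmGK g).1 hg with e | e
    · rw [e]; exact hc1
    · rw [e]; exact hc1z
  have hGHc : GH.card = 2 := by
    rw [hGH]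
    exact Finset.card_pair n10.symm
  have hGKc : GK.card = 2 := by
    rw [hGK]
    exact Finset.card_pair n32.symm
  have hGHs : ∑ g ∈ GH, P (r g) = P c0 + P (c0 * z0) := by
    rw [hGH, Finset.sum_pair n10.symm, r1, r2]
  have hGKs : ∑ g ∈ GK, P (r g) = P c1 + P (c1 * z0) := by
    rw [hGK, Finset.sum_pair n32.symm, r3, r4]
  have hGHp : ∏ g ∈ GH, r g = c0 * (c0 * z0) := by
    rw [hGH, Finset.prod_pair n10.symm, r1, r2]
  have hGKp : ∏ g ∈ GK, r g = c1 * (c1 * z0) := by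
    rw [hGK, Finset.prod_pair n32.symm, r3, r4]
  have s1 := Finset.sum_sdiff (f := fun g => P (r g)) hsubH
  have s2 := Finset.prod_sdiff (f := fun g => r g) hsubH
  have s3 := Finset.card_sdiff_add_card_eq_card hsubH
  have t1 := Finset.sum_sdiff (f := fun g => P (r g)) hsubK
  have t2 := Finset.prod_sdiff (f := fun g => r g) hsubK
  have t3 := Finset.card_sdiff_add_card_eq_card hsubK
  rw [hGHc, k2] at s3
  rw [hGKc, l2] at t3
  rw [← hSH, hGHs] at s1
  rw [← hRH, hGHp] at s2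
  rw [← hSK, hGKs] at t1
  rw [← hRK, hGKp] at t2
  have hll : l1 = k1 := by omega
  rw [hll] at l3 l4
  set R1 : M := ∏ g ∈ Finset.univ.filter (· ∈ H) \ GH, r g with hR1
  set S1 : A := ∑ g ∈ Finset.univ.filter (· ∈ H) \ GH, P (r g) with hS1
  set R2 : M := ∏ g ∈ Finset.univ.filter (· ∉ H) \ GK, r g with hR2
  set S2 : A := ∑ g ∈ Finset.univ.filter (· ∉ H) \ GK, P (r g) with hS2
  have hRR : P RH - P RK = (P R1 - P R2) - x := by
    have e1 := h.kk R1 R2 (c0 * (c0 * z0)) (k3.trans l3.symm)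
    have e3 := h.kk (z1 * z1) 1 (R2 * (c0 * (c0 * z0))) (by rw [map_mul, h21, map_one])
    have e4 : z1 * z1 * (R2 * (c0 * (c0 * z0))) = RK := by
      rw [← t2, hc1d]
      simp only [mul_assoc, mul_comm, mul_left_comm]
    rw [one_mul, e4, ← hxd] at e3
    rw [s2] at e1
    rw [← e1, ← e3]
    abel
  have f1 : P (z0 * c0) + φ (P c0) - Tf ∈ El := by
    have := hf c0
    rwa [if_pos hc0, sub_zero] at this
  have f2 : P (z0 * c1) + φ (P c1) - Tf - m ∈ El := by
    have := hf c1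
    rwa [if_neg hc1] at this
  -- the relations of `c0`, `c1`
  have hbar : ∀ c, cl c * cl c = cl w' →
      P (w' * bar c) = P c + (if cl c ∈ H then 0 else m) + P w' - P (c * c) := by
    intro c hc
    have e1 := h.kk (w' * bar c) c c (by
      rw [map_mul, h.clb]
      exact hself _ hc)
    have e2 := h.kk (c * bar c) 1 w' (by rw [map_mul, h.clb, map_one, mul_inv_cancel])
    have e3 := h.nrm c
    have e4 : w' * bar c * c = c * bar c * w' := by
      rw [mul_comm w', mul_right_comm, mul_comm (bar c) c]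
    rw [one_mul, e3] at e2
    rw [e4] at e1
    rw [sub_eq_iff_eq_add.1 e1.symm, sub_eq_iff_eq_add.1 e2]
    abel
  have hcc : P (c1 * c1) = P (c0 * c0) + x := by
    have e1 := h.kk (z1 * z1) 1 (c0 * c0) (by rw [map_mul, h21, map_one])
    have e2 : z1 * z1 * (c0 * c0) = c1 * c1 := by
      rw [hc1d, mul_mul_mul_comm c0 z1 c0 z1, mul_comm]
    rw [e2, one_mul, ← hxd] at e1
    rw [sub_eq_iff_eq_add.1 e1]
    abel
  have q1 : P c0 + P c0 + (P w' - P (c0 * c0)) - Tl ∈ El := by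
    have := hl c0
    rw [hbar c0 hc0s, if_pos hc0] at this
    have e : P c0 + P c0 + (P w' - P (c0 * c0)) - Tl =
        P c0 + 0 + P w' - P (c0 * c0) + P c0 - Tl - 0 := by abel
    rw [e]
    exact this
  have q2 : P c1 + P c1 + (P w' - P (c0 * c0)) - x - Tl ∈ El := by
    have := hl c1
    rw [hbar c1 hc1s, if_neg hc1, hcc] at this
    have e : P c1 + P c1 + (P w' - P (c0 * c0)) - x - Tl =
        P c1 + m + P w' - (P (c0 * c0) + x) + P c1 - Tl - m := by abel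
    rw [e]
    exact this
  have g1 : -x - (P c0 + P (c0 * z0) - P c1 - P (c1 * z0)) ∈ El := by
    have := El.sub_mem k4 l4
    have e1 : -x - (P c0 + P (c0 * z0) - P c1 - P (c1 * z0)) =
        S1 - k1 • Tl - P R1 + P (w' ^ k1) - (S2 - k1 • Tl - P R2 + P (w' ^ k1)) := by
      have e3 : S1 = SH - (P c0 + P (c0 * z0)) := eq_sub_of_add_eq s1
      have e4 : S2 = SK - (P c1 + P (c1 * z0)) := eq_sub_of_add_eq t1
      have e5 : SH = SK + (P R1 - P R2 - x) := by rw [← hRR, ← hY]; abel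
      rw [e3, e4, e5]
      abel
    rw [e1]
    exact this
  have g2 : -x - (P c0 - P c1) + φ (P c0 - P c1) + m ∈ El := by
    have := El.add_mem g1 (El.sub_mem f1 f2)
    have e1 : -x - (P c0 - P c1) + φ (P c0 - P c1) + m =
      -x - (P c0 + P (c0 * z0) - P c1 - P (c1 * z0)) +
        (P (z0 * c0) + φ (P c0) - Tf - (P (z0 * c1) + φ (P c1) - Tf - m)) := by
      rw [map_sub, mul_comm z0 c0, mul_comm z0 c1]
      abel
    rw [e1]
    exact this
  have g3 : (P c0 - P c1) + (P c0 - P c1) + x ∈ El := by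
    have := El.sub_mem q1 q2
    have e1 : (P c0 - P c1) + (P c0 - P c1) + x =
      P c0 + P c0 + (P w' - P (c0 * c0)) - Tl -
        (P c1 + P c1 + (P w' - P (c0 * c0)) - x - Tl) := by
      abel
    rw [e1]
    exact this
  have g3' : (P c0 - P c1) + (P c0 - P c1) - x ∈ El := by
    have e1 : (P c0 - P c1) + (P c0 - P c1) - x =
      (P c0 - P c1) + (P c0 - P c1) + x - (x + x) := by abel
    rw [e1, hxx, sub_zero]
    exact g3
  have g4 := hloc x (P c0 - P c1) hx g3'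
  apply hm
  have := El.sub_mem (El.add_mem g2 g3) g4
  have e1 : m = -x - (P c0 - P c1) + φ (P c0 - P c1) + m +
    ((P c0 - P c1) + (P c0 - P c1) + x) - (P c0 - P c1 + φ (P c0 - P c1)) := by
    abel
  rw [e1]
  exact this

end Pool.Agent.Work.MP_8efaaa_nt.W14
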