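import Mathlib
import Pool.Agent.Work.MP_8efaaa_nt.W14.CCh
import Pool.Agent.Work.MP_8efaaa_nt.W14.CHf

/-!
# W14/TGe (M): squares modulo the class of the prime above 2

`t = cls (r6 S 2)`, `t t = 1`. `G = ClassGroup (𝓞 K)`. Let `T` be the set of the classes `C` for which there is an odd ideal `c`, `N c` prime to `l`, `N c = ± 1 (mod 8)`, `jacobiSym (N c) l = 1`, with `cls c = C` or `cls c = t C`. It is a subgroup of `G` (products: `jacobiSym.mul_left`; inverse: `cj τ c`, `cls_cj`, `norm_cj6`).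
(1) `T` contains all `C * C` and `t (C * C)`: `C = cls c`, `N c` prime to `2 l` (`exists_cop`), `c * c`.
(2) if `b` is odd, `N b` prime to `l`, `cls b ∈ T`: `N b = ± 1 (mod 8)` (`norm_cls`), `jacobiSym (N b) l = 1`: `cls b = cls c` or `t cls c`: `b * cj τ c` resp. `b * cj τ c * r6 S 2` is `(γ)` (`prin_of_cls`), `N b N c` resp. `2 N b N c` is `x^2 + a y^2`, `num_desc` (`M = 1`, prime `l`), and `jacobiSym 2 l = 1` (`l = 7 (mod 8)`).
(3) the index of `T` is at least `4`: the classes of `1`, `b3`, `b1`, `b3 b1` (replace `b3` by an ideal of its class with norm prime to `2 l`, `exists_cop`, `norm_cls`) are different modulo `T` by (2) (as in CGe (3)).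
(4) let `Q` be the subgroup of the `C * C`, `t (C * C)`. `Q ≤ T`. The index of `Q` is `|{C : C C ∈ {1, t}}| / 2` if ... more simply: in the finite group `CG S = G ⧸ ⟨t⟩` the image `Q'` of `g ↦ g * g` has the index `|{g : g * g = 1}| ≤ 4` (`h4`), `Q` is the preimage of `Q'`, so its index in `G` is at most `4`. So `Q = T` (`Q ≤ T`, index of `T` at least `4`, finite group).
-/

set_option autoImplicit false

namespace Pool.Agent.Work.MP_8efaaa_nt.W14

open NumberField Pool.Agent.Work.MP_8efaaa_nt.R Pool.Agent.Work.MP_8efaaa_nt.N5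
  Pool.Agent.Work.MP_8efaaa_nt.K6
open scoped Classical nonZeroDivisors

variable {K : Type*} [Field K] [NumberField K] {a : ℕ} {s : K} {S : 𝓞 K} {τ : 𝓞 K ≃+* 𝓞 K}


private theorem e8_mul' {x y : ℤ} (hx : Odd x) (hy : Odd y) : e8 (x * y) = e8 x * e8 y := by
  have hx' := Int.odd_iff.1 hx
  have hy' := Int.odd_iff.1 hy
  have h1 : x % 8 = 1 ∨ x % 8 = 3 ∨ x % 8 = 5 ∨ x % 8 = 7 := by omega
  have h2 : y % 8 = 1 ∨ y % 8 = 3 ∨ y % 8 = 5 ∨ y % 8 = 7 := by omega
  unfold e8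
  rw [Int.mul_emod]
  rcases h1 with h1 | h1 | h1 | h1 <;> rcases h2 with h2 | h2 | h2 | h2 <;> rw [h1, h2] <;> norm_num

private theorem e8_pm (x : ℤ) : e8 x = 1 ∨ e8 x = -1 := by
  unfold e8
  split_ifs
  · exact Or.inl rfl
  · exact Or.inr rfl

private theorem J_pm {p : ℕ} (hp : p.Prime) {n : ℕ} (h : ¬ p ∣ n) :
    jacobiSym n p = 1 ∨ jacobiSym n p = -1 := by
  apply jacobiSym.eq_one_or_neg_one
  rw [Int.gcd_natCast_natCast]
  exact ((Nat.Prime.coprime_iff_not_dvd hp).2 h).symm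

private theorem J_ne {p : ℕ} (hp : p.Prime) {n : ℕ} (h : jacobiSym n p ≠ 0) : ¬ p ∣ n := by
  intro h1
  apply h
  haveI : NeZero p := ⟨hp.ne_zero⟩
  rw [jacobiSym.eq_zero_iff_not_coprime]
  rw [Int.gcd_natCast_natCast, Nat.gcd_eq_right h1]
  exact hp.one_lt.ne'

/-- the two characters depend on the class modulo the prime above `2` -/
private theorem wd8 (hb : B6 K a s) (hS : algebraMap (𝓞 K) K S = s) (hτ : τ S = -S)
    (ha : a % 16 = 14) {b c : Ideal (𝓞 K)} (hb1 : OddI b) (hc1 : OddI c)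
    (h : cls b = cls c ∨ cls b = cls (r6 S 2) * cls c) :
    e8 (Ideal.absNorm b : ℤ) = e8 (Ideal.absNorm c : ℤ) := by
  have h1 := norm_cls hb hS hτ ha hb1 hc1 h
  have h2 := Nat.odd_iff.1 hb1
  have h3 := Nat.odd_iff.1 hc1
  unfold e8
  have e1 : ((Ideal.absNorm b : ℤ) % 8 = 1 ∨ (Ideal.absNorm b : ℤ) % 8 = 7) ↔
      ((Ideal.absNorm c : ℤ) % 8 = 1 ∨ (Ideal.absNorm c : ℤ) % 8 = 7) := by
    omega
  by_cases h4 : (Ideal.absNorm c : ℤ) % 8 = 1 ∨ (Ideal.absNorm c : ℤ) % 8 = 7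
  · rw [if_pos h4, if_pos (e1.2 h4)]
  · rw [if_neg h4, if_neg (fun h5 => h4 (e1.1 h5))]

private theorem wdp (hb : B6 K a s) (hS : algebraMap (𝓞 K) K S = s) (hτ : τ S = -S)
    {p : ℕ} (hp : p.Prime) (hp8 : p % 8 = 7) (hpa : p ∣ a)
    {b c : Ideal (𝓞 K)} (hb0 : b ≠ 0) (hc0 : c ≠ 0) (hbp : ¬ p ∣ Ideal.absNorm b)
    (hcp : ¬ p ∣ Ideal.absNorm c) (h : cls b = cls c) :
    jacobiSym (Ideal.absNorm b) p = jacobiSym (Ideal.absNorm c) p := by
  obtain ⟨h1, h2⟩ := cls_cj hb hS hτ hc0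
  obtain ⟨γ, hγ0, hγ⟩ := prin_of_cls (mul_ne_zero hb0 h1)
    (by rw [cls_mul hb0 h1, h2, h, mul_inv_cancel])
  obtain ⟨x, y, hxy⟩ := coords6 hb γ
  have h3 := norm_lin6 hb hxy
  rw [← hγ, map_mul, (norm_cj6 hb hS hτ c).1] at h3
  have hp2 : p ≠ 2 := by omega
  have h4 : jacobiSym ((Ideal.absNorm b * Ideal.absNorm c : ℕ) : ℤ) p = 1 := by
    refine num_desc hp hp2 (a := a) hpa hb.sf (M := 1) (x := x) (y := y)
      one_ne_zero ?_ ?_
    · intro h5
      rcases (Nat.Prime.dvd_mul hp).1 h5 with h6 | h6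
      · exact hbp h6
      · exact hcp h6
    · rw [h3]
      push_cast
      ring
  rw [Nat.cast_mul, jacobiSym.mul_left] at h4
  rcases J_pm hp hbp with h5 | h5 <;> rcases J_pm hp hcp with h6 | h6 <;> rw [h5, h6] at h4 ⊢
  · norm_num at h4
  · norm_num at h4

private theorem genus_hom {p : ℕ} (hp : p.Prime) (hp8 : p % 8 = 7) (hpa : p ∣ a)
    (ha : a % 16 = 14)
    (hb : B6 K a s) (hS : algebraMap (𝓞 K) K S = s) (hτ : τ S = -S) :
    ∃ φ : ClassGroup (𝓞 K) →* ℤ × ℤ,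
      (∀ b : Ideal (𝓞 K), OddI b → (φ (cls b)).1 = e8 (Ideal.absNorm b)) ∧
      (∀ b : Ideal (𝓞 K), b ≠ 0 → ¬ p ∣ Ideal.absNorm b →
        (φ (cls b)).2 = jacobiSym (Ideal.absNorm b) p) ∧
      (∀ C, ((φ C).1 = 1 ∨ (φ C).1 = -1) ∧ ((φ C).2 = 1 ∨ (φ C).2 = -1)) ∧
      φ (cls (r6 S 2)) = 1 := by
  have hM : 2 * p ≠ 0 := mul_ne_zero two_ne_zero hp.ne_zero
  choose r hr0 hrc hrC using fun C : ClassGroup (𝓞 K) => exists_cop (K := K) C hM
  have hr2 : ∀ C, OddI (r C) := by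
    intro C
    have h1 : Nat.Coprime (Ideal.absNorm (r C)) 2 := Nat.Coprime.coprime_dvd_right ⟨p, rfl⟩ (hrc C)
    exact Nat.coprime_two_right.1 h1
  have hrp : ∀ C, ¬ p ∣ Ideal.absNorm (r C) := by
    intro C h2
    have h1 : Nat.Coprime (Ideal.absNorm (r C)) p :=
      Nat.Coprime.coprime_dvd_right ⟨2, by ring⟩ (hrc C)
    exact hp.one_lt.ne' ((Nat.gcd_eq_right h2).symm.trans h1)
  have k1 : ∀ b : Ideal (𝓞 K), OddI b → e8 (Ideal.absNorm (r (cls b)) : ℤ) =
      e8 (Ideal.absNorm b : ℤ) := fun b hb1 => wd8 hb hS hτ ha (hr2 _) hb1 (Or.inl (hrC _))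
  have k2 : ∀ b : Ideal (𝓞 K), b ≠ 0 → ¬ p ∣ Ideal.absNorm b →
      jacobiSym (Ideal.absNorm (r (cls b))) p = jacobiSym (Ideal.absNorm b) p :=
    fun b hb1 hb2 => wdp hb hS hτ hp hp8 hpa (hr0 _) hb1 (hrp _) hb2 (hrC _)
  have hmul : ∀ C D, OddI (r C * r D) := by
    intro C D
    unfold OddI
    rw [map_mul]
    exact Odd.mul (show Odd (Ideal.absNorm (r C)) from hr2 C) (show Odd (Ideal.absNorm (r D)) from hr2 D)
  have hmp : ∀ C D, ¬ p ∣ Ideal.absNorm (r C * r D) := by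
    intro C D h
    rw [map_mul] at h
    rcases (Nat.Prime.dvd_mul hp).1 h with h6 | h6
    · exact hrp C h6
    · exact hrp D h6
  have hcl : ∀ C D, cls (r C * r D) = C * D := fun C D => by
    rw [cls_mul (hr0 C) (hr0 D), hrC, hrC]
  have hone : OddI (1 : Ideal (𝓞 K)) := by unfold OddI; rw [map_one]; exact odd_one
  refine ⟨⟨⟨fun C => (e8 (Ideal.absNorm (r C)), jacobiSym (Ideal.absNorm (r C)) p), ?_⟩, ?_⟩,
    k1, k2, ?_, ?_⟩
  · have h1 := k1 1 hone
    have h2 := k2 1 one_ne_zero (by rw [map_one]; exact hp.one_lt.ne' ∘ Nat.dvd_one.1)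
    rw [cls_one, map_one] at h1 h2
    rw [h1, h2]
    rw [Nat.cast_one, jacobiSym.one_left]
    rfl
  · intro C D
    have h1 := k1 _ (hmul C D)
    have h2 := k2 _ (mul_ne_zero (hr0 C) (hr0 D)) (hmp C D)
    rw [hcl, map_mul, Nat.cast_mul] at h1 h2
    rw [e8_mul' (by exact_mod_cast hr2 C) (by exact_mod_cast hr2 D)] at h1
    rw [jacobiSym.mul_left] at h2
    exact Prod.ext h1 h2
  · intro C
    exact ⟨e8_pm _, J_pm hp (hrp C)⟩
  · have h1 : e8 (Ideal.absNorm (r (cls (r6 S 2))) : ℤ) =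
        e8 (Ideal.absNorm (1 : Ideal (𝓞 K)) : ℤ) :=
      wd8 hb hS hτ ha (hr2 _) hone (Or.inr (by rw [hrC, cls_one, mul_one]))
    have h2 : jacobiSym (Ideal.absNorm (r (cls (r6 S 2)))) p = 1 :=
      chi_sq hb hS hτ hp (Or.inr hp8) hpa (hr0 _) (hrp _) (C := 1)
        (Or.inr (by rw [hrC, mul_one, mul_one]))
    apply Prod.ext
    · refine h1.trans ?_
      rw [map_one]
      rfl
    · exact h2

theorem genus_cg (hb : B6 K a s) (hS : algebraMap (𝓞 K) K S = s) (hτ : τ S = -S)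
    (ha : a % 16 = 14) {l : ℕ} (hl : l.Prime) (hl8 : l % 8 = 7) (hla : l ∣ a)
    {e0 e1 : CG S} (h4 : ∀ g : CG S, g * g = 1 → g = 1 ∨ g = e0 ∨ g = e1 ∨ g = e0 * e1)
    {b3 b1 b : Ideal (𝓞 K)} (hb3 : Ideal.absNorm b3 % 8 = 3) (hb1 : Ideal.absNorm b1 % 8 = 7)
    (hj1 : jacobiSym (Ideal.absNorm b1) l = -1)
    (hN : Ideal.absNorm b % 8 = 1 ∨ Ideal.absNorm b % 8 = 7)
    (hj : jacobiSym (Ideal.absNorm b) l = 1) :
    ∃ C : ClassGroup (𝓞 K), cls b = C * C ∨ cls b = cls (r6 S 2) * (C * C) := by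
  obtain ⟨φ, φ1, φ2, φ3, φt⟩ := genus_hom hl hl8 hla ha hb hS hτ
  have ht : cls (r6 S 2) * cls (r6 S 2) = 1 := (cls_two hb hS).1
  -- the class of `b` is in the kernel
  have hbodd : OddI b := by
    unfold OddI
    rw [Nat.odd_iff]
    omega
  have hb0 : b ≠ 0 := by
    rintro rfl
    rw [map_zero] at hN
    omega
  have hbk : φ (cls b) = 1 := by
    apply Prod.ext
    · rw [φ1 b hbodd]
      show e8 _ = 1
      unfold e8
      rw [if_pos]
      omega
    · rw [φ2 b hb0 (J_ne hl (by rw [hj]; exact one_ne_zero)), hj]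
      rfl
  let ψ : CG S →* ℤ × ℤ := QuotientGroup.lift (Subgroup.zpowers (cls (r6 S 2))) φ (by
    intro x hx
    obtain ⟨k, rfl⟩ := Subgroup.mem_zpowers_iff.1 hx
    rcases Int.even_or_odd' k with ⟨j, rfl | rfl⟩
    · rw [zpow_mul, zpow_two, ht, one_zpow]
      exact one_mem _
    · rw [zpow_add, zpow_mul, zpow_two, ht, one_zpow, one_mul, zpow_one]
      exact φt)
  have hψ : ∀ C : ClassGroup (𝓞 K), ψ (QuotientGroup.mk C) = φ C := fun C => rfl
  -- the squares
  let sqh : CG S →* CG S := powMonoidHom 2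
  have hQ : sqh.range ≤ ψ.ker := by
    rintro _ ⟨C, rfl⟩
    obtain ⟨C, rfl⟩ := QuotientGroup.mk_surjective C
    rw [MonoidHom.mem_ker]
    show ψ (QuotientGroup.mk C ^ 2) = 1
    rw [map_pow, hψ]
    obtain ⟨h1, h2⟩ := φ3 C
    apply Prod.ext
    · rw [Prod.pow_fst]
      rcases h1 with h | h <;> rw [h] <;> norm_num
    · rw [Prod.pow_snd]
      rcases h2 with h | h <;> rw [h] <;> norm_num
  -- the kernel of the squaring
  have hfin : Finite (CG S) := inferInstance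
  have hk4 : Nat.card sqh.ker ≤ 4 := by
    have h1 : (sqh.ker : Set (CG S)) ⊆ ({1, e0, e1, e0 * e1} : Finset (CG S)) := by
      intro C hC
      have hC' : C * C = 1 := by
        have := MonoidHom.mem_ker.1 hC
        rw [← pow_two]
        exact this
      have := h4 C hC'
      simpa using this
    have h2 : Nat.card sqh.ker ≤ Finset.card ({1, e0, e1, e0 * e1} : Finset (CG S)) := by
      have h3 := Set.ncard_le_ncard h1 (Finset.finite_toSet _)
      rw [Set.ncard_coe_finset] at h3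
      exact h3
    exact h2.trans Finset.card_le_four
  have hG1 : Nat.card (CG S) = Nat.card sqh.ker * Nat.card sqh.range := by
    rw [← Subgroup.index_ker]
    exact (Subgroup.card_mul_index _).symm
  -- the index of the kernel of `ψ`
  have hφ3 : (φ (cls b3)).1 = -1 := by
    rw [φ1 b3 (by unfold OddI; rw [Nat.odd_iff]; omega)]
    unfold e8
    rw [if_neg]
    omega
  have hφ11 : (φ (cls b1)).1 = 1 := by
    rw [φ1 b1 (by unfold OddI; rw [Nat.odd_iff]; omega)]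
    unfold e8
    rw [if_pos]
    omega
  have hφ12 : (φ (cls b1)).2 = -1 := by
    rw [φ2 b1 (by rintro rfl; rw [map_zero] at hb1; omega)
      (J_ne hl (by rw [hj1]; norm_num)), hj1]
  have ψ3 : ∀ g : CG S, ((ψ g).1 = 1 ∨ (ψ g).1 = -1) ∧ ((ψ g).2 = 1 ∨ (ψ g).2 = -1) := by
    intro g
    obtain ⟨C, rfl⟩ := QuotientGroup.mk_surjective g
    rw [hψ]
    exact φ3 C
  set g3 : CG S := QuotientGroup.mk (cls b3) with hg3
  set g1 : CG S := QuotientGroup.mk (cls b1) with hg1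
  have hψ3 : (ψ g3).1 = -1 := hφ3
  have hψ11 : (ψ g1).1 = 1 := hφ11
  have hψ12 : (ψ g1).2 = -1 := hφ12
  let f : Bool × Bool × ψ.ker → CG S := fun x =>
    (if x.1 then g3 else 1) * (if x.2.1 then g1 else 1) * x.2.2
  have hf : Function.Injective f := by
    rintro ⟨x, y, t⟩ ⟨x', y', t'⟩ h
    have h' : (if x then g3 else 1) * (if y then g1 else 1) * (t : CG S) =
      (if x' then g3 else 1) * (if y' then g1 else 1) * (t' : CG S) := h
    have h1 := congrArg ψ h'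
    rw [map_mul, map_mul, map_mul, map_mul, MonoidHom.mem_ker.1 t.2, MonoidHom.mem_ker.1 t'.2,
      mul_one, mul_one] at h1
    have h2 := congrArg Prod.fst h1
    have h3 := congrArg Prod.snd h1
    rw [Prod.fst_mul, Prod.fst_mul] at h2
    rw [Prod.snd_mul, Prod.snd_mul] at h3
    have hxx : x = x' := by
      clear h h' h1 h3 hG1 hk4 hQ
      have e1 : (ψ 1).1 = 1 := by rw [map_one]; rfl
      have e2 : ∀ y : Bool, (ψ (if y then g1 else 1)).1 = 1 := by
        intro y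
        cases y
        · rw [if_neg Bool.false_ne_true]; exact e1
        · rw [if_pos rfl]; exact hψ11
      rw [e2, e2, mul_one, mul_one] at h2
      cases x <;> cases x'
      · rfl
      · rw [if_neg Bool.false_ne_true, if_pos rfl, e1, hψ3] at h2
        norm_num at h2
      · rw [if_neg Bool.false_ne_true, if_pos rfl, e1, hψ3] at h2
        norm_num at h2
      · rfl
    subst hxx
    have hyy : y = y' := by
      clear h h' h1 h2 hG1 hk4 hQ
      have e1 : (ψ 1).2 = 1 := by rw [map_one]; rfl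
      have e2 : (ψ (if x then g3 else 1)).2 ≠ 0 := by
        rcases (ψ3 (if x then g3 else 1)).2 with h4 | h4 <;> rw [h4] <;> norm_num
      have h4 := mul_left_cancel₀ e2 h3
      cases y <;> cases y'
      · rfl
      · rw [if_neg Bool.false_ne_true, if_pos rfl, e1, hψ12] at h4
        norm_num at h4
      · rw [if_neg Bool.false_ne_true, if_pos rfl, e1, hψ12] at h4
        norm_num at h4
      · rfl
    subst hyy
    have h5 : (t : CG S) = t' := mul_left_cancel h'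
    rw [Subtype.ext h5]
  have hG2 : 4 * Nat.card ψ.ker ≤ Nat.card (CG S) := by
    have h1 := Nat.card_le_card_of_injective f hf
    rw [Nat.card_prod, Nat.card_prod, Nat.card_eq_fintype_card (α := Bool), Fintype.card_bool] at h1
    omega
  have hle : Nat.card ψ.ker ≤ Nat.card sqh.range := by
    have h1 : Nat.card sqh.ker * Nat.card sqh.range ≤ 4 * Nat.card sqh.range :=
      Nat.mul_le_mul_right _ hk4
    omega
  have heq : sqh.range = ψ.ker := Subgroup.eq_of_le_of_card_ge hQ hle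
  have hbk' : (QuotientGroup.mk (cls b) : CG S) ∈ ψ.ker := by
    rw [MonoidHom.mem_ker, hψ]
    exact hbk
  rw [← heq] at hbk'
  obtain ⟨g, hg⟩ := hbk'
  obtain ⟨C, rfl⟩ := QuotientGroup.mk_surjective g
  refine ⟨C, ?_⟩
  have hg' : (QuotientGroup.mk (C * C) : CG S) = QuotientGroup.mk (cls b) := by
    rw [← hg]
    show _ = (QuotientGroup.mk C : CG S) ^ 2
    rw [pow_two]
    rfl
  rw [QuotientGroup.eq] at hg'
  obtain ⟨k, hk⟩ := Subgroup.mem_zpowers_iff.1 hg'
  have hcb : cls b = (C * C) * cls (r6 S 2) ^ k := by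
    rw [hk, mul_inv_cancel_left]
  rcases Int.even_or_odd' k with ⟨j, rfl | rfl⟩
  · left
    rw [hcb, zpow_mul, zpow_two, ht, one_zpow, mul_one]
  · right
    rw [hcb, zpow_add, zpow_mul, zpow_two, ht, one_zpow, one_mul, zpow_one, mul_comm]

end Pool.Agent.Work.MP_8efaaa_nt.W14
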