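import Mathlib
import Pool.Agent.Work.MP_8efaaa_nt.W14.CHi
import Pool.Agent.Work.MP_8efaaa_nt.W14.CHf
import Pool.Agent.Work.MP_8efaaa_nt.W14.CCh

/-!
# W14/TGr (M): the group data for `a = 2 r1 r2 l`

`a = 2 r1 r2 l`, `r1 r2 = 1 (mod 8)`, `l = 7 (mod 8)`: `a = 14 (mod 16)`. `t = cls (r6 S 2)`, `c1 = cls (r6 S r1)`, `c2 = cls (r6 S r2)`, `cl = cls (r6 S l)`; all squares are `1` (`r6_sq`), `t c1 c2 cl = 1` (`r6_mul`, `r6_all`).
`z1 = r6 S r1` if `r1 = 3 (mod 8)`, `(1 + S) r6 S r1` if `r1 = 5 (mod 8)` (norm `7 * 5 = 3 (mod 8)`); in both cases norm `3 (mod 8)`, `cls z1 = c1`; this is also the ideal of norm `3 (mod 8)` for `exists_H`. `clM z1 ∉ H`. `z0 = (1 + S) r6 S l`: norm `7 * 7 = 1 (mod 8)`, `cls z0 = cl`, `clM z0 ∈ H`.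
`nonprin` : for `d ∣ a`, `1 < d < a`: `cls (r6 S d) ≠ 1` (as in CNp: norm `d = x^2 + a y^2` forces `y = 0`, `d = x^2`, `d` squarefree). `clM z0 ≠ 1`: `cl ≠ 1`, `cl ≠ t` (`cl t = cls (r6 S (2 l)) ≠ 1`, `1 < 2 l < a`).
`t` is not a square: if `t = C * C`: there is an odd ideal `b` with `cls b = t`, `N b` prime to `2 r1` (`exists_cop`). `C = cls c`, `c` with norm prime to `2 r1`: `b (cj τ c)^2` has class `1`: `N b (N c)^2 = x^2 + a y^2`, `num_desc` for `r1`: `jacobiSym (N b) r1 = 1`. `b * r6 S 2` has class `1`: `2 N b = x^2 + a y^2`, `jacobiSym (2 N b) r1 = 1`, so `jacobiSym 2 r1 = 1`,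
but `r1 = 3` or `5 (mod 8)`: contradiction.
hG: `g = clM c`. `g * g = 1`: `cls c * cls c ∈ {1, t}` (`clM_eq`), not `t`, so `cls c` has square `1`: `cls c = cls (r6 S d)`, `d ∣ a` (`hil6`), a product of some of `t, c1, c2, cl` (`r6_mul`; the 16 divisors), and `c2 = t c1 cl`: `cls c ∈ {1, c1, cl, c1 cl} * {1, t}`. So `g ∈ {1, clM z1, clM z0, clM z0 * clM z1}`. Conversely all these have square `1`.
-/

set_option autoImplicit false

namespace Pool.Agent.Work.MP_8efaaa_nt.W14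

open NumberField Pool.Agent.Work.MP_8efaaa_nt.R Pool.Agent.Work.MP_8efaaa_nt.N5
  Pool.Agent.Work.MP_8efaaa_nt.K6
open scoped Classical nonZeroDivisors

variable {K : Type*} [Field K] [NumberField K] {a : ℕ} {s : K} {S : 𝓞 K} {τ : 𝓞 K ≃+* 𝓞 K}


private theorem nonprin (hb : B6 K a s) (hS : algebraMap (𝓞 K) K S = s) {d : ℕ} (hd : d ∣ a)
    (h1 : 1 < d) (h2 : d < a) : cls (r6 S d) ≠ 1 := by
  intro h
  obtain ⟨γ, -, hγ⟩ := prin_of_cls (r6_ne hb hS hd) h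
  obtain ⟨x, y, hxy⟩ := coords6 hb γ
  have h3 := norm_lin6 hb hxy
  rw [← hγ, norm_r6 hb hS hd] at h3
  have h4 : y = 0 := by
    by_contra hy
    have h5 : 1 ≤ y ^ 2 := by
      have := sq_nonneg y
      have h6 : y ^ 2 ≠ 0 := pow_ne_zero 2 hy
      omega
    have h7 : (d : ℤ) < a := by exact_mod_cast h2
    nlinarith [sq_nonneg x]
  rw [h4] at h3
  have h5 : d = x.natAbs * x.natAbs := by
    have h6 : ((x.natAbs * x.natAbs : ℕ) : ℤ) = x ^ 2 := by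
      push_cast
      rw [← pow_two, sq_abs]
    have h7 : (d : ℤ) = ((x.natAbs * x.natAbs : ℕ) : ℤ) := by
      rw [h6, h3]
      ring
    exact_mod_cast h7
  have h6 : IsUnit x.natAbs := hb.sf _ (h5 ▸ hd)
  rw [Nat.isUnit_iff] at h6
  rw [h6] at h5
  omega

private theorem S_ne (hb : B6 K a s) (hS : algebraMap (𝓞 K) K S = s) : S ≠ 0 := by
  rintro rfl
  rw [map_zero] at hS
  have h := hb.sq
  rw [← hS] at h
  have h1 : (a : K) = 0 := by linear_combination h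
  exact hb.sf.ne_zero (by exact_mod_cast h1)

private theorem csq (hb : B6 K a s) (hS : algebraMap (𝓞 K) K S = s) {d : ℕ} (hd : d ∣ a) :
    cls (r6 S d) * cls (r6 S d) = 1 := by
  have h := r6_ne hb hS hd
  rw [← cls_mul h h, r6_sq hb hS hd]
  apply cls_span
  have h1 : d ≠ 0 := by
    rintro rfl
    exact hb.sf.ne_zero (Nat.eq_zero_of_zero_dvd hd)
  exact_mod_cast h1

private theorem cmul (hb : B6 K a s) (hS : algebraMap (𝓞 K) K S = s) {d e : ℕ} (hd : d * e ∣ a) :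
    cls (r6 S (d * e)) = cls (r6 S d) * cls (r6 S e) := by
  rw [r6_mul hb hS hd, cls_mul (r6_ne hb hS (dvd_of_mul_right_dvd hd))
    (r6_ne hb hS (dvd_of_mul_left_dvd hd))]

private theorem call (hb : B6 K a s) (hS : algebraMap (𝓞 K) K S = s) : cls (r6 S a) = 1 := by
  rw [r6_all hb hS]
  exact cls_span (S_ne hb hS)

private theorem cone (hb : B6 K a s) (hS : algebraMap (𝓞 K) K S = s) : cls (r6 S 1) = 1 := by
  have h := csq hb hS (one_dvd a)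
  have h1 := cmul hb hS (d := 1) (e := 1) (by rw [mul_one]; exact one_dvd a)
  rw [mul_one, h] at h1
  exact h1


/-- the classes: all the relations -/
private theorem rel3 {r1 r2 l : ℕ} (hb : B6 K (2 * r1 * r2 * l) s)
    (hS : algebraMap (𝓞 K) K S = s) :
    cls (r6 S 2) * cls (r6 S 2) = 1 ∧ cls (r6 S r1) * cls (r6 S r1) = 1 ∧
    cls (r6 S r2) * cls (r6 S r2) = 1 ∧ cls (r6 S l) * cls (r6 S l) = 1 ∧
    cls (r6 S 2) * cls (r6 S r1) * cls (r6 S r2) * cls (r6 S l) = 1 := by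
  have d2 : 2 ∣ 2 * r1 * r2 * l := ⟨r1 * r2 * l, by ring⟩
  have d1 : r1 ∣ 2 * r1 * r2 * l := ⟨2 * r2 * l, by ring⟩
  have d3 : r2 ∣ 2 * r1 * r2 * l := ⟨2 * r1 * l, by ring⟩
  have dl : l ∣ 2 * r1 * r2 * l := ⟨2 * r1 * r2, by ring⟩
  refine ⟨csq hb hS d2, csq hb hS d1, csq hb hS d3, csq hb hS dl, ?_⟩
  have e0 := call hb hS
  rw [cmul hb hS (d := 2 * r1 * r2) (e := l) dvd_rfl,
    cmul hb hS (d := 2 * r1) (e := r2) ⟨l, by ring⟩,
    cmul hb hS (d := 2) (e := r1) ⟨r2 * l, by ring⟩] at e0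
  exact e0

private theorem abs16 {G : Type*} [CommGroup G] {t c1 cl u v x z : G} (e2 : t * t = 1)
    (e1 : c1 * c1 = 1) (el : cl * cl = 1) (hu : u = 1 ∨ u = t) (hv : v = 1 ∨ v = c1)
    (hx : x = 1 ∨ x = t * c1 * cl) (hz : z = 1 ∨ z = cl) :
    u * v * x * z = 1 ∨ u * v * x * z = t ∨ u * v * x * z = cl ∨ u * v * x * z = t * cl ∨
    u * v * x * z = c1 ∨ u * v * x * z = t * c1 ∨
    u * v * x * z = cl * c1 ∨ u * v * x * z = t * (cl * c1) := by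
  have T2 : ∀ y, t * (t * y) = y := fun y => by rw [← mul_assoc, e2, one_mul]
  have T1 : ∀ y, c1 * (c1 * y) = y := fun y => by rw [← mul_assoc, e1, one_mul]
  have Tl : ∀ y, cl * (cl * y) = y := fun y => by rw [← mul_assoc, el, one_mul]
  rcases hu with hu | hu <;> rcases hv with hv | hv <;> rcases hx with hx | hx <;>
    rcases hz with hz | hz <;> rw [hu, hv, hx, hz] <;>
    simp only [one_mul, mul_one, mul_assoc, mul_comm, mul_left_comm, e2, e1, el, T2, T1, Tl,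
      true_or, or_true]

/-- the classes of order two -/
private theorem two3 {r1 r2 l : ℕ} (h1 : r1.Prime) (h2 : r2.Prime) (hl : l.Prime)
    (hb : B6 K (2 * r1 * r2 * l) s) (hS : algebraMap (𝓞 K) K S = s)
    (hτ : τ S = -S) {C : ClassGroup (𝓞 K)} (hC : C * C = 1) :
    C = 1 ∨ C = cls (r6 S 2) ∨ C = cls (r6 S l) ∨ C = cls (r6 S 2) * cls (r6 S l) ∨
    C = cls (r6 S r1) ∨ C = cls (r6 S 2) * cls (r6 S r1) ∨
    C = cls (r6 S l) * cls (r6 S r1) ∨ C = cls (r6 S 2) * (cls (r6 S l) * cls (r6 S r1)) := by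
  obtain ⟨e2, e1, e3, el, e0⟩ := rel3 hb hS
  have ec2 : cls (r6 S r2) = cls (r6 S 2) * cls (r6 S r1) * cls (r6 S l) := by
    calc cls (r6 S r2) = (cls (r6 S 2) * cls (r6 S 2)) * (cls (r6 S r1) * cls (r6 S r1)) *
          cls (r6 S r2) * (cls (r6 S l) * cls (r6 S l)) := by
          rw [e2, e1, el, one_mul, one_mul, mul_one]
      _ = (cls (r6 S 2) * cls (r6 S r1) * cls (r6 S r2) * cls (r6 S l)) *
          (cls (r6 S 2) * cls (r6 S r1) * cls (r6 S l)) := by ac_rfl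
      _ = _ := by rw [e0, one_mul]
  obtain ⟨d, hd, rfl⟩ := hil6 hb hS hτ hC
  obtain ⟨y, z, hy, hz, rfl⟩ := (Nat.dvd_mul).1 hd
  obtain ⟨y', x, hy', hx, rfl⟩ := (Nat.dvd_mul).1 hy
  obtain ⟨u, v, hu, hv, rfl⟩ := (Nat.dvd_mul).1 hy'
  have hu1 := (Nat.dvd_prime Nat.prime_two).1 hu
  have hv1 := (Nat.dvd_prime h1).1 hv
  have hx1 := (Nat.dvd_prime h2).1 hx
  have hz1 := (Nat.dvd_prime hl).1 hz
  have hdd : u * v * x ∣ 2 * r1 * r2 * l := (dvd_mul_right _ _).trans hd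
  have hddd : u * v ∣ 2 * r1 * r2 * l := (dvd_mul_right _ _).trans hdd
  rw [cmul hb hS hd, cmul hb hS hdd, cmul hb hS hddd]
  have eo := cone hb hS
  refine abs16 e2 e1 el ?_ ?_ ?_ ?_
  · rcases hu1 with rfl | rfl
    · exact Or.inl eo
    · exact Or.inr rfl
  · rcases hv1 with rfl | rfl
    · exact Or.inl eo
    · exact Or.inr rfl
  · rcases hx1 with rfl | rfl
    · exact Or.inl eo
    · exact Or.inr ec2
  · rcases hz1 with rfl | rfl
    · exact Or.inl eo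
    · exact Or.inr rfl

theorem exists_grp3 {r1 r2 l : ℕ} (h1 : r1.Prime) (h2 : r2.Prime) (hl : l.Prime)
    (h12 : r1 ≠ r2) (h8 : (r1 % 8 = 3 ∧ r2 % 8 = 3) ∨ (r1 % 8 = 5 ∧ r2 % 8 = 5))
    (hl8 : l % 8 = 7) (hb : B6 K (2 * r1 * r2 * l) s) (hS : algebraMap (𝓞 K) K S = s)
    (hτ : τ S = -S) :
    ∃ (H : Subgroup (CG S)) (z0 z1 : M13 K), H.index = 2 ∧
      (∀ c : M13 K, clM S c ∈ H ↔ Ideal.absNorm (c : Ideal (𝓞 K)) % 8 = 1) ∧
      (z0 : Ideal (𝓞 K)) = Ideal.span {1 + S} * r6 S l ∧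
      (z1 : Ideal (𝓞 K)) = (if r1 % 8 = 3 then r6 S r1 else Ideal.span {1 + S} * r6 S r1) ∧
      clM S z0 ∈ H ∧ clM S z0 ≠ 1 ∧ clM S z1 ∉ H ∧
      ∀ g : CG S, g * g = 1 ↔ g = 1 ∨ g = clM S z0 ∨ g = clM S z1 ∨
        g = clM S z0 * clM S z1 := by
  have d2 : 2 ∣ 2 * r1 * r2 * l := ⟨r1 * r2 * l, by ring⟩
  have d1 : r1 ∣ 2 * r1 * r2 * l := ⟨2 * r2 * l, by ring⟩
  have dl : l ∣ 2 * r1 * r2 * l := ⟨2 * r1 * r2, by ring⟩
  have d2l : 2 * l ∣ 2 * r1 * r2 * l := ⟨r1 * r2, by ring⟩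
  have hr12 : (r1 * r2) % 8 = 1 := by
    rw [Nat.mul_mod]
    rcases h8 with ⟨h3, h4⟩ | ⟨h3, h4⟩ <;> rw [h3, h4]
  have h7 : (r1 * r2 * l) % 8 = 7 := by rw [Nat.mul_mod, hr12, hl8]
  have ha : (2 * r1 * r2 * l) % 16 = 14 := by
    have h9 : 2 * r1 * r2 * l = 2 * (r1 * r2 * l) := by ring
    rw [h9]
    omega
  have hg := norm_g hb hS
  have hg8 : (1 + 2 * r1 * r2 * l) % 8 = 7 := by omega
  have hne : (1 + S : 𝓞 K) ≠ 0 := by
    intro h0
    rw [h0] at hg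
    simp at hg
    omega
  have hne2 : Ideal.span {(1 + S : 𝓞 K)} ≠ (0 : Ideal (𝓞 K)) := by
    intro h3
    exact hne (Ideal.span_singleton_eq_bot.1 h3)
  obtain ⟨e2, e1, e3, el, e0⟩ := rel3 hb hS
  have hr2' := r6_ne hb hS d2
  -- the two ideals
  obtain ⟨Z1, hZ1⟩ : ∃ Z1 : Ideal (𝓞 K), Z1 =
      (if r1 % 8 = 3 then r6 S r1 else Ideal.span {1 + S} * r6 S r1) := ⟨_, rfl⟩
  obtain ⟨Z0, hZ0⟩ : ∃ Z0 : Ideal (𝓞 K), Z0 = Ideal.span {1 + S} * r6 S l := ⟨_, rfl⟩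
  have hN1 : Ideal.absNorm Z1 % 8 = 3 := by
    rw [hZ1]
    split_ifs with h
    · rw [norm_r6 hb hS d1]
      exact h
    · have h5 : r1 % 8 = 5 := by
        rcases h8 with ⟨h3, -⟩ | ⟨h3, -⟩
        · exact absurd h3 h
        · exact h3
      rw [map_mul, norm_r6 hb hS d1, hg, Nat.mul_mod, hg8, h5]
  have hN0 : Ideal.absNorm Z0 % 8 = 1 := by
    rw [hZ0, map_mul, norm_r6 hb hS dl, hg, Nat.mul_mod, hg8, hl8]
  have hc1 : cls Z1 = cls (r6 S r1) := by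
    rw [hZ1]
    split_ifs
    · rfl
    · rw [cls_mul hne2 (r6_ne hb hS d1), cls_span hne, one_mul]
  have hc0 : cls Z0 = cls (r6 S l) := by
    rw [hZ0, cls_mul hne2 (r6_ne hb hS dl), cls_span hne, one_mul]
  obtain ⟨H, hidx, hH⟩ := exists_H hb hS hτ ha hN1
  obtain ⟨z0, hz0⟩ : ∃ z0 : M13 K, (z0 : Ideal (𝓞 K)) = Z0 := ⟨⟨Z0, Or.inl hN0⟩, rfl⟩
  obtain ⟨z1, hz1⟩ : ∃ z1 : M13 K, (z1 : Ideal (𝓞 K)) = Z1 := ⟨⟨Z1, Or.inr hN1⟩, rfl⟩
  have hcz0 : cls (z0 : Ideal (𝓞 K)) = cls (r6 S l) := by rw [hz0, hc0]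
  have hcz1 : cls (z1 : Ideal (𝓞 K)) = cls (r6 S r1) := by rw [hz1, hc1]
  have hcc : ∀ b c : M13 K, cls ((b * c : M13 K) : Ideal (𝓞 K)) =
      cls (b : Ideal (𝓞 K)) * cls (c : Ideal (𝓞 K)) := fun b c => by
    rw [Submonoid.coe_mul, cls_mul (M13.ne b.2) (M13.ne c.2)]
  have hone : cls ((1 : M13 K) : Ideal (𝓞 K)) = 1 := cls_one
  have sq1 : ∀ c : M13 K, cls (c : Ideal (𝓞 K)) * cls (c : Ideal (𝓞 K)) = 1 →
      clM S c * clM S c = 1 := by
    intro c hc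
    rw [← map_mul, ← map_one (clM S), clM_eq hb hS]
    left
    rw [hcc, hone, hc]
  -- the class of the ideal above `2` is not a square
  have hnsq : ∀ c : M13 K, cls (c : Ideal (𝓞 K)) * cls (c : Ideal (𝓞 K)) ≠ cls (r6 S 2) := by
    intro c hc
    obtain ⟨b, hb0, hbc, hbt⟩ := exists_cop (cls (r6 S 2)) (M := 2 * r1)
      (mul_ne_zero two_ne_zero h1.ne_zero)
    have hb1 : ¬ r1 ∣ Ideal.absNorm b := by
      intro h3
      have h4 : Nat.Coprime (Ideal.absNorm b) r1 := Nat.Coprime.coprime_dvd_right ⟨2, by ring⟩ hbc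
      exact h1.one_lt.ne' ((Nat.gcd_eq_right h3).symm.trans h4)
    have hr12' : r1 ≠ 2 := by
      rintro rfl
      omega
    obtain ⟨hcj0, hcj⟩ := cls_cj hb hS hτ (M13.ne c.2)
    have hNc : Ideal.absNorm (c : Ideal (𝓞 K)) ≠ 0 :=
      fun h0 => M13.ne c.2 (Ideal.absNorm_eq_zero_iff.1 h0)
    have hcc0 : cj τ (c : Ideal (𝓞 K)) * cj τ (c : Ideal (𝓞 K)) ≠ 0 := mul_ne_zero hcj0 hcj0
    have hcc' : cls (cj τ (c : Ideal (𝓞 K)) * cj τ (c : Ideal (𝓞 K))) = (cls (r6 S 2))⁻¹ := by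
      rw [cls_mul hcj0 hcj0, hcj, ← mul_inv, hc]
    have hNcc : Ideal.absNorm (cj τ (c : Ideal (𝓞 K)) * cj τ (c : Ideal (𝓞 K))) =
        Ideal.absNorm (c : Ideal (𝓞 K)) ^ 2 := by
      rw [map_mul, (norm_cj6 hb hS hτ _).1, pow_two]
    obtain ⟨γ, -, hγ⟩ := prin_of_cls
      (b := b * (cj τ (c : Ideal (𝓞 K)) * cj τ (c : Ideal (𝓞 K)))) (mul_ne_zero hb0 hcc0)
      (by rw [cls_mul hb0 hcc0, hcc', hbt, mul_inv_cancel])
    obtain ⟨x, y, hxy⟩ := coords6 hb γ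
    have h3 := norm_lin6 hb hxy
    rw [← hγ, map_mul, hNcc] at h3
    have j1 : jacobiSym (Ideal.absNorm b : ℤ) r1 = 1 :=
      num_desc h1 hr12' d1 hb.sf hNc hb1 (by push_cast at h3 ⊢; exact h3)
    obtain ⟨γ', -, hγ'⟩ := prin_of_cls (b := r6 S 2 * b) (mul_ne_zero hr2' hb0)
      (by rw [cls_mul hr2' hb0, hbt, e2])
    obtain ⟨x', y', hxy'⟩ := coords6 hb γ'
    have h4 := norm_lin6 hb hxy'
    rw [← hγ', map_mul, norm_r6 hb hS d2] at h4
    have hn2 : ¬ r1 ∣ 2 * Ideal.absNorm b := by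
      intro h5
      rcases (Nat.Prime.dvd_mul h1).1 h5 with h6 | h6
      · exact hr12' ((Nat.prime_dvd_prime_iff_eq h1 Nat.prime_two).1 h6)
      · exact hb1 h6
    have j2 := num_desc (n := 2 * Ideal.absNorm b) (M := 1) h1 hr12' d1 hb.sf one_ne_zero hn2
      (x := x') (y := y') (by push_cast at h4 ⊢; linarith)
    have hodd : Odd r1 := h1.odd_of_ne_two hr12'
    push_cast at j2
    rw [jacobiSym.mul_left, j1, mul_one, jacobiSym.at_two hodd,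
      ZMod.χ₈_nat_eq_if_mod_eight] at j2
    have h5 : r1 % 2 ≠ 0 := by omega
    have h6 : ¬ (r1 % 8 = 1 ∨ r1 % 8 = 7) := by omega
    rw [if_neg h5, if_neg h6] at j2
    norm_num at j2
  have hl2 : 2 < l := by omega
  have hr1 : 2 ≤ r1 := h1.two_le
  have hr2 : 2 ≤ r2 := h2.two_le
  have hlt : 2 * l < 2 * r1 * r2 * l := by nlinarith [Nat.mul_le_mul hr1 hr2]
  refine ⟨H, z0, z1, hidx, hH, by rw [hz0, hZ0], by rw [hz1, hZ1], ?_, ?_, ?_, ?_⟩
  · rw [hH, hz0]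
    exact hN0
  · intro h
    rw [← map_one (clM S), clM_eq hb hS, hone, hcz0, mul_one] at h
    rcases h with h | h
    · exact nonprin hb hS dl (by omega) (by omega) h
    · refine nonprin hb hS d2l (by omega) hlt ?_
      rw [cmul hb hS d2l, h, e2]
  · rw [hH, hz1]
    omega
  · intro g
    constructor
    · intro hgg
      obtain ⟨c, rfl⟩ := clM_surj hb hS g
      rw [← map_mul, ← map_one (clM S), clM_eq hb hS, hone, hcc, mul_one] at hgg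
      have hcls : cls (c : Ideal (𝓞 K)) * cls (c : Ideal (𝓞 K)) = 1 :=
        hgg.resolve_right (hnsq c)
      rw [← map_one (clM S), ← map_mul, clM_eq hb hS, clM_eq hb hS, clM_eq hb hS, clM_eq hb hS,
        hone, hcc, hcz0, hcz1, mul_one]
      rcases two3 h1 h2 hl hb hS hτ hcls with h | h | h | h | h | h | h | h
      · exact Or.inl (Or.inl h)
      · exact Or.inl (Or.inr h)
      · exact Or.inr (Or.inl (Or.inl h))
      · exact Or.inr (Or.inl (Or.inr h))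
      · exact Or.inr (Or.inr (Or.inl (Or.inl h)))
      · exact Or.inr (Or.inr (Or.inl (Or.inr h)))
      · exact Or.inr (Or.inr (Or.inr (Or.inl h)))
      · exact Or.inr (Or.inr (Or.inr (Or.inr h)))
    · have s0 := sq1 z0 (by rw [hcz0, el])
      have s1 := sq1 z1 (by rw [hcz1, e1])
      rintro (rfl | rfl | rfl | rfl)
      · exact mul_one 1
      · exact s0
      · exact s1
      · rw [mul_mul_mul_comm, s0, s1, mul_one]

end Pool.Agent.Work.MP_8efaaa_nt.W14
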