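import Mathlib
import Pool.Agent.Work.MP_8efaaa_nt.W14.PFd
import Pool.Agent.Work.MP_8efaaa_nt.W14.LPt
import Pool.Agent.Work.MP_8efaaa_nt.W14.LTo
import Pool.Agent.Work.MP_8efaaa_nt.W14.CCh
import Pool.Agent.Work.MP_8efaaa_nt.K6.DIn

/-!
# W14/TPs (M): the relation at a prime `r`, general `a = 14 (mod 16)`

The same proof as `p_side` (W14/DIp, header and file), with `r` for `p`, `l` for `q`: `exists_prime6`, `exists_vl`, `Ep = EV V`, `ev_tors`; `pp_inert` at `r`: `b` with `N b = 7 (mod 8)`, prime to `a`, `jacobiSym l (N b) = 1` (`r ∤ l`), so `jacobiSym (N b) l = -1` (`l`, `N b = 3 (mod 4)`: `jacobiSym.quadratic_reciprocity_three_mod_four`): `b1 = b`.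
`w0 = (1 + S) b`, `N w0 = (1+a) N b = 1 (mod 8)`, `cls w0 = cls b`. Not a square in `CG S`: `clM_eq`, `chi_sq` for `l`. Relation: `FD.tq` with `1 + S` and `b * cj τ c`: `Tp = T + m1`.
-/

set_option autoImplicit false

namespace Pool.Agent.Work.MP_8efaaa_nt.W14

open NumberField Pool.Agent.Work.MP_8efaaa_nt.R Pool.Agent.Work.MP_8efaaa_nt.N5
  Pool.Agent.Work.MP_8efaaa_nt.K6
open scoped Classical nonZeroDivisors

theorem p_side3 {K : Type*} {F : Type*} [Field K] [NumberField K] [Field F] [NumberField F]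
    [Algebra K F] [IsGalois ℚ F] {a r l : ℕ} {s : K} {S : 𝓞 K} {τ : 𝓞 K ≃+* 𝓞 K} {ζ : F}
    {w : ℕ → F} {z k v : Ideal (𝓞 K) → F} {κ : F ≃ₐ[ℚ] F} (hr : r.Prime) (hl : l.Prime)
    (hr2 : r ≠ 2) (hl8 : l % 8 = 7) (hra : r ∣ a) (hla : l ∣ a) (hrl : r ≠ l) (hb : B6 K a s)
    (ha : a % 16 = 14) (hS : algebraMap (𝓞 K) K S = s) (hτ : τ S = -S)
    (hU : UD6 K F a s S τ ζ w z k v κ) :
    (∃ b1 : Ideal (𝓞 K), Ideal.absNorm b1 % 8 = 7 ∧ jacobiSym (Ideal.absNorm b1) l = -1) ∧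
    ∃ (Ep : AddSubgroup (QA F)) (w0 : M13 K) (Tp : QA F),
      (∀ e ∈ Ep, (16 : ℤ) • e = 0 → e = 0) ∧ Ideal.absNorm (w0 : Ideal (𝓞 K)) % 8 = 1 ∧
      (∀ g : CG S, g * g ≠ clM S w0) ∧
      ∀ c ∈ M13 K, PA z k v ((w0 : Ideal (𝓞 K)) * cj τ c) + PA z k v c - Tp -
        d4 F (Ideal.absNorm c) ∈ Ep := by
  have hpq : ¬ r ∣ l := by
    intro h
    rcases (Nat.dvd_prime hl).1 h with h1 | h1
    · exact hr.one_lt.ne' h1
    · exact hrl h1
  have ha6 : a % 8 = 6 := by omega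
  obtain ⟨L, hL, hpL⟩ := exists_prime6 (F := F) hr
  obtain ⟨Γ, iΓ, V, hV⟩ := exists_vl hL
  obtain ⟨b, hb7, hbc, hbj, hbP⟩ := pp_inert hb hS hτ hU hV hr hr2 hra hpL
  have hlb : ¬ l ∣ Ideal.absNorm b := by
    intro h4
    have h5 : Nat.Coprime l l :=
      Nat.Coprime.coprime_dvd_left h4 (Nat.Coprime.coprime_dvd_right hla hbc)
    exact hl.one_lt.ne' ((Nat.coprime_self l).1 h5)
  have hbm : jacobiSym (Ideal.absNorm b) l = -1 := by
    have h7 := hbj l hla hpq
    have h8 := jacobiSym.quadratic_reciprocity_three_mod_four (a := l)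
      (b := Ideal.absNorm b) (by omega) (by omega)
    rw [h7] at h8
    linarith
  refine ⟨⟨b, hb7, hbm⟩, ?_⟩
  have hFD := exists_fd hb hS hU
  have hm1 : m1 F + m1 F = 0 := (qm_ep (F := F)).2.2.2.1
  have hg7 : Ideal.absNorm (Ideal.span {1 + S}) % 8 = 7 := by
    rw [norm_g hb hS]
    omega
  have hw1 : Ideal.absNorm (Ideal.span {1 + S} * b) % 8 = 1 := by
    rw [map_mul, Nat.mul_mod, hg7, hb7]
  have hS0 : (1 + S : 𝓞 K) ≠ 0 := by
    intro h
    have h1 := norm_g hb hS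
    rw [h, Ideal.span_singleton_zero, Ideal.absNorm_bot] at h1
    omega
  have hb0 : b ≠ 0 := by
    rintro rfl
    rw [map_zero] at hb7
    omega
  have hs0 : (Ideal.span {1 + S} : Ideal (𝓞 K)) ≠ 0 := by
    intro h2
    exact hS0 (Ideal.span_singleton_eq_bot.1 h2)
  refine ⟨EV V, ⟨Ideal.span {1 + S} * b, Or.inl hw1⟩,
    PA z k v (Ideal.span {1 + S}) + PA z k v 1 + m1 F, ?_, hw1, ?_, ?_⟩
  · intro e he h
    refine ev_tors he (n := 4) ?_
    have h2 : ((2 : ℤ) ^ 4) = 16 := by norm_num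
    rw [h2]
    exact h
  · intro g hg
    obtain ⟨c, rfl⟩ := clM_surj hb hS g
    rw [← map_mul] at hg
    have h1 := (clM_eq hb hS).1 hg.symm
    have h2 : cls (((⟨Ideal.span {1 + S} * b, Or.inl hw1⟩ : M13 K)) : Ideal (𝓞 K)) = cls b := by
      show cls (Ideal.span {1 + S} * b) = cls b
      rw [cls_mul hs0 hb0, cls_span hS0, one_mul]
    have h3 : cls (((c * c : M13 K)) : Ideal (𝓞 K)) =
        cls (c : Ideal (𝓞 K)) * cls (c : Ideal (𝓞 K)) := by
      show cls ((c : Ideal (𝓞 K)) * (c : Ideal (𝓞 K))) = _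
      rw [cls_mul (M13.ne c.2) (M13.ne c.2)]
    rw [h2, h3] at h1
    have h6 := chi_sq hb hS hτ hl (Or.inr hl8) hla hb0 hlb h1
    rw [hbm] at h6
    norm_num at h6
  · intro c hc
    have hco : OddI c := M13.odd hc
    have hcj : Ideal.absNorm (cj τ c) = Ideal.absNorm c := (norm_cj6 hb hS hτ c).1
    have hn : Ideal.absNorm (b * cj τ c) = Ideal.absNorm b * Ideal.absNorm c := by
      rw [map_mul, hcj]
    have hbo : OddI (b * cj τ c) := by
      have h1 : Odd (Ideal.absNorm c) := hco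
      have h2 : Odd (Ideal.absNorm b) := by
        rw [Nat.odd_iff]
        omega
      show Odd (Ideal.absNorm (b * cj τ c))
      rw [hn]
      exact h2.mul h1
    have h1 := hFD.tq (1 + S) hg7 (b * cj τ c) hbo
    have h2 : d4 F (Ideal.absNorm (b * cj τ c)) = d4 F (Ideal.absNorm c) + m1 F := by
      rw [hn]
      have h3 : Ideal.absNorm b % 4 = 3 := by omega
      have h4 : Ideal.absNorm c % 4 = 1 ∨ Ideal.absNorm c % 4 = 3 := by
        rcases hc with h | h <;> omega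
      unfold d4
      rcases h4 with h4 | h4
      · have h5 : (Ideal.absNorm b * Ideal.absNorm c) % 4 = 3 := by
          rw [Nat.mul_mod, h3, h4]
        rw [if_neg (by omega), if_pos h4, zero_add]
      · have h5 : (Ideal.absNorm b * Ideal.absNorm c) % 4 = 1 := by
          rw [Nat.mul_mod, h3, h4]
        rw [if_pos h5, if_neg (by omega), hm1]
    rw [h2] at h1
    have h3 : PA z k v (b * cj τ c) - PA z k v c ∈ EV V := by
      refine ⟨PP z k v (b * cj τ c) - PP z k v c, hbP c hco, ?_⟩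
      rw [map_sub]
      rfl
    have h4 : ((⟨Ideal.span {1 + S} * b, Or.inl hw1⟩ : M13 K) : Ideal (𝓞 K)) * cj τ c =
        Ideal.span {1 + S} * (b * cj τ c) := mul_assoc _ _ _
    rw [h4]
    have h5 : PA z k v (Ideal.span {1 + S} * (b * cj τ c)) + PA z k v c -
        (PA z k v (Ideal.span {1 + S}) + PA z k v 1 + m1 F) - d4 F (Ideal.absNorm c) =
        -(PA z k v (b * cj τ c) - PA z k v c) := by
      have h6 : PA z k v (Ideal.span {1 + S} * (b * cj τ c)) =
          PA z k v (Ideal.span {1 + S}) + PA z k v 1 + (d4 F (Ideal.absNorm c) + m1 F) -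
            PA z k v (b * cj τ c) := eq_sub_of_add_eq h1
      rw [h6]
      abel
    rw [h5]
    exact neg_mem h3

end Pool.Agent.Work.MP_8efaaa_nt.W14
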