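import Mathlib
import Pool.Agent.Work.MP_8efaaa_nt.W14.LTo
import Pool.Agent.Work.MP_8efaaa_nt.W14.LTw
import Pool.Agent.Work.MP_8efaaa_nt.W14.LEp
import Pool.Agent.Work.MP_8efaaa_nt.W14.LVx

/-!
# W14/TLo (M): the local lemma for the points of order four, `q = 7 (mod 8)`

`V 2 = 1` (`vl_odd`). `φ ζ = ζ^7`: as in LTw (`frob_it`, its header; copy the private lemma), so `φ i = -i` (`i = ζ^2`), `φ ρ = ρ` (`ρ = ζ + ζ^7`, `ρ^2 = 2`), `φ j = -j` (`j = ζ + ζ^3`, `j^2 = -2`).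
`y = qm h`, `x = qm e` with `e = 0` or `em`. `qm (h + h - e) ∈ EV V`: by `qm_mem` `h + h - e ∈ E1 V` or `h + h - e + ep ∈ E1 V`. So there is `e' ∈ {0, ep, em, ez}` with `h + h - e' ∈ E1 V` (`e' = e` or `e - ep = e + ep`; `two_ep`).
In each case there is a point `T` of `F` with `T + T = e'` and `qm (T + gal φ T) = 0`:
`e' = 0`: `T = 0`. `e' = ep`: `T = pt (1+ρ) (ρ (1+ρ))` (`W5.dbl_pt`: first coordinate `1` of `2T`, and a point with first coordinate `1` is `ep`), `gal φ T = T`, `T + gal φ T = ep`, `qm ep = 0`. `e' = em`: `T = pt (-1+ρ) (j (-1+ρ))` (`(-1+ρ)^3 - (-1+ρ) = -2 (-1+ρ)^2`), `gal φ T = -T`.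
`e' = ez`: `T = pt i (1 - i)` (`(1-i)^2 = -2 i = i^3 - i`), `gal φ T = pt (-i) (1+i) = T + em`: `T + ep = pt (-i) (-(1+i))` (slope `(1-i)/(i-1) = -1`: `x = 1 - i - 1 = -i`, `y = -(-1)(-i - 1) = -(1+i)`), and `T + em = (T + ep) + ez = -(T + ep)` because `2 (T + ep) = ez`; so `T + gal φ T = ez + em = ep`, `qm = 0`.
`u = h - T`: `u + u = h + h - e' ∈ E1 V`. `ep_cases`: `u - ε ∈ E1 V` with `ε ∈ {0, ep, em, ez}`; `gal φ ε = ε` (`gal_ep`, `gal_two`). `h + gal φ h - (T + gal φ T) - (ε + ε) = (u - ε) + gal φ (u - ε) ∈ E1 V` (`gal_e1`), `ε + ε = 0`. Apply `qm`.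
-/

set_option autoImplicit false

namespace Pool.Agent.Work.MP_8efaaa_nt.W14

open NumberField Pool.Agent.Work.MP_8efaaa_nt.R Pool.Agent.Work.MP_8efaaa_nt.N5
  Pool.Agent.Work.MP_8efaaa_nt.K6
open scoped Classical nonZeroDivisors

variable {F : Type*} [Field F] [NumberField F] {Γ : Type*} [LinearOrderedCommGroupWithZero Γ]
  {V : Valuation F Γ} {L : Ideal (𝓞 F)} {k0 : Type*} [Field k0] [Algebra k0 F]

omit [NumberField F] in
private theorem zeta_frob [CharZero F] (hV2 : V 2 = 1) {q : ℕ} (hq8 : q % 8 = 7) {ζ : F}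
    (hz : ζ ^ 4 = -1) {φ : F ≃ₐ[k0] F}
    (hφ : ∀ x : F, V x ≤ 1 → V (φ x) ≤ 1 ∧ V (φ x - x ^ q) < 1) : φ ζ = -ζ ^ 3 := by
  have hz8 : ζ ^ 8 = 1 := by linear_combination (ζ ^ 4 - 1) * hz
  have hVz4 : V ζ ^ 4 = 1 := by rw [← map_pow, hz, Valuation.map_neg, map_one]
  have hVz : V ζ = 1 := (pow_eq_one_iff_of_nonneg zero_le (by norm_num)).1 hVz4
  have hzq : ζ ^ q = -ζ ^ 3 := by
    have h1 : q = 8 * (q / 8) + 7 := by omega
    rw [h1, pow_add, pow_mul, hz8, one_pow, one_mul]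
    linear_combination ζ ^ 3 * hz
  have hd := (hφ ζ hVz.le).2
  rw [hzq] at hd
  -- `φ ζ` is one of `ζ, -ζ, ζ ^ 3, - ζ ^ 3`
  have h4 : φ ζ ^ 4 = -1 := by rw [← map_pow, hz, map_neg, map_one]
  have h5 : (φ ζ - ζ) * ((φ ζ + ζ) * ((φ ζ - ζ ^ 3) * (φ ζ + ζ ^ 3))) = 0 := by
    linear_combination h4 - hz + (φ ζ ^ 2 - ζ ^ 2) * (-ζ ^ 2) * hz
  have hV2' : ∀ n : ℕ, V (2 * ζ ^ n) = 1 := by
    intro n
    rw [map_mul, map_pow, hV2, hVz, one_pow, one_mul]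
  have no : ∀ x : F, V x < 1 → V x = 1 → False := fun x h1 h2 => (lt_irrefl _ (h2 ▸ h1))
  -- `1 ± i` has valuation one
  have h1i : V (1 - ζ ^ 2) = 1 ∧ V (1 + ζ ^ 2) = 1 := by
    have ha : V (1 - ζ ^ 2) ≤ 1 := by
      rw [sub_eq_add_neg]
      refine W5.vle V (by rw [map_one]) ?_
      rw [Valuation.map_neg, map_pow, hVz, one_pow]
    have hb : V (1 + ζ ^ 2) ≤ 1 := by
      refine W5.vle V (by rw [map_one]) ?_
      rw [map_pow, hVz, one_pow]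
    have hc : V (1 - ζ ^ 2) * V (1 + ζ ^ 2) = 1 := by
      rw [← map_mul, show (1 - ζ ^ 2) * (1 + ζ ^ 2) = 2 by linear_combination -hz, hV2]
    constructor
    · refine le_antisymm ha ?_
      rw [← hc]
      exact mul_le_of_le_one_right' hb
    · refine le_antisymm hb ?_
      rw [← hc]
      exact mul_le_of_le_one_left' ha
  rcases mul_eq_zero.1 h5 with h6 | h6
  · exfalso
    refine no _ hd ?_
    rw [sub_eq_zero.1 h6, show ζ - -ζ ^ 3 = ζ * (1 + ζ ^ 2) by ring, map_mul, hVz, h1i.2, one_mul]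
  rcases mul_eq_zero.1 h6 with h6 | h6
  · exfalso
    refine no _ hd ?_
    rw [eq_neg_of_add_eq_zero_left h6, show -ζ - -ζ ^ 3 = -(ζ * (1 - ζ ^ 2)) by ring,
      Valuation.map_neg, map_mul, hVz, h1i.1, one_mul]
  rcases mul_eq_zero.1 h6 with h6 | h6
  · exfalso
    refine no _ hd ?_
    rw [sub_eq_zero.1 h6, show ζ ^ 3 - -ζ ^ 3 = 2 * ζ ^ 3 by ring]
    exact hV2' 3
  · exact eq_neg_of_add_eq_zero_left h6

omit [NumberField F] in
private theorem pt_one_eq [CharZero F] {x y : F} (h : y ^ 2 = x ^ 3 - x) :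
    (x = 1 → pt x y h = ep F) ∧ (x = -1 → pt x y h = em F) ∧ (x = 0 → pt x y h = ez F) := by
  have key : x ^ 3 - x = 0 → y = 0 := by
    intro h1
    rw [h1] at h
    exact pow_eq_zero_iff two_ne_zero |>.1 h
  refine ⟨?_, ?_, ?_⟩
  · rintro rfl
    unfold ep
    rw [pt_inj]
    exact ⟨rfl, key (by norm_num)⟩
  · rintro rfl
    unfold em
    rw [pt_inj]
    exact ⟨rfl, key (by norm_num)⟩
  · rintro rfl
    unfold ez
    rw [pt_inj]
    exact ⟨rfl, key (by norm_num)⟩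

omit [NumberField F] in
private theorem half_pt [CharZero F] {ζ : F} (hz : ζ ^ 4 = -1) {φ : F ≃ₐ[k0] F}
    (hφ : φ ζ = -ζ ^ 3) {e : (cQ F).Point} (he : e = 0 ∨ e = ep F ∨ e = em F ∨ e = ez F) :
    ∃ T : (cQ F).Point, T + T = e ∧ qm (T + gal φ T) = 0 := by
  obtain ⟨ρ, hρ⟩ : ∃ ρ : F, ρ = ζ - ζ ^ 3 := ⟨_, rfl⟩
  obtain ⟨j, hj⟩ : ∃ j : F, j = ζ + ζ ^ 3 := ⟨_, rfl⟩
  have hρ2 : ρ ^ 2 = 2 := by rw [hρ]; linear_combination (ζ ^ 2 - 2) * hz
  have hj2 : j ^ 2 = -2 := by rw [hj]; linear_combination (ζ ^ 2 + 2) * hz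
  have hφρ : φ ρ = ρ := by
    rw [hρ, map_sub, map_pow, hφ]
    linear_combination (ζ ^ 5 - ζ) * hz
  have hφj : φ j = -j := by
    rw [hj, map_add, map_pow, hφ]
    linear_combination (-ζ ^ 5 + ζ) * hz
  have hφi : φ (ζ ^ 2) = -ζ ^ 2 := by
    rw [map_pow, hφ]
    linear_combination ζ ^ 2 * hz
  have hρ1 : 1 + ρ ≠ 0 := by
    intro h0
    have h1 : (1 : F) = 0 := by linear_combination -hρ2 - (1 - ρ) * h0
    exact one_ne_zero h1
  have hρ1' : -1 + ρ ≠ 0 := by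
    intro h0
    have h1 : (1 : F) = 0 := by linear_combination -hρ2 + (1 + ρ) * h0
    exact one_ne_zero h1
  have hρ0 : ρ ≠ 0 := by
    intro h0
    rw [h0] at hρ2
    norm_num at hρ2
  have hj0 : j ≠ 0 := by
    intro h0
    rw [h0] at hj2
    norm_num at hj2
  have two0 : (2 : F) ≠ 0 := two_ne_zero
  rcases he with rfl | rfl | rfl | rfl
  · refine ⟨0, add_zero 0, ?_⟩
    rw [map_zero, add_zero, map_zero]
  · have hxy : (ρ * (1 + ρ)) ^ 2 = (1 + ρ) ^ 3 - (1 + ρ) := by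
      linear_combination (1 + ρ) * ρ * hρ2
    have hy : ρ * (1 + ρ) ≠ 0 := mul_ne_zero hρ0 hρ1
    obtain ⟨x3, y3, h3, e3, h5⟩ := W5.dbl_pt hxy hy
    have hx3 : x3 = 1 := by
      have h6 : (x3 - 1) * (2 * (ρ * (1 + ρ))) ^ 2 = 0 := by
        linear_combination h5 - (3 * ρ ^ 2 + 4 * ρ + 2) * hρ2
      exact sub_eq_zero.1 ((mul_eq_zero.1 h6).resolve_right (pow_ne_zero 2 (mul_ne_zero two0 hy)))
    have hTT : pt (1 + ρ) (ρ * (1 + ρ)) hxy + pt (1 + ρ) (ρ * (1 + ρ)) hxy = ep F := by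
      rw [e3]
      exact (pt_one_eq h3).1 hx3
    have hg : gal φ (pt (1 + ρ) (ρ * (1 + ρ)) hxy) = pt (1 + ρ) (ρ * (1 + ρ)) hxy := by
      rw [gal_pt, pt_inj, map_mul, map_add, map_one, hφρ]
      exact ⟨rfl, rfl⟩
    refine ⟨_, hTT, ?_⟩
    rw [hg, hTT]
    exact qm_ep.1
  · have hxy : (j * (-1 + ρ)) ^ 2 = (-1 + ρ) ^ 3 - (-1 + ρ) := by
      linear_combination (-1 + ρ) ^ 2 * hj2 - (-1 + ρ) * hρ2
    have hy : j * (-1 + ρ) ≠ 0 := mul_ne_zero hj0 hρ1'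
    obtain ⟨x3, y3, h3, e3, h5⟩ := W5.dbl_pt hxy hy
    have hx3 : x3 = -1 := by
      have h6 : (x3 + 1) * (2 * (j * (-1 + ρ))) ^ 2 = 0 := by
        linear_combination h5 + 4 * (-1 + ρ) ^ 2 * hj2 + (ρ ^ 2 - 4 * ρ + 2) * hρ2
      exact eq_neg_of_add_eq_zero_left
        ((mul_eq_zero.1 h6).resolve_right (pow_ne_zero 2 (mul_ne_zero two0 hy)))
    have hTT : pt (-1 + ρ) (j * (-1 + ρ)) hxy + pt (-1 + ρ) (j * (-1 + ρ)) hxy = em F := by
      rw [e3]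
      exact (pt_one_eq h3).2.1 hx3
    have hg : gal φ (pt (-1 + ρ) (j * (-1 + ρ)) hxy) = -pt (-1 + ρ) (j * (-1 + ρ)) hxy := by
      rw [gal_pt, W5.neg_pt, pt_inj, map_mul, map_add, map_neg, map_one, hφρ, hφj]
      exact ⟨rfl, by ring⟩
    refine ⟨_, hTT, ?_⟩
    rw [hg, add_neg_cancel, map_zero]
  · have hi2 : (ζ ^ 2) ^ 2 = -1 := by rw [← pow_mul]; exact hz
    generalize ζ ^ 2 = i at hi2 hφi
    have hxy : (1 - i) ^ 2 = i ^ 3 - i := by
      linear_combination (1 - i) * hi2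
    have hi0 : i ≠ 0 := by
      intro h0
      rw [h0] at hi2
      norm_num at hi2
    have hy : 1 - i ≠ 0 := by
      intro h0
      have h1 : (2 : F) = 0 := by linear_combination (1 + i) * h0 + hi2
      exact two0 h1
    obtain ⟨x3, y3, h3, e3, h5⟩ := W5.dbl_pt hxy hy
    have hx3 : x3 = 0 := by
      have h6 : x3 * (2 * (1 - i)) ^ 2 = 0 := by
        rw [h5, hi2]
        ring
      exact (mul_eq_zero.1 h6).resolve_right (pow_ne_zero 2 (mul_ne_zero two0 hy))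
    have hTT : pt i (1 - i) hxy + pt i (1 - i) hxy = ez F := by
      rw [e3]
      exact (pt_one_eq h3).2.2 hx3
    refine ⟨_, hTT, ?_⟩
    have hxy' : (1 + i) ^ 2 = (-i) ^ 3 - (-i) := by
      linear_combination (1 + i) * hi2
    have hg : gal φ (pt i (1 - i) hxy) = pt (-i) (1 + i) hxy' := by
      rw [gal_pt, pt_inj, map_sub, map_one, hφi]
      exact ⟨rfl, by ring⟩
    obtain ⟨x4, y4, h4, e4, h7⟩ := W5.add_pt hxy hxy' (by
      intro h0
      have h1 : 2 * i = 0 := by linear_combination h0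
      exact mul_ne_zero two0 hi0 h1)
    have hx4 : x4 = 1 := by
      have h8 : (x4 - 1) * 4 = 0 := by linear_combination -h7 + (4 * x4 - 4) * hi2
      exact sub_eq_zero.1 ((mul_eq_zero.1 h8).resolve_right (by norm_num))
    rw [hg, e4, (pt_one_eq h4).1 hx4]
    exact qm_ep.1

theorem loc0 (hV : VL V L) {q : ℕ} (hq : q.Prime) (hq8 : q % 8 = 7) (hqL : (q : 𝓞 F) ∈ L)
    {ζ : F} (hz : ζ ^ 4 = -1) {φ : F ≃ₐ[k0] F}
    (hφ : ∀ x : F, V x ≤ 1 → V (φ x) ≤ 1 ∧ V (φ x - x ^ q) < 1)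
    (hφ' : ∀ x : F, 1 < V x → 1 < V (φ x)) {x y : QA F} (hx : x = 0 ∨ x = m1 F)
    (hy : y + y - x ∈ EV V) : y + galA φ y ∈ EV V := by
  have hV2 : V 2 = 1 := (vl_odd hV hq (by omega) hqL).2.1
  have hφz := zeta_frob hV2 hq8 hz hφ
  obtain ⟨h1, h2, h3, h4, h5, h6⟩ := two_ep (F := F)
  obtain ⟨h, rfl⟩ := QuotientAddGroup.mk'_surjective (AddSubgroup.zmultiples (ep F)) y
  change qm h + galA φ (qm h) ∈ EV V
  change qm h + qm h - x ∈ EV V at hy
  -- the point `e'`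
  have he : ∃ e : (cQ F).Point, (e = 0 ∨ e = ep F ∨ e = em F ∨ e = ez F) ∧
      h + h - e ∈ W5.E1 V := by
    rcases hx with rfl | rfl
    · rw [sub_zero, ← map_add, qm_mem] at hy
      rcases hy with hy | hy
      · exact ⟨0, Or.inl rfl, by rw [sub_zero]; exact hy⟩
      · refine ⟨ep F, Or.inr (Or.inl rfl), ?_⟩
        rw [sub_eq_add_neg, ← eq_neg_of_add_eq_zero_left h1]
        exact hy
    · have hy' : qm (h + h - em F) ∈ EV V := by
        rw [map_sub, map_add]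
        exact hy
      rw [qm_mem] at hy'
      rcases hy' with hy' | hy'
      · exact ⟨em F, Or.inr (Or.inr (Or.inl rfl)), hy'⟩
      · refine ⟨ez F, Or.inr (Or.inr (Or.inr rfl)), ?_⟩
        have e1 : h + h - ez F = h + h - em F + ep F := by
          rw [← h4, ← sub_eq_zero]
          have e2 : h + h - (ep F + em F) - (h + h - em F + ep F) = -(ep F + ep F) := by abel
          rw [e2, h1, neg_zero]
        rw [e1]
        exact hy'
  obtain ⟨e, he1, he2⟩ := he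
  obtain ⟨T, hT1, hT2⟩ := half_pt hz hφz he1
  have hu : (h - T) + (h - T) ∈ W5.E1 V := by
    have e1 : (h - T) + (h - T) = h + h - (T + T) := by abel
    rw [e1, hT1]
    exact he2
  have hε : ∃ ε : (cQ F).Point, gal φ ε = ε ∧ ε + ε = 0 ∧ h - T - ε ∈ W5.E1 V := by
    rcases ep_cases hV2 hu with h7 | h7 | h7 | h7
    · exact ⟨0, map_zero _, add_zero _, by rw [sub_zero]; exact h7⟩
    · exact ⟨ep F, gal_ep φ, h1, h7⟩
    · exact ⟨em F, (gal_two φ).1, h2, h7⟩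
    · exact ⟨ez F, (gal_two φ).2.1, h3, h7⟩
  obtain ⟨ε, hε1, hε2, hε3⟩ := hε
  have h8 := (W5.E1 V).add_mem hε3 (gal_e1 hφ' hε3)
  have h9 : h - T - ε + gal φ (h - T - ε) = h + gal φ h - (T + gal φ T) - (ε + ε) := by
    rw [map_sub, map_sub, hε1]
    abel
  rw [h9, hε2, sub_zero] at h8
  have h10 : qm h + galA φ (qm h) = qm (h + gal φ h - (T + gal φ T)) := by
    rw [map_sub, hT2, sub_zero, map_add, galA_qm]
  rw [h10]
  exact AddSubgroup.mem_map_of_mem _ h8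

end Pool.Agent.Work.MP_8efaaa_nt.W14
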