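import Mathlib
import Pool.Agent.Work.MP_8efaaa_nt.W14.PFd
import Pool.Agent.Work.MP_8efaaa_nt.W14.LPt
import Pool.Agent.Work.MP_8efaaa_nt.W14.TLo
import Pool.Agent.Work.MP_8efaaa_nt.W14.CCh

/-!
# W14/TQs (M): the relations at a prime `l = 7 (mod 8)`, general `a = 14 (mod 16)`

`P = PA z k v`, `hF = exists_fd`. `exists_prime6` (K6/DIn.lean): `L` with `l ∈ L`, `exists_vl`: `V`, `El = EV V`, `m1_nmem`. `exists_inert6`: `ι`; `K6.inert_act6` (NOT pp_inert: also the second symbol is needed): `b` with `N b = 7 (mod 8)`, prime to `a`, `jacobiSym l (N b) = -1` (`l ∣ l`),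
`ι (z c) = z (b * cj τ c)` etc., so (as in the proof of `pp_inert`, LPt) `PP (b * cj τ c) - PP c ∈ E1 V` (`gal_pp`, `vl_red` with `n = 1`, `W5.sub_mem`, `pp_val`). Quadratic reciprocity (`l`, `N b = 3 (mod 4)`): `jacobiSym (N b) l = 1`.
`w1 = (1 + S) b`: norm `(1 + a) N b = 1 (mod 8)`, `cls w1 = cls b`. Relation: `FD.tq` with `1 + S` and `b * cj τ c`: `Tl = P (1+S) + P 1 + m1` (as in DIp). FROBENIUS: `pp_frob` for `V`, `L`, `l`: `φ0`; `FD.tq` for `1 + S` and `r6 S l * c`: `Tf = P (1+S) + P 1 + m1` (as in DIq). LOCAL: `loc0`.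
-/

set_option autoImplicit false

namespace Pool.Agent.Work.MP_8efaaa_nt.W14

open NumberField Pool.Agent.Work.MP_8efaaa_nt.R Pool.Agent.Work.MP_8efaaa_nt.N5
  Pool.Agent.Work.MP_8efaaa_nt.K6
open scoped Classical nonZeroDivisors

theorem l_side {K : Type*} {F : Type*} [Field K] [NumberField K] [Field F] [NumberField F]
    [Algebra K F] [IsGalois K F] [IsGalois ℚ F] {a l : ℕ} {s : K} {S : 𝓞 K}
    {τ : 𝓞 K ≃+* 𝓞 K} {ζ : F} {w : ℕ → F} {z k v : Ideal (𝓞 K) → F} {κ : F ≃ₐ[ℚ] F}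
    (hl : l.Prime) (hl8 : l % 8 = 7) (hla : l ∣ a) (hb : B6 K a s) (ha : a % 16 = 14)
    (hS : algebraMap (𝓞 K) K S = s) (hτ : τ S = -S) (hU : UD6 K F a s S τ ζ w z k v κ) :
    ∃ (El : AddSubgroup (QA F)) (φ : QA F →+ QA F) (Tl Tf : QA F) (w1 : M13 K)
      (b : Ideal (𝓞 K)), m1 F ∉ El ∧ Ideal.absNorm (w1 : Ideal (𝓞 K)) % 8 = 1 ∧
      cls b = cls (w1 : Ideal (𝓞 K)) ∧ Ideal.absNorm b % 8 = 7 ∧
      jacobiSym (Ideal.absNorm b) l = 1 ∧
      (∀ c, OddI c → PA z k v ((w1 : Ideal (𝓞 K)) * cj τ c) + PA z k v c - Tl -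
        d4 F (Ideal.absNorm c) ∈ El) ∧
      (∀ c, OddI c → PA z k v (Ideal.span {1 + S} * r6 S l * c) + φ (PA z k v c) - Tf -
        d4 F (Ideal.absNorm c) ∈ El) ∧
      ∀ x y : QA F, (x = 0 ∨ x = m1 F) → y + y - x ∈ El → y + φ y ∈ El := by
  have hl2 : l ≠ 2 := by
    rintro rfl
    omega
  obtain ⟨L, hL, hlL⟩ := exists_prime6 (F := F) hl
  obtain ⟨Γ, iΓ, V, hV⟩ := exists_vl hL
  obtain ⟨ι, hin, hι⟩ := exists_inert6 hb hl hl2 hla hV.prime hlL
  obtain ⟨b, hb7, hbc, -, hbj, hact⟩ := inert_act6 hb hS hτ hU hl hl2 hla hlL hin hι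
  obtain ⟨h2L, hV2, -⟩ := vl_odd hV hl hl2 hlL
  have hbP : ∀ c, OddI c → PP z k v (b * cj τ c) - PP z k v c ∈ W5.E1 V := by
    intro c hc
    obtain ⟨e1, e2, e3⟩ := hact c hc
    have hg : gal ι (PP z k v c) = PP z k v (b * cj τ c) := gal_pp ι e1 e2 e3
    obtain ⟨x, y, h, e, hVx, hVy⟩ := pp_val hU hV h2L hc
    have hred := vl_red hV (σ := ι) (n := 1) (fun t => by
      obtain ⟨u, hu, hu2⟩ := hin.triv t
      exact ⟨u, hu, by rw [hu2, pow_one]⟩)
    rw [← hg, e, gal_pt]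
    have hx1 := (hred x hVx).2
    have hy1 := (hred y hVy).2
    rw [pow_one] at hx1 hy1
    exact W5.sub_mem hV2 hVx hx1 hy1
  obtain ⟨φ, hφ1, hφ2, hφP⟩ := pp_frob hb hS hU hV hl hl2 hla hlL
  have hFD := exists_fd hb hS hU
  have hm1 : m1 F + m1 F = 0 := (qm_ep (F := F)).2.2.2.1
  have hg7 : Ideal.absNorm (Ideal.span {1 + S}) % 8 = 7 := by
    rw [norm_g hb hS]
    omega
  have hw1 : Ideal.absNorm (Ideal.span {1 + S} * b) % 8 = 1 := by
    rw [map_mul, Nat.mul_mod, hg7, hb7]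
  have hS0 : (1 + S : 𝓞 K) ≠ 0 := by
    intro h
    have h1 := norm_g hb hS
    rw [h, Ideal.span_singleton_zero, Ideal.absNorm_bot] at h1
    omega
  have hb0 : b ≠ 0 := by
    rintro rfl
    rw [map_zero] at hb7
    omega
  have hs0 : (Ideal.span {1 + S} : Ideal (𝓞 K)) ≠ 0 := by
    intro h2
    exact hS0 (Ideal.span_singleton_eq_bot.1 h2)
  have hd4 : ∀ n m : ℕ, n % 4 = 3 → Odd m → d4 F (n * m) = d4 F m + m1 F := by
    intro n m hn hm
    have h4 : m % 4 = 1 ∨ m % 4 = 3 := by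
      rw [Nat.odd_iff] at hm
      omega
    unfold d4
    rcases h4 with h4 | h4
    · have h5 : (n * m) % 4 = 3 := by
        rw [Nat.mul_mod, hn, h4]
      rw [if_neg (by omega), if_pos h4, zero_add]
    · have h5 : (n * m) % 4 = 1 := by
        rw [Nat.mul_mod, hn, h4]
      rw [if_pos h5, if_neg (by omega), hm1]
  refine ⟨EV V, galA φ, PA z k v (Ideal.span {1 + S}) + PA z k v 1 + m1 F,
    PA z k v (Ideal.span {1 + S}) + PA z k v 1 + m1 F,
    ⟨Ideal.span {1 + S} * b, Or.inl hw1⟩, b, m1_nmem, hw1, ?_, hb7, ?_, ?_, ?_, ?_⟩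
  · show cls b = cls (Ideal.span {1 + S} * b)
    rw [cls_mul hs0 hb0, cls_span hS0, one_mul]
  · have h7 := hbj l hla dvd_rfl
    have h8 := jacobiSym.quadratic_reciprocity_three_mod_four (a := l)
      (b := Ideal.absNorm b) (by omega) (by omega)
    rw [h7] at h8
    linarith
  · intro c hco
    have hcj : Ideal.absNorm (cj τ c) = Ideal.absNorm c := (norm_cj6 hb hS hτ c).1
    have hn : Ideal.absNorm (b * cj τ c) = Ideal.absNorm b * Ideal.absNorm c := by
      rw [map_mul, hcj]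
    have hbo : OddI (b * cj τ c) := by
      have h1 : Odd (Ideal.absNorm c) := hco
      have h2 : Odd (Ideal.absNorm b) := by
        rw [Nat.odd_iff]
        omega
      show Odd (Ideal.absNorm (b * cj τ c))
      rw [hn]
      exact h2.mul h1
    have h1 := hFD.tq (1 + S) hg7 (b * cj τ c) hbo
    rw [hn, hd4 _ _ (by omega) hco] at h1
    have h3 : PA z k v (b * cj τ c) - PA z k v c ∈ EV V := by
      refine ⟨PP z k v (b * cj τ c) - PP z k v c, hbP c hco, ?_⟩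
      rw [map_sub]
      rfl
    have h4 : ((⟨Ideal.span {1 + S} * b, Or.inl hw1⟩ : M13 K) : Ideal (𝓞 K)) * cj τ c =
        Ideal.span {1 + S} * (b * cj τ c) := mul_assoc _ _ _
    rw [h4]
    have h5 : PA z k v (Ideal.span {1 + S} * (b * cj τ c)) + PA z k v c -
        (PA z k v (Ideal.span {1 + S}) + PA z k v 1 + m1 F) - d4 F (Ideal.absNorm c) =
        -(PA z k v (b * cj τ c) - PA z k v c) := by
      have h6 : PA z k v (Ideal.span {1 + S} * (b * cj τ c)) =
          PA z k v (Ideal.span {1 + S}) + PA z k v 1 + (d4 F (Ideal.absNorm c) + m1 F) -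
            PA z k v (b * cj τ c) := eq_sub_of_add_eq h1
      rw [h6]
      abel
    rw [h5]
    exact neg_mem h3
  · intro c hco
    have hn : Ideal.absNorm (r6 S l * c) = l * Ideal.absNorm c := by
      rw [map_mul, norm_r6 hb hS hla]
    have hro : OddI (r6 S l * c) := by
      have h1 : Odd (Ideal.absNorm c) := hco
      show Odd (Ideal.absNorm (r6 S l * c))
      rw [hn]
      exact (hl.odd_of_ne_two hl2).mul h1
    have h1 := hFD.tq (1 + S) hg7 (r6 S l * c) hro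
    rw [hn, hd4 _ _ (by omega) hco] at h1
    have h3 : PA z k v (r6 S l * c) - galA φ (PA z k v c) ∈ EV V := by
      refine ⟨PP z k v (r6 S l * c) - gal φ (PP z k v c), hφP c hco, ?_⟩
      rw [map_sub]
      rfl
    rw [mul_assoc]
    have h5 : PA z k v (Ideal.span {1 + S} * (r6 S l * c)) + galA φ (PA z k v c) -
        (PA z k v (Ideal.span {1 + S}) + PA z k v 1 + m1 F) - d4 F (Ideal.absNorm c) =
        -(PA z k v (r6 S l * c) - galA φ (PA z k v c)) := by
      have h6 : PA z k v (Ideal.span {1 + S} * (r6 S l * c)) =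
          PA z k v (Ideal.span {1 + S}) + PA z k v 1 + (d4 F (Ideal.absNorm c) + m1 F) -
            PA z k v (r6 S l * c) := eq_sub_of_add_eq h1
      rw [h6]
      abel
    rw [h5]
    exact neg_mem h3
  · intro x y hx hy
    exact loc0 hV hl hl8 hlL hU.z8 hφ1 hφ2 hx hy

end Pool.Agent.Work.MP_8efaaa_nt.W14
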