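import Mathlib
import Pool.Agent.Work.MP_8efaaa_nt.K6.CDt
import Pool.Agent.Work.MP_8efaaa_nt.W14.TAb
import Pool.Agent.Work.MP_8efaaa_nt.W14.DAd
import Pool.Agent.Work.MP_8efaaa_nt.W14.DEx
import Pool.Agent.Work.MP_8efaaa_nt.W14.TPs
import Pool.Agent.Work.MP_8efaaa_nt.W14.TQs
import Pool.Agent.Work.MP_8efaaa_nt.W14.TGe
import Pool.Agent.Work.MP_8efaaa_nt.W14.TGr
import Pool.Agent.Work.MP_8efaaa_nt.W14.DYt

/-!
# W14/TMn: the theorem for three primes
-/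

set_option autoImplicit false

namespace Pool.Agent.Work.MP_8efaaa_nt.W14

open NumberField Pool.Agent.Work.MP_8efaaa_nt.R Pool.Agent.Work.MP_8efaaa_nt.N5
  Pool.Agent.Work.MP_8efaaa_nt.K6
open scoped Classical nonZeroDivisors

private theorem sqf3 {r1 r2 l : ℕ} (h1 : r1.Prime) (h2 : r2.Prime) (hl : l.Prime)
    (h12 : r1 ≠ r2) (h8 : (r1 % 8 = 3 ∧ r2 % 8 = 3) ∨ (r1 % 8 = 5 ∧ r2 % 8 = 5))
    (hl8 : l % 8 = 7) : Squarefree (2 * r1 * r2 * l) := by
  have c1 : Nat.Coprime 2 r1 := (Nat.coprime_primes Nat.prime_two h1).2 (by omega)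
  have c2 : Nat.Coprime 2 r2 := (Nat.coprime_primes Nat.prime_two h2).2 (by omega)
  have c3 : Nat.Coprime 2 l := (Nat.coprime_primes Nat.prime_two hl).2 (by omega)
  have c4 : Nat.Coprime r1 r2 := (Nat.coprime_primes h1 h2).2 h12
  have c5 : Nat.Coprime r1 l := (Nat.coprime_primes h1 hl).2 (by omega)
  have c6 : Nat.Coprime r2 l := (Nat.coprime_primes h2 hl).2 (by omega)
  rw [Nat.squarefree_mul (Nat.Coprime.mul_left (Nat.Coprime.mul_left c3 c5) c6),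
    Nat.squarefree_mul (Nat.Coprime.mul_left c2 c4), Nat.squarefree_mul c1]
  exact ⟨⟨⟨Nat.prime_two.squarefree, h1.squarefree⟩, h2.squarefree⟩, hl.squarefree⟩

private theorem mod83 {r1 r2 l : ℕ}
    (h8 : (r1 % 8 = 3 ∧ r2 % 8 = 3) ∨ (r1 % 8 = 5 ∧ r2 % 8 = 5)) (hl8 : l % 8 = 7) :
    (2 * r1 * r2 * l) % 16 = 14 := by
  have h1 : (r1 * r2 * l) % 8 = 7 := by
    rw [Nat.mul_mod (r1 * r2), Nat.mul_mod r1, hl8]
    rcases h8 with ⟨e1, e2⟩ | ⟨e1, e2⟩ <;> rw [e1, e2]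
  have h2 : 2 * r1 * r2 * l = 2 * (r1 * r2 * l) := by ring
  omega

private theorem four_typ {F : Type*} [Field F] [CharZero F] {x : QA F}
    (h : x = 0 ∨ x = m1 F ∨ IT x) : (4 : ℤ) • x = 0 := by
  have two := (qm_ep (F := F)).2.2.2.1
  rcases h with h | h | h
  · rw [h, smul_zero]
  · rw [h, show (4 : ℤ) = 2 + 2 by norm_num, add_smul, two_zsmul, two, add_zero]
  · have h2 := (it_facts h).2.2
    rw [show (4 : ℤ) = 2 + 2 by norm_num, add_smul, two_zsmul, h2, two]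

theorem main_three {r1 r2 l : ℕ} (h1 : r1.Prime) (h2 : r2.Prime) (hl : l.Prime)
    (h12 : r1 ≠ r2) (h8 : (r1 % 8 = 3 ∧ r2 % 8 = 3) ∨ (r1 % 8 = 5 ∧ r2 % 8 = 5))
    (hl8 : l % 8 = 7) : IsCongruent (2 * r1 * r2 * l) := by
  by_contra hnc
  have hsf := sqf3 h1 h2 hl h12 h8 hl8
  have ha := mod83 h8 hl8
  have hr2 : r1 ≠ 2 := by omega
  have hrl : r1 ≠ l := by omega
  have hra : r1 ∣ 2 * r1 * r2 * l := ⟨2 * r2 * l, by ring⟩
  have hla : l ∣ 2 * r1 * r2 * l := dvd_mul_left _ _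
  obtain ⟨K, _, _, s, hb⟩ := exists_base6 hsf (a := 2 * r1 * r2 * l) (by omega)
  obtain ⟨S, hS, -, -⟩ := exists_S6 hb
  obtain ⟨τ, hτ⟩ := exists_tau6 hb hS
  obtain ⟨F, _, _, _, _, _, _, ζ, w, z, k, v, κ, hU⟩ := exists_ud6 hb hS hτ
  have hF : FD (2 * r1 * r2 * l) S (PA z k v) := exists_fd hb hS hU
  obtain ⟨H, z0, z1, hi, hH, hz0, hz1, hz0H, hz01, hz1H, hG⟩ :=
    exists_grp3 h1 h2 hl h12 h8 hl8 hb hS hτ
  obtain ⟨bar, hbar, hAD, htyp, -⟩ := exists_ad hb hS hτ ha hF hi hH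
  obtain ⟨⟨b1, hb1, hj1⟩, Ep, w0, Tp, hEp, hw0, hwn, hrp⟩ :=
    p_side3 h1 hl hr2 hl8 hra hla hrl hb ha hS hτ hU
  obtain ⟨El, φ, Tl, Tf, w1, b, hm, hw1, hbw, hbN, hbj, hrl', hrf, hloc⟩ :=
    l_side hl hl8 hla hb ha hS hτ hU
  have : Fintype (CG S) := Fintype.ofFinite _
  have two := (qm_ep (F := F)).2.2.2.1
  have hz1N : Ideal.absNorm (z1 : Ideal (𝓞 K)) % 8 = 3 := by
    rcases z1.2 with h | h
    · exact absurd ((hH z1).2 h) hz1H
    · exact h
  obtain ⟨C, hC⟩ := genus_cg hb hS hτ ha hl hl8 hla (e0 := clM S z0) (e1 := clM S z1)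
    (fun g hg => (hG g).1 hg) hz1N hb1 hj1 (Or.inr hbN) hbj
  obtain ⟨g0, hg0⟩ : ∃ g0 : CG S, g0 * g0 = clM S w1 := by
    have hsq := (cls_two hb hS).1
    refine ⟨QuotientGroup.mk C, ?_⟩
    show (QuotientGroup.mk (C * C) : CG S) = QuotientGroup.mk (cls (w1 : Ideal (𝓞 K)))
    rw [← hbw, QuotientGroup.eq]
    rcases hC with hC | hC
    · rw [hC, inv_mul_cancel]
      exact Subgroup.one_mem _
    · have h3 : (C * C)⁻¹ * cls b = cls (r6 S 2) := by
        rw [hC]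
        rw [mul_comm (cls (r6 S 2)), inv_mul_cancel_left]
      rw [h3]
      exact Subgroup.mem_zpowers _
  have hd4 : ∀ c : M13 K, d4 F (Ideal.absNorm (c : Ideal (𝓞 K))) =
      if clM S c ∈ H then 0 else m1 F := by
    intro c
    unfold d4
    rcases c.2 with h | h
    · rw [if_pos (by omega), if_pos ((hH c).2 h)]
    · rw [if_neg (by omega), if_neg]
      rw [hH c]
      omega
  have hg := norm_g hb hS
  have hg7 : Ideal.absNorm (Ideal.span {1 + S}) % 8 = 7 := by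
    rw [hg]
    omega
  have ho1 : OddI (1 : Ideal (𝓞 K)) := by
    unfold OddI
    rw [map_one]
    exact odd_one
  refine abs_three (M := M13 K) (A := QA F) (G := CG S) (H := H)
    (P := fun c : M13 K => PA z k v (c : Ideal (𝓞 K))) (cl := clM S) (bar := bar) (m := m1 F)
    hAD (Ep := Ep) (El := El) (φ := φ) (w := w0) (w' := w1) (z0 := z0) (z1 := z1) (Tp := Tp)
    (Tl := Tl) (Tf := Tf) ?_ ((hH w0).2 hw0) hwn hEp ?_ ((hH w1).2 hw1) hg0
    ?_ hz0H hz01 hz1H hG ?_ (fun b c h => four_typ (htyp b c h)) hm hloc ?_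
  · intro c
    have h1 := hrp c c.2
    rw [hd4] at h1
    show PA z k v ((w0 : Ideal (𝓞 K)) * (bar c : Ideal (𝓞 K))) + _ - _ - _ ∈ Ep
    rw [hbar]
    exact h1
  · intro c
    have h1 := hrl' c (M13.odd c.2)
    rw [hd4] at h1
    show PA z k v ((w1 : Ideal (𝓞 K)) * (bar c : Ideal (𝓞 K))) + _ - _ - _ ∈ El
    rw [hbar]
    exact h1
  · intro c
    have h1 := hrf c (M13.odd c.2)
    rw [hd4] at h1
    show PA z k v ((z0 : Ideal (𝓞 K)) * (c : Ideal (𝓞 K))) + _ - _ - _ ∈ El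
    rw [hz0]
    exact h1
  · show PA z k v ((z1 : Ideal (𝓞 K)) * (z1 : Ideal (𝓞 K))) - PA z k v 1 = 0 ∨
      PA z k v ((z1 : Ideal (𝓞 K)) * (z1 : Ideal (𝓞 K))) - PA z k v 1 = m1 F
    have hro : Odd r1 := Nat.odd_iff.2 (by omega)
    have t3 := hF.nat r1 hro 1 ho1
    rw [mul_one] at t3
    have d3 : d8 F r1 = m1 F := by
      unfold d8
      rw [if_neg]
      omega
    rw [d3] at t3
    have hr8 : r1 % 8 = 3 ∨ r1 % 8 = 5 := by omega
    rcases hr8 with hr8 | hr8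
    · right
      rw [hz1, if_pos hr8, r6_sq hb hS hra, t3]
      abel
    · left
      have e1 : (z1 : Ideal (𝓞 K)) * (z1 : Ideal (𝓞 K)) =
          Ideal.span {1 + S} * (Ideal.span {1 + S} * Ideal.span {(r1 : 𝓞 K)}) := by
        rw [hz1, if_neg (by omega), ← r6_sq hb hS hra]
        ring
      have hNq : Ideal.absNorm (Ideal.span {(r1 : 𝓞 K)}) = r1 * r1 := by
        rw [← r6_sq hb hS hra, map_mul, norm_r6 hb hS hra]
      have hq1 : r1 * r1 % 8 = 1 := by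
        rw [Nat.mul_mod, hr8]
      have ho2 : OddI (Ideal.span {(r1 : 𝓞 K)}) := by
        unfold OddI
        rw [hNq, Nat.odd_iff]
        omega
      have hN2 : Ideal.absNorm (Ideal.span {1 + S} * Ideal.span {(r1 : 𝓞 K)}) % 8 = 7 := by
        rw [map_mul, Nat.mul_mod, hg7, hNq, hq1]
      have ho3 : OddI (Ideal.span {1 + S} * Ideal.span {(r1 : 𝓞 K)}) := by
        unfold OddI
        rw [Nat.odd_iff]
        omega
      have t1 := hF.tq (1 + S) hg7 _ ho3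
      have t2 := hF.tq (1 + S) hg7 _ ho2
      have d1 : d4 F (Ideal.absNorm (Ideal.span {1 + S} * Ideal.span {(r1 : 𝓞 K)})) = m1 F := by
        unfold d4
        rw [if_neg]
        omega
      have d2 : d4 F (Ideal.absNorm (Ideal.span {(r1 : 𝓞 K)})) = 0 := by
        unfold d4
        rw [if_pos]
        rw [hNq]
        omega
      rw [d1] at t1
      rw [d2, add_zero] at t2
      rw [e1]
      rw [t3] at t2
      have t4 : PA z k v (Ideal.span {1 + S} * (Ideal.span {1 + S} * Ideal.span {(r1 : 𝓞 K)})) =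
          PA z k v (Ideal.span {1 + S}) + PA z k v 1 + m1 F -
            PA z k v (Ideal.span {1 + S} * Ideal.span {(r1 : 𝓞 K)}) := by
        rw [← t1]
        abel
      rw [t4, ← t2]
      have e3 : PA z k v (Ideal.span {1 + S} * Ideal.span {(r1 : 𝓞 K)}) +
          (PA z k v 1 + m1 F) + m1 F -
          PA z k v (Ideal.span {1 + S} * Ideal.span {(r1 : 𝓞 K)}) - PA z k v 1 =
          m1 F + m1 F := by abel
      rw [e3, two]
  · intro r hr
    exact y_tor hb hS hτ ha hU hnc hi hH r hr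

end Pool.Agent.Work.MP_8efaaa_nt.W14
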